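import Pool.Agent.Lib.MP_89da58_nt.Defs

set_option autoImplicit false

/-!
The weighted prime sums with a weight supported in a short logarithmic window.
-/

namespace Pool.Agent.BVall

open ArithmeticFunction
open Pool.Agent.MP89da58 (tri cX)

/-- The weight `OmL lam X n = (X/n)^c * tri (lam * log (n/X))`, which vanishes unless
`X e^(-1/lam) < n < X e^(1/lam)`. -/
noncomputable def OmL (lam X : ℝ) (n : ℕ) : ℝ := (X / n) ^ cX X * tri (lam * Real.log (n / X))

/-- The sum `∑ log n * a(n) * OmL lam X n`. -/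
noncomputable def psiG (lam X : ℝ) (a : ℕ → ℂ) : ℂ :=
  ∑ n ∈ Finset.Icc 1 ⌊3 * X⌋₊, ((Real.log n : ℝ) : ℂ) * a n * (OmL lam X n : ℂ)

/-- The twisted sum `∑ Λ(n) χ(n) OmL lam X n`. -/
noncomputable def psiChiL (lam X : ℝ) {r : ℕ} (χ : DirichletCharacter ℂ r) : ℂ :=
  ∑ n ∈ Finset.Icc 1 ⌊3 * X⌋₊, (vonMangoldt n : ℂ) * χ (n : ZMod r) * (OmL lam X n : ℂ)

/-- Sum of `‖psiChiL lam X χ‖` over the primitive characters modulo `r`. -/
noncomputable def primSumL (lam X : ℝ) (r : ℕ) : ℝ :=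
  ∑ χ : DirichletCharacter ℂ r, Set.indicator {χ | χ.IsPrimitive} (fun χ => ‖psiChiL lam X χ‖) χ

/-- Weighted count of primes (prime powers) in an arithmetic progression. -/
noncomputable def psiAPL (lam X : ℝ) (q a : ℕ) : ℝ :=
  ∑ n ∈ (Finset.Icc 1 ⌊3 * X⌋₊).filter (fun n => n ≡ a [MOD q]), vonMangoldt n * OmL lam X n

/-- Weighted count of all primes (prime powers). -/
noncomputable def psiXL (lam X : ℝ) : ℝ :=
  ∑ n ∈ Finset.Icc 1 ⌊3 * X⌋₊, vonMangoldt n * OmL lam X n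

end Pool.Agent.BVall
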