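import Pool.Agent.Lib.MP_89da58_nt.S.LBound

set_option autoImplicit false

/-!
Upper bounds for the derivatives of the Riemann zeta function to the right of `Re s = 1`.
-/

namespace Pool.Agent.BVall

open Finset Filter Topology Pool.Agent.MP89da58.S

/-- a primitive of `-(log x)^j x^(-s)` -/
noncomputable def PPj : ℕ → ℂ → ℝ → ℂ
  | 0, s, x => (x : ℂ) ^ (1 - s) / (s - 1)
  | (j + 1), s, x => ((Real.log x : ℝ) : ℂ) ^ (j + 1) * (x : ℂ) ^ (1 - s) / (s - 1) +
      ((j + 1 : ℕ) : ℂ) / (s - 1) * PPj j s x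

lemma hasDerivAt_PPj (j : ℕ) {s : ℂ} (hs : s ≠ 1) {x : ℝ} (hx : 0 < x) :
    HasDerivAt (PPj j s) (-(ff j s x)) x := by
  have hs1 : s - 1 ≠ 0 := sub_ne_zero.mpr hs
  have hx0 : (x : ℂ) ≠ 0 := by exact_mod_cast hx.ne'
  have h4 : HasDerivAt (fun y : ℝ => (y : ℂ) ^ (1 - s)) ((1 - s) * (x : ℂ) ^ (-s)) x := by
    have h5 : HasDerivAt (fun y : ℂ => y ^ (1 - s)) ((1 - s) * (x : ℂ) ^ (1 - s - 1)) (x : ℂ) := by
      have := (hasDerivAt_id (x : ℂ)).cpow_const (c := 1 - s) (by
        simp only [id]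
        exact Complex.ofReal_mem_slitPlane.2 hx)
      simpa using this
    have e : (1 - s - 1 : ℂ) = -s := by ring
    rw [e] at h5
    exact h5.comp_ofReal
  induction j with
  | zero =>
    have h6 := h4.div_const (s - 1)
    have e : (1 - s) * (x : ℂ) ^ (-s) / (s - 1) = -(ff 0 s x) := by
      unfold ff
      rw [pow_zero, one_mul]
      field_simp
      ring
    rw [e] at h6
    exact h6
  | succ j ih =>
    have h1 : HasDerivAt (fun y : ℝ => ((Real.log y : ℝ) : ℂ)) ((x⁻¹ : ℝ) : ℂ) x :=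
      (Real.hasDerivAt_log hx.ne').ofReal_comp
    have h2 := h1.pow (j + 1)
    have h6 := ((h2.mul h4).div_const (s - 1)).add (ih.const_mul (((j + 1 : ℕ) : ℂ) / (s - 1)))
    have hxs : (x : ℂ) ^ (1 - s) = x * (x : ℂ) ^ (-s) := by
      rw [sub_eq_add_neg, Complex.cpow_add _ _ hx0, Complex.cpow_one]
    have e : (((j + 1 : ℕ) : ℂ) * ((Real.log x : ℝ) : ℂ) ^ (j + 1 - 1) * ((x⁻¹ : ℝ) : ℂ) *
        (x : ℂ) ^ (1 - s) + ((Real.log x : ℝ) : ℂ) ^ (j + 1) * ((1 - s) * (x : ℂ) ^ (-s))) / (s - 1) +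
        ((j + 1 : ℕ) : ℂ) / (s - 1) * -(ff j s x) = -(ff (j + 1) s x) := by
      unfold ff
      rw [hxs, Nat.add_sub_cancel]
      push_cast
      field_simp
      ring
    rw [← e]
    exact h6

/-- constants -/
def cPP : ℕ → ℝ
  | 0 => 1
  | (j + 1) => 1 + (j + 1) * cPP j

lemma cPP_nonneg (j : ℕ) : 0 ≤ cPP j := by
  induction j with
  | zero => simp [cPP]
  | succ j ih => simp only [cPP]; positivity

lemma norm_PPj_le (j : ℕ) (s : ℂ) {x : ℝ} (hx : 1 ≤ x) :
    ‖PPj j s x‖ ≤ cPP j * (1 + Real.log x) ^ j * (1 + 1 / ‖s - 1‖) ^ (j + 1) * x ^ (1 - s.re) := by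
  have hx0 : 0 < x := by linarith
  have hlog := Real.log_nonneg hx
  have hn : ‖(x : ℂ) ^ (1 - s)‖ = x ^ (1 - s.re) := by
    rw [Complex.norm_cpow_eq_rpow_re_of_pos hx0]; simp
  set Y : ℝ := 1 + 1 / ‖s - 1‖ with hY
  have hi0 : 0 ≤ 1 / ‖s - 1‖ := by positivity
  have hY1 : 1 ≤ Y := by linarith
  have hiY : 1 / ‖s - 1‖ ≤ Y := by linarith
  set P : ℝ := x ^ (1 - s.re) with hP
  have hP0 : 0 ≤ P := by positivity
  induction j with
  | zero =>
    simp only [PPj, cPP, pow_zero, mul_one, one_mul, zero_add, pow_one]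
    rw [norm_div, hn, div_eq_mul_one_div, mul_comm]
    exact mul_le_mul_of_nonneg_right hiY hP0
  | succ j ih =>
    simp only [PPj, cPP]
    refine (norm_add_le _ _).trans ?_
    rw [norm_div, norm_mul, norm_mul, norm_div, norm_pow, hn, Complex.norm_real,
      Real.norm_of_nonneg hlog, Complex.norm_natCast]
    have hA : (Real.log x) ^ (j + 1) * P / ‖s - 1‖ ≤
        (1 + Real.log x) ^ (j + 1) * Y ^ (j + 2) * P := by
      calc (Real.log x) ^ (j + 1) * P / ‖s - 1‖ = (Real.log x) ^ (j + 1) * (1 / ‖s - 1‖) * P := by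
            ring
        _ ≤ (1 + Real.log x) ^ (j + 1) * Y ^ (j + 2) * P := by
            apply mul_le_mul_of_nonneg_right _ hP0
            apply mul_le_mul _ _ hi0 (by positivity)
            · exact pow_le_pow_left₀ hlog (by linarith) _
            · exact hiY.trans (le_self_pow₀ hY1 (by omega))
    have hB : ((j + 1 : ℕ) : ℝ) / ‖s - 1‖ * ‖PPj j s x‖ ≤
        (j + 1) * cPP j * ((1 + Real.log x) ^ (j + 1) * Y ^ (j + 2) * P) := by
      have hc := cPP_nonneg j
      calc ((j + 1 : ℕ) : ℝ) / ‖s - 1‖ * ‖PPj j s x‖ =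
            ((j + 1 : ℕ) : ℝ) * (1 / ‖s - 1‖) * ‖PPj j s x‖ := by ring
        _ ≤ ((j + 1 : ℕ) : ℝ) * Y * (cPP j * (1 + Real.log x) ^ j * Y ^ (j + 1) * P) := by
            apply mul_le_mul _ ih (norm_nonneg _) (by positivity)
            exact mul_le_mul_of_nonneg_left hiY (by positivity)
        _ = (j + 1) * cPP j * ((1 + Real.log x) ^ j * Y ^ (j + 2) * P) := by
            push_cast; ring
        _ ≤ _ := by
            apply mul_le_mul_of_nonneg_left _ (by positivity)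
            apply mul_le_mul_of_nonneg_right _ hP0
            apply mul_le_mul_of_nonneg_right _ (by positivity)
            exact pow_le_pow_right₀ (by linarith) (by omega)
    calc _ ≤ (1 + Real.log x) ^ (j + 1) * Y ^ (j + 2) * P +
          (j + 1) * cPP j * ((1 + Real.log x) ^ (j + 1) * Y ^ (j + 2) * P) := add_le_add hA hB
      _ = _ := by push_cast; ring

lemma tendsto_PPj (j : ℕ) {s : ℂ} (hs : 1 < s.re) :
    Tendsto (fun n : ℕ => ‖PPj j s n‖) atTop (𝓝 0) := by
  set δ : ℝ := s.re - 1 with hδ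
  have hδ0 : 0 < δ := by rw [hδ]; linarith
  set ε : ℝ := δ / (2 * (j + 1)) with hε
  have hj0 : (0 : ℝ) ≤ j := Nat.cast_nonneg j
  have hε0 : 0 < ε := by positivity
  set Kc : ℝ := cPP j * (1 + 1 / ε) ^ j * (1 + 1 / ‖s - 1‖) ^ (j + 1) with hKc
  have hKc0 : 0 ≤ Kc := by have := cPP_nonneg j; positivity
  have hlim : Tendsto (fun n : ℕ => Kc * (n : ℝ) ^ (-(δ / 2))) atTop (𝓝 0) := by
    have h1 := (tendsto_rpow_neg_atTop (show 0 < δ / 2 by positivity)).comp
      tendsto_natCast_atTop_atTop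
    have := h1.const_mul Kc
    rw [mul_zero] at this
    exact this
  refine tendsto_of_tendsto_of_tendsto_of_le_of_le' tendsto_const_nhds hlim
    (Eventually.of_forall fun n => norm_nonneg _) ?_
  filter_upwards [eventually_ge_atTop 1] with n hn
  have hn1 : (1 : ℝ) ≤ n := by exact_mod_cast hn
  have hn0 : (0 : ℝ) < n := by linarith
  refine (norm_PPj_le j s hn1).trans ?_
  have h2 : (1 + Real.log n) ^ j ≤ (1 + 1 / ε) ^ j * (n : ℝ) ^ (δ / 2) := by
    have h3 : Real.log n ≤ (n : ℝ) ^ ε / ε := Real.log_le_rpow_div hn0.le hε0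
    have h4 : (1 : ℝ) ≤ (n : ℝ) ^ ε := Real.one_le_rpow hn1 hε0.le
    have h5 : 1 + Real.log n ≤ (1 + 1 / ε) * (n : ℝ) ^ ε := by
      have : (n : ℝ) ^ ε / ε = 1 / ε * (n : ℝ) ^ ε := by ring
      rw [add_mul, one_mul]
      linarith only [h3, h4, this]
    calc (1 + Real.log n) ^ j ≤ ((1 + 1 / ε) * (n : ℝ) ^ ε) ^ j :=
          pow_le_pow_left₀ (by have := Real.log_nonneg hn1; linarith only [this]) h5 j
      _ = (1 + 1 / ε) ^ j * ((n : ℝ) ^ ε) ^ j := mul_pow _ _ _
      _ ≤ _ := by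
          apply mul_le_mul_of_nonneg_left _ (by positivity)
          rw [← Real.rpow_natCast, ← Real.rpow_mul hn0.le]
          apply Real.rpow_le_rpow_of_exponent_le hn1
          rw [hε, div_mul_eq_mul_div, div_le_div_iff₀ (by positivity) (by norm_num)]
          nlinarith only [hs]
  have hc := cPP_nonneg j
  calc cPP j * (1 + Real.log n) ^ j * (1 + 1 / ‖s - 1‖) ^ (j + 1) * (n : ℝ) ^ (1 - s.re)
      ≤ cPP j * ((1 + 1 / ε) ^ j * (n : ℝ) ^ (δ / 2)) * (1 + 1 / ‖s - 1‖) ^ (j + 1) *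
        (n : ℝ) ^ (1 - s.re) := by
        (clear * - h2 hc hn; gcongr)
    _ = Kc * ((n : ℝ) ^ (δ / 2) * (n : ℝ) ^ (1 - s.re)) := by rw [hKc]; ring
    _ = Kc * (n : ℝ) ^ (-(δ / 2)) := by
        rw [← Real.rpow_add hn0]
        congr 2
        rw [hδ]; ring

lemma PPj_step (j : ℕ) {s : ℂ} (hs : 1 < s.re) {n : ℕ} (hn : 1 ≤ n) :
    ‖PPj j s n - PPj j s ((n + 1 : ℕ) : ℝ) - ff j s n‖ ≤
      (j + ‖s‖) * (1 + Real.log (n + 1)) ^ j / (n : ℝ) ^ 2 := by
  have hn1 : (1 : ℝ) ≤ n := by exact_mod_cast hn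
  have hs1 : s ≠ 1 := by
    rintro rfl
    simp at hs
  set Cb : ℝ := (j + ‖s‖) * (1 + Real.log (n + 1)) ^ j / (n : ℝ) ^ 2 with hCb
  have hlogn : 0 ≤ Real.log ((n : ℝ) + 1) := Real.log_nonneg (by linarith)
  have hCb0 : 0 ≤ Cb := by positivity
  have hdiff : ∀ x : ℝ, (n : ℝ) ≤ x → x ≤ n + 1 → ‖ff j s x - ff j s n‖ ≤ Cb := by
    intro x hx1 hx2
    have := norm_image_sub_le_of_norm_deriv_le_segment' (f := ff j s) (f' := ff' j s)
      (a := (n : ℝ)) (b := x) (C := Cb)
      (fun y hy => (hasDerivAt_ff (by linarith [hy.1])).hasDerivWithinAt)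
      (fun y hy => by
        have hy1 : 1 ≤ y := by linarith [hy.1]
        refine (norm_ff'_le hy1 hs.le).trans ?_
        have h1 : Real.log y ≤ Real.log (n + 1) := by
          apply Real.log_le_log (by linarith)
          linarith [hy.2]
        have h2 : 0 ≤ Real.log y := Real.log_nonneg hy1
        have h3 := hy.1
        rw [hCb]
        (clear * - hlogn h2 h1 hn h3; gcongr))
      x (Set.right_mem_Icc.2 hx1)
    refine this.trans ?_
    nlinarith only [hCb0, hx2]
  have := norm_image_sub_le_of_norm_deriv_le_segment'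
    (f := fun x : ℝ => PPj j s x + ((x - n : ℝ) : ℂ) * ff j s n)
    (f' := fun x : ℝ => -(ff j s x) + ((1 : ℝ) : ℂ) * ff j s n)
    (a := (n : ℝ)) (b := ((n + 1 : ℕ) : ℝ)) (C := Cb)
    (fun x hx => by
      apply HasDerivAt.hasDerivWithinAt
      apply (hasDerivAt_PPj j hs1 (by linarith [hx.1])).add
      apply HasDerivAt.mul_const
      exact ((hasDerivAt_id x).sub_const (n : ℝ)).ofReal_comp)
    (fun x hx => by
      have h1 := hx.2
      push_cast at h1
      have h2 := hdiff x hx.1 h1.le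
      have e : -(ff j s x) + ((1 : ℝ) : ℂ) * ff j s n = -(ff j s x - ff j s n) := by
        push_cast; ring
      rw [e, norm_neg]
      exact h2)
    ((n + 1 : ℕ) : ℝ) (Set.right_mem_Icc.2 (by push_cast; linarith))
  have e2 : (((n + 1 : ℕ) : ℝ) - (n : ℝ)) = 1 := by push_cast; ring
  rw [e2, mul_one] at this
  have e3 : PPj j s ((n + 1 : ℕ) : ℝ) + (((((n + 1 : ℕ) : ℝ) - (n : ℝ) : ℝ)) : ℂ) * ff j s n -
      (PPj j s n + ((((n : ℝ) - (n : ℝ) : ℝ)) : ℂ) * ff j s n) =
      -(PPj j s n - PPj j s ((n + 1 : ℕ) : ℝ) - ff j s n) := by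
    rw [e2]; push_cast; ring
  rw [e2] at e3
  rw [e3, norm_neg] at this
  exact this

/-- Upper bounds for the derivatives of the zeta function. -/
theorem norm_Lj_one_le (j : ℕ) : ∃ C : ℝ, 1 ≤ C ∧ ∀ s : ℂ, 1 < s.re →
    ‖Lj (fun _ => 1) j s‖ ≤
      C * ((1 + Real.log (1 + ‖s‖)) * (1 + 1 / ‖s - 1‖)) ^ (j + 1) := by
  set D : ℝ := (2 * j + 4) ^ j with hD
  have hD0 : 0 ≤ D := by positivity
  have hc := cPP_nonneg j
  refine ⟨2 ^ (j + 1) + cPP j * 2 ^ j + 6 * D * (j + 1), ?_, ?_⟩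
  · have : (1 : ℝ) ≤ 2 ^ (j + 1) := one_le_pow₀ (by norm_num)
    have : 0 ≤ cPP j * 2 ^ j := by positivity
    have : 0 ≤ 6 * D * (j + 1) := by positivity
    linarith
  intro s hs
  set Z : ℝ := 1 + ‖s‖ with hZ
  have hZ1 : 1 ≤ Z := by
    have : 0 ≤ ‖s‖ := norm_nonneg s
    linarith
  set y : ℝ := Real.log Z with hy
  have hy0 : 0 ≤ y := Real.log_nonneg hZ1
  set Y : ℝ := 1 + 1 / ‖s - 1‖ with hY
  have hY1 : 1 ≤ Y := by
    have : 0 ≤ 1 / ‖s - 1‖ := by positivity
    linarith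
  set N : ℕ := ⌈Z ^ 2⌉₊ with hN
  have hNZ : Z ^ 2 ≤ N := Nat.le_ceil _
  have hN1' : (1 : ℝ) ≤ N := le_trans (one_le_pow₀ hZ1) hNZ
  have hN1 : 1 ≤ N := by exact_mod_cast hN1'
  have hNup : (N : ℝ) ≤ 2 * Z ^ 2 := by
    have := (Nat.ceil_lt_add_one (show (0 : ℝ) ≤ Z ^ 2 by positivity)).le
    have h1 : (1 : ℝ) ≤ Z ^ 2 := one_le_pow₀ hZ1
    linarith only [this, h1]
  have hlogN : Real.log N ≤ 1 + 2 * y := by
    calc Real.log N ≤ Real.log (2 * Z ^ 2) := Real.log_le_log (by linarith) hNup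
      _ = Real.log 2 + 2 * y := by
          rw [Real.log_mul (by norm_num) (by positivity), Real.log_pow]
          norm_num
          rfl
      _ ≤ 1 + 2 * y := by
          have := Real.log_two_lt_d9
          linarith
  have hlogN0 : 0 ≤ Real.log N := Real.log_nonneg hN1'
  have hsqrtN : Z ≤ Real.sqrt N := Real.le_sqrt_of_sq_le hNZ
  have hs0 : s ≠ 0 := by
    rintro rfl
    simp at hs
    linarith
  have hsum := summable_Lj (a := fun _ => (1 : ℂ)) (fun _ => by simp) j hs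
  have hlim := hsum.hasSum.tendsto_sum_nat
  have key : ∀ M : ℕ, N ≤ M →
      ‖∑ n ∈ range M, LSeries.term (fun n => ((Real.log n : ℝ) : ℂ) ^ j * 1) s n‖ ≤
      (2 ^ (j + 1) + cPP j * 2 ^ j + 6 * D * (j + 1)) * ((1 + y) * Y) ^ (j + 1) +
        ‖PPj j s M‖ := by
    intro M hM
    have e1 : ∑ n ∈ range M, LSeries.term (fun n => ((Real.log n : ℝ) : ℂ) ^ j * 1) s n =
        ∑ n ∈ range N, ff j s n + ∑ n ∈ Ico N M, ff j s n := by
      rw [Finset.sum_range_add_sum_Ico _ hM]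
      refine Finset.sum_congr rfl (fun n _ => ?_)
      have := term_Lj (fun _ => (1 : ℂ)) j hs0 n
      rw [one_mul] at this
      exact this
    have htel : ∑ n ∈ Ico N M, (PPj j s n - PPj j s ((n + 1 : ℕ) : ℝ)) =
        PPj j s N - PPj j s M := by
      induction M, hM using Nat.le_induction with
      | base => simp
      | succ m hm ih =>
        have e1' : ∑ n ∈ range m, LSeries.term (fun n => ((Real.log n : ℝ) : ℂ) ^ j * 1) s n =
          ∑ n ∈ range N, ff j s n + ∑ n ∈ Ico N m, ff j s n := by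
            rw [Finset.sum_range_add_sum_Ico _ hm]
            refine Finset.sum_congr rfl (fun n _ => ?_)
            have := term_Lj (fun _ => (1 : ℂ)) j hs0 n
            rw [one_mul] at this
            exact this
        rw [Finset.sum_Ico_succ_top hm, ih e1']
        ring
    have e2 : ∑ n ∈ Ico N M, ff j s n = (PPj j s N - PPj j s M) -
        ∑ n ∈ Ico N M, (PPj j s n - PPj j s ((n + 1 : ℕ) : ℝ) - ff j s n) := by
      rw [← htel, ← Finset.sum_sub_distrib]
      apply Finset.sum_congr rfl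
      intro n _
      ring
    have h2 : ∀ M : ℕ, N ≤ M → ∑ n ∈ Ico N M, (1 / Real.sqrt n - 1 / Real.sqrt (n + 1)) =
        1 / Real.sqrt N - 1 / Real.sqrt M := by
      intro M hM
      induction M, hM using Nat.le_induction with
      | base => simp
      | succ m hm ih =>
        rw [Finset.sum_Ico_succ_top hm, ih]
        push_cast
        ring
    have e3 : ‖∑ n ∈ Ico N M, (PPj j s n - PPj j s ((n + 1 : ℕ) : ℝ) - ff j s n)‖ ≤
        6 * D * (j + 1) := by
      calc _ ≤ ∑ n ∈ Ico N M, ‖PPj j s n - PPj j s ((n + 1 : ℕ) : ℝ) - ff j s n‖ :=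
            norm_sum_le _ _
        _ ≤ ∑ n ∈ Ico N M, 6 * D * (j + ‖s‖) * (1 / Real.sqrt n - 1 / Real.sqrt (n + 1)) := by
            apply Finset.sum_le_sum
            intro n hn
            have hn1 := hN1.trans (Finset.mem_Ico.1 hn).1
            refine (PPj_step j hs hn1).trans ?_
            have h3 := log_pow_le j hn1
            have h4 := inv_sqrt_telescope hn1
            calc (j + ‖s‖) * (1 + Real.log (n + 1)) ^ j / (n : ℝ) ^ 2
                ≤ (j + ‖s‖) * (D * Real.sqrt n) / (n : ℝ) ^ 2 := by (clear * - h3 hs0 hn1; gcongr)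
              _ = (j + ‖s‖) * D * (Real.sqrt n / (n : ℝ) ^ 2) := by ring
              _ ≤ (j + ‖s‖) * D * (6 * (1 / Real.sqrt n - 1 / Real.sqrt (n + 1))) := by (clear * - h4 hs0; gcongr)
              _ = _ := by ring
        _ = 6 * D * (j + ‖s‖) * (1 / Real.sqrt N - 1 / Real.sqrt M) := by
            rw [← Finset.mul_sum, h2 M hM]
        _ ≤ 6 * D * (j + ‖s‖) * (1 / Real.sqrt N) := by
            apply mul_le_mul_of_nonneg_left _ (by positivity)
            have : 0 ≤ 1 / Real.sqrt M := by positivity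
            linarith
        _ ≤ 6 * D * (j + 1) := by
            rw [mul_one_div, div_le_iff₀ (by linarith)]
            have h0 : 0 ≤ ‖s‖ := norm_nonneg s
            have h1 : (j : ℝ) + ‖s‖ ≤ (j + 1) * Z := by
              have : (0 : ℝ) ≤ j := Nat.cast_nonneg j
              rw [hZ]
              nlinarith only [this, h0, mul_nonneg this h0]
            calc 6 * D * (j + ‖s‖) ≤ 6 * D * ((j + 1) * Z) := by gcongr
              _ = 6 * D * (j + 1) * Z := by ring
              _ ≤ _ := by (clear * - hsqrtN; gcongr)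
    rw [e1, e2]
    have hhead : ‖∑ n ∈ range N, ff j s n‖ ≤ (Real.log N) ^ j * (1 + Real.log N) := by
      calc ‖∑ n ∈ range N, ff j s n‖ ≤ ∑ n ∈ range N, ‖ff j s n‖ := norm_sum_le _ _
        _ = ∑ n ∈ Ico 1 N, ‖ff j s n‖ := by
            rw [Finset.range_eq_Ico, ← Finset.sum_Ico_consecutive _ (Nat.zero_le 1) hN1]
            simp [ff, hs0]
        _ ≤ ∑ n ∈ Ico 1 N, (Real.log N) ^ j * (1 / (n : ℝ)) := by
            apply Finset.sum_le_sum
            intro n hn
            have hn1 : (1 : ℝ) ≤ n := by exact_mod_cast (Finset.mem_Ico.1 hn).1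
            have hnN : (n : ℝ) ≤ N := by exact_mod_cast (Finset.mem_Ico.1 hn).2.le
            rw [norm_ff hn1]
            have h1 : (n : ℝ) ^ (-s.re) ≤ 1 / (n : ℝ) := by
              rw [one_div, ← Real.rpow_neg_one]
              apply Real.rpow_le_rpow_of_exponent_le hn1
              linarith
            have h2 : (Real.log n) ^ j ≤ (Real.log N) ^ j := by
              apply pow_le_pow_left₀ (Real.log_nonneg hn1)
              exact Real.log_le_log (by linarith) hnN
            have h3 : 0 ≤ (Real.log n) ^ j := pow_nonneg (Real.log_nonneg hn1) _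
            have h4 : 0 ≤ (n : ℝ) ^ (-s.re) := by positivity
            exact mul_le_mul h2 h1 h4 (h3.trans h2)
        _ = (Real.log N) ^ j * ∑ n ∈ Ico 1 N, (1 / (n : ℝ)) := by rw [Finset.mul_sum]
        _ ≤ (Real.log N) ^ j * (1 + Real.log N) := by
            apply mul_le_mul_of_nonneg_left (sum_inv_le N) (by positivity)
    have hPN : ‖PPj j s N‖ ≤ cPP j * (2 * (1 + y)) ^ j * Y ^ (j + 1) := by
      refine (norm_PPj_le j s hN1').trans ?_
      have h5 : (N : ℝ) ^ (1 - s.re) ≤ 1 :=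
        Real.rpow_le_one_of_one_le_of_nonpos hN1' (by linarith)
      calc cPP j * (1 + Real.log N) ^ j * Y ^ (j + 1) * (N : ℝ) ^ (1 - s.re)
          ≤ cPP j * (1 + Real.log N) ^ j * Y ^ (j + 1) * 1 := by (clear * - h5 hc; gcongr)
        _ ≤ cPP j * (2 * (1 + y)) ^ j * Y ^ (j + 1) * 1 := by
            gcongr
            linarith
        _ = _ := mul_one _
    have h1y : 1 ≤ (1 + y) ^ (j + 1) := one_le_pow₀ (by linarith)
    have h1Y : 1 ≤ Y ^ (j + 1) := one_le_pow₀ hY1
    have t1 : (Real.log N) ^ j * (1 + Real.log N) ≤ 2 ^ (j + 1) * ((1 + y) * Y) ^ (j + 1) := by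
      calc (Real.log N) ^ j * (1 + Real.log N) ≤ (2 * (1 + y)) ^ j * (2 * (1 + y)) := by
            gcongr
            · linarith
            · linarith
        _ = 2 ^ (j + 1) * (1 + y) ^ (j + 1) := by rw [← pow_succ, mul_pow]
        _ ≤ 2 ^ (j + 1) * ((1 + y) ^ (j + 1) * Y ^ (j + 1)) := by
            apply mul_le_mul_of_nonneg_left _ (by positivity)
            exact le_mul_of_one_le_right (by positivity) h1Y
        _ = _ := by rw [mul_pow]
    have t2 : cPP j * (2 * (1 + y)) ^ j * Y ^ (j + 1) ≤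
        cPP j * 2 ^ j * ((1 + y) * Y) ^ (j + 1) := by
      calc cPP j * (2 * (1 + y)) ^ j * Y ^ (j + 1) = cPP j * 2 ^ j * ((1 + y) ^ j * Y ^ (j + 1)) := by
            rw [mul_pow]; ring
        _ ≤ cPP j * 2 ^ j * ((1 + y) ^ (j + 1) * Y ^ (j + 1)) := by
            gcongr
            · linarith
            · omega
        _ = _ := by rw [mul_pow]
    have t3 : 6 * D * (j + 1) ≤ 6 * D * (j + 1) * ((1 + y) * Y) ^ (j + 1) := by
      apply le_mul_of_one_le_right (by positivity)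
      rw [mul_pow]
      exact one_le_mul_of_one_le_of_one_le h1y h1Y
    calc _ ≤ ‖∑ n ∈ range N, ff j s n‖ + ‖(PPj j s N - PPj j s M) -
          ∑ n ∈ Ico N M, (PPj j s n - PPj j s ((n + 1 : ℕ) : ℝ) - ff j s n)‖ := norm_add_le _ _
      _ ≤ (Real.log N) ^ j * (1 + Real.log N) + (‖PPj j s N - PPj j s M‖ + 6 * D * (j + 1)) := by
          gcongr
          exact (norm_sub_le _ _).trans (add_le_add le_rfl e3)
      _ ≤ (Real.log N) ^ j * (1 + Real.log N) +
          ((cPP j * (2 * (1 + y)) ^ j * Y ^ (j + 1) + ‖PPj j s M‖) + 6 * D * (j + 1)) := by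
          gcongr
          exact (norm_sub_le _ _).trans (add_le_add hPN le_rfl)
      _ ≤ 2 ^ (j + 1) * ((1 + y) * Y) ^ (j + 1) +
          ((cPP j * 2 ^ j * ((1 + y) * Y) ^ (j + 1) + ‖PPj j s M‖) +
            6 * D * (j + 1) * ((1 + y) * Y) ^ (j + 1)) := by
          linarith
      _ = _ := by ring
  have hlim2 : Tendsto (fun M : ℕ => (2 ^ (j + 1) + cPP j * 2 ^ j + 6 * D * (j + 1)) *
      ((1 + y) * Y) ^ (j + 1) + ‖PPj j s M‖) atTop
      (𝓝 ((2 ^ (j + 1) + cPP j * 2 ^ j + 6 * D * (j + 1)) * ((1 + y) * Y) ^ (j + 1) + 0)) :=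
    tendsto_const_nhds.add (tendsto_PPj j hs)
  rw [add_zero] at hlim2
  refine le_of_tendsto_of_tendsto hlim.norm hlim2 ?_
  filter_upwards [Filter.eventually_ge_atTop N] with M hM
  exact key M hM

end Pool.Agent.BVall
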