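import Pool.Agent.Lib.MP_0da313_nt.BV.Siegel2
import Pool.Agent.Lib.MP_0da313_nt.BV.Zeta
import Pool.Agent.Lib.MP_89da58_nt.S.CharBound
import Pool.Agent.Lib.MP_89da58_nt.S.Lower

set_option autoImplicit false

/-!
Lower bounds `‖L(1 + exp(-ℓ) + it, χ)‖ ≥ exp(-ℓ/10)` for all primitive characters of conductor at
most `exp(B ℓ)`, all large `ℓ`, based on Siegel's theorem.
-/

namespace Pool.Agent.BVall

open Finset Filter Topology Pool.Agent.MP89da58.S

lemma log_five_le' : Real.log 5 ≤ 2 := by
  have e3 : Real.log 5 = Real.log 2 + Real.log 2 + Real.log 1.25 := by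
    rw [← Real.log_mul (by norm_num) (by norm_num), ← Real.log_mul (by norm_num) (by norm_num)]
    norm_num
  have e4 : Real.log 1.25 ≤ 1.25 - 1 := Real.log_le_sub_one_of_pos (by norm_num)
  have e5 := Real.log_two_lt_d9
  rw [e3]; norm_num at e4 ⊢; linarith only [e5, e4]

lemma log_bound' {B D q : ℕ} {m : ℝ} (hm1 : 1 ≤ m) (hq : 1 ≤ q) (hqB : (q : ℝ) ≤ Real.exp (B * m))
    {s : ℂ} (hre : |s.re| ≤ 2) (him : |s.im| ≤ 2 * Real.exp (D * m)) :
    0 ≤ Real.log (q * (1 + ‖s‖)) ∧ 1 + Real.log (q * (1 + ‖s‖)) ≤ (B + D + 3) * m := by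
  have hq1 : (1 : ℝ) ≤ q := by exact_mod_cast hq
  have hn : ‖s‖ ≤ 2 + 2 * Real.exp (D * m) := (Complex.norm_le_abs_re_add_abs_im s).trans (by linarith)
  have hn0 : 0 ≤ ‖s‖ := norm_nonneg s
  have hE : 1 ≤ Real.exp (D * m) := Real.one_le_exp (by positivity)
  constructor
  · apply Real.log_nonneg
    nlinarith only [hq1, hn0]
  · rw [Real.log_mul (by linarith) (by linarith)]
    have h1 : Real.log q ≤ B * m := by
      rw [← Real.log_exp ((B : ℝ) * m)]
      exact Real.log_le_log (by linarith) hqB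
    have h2 : Real.log (1 + ‖s‖) ≤ 2 + D * m := by
      calc Real.log (1 + ‖s‖) ≤ Real.log (5 * Real.exp (D * m)) :=
            Real.log_le_log (by linarith) (by linarith)
        _ = Real.log 5 + D * m := by
            rw [Real.log_mul (by norm_num) (Real.exp_pos _).ne', Real.log_exp]
        _ ≤ _ := by linarith [log_five_le']
    have : (0 : ℝ) ≤ B := Nat.cast_nonneg B
    have : (0 : ℝ) ≤ D := Nat.cast_nonneg D
    linarith

/-- polynomials against exponentials -/
lemma ev_poly (K : ℝ) (k : ℕ) {ε : ℝ} (hε : 0 < ε) :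
    ∀ᶠ l : ℝ in atTop, K * l ^ k ≤ Real.exp (ε * l) := by
  have h := (isLittleO_pow_exp_pos_mul_atTop k hε).bound
    (show (0 : ℝ) < 1 / (|K| + 1) by positivity)
  filter_upwards [h, eventually_ge_atTop 0] with l hl hl0
  rw [Real.norm_of_nonneg (by positivity), Real.norm_of_nonneg (Real.exp_pos _).le] at hl
  have h1 : K * l ^ k ≤ (|K| + 1) * l ^ k :=
    mul_le_mul_of_nonneg_right (by linarith [le_abs_self K]) (by positivity)
  have h2 : (|K| + 1) * l ^ k ≤ (|K| + 1) * (1 / (|K| + 1) * Real.exp (ε * l)) :=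
    mul_le_mul_of_nonneg_left hl (by positivity)
  have h3 : (|K| + 1) * (1 / (|K| + 1) * Real.exp (ε * l)) = Real.exp (ε * l) := by
    field_simp
  linarith only [h1, h2, h3]

lemma ne_one_of_prim {r : ℕ} (hr : 2 ≤ r) {χ : DirichletCharacter ℂ r} (p : χ.IsPrimitive) :
    χ ≠ 1 := by
  rintro rfl
  have : NeZero r := ⟨by omega⟩
  rw [DirichletCharacter.isPrimitive_def, DirichletCharacter.conductor_one] at p
  omega

lemma LSeries_eq_LFunction {r : ℕ} (hr : r ≠ 0) (χ : DirichletCharacter ℂ r) {s : ℂ}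
    (hs : 1 < s.re) : haveI : NeZero r := ⟨hr⟩
      LSeries (fun n => χ n) s = χ.LFunction s := by
  have : NeZero r := ⟨hr⟩
  exact (DirichletCharacter.LFunction_eq_LSeries χ hs).symm

/-- lower bound for quadratic characters on the real axis near `1` -/
lemma real_lower (B : ℕ) : ∀ᶠ l : ℝ in atTop, ∀ (r : ℕ) (χ : DirichletCharacter ℂ r),
    2 ≤ r → (r : ℝ) ≤ Real.exp (B * l) → χ.IsPrimitive → χ ^ 2 = 1 →
      2 * Real.exp (-(l / 300)) ≤
        ‖LSeries (fun n => χ n) (((1 + Real.exp (-l) : ℝ) : ℂ))‖ := by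
  obtain ⟨C₁, hC₁, hC1⟩ := norm_LjChar_le 1
  set ε : ℝ := 1 / (400 * (B + 1)) with hε
  have hε0 : 0 < ε := by positivity
  have hεB : ε * B ≤ 1 / 400 := by
    rw [hε, div_mul_eq_mul_div, div_le_div_iff₀ (by positivity) (by norm_num)]
    have : (0 : ℝ) ≤ B := Nat.cast_nonneg B
    linarith
  obtain ⟨c, hc, hsieg⟩ := siegel ε hε0
  set A : ℝ := B + 3 with hA
  have hA0 : 0 < A := by positivity
  filter_upwards [eventually_ge_atTop 1, ev_poly (C₁ * A ^ 2) 2 (show (0 : ℝ) < 1 / 2 by norm_num),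
    ev_poly (3 / c) 0 (show (0 : ℝ) < 1 / 1200 by norm_num),
    ev_poly 1 0 (show (0 : ℝ) < 1 / 2 by norm_num)] with l hl1 hp1 hp2 _
  intro r χ hr hrB hprim hsq
  have hr0 : r ≠ 0 := by omega
  have : NeZero r := ⟨hr0⟩
  have hχ := ne_one_of_prim hr hprim
  have hr1 : (1 : ℝ) ≤ r := by exact_mod_cast (by omega : 1 ≤ r)
  have hs := hsieg r χ hprim hχ hsq
  -- the value at `1`
  have hL1 : c * Real.exp (-(l / 400)) ≤ ‖χ.LFunction 1‖ := by
    refine le_trans ?_ ((hs.trans (le_abs_self _)).trans (Complex.abs_re_le_norm _))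
    apply mul_le_mul_of_nonneg_left _ hc.le
    rw [Real.rpow_def_of_pos (by linarith only [hr1])]
    apply Real.exp_le_exp.mpr
    have h1 : Real.log r ≤ B * l := by
      rw [← Real.log_exp ((B : ℝ) * l)]
      exact Real.log_le_log (by linarith only [hr1]) hrB
    have h2 : ε * Real.log r ≤ ε * (B * l) := mul_le_mul_of_nonneg_left h1 hε0.le
    have h3 : ε * (B * l) ≤ 1 / 400 * l := by
      rw [← mul_assoc]; exact mul_le_mul_of_nonneg_right hεB (by linarith only [hl1])
    linarith only [h2, h3]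
  -- the derivative
  have hexp0 : 0 < Real.exp (-l) := Real.exp_pos _
  have hexp1 : Real.exp (-l) ≤ 1 := Real.exp_le_one_iff.2 (by linarith only [hl1])
  set x1 : ℝ := 1 + Real.exp (-l) with hx1
  have hder : ∀ x : ℝ, 1 < x → x ≤ x1 →
      ‖χ.LFunction (x1 : ℂ) - χ.LFunction (x : ℂ)‖ ≤ C₁ * (A * l) ^ 2 * Real.exp (-l) := by
    intro x hx hxx
    have hx1' : 1 < x1 := by linarith only [hexp0]
    have h := norm_LSeries_sub_le hr0 χ (s := (x : ℂ)) (s' := (x1 : ℂ))
      (M := C₁ * (A * l) ^ 2) (by simpa using hx) (by simpa using hx1') (by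
        intro z hz
        rw [segment_eq_image_lineMap] at hz
        obtain ⟨u, hu, rfl⟩ := hz
        have e : (AffineMap.lineMap (x : ℂ) (x1 : ℂ)) u = (((x + u * (x1 - x) : ℝ)) : ℂ) := by
          simp only [AffineMap.lineMap_apply, vsub_eq_sub, vadd_eq_add, Complex.real_smul]
          push_cast
          ring
        rw [e]
        set v : ℝ := x + u * (x1 - x) with hv
        have hv1 : 1 < v := by
          have : 0 ≤ u * (x1 - x) := mul_nonneg hu.1 (by linarith only [hxx])
          linarith only [hx, this]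
        have hv2 : v ≤ 2 := by
          have : u * (x1 - x) ≤ 1 * (x1 - x) := mul_le_mul_of_nonneg_right hu.2 (by linarith only [hxx])
          linarith only [hexp1, this]
        refine (hC1 r hr0 χ hχ (v : ℂ) (by simpa using hv1)).trans ?_
        have hlb := log_bound' (B := B) (D := 0) hl1 (by omega : 1 ≤ r) hrB (s := (v : ℂ))
          (by rw [Complex.ofReal_re, abs_of_nonneg (by linarith only [hv1])]; exact hv2)
          (by rw [Complex.ofReal_im, abs_zero]; positivity)
        apply mul_le_mul_of_nonneg_left _ (by linarith only [hC₁])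
        have h2 := hlb.2
        rw [Nat.cast_zero, add_zero] at h2
        exact pow_le_pow_left₀ (by linarith only [hlb, hlb.1]) h2 _)
    rw [← Complex.ofReal_sub, Complex.norm_real] at h
    rw [LSeries_eq_LFunction hr0 χ (by simpa using hx1'),
      LSeries_eq_LFunction hr0 χ (by simpa using hx)] at h
    refine h.trans ?_
    apply mul_le_mul_of_nonneg_left _ (by positivity)
    rw [Real.norm_of_nonneg (by linarith only [hxx])]
    linarith only [hx]
  have hlim : ‖χ.LFunction (x1 : ℂ) - χ.LFunction 1‖ ≤ C₁ * (A * l) ^ 2 * Real.exp (-l) := by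
    have hcont : Continuous (fun x : ℝ => ‖χ.LFunction (x1 : ℂ) - χ.LFunction (x : ℂ)‖) := by
      have h1 : Continuous (χ.LFunction) := (DirichletCharacter.differentiable_LFunction hχ).continuous
      fun_prop
    have ht : Tendsto (fun x : ℝ => ‖χ.LFunction (x1 : ℂ) - χ.LFunction (x : ℂ)‖) (𝓝[>] 1)
        (𝓝 ‖χ.LFunction (x1 : ℂ) - χ.LFunction ((1 : ℝ) : ℂ)‖) :=
      (hcont.tendsto 1).mono_left nhdsWithin_le_nhds
    rw [Complex.ofReal_one] at ht
    refine le_of_tendsto ht ?_
    have hmem : Set.Ioo (1 : ℝ) x1 ∈ 𝓝[>] (1 : ℝ) := Ioo_mem_nhdsGT (by linarith only [hexp0])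
    filter_upwards [hmem] with x hx
    exact hder x hx.1 hx.2.le
  rw [LSeries_eq_LFunction hr0 χ (by rw [Complex.ofReal_re]; linarith only [hexp0])]
  have h3 : ‖χ.LFunction 1‖ ≤ ‖χ.LFunction (x1 : ℂ)‖ + ‖χ.LFunction (x1 : ℂ) - χ.LFunction 1‖ := by
    rw [norm_sub_rev]
    exact norm_le_insert' _ _
  -- numerical comparison
  have hp2' : 3 * Real.exp (-(l / 300)) ≤ c * Real.exp (-(l / 400)) := by
    rw [pow_zero, mul_one, div_le_iff₀ hc] at hp2
    have h4 : Real.exp (-(l / 400)) = Real.exp (1 / 1200 * l) * Real.exp (-(l / 300)) := by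
      rw [← Real.exp_add]; congr 1; ring
    rw [h4]
    have h5 := Real.exp_pos (-(l / 300))
    have h12 := mul_le_mul_of_nonneg_right hp2 h5.le
    clear * - h12
    linarith
  have hp1' : C₁ * (A * l) ^ 2 * Real.exp (-l) ≤ Real.exp (-(l / 300)) := by
    calc C₁ * (A * l) ^ 2 * Real.exp (-l) = C₁ * A ^ 2 * l ^ 2 * Real.exp (-l) := by ring
      _ ≤ Real.exp (1 / 2 * l) * Real.exp (-l) := mul_le_mul_of_nonneg_right hp1 hexp0.le
      _ = Real.exp (-(l / 2)) := by rw [← Real.exp_add]; congr 1; ring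
      _ ≤ _ := Real.exp_le_exp.mpr (by linarith only [hl1])
  linarith only [hr0, this, hL1, hlim, h3, hp2', hp1']

/-- The lower bound for all primitive characters. -/
theorem lower_all' (B D : ℕ) : ∀ᶠ l : ℝ in atTop, ∀ (r : ℕ) (χ : DirichletCharacter ℂ r),
    r ≠ 0 → (r : ℝ) ≤ Real.exp (B * l) → χ.IsPrimitive → ∀ t : ℝ, |t| ≤ Real.exp (D * l) →
      (2 ≤ r ∨ Real.exp (-(l / 200)) ≤ |t|) →
      Real.exp (-(l / 10)) ≤
        ‖LSeries (fun n => χ n) (((1 + Real.exp (-l) : ℝ) : ℂ) + Complex.I * t)‖ := by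
  obtain ⟨C₁, hC₁, hC1⟩ := norm_LjChar_le 1
  obtain ⟨C₀, hC₀, hC0⟩ := norm_LjChar_le 0
  obtain ⟨C₂, hC₂, hC2⟩ := norm_LTriv_le
  obtain ⟨C₃, hC₃, hC3⟩ := norm_Lj_one_le 1
  set A : ℝ := B + D + 3 with hA
  have hA1 : 1 ≤ A := by
    have : (0 : ℝ) ≤ B := Nat.cast_nonneg B
    have : (0 : ℝ) ≤ D := Nat.cast_nonneg D
    rw [hA]; linarith
  filter_upwards [eventually_ge_atTop 1, real_lower B,
    ev_poly (C₁ * A ^ 2) 2 (show (0 : ℝ) < 1 / 600 by norm_num),
    ev_poly (4 * C₃ * A ^ 2) 2 (show (0 : ℝ) < 1 / 100 by norm_num),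
    ev_poly (C₀ * A) 1 (show (0 : ℝ) < 1 / 50 by norm_num),
    ev_poly (C₂ * A) 1 (show (0 : ℝ) < 1 / 100 by norm_num),
    ev_poly 432 0 (show (0 : ℝ) < 1 / 100 by norm_num)]
    with l hl1 hreal hp1 hp3 hp0 hp2 hp432
  intro r χ hr0 hrB hprim t ht hcond
  rw [pow_one] at hp0 hp2
  rw [pow_zero, mul_one] at hp432
  have hr1 : 1 ≤ r := Nat.one_le_iff_ne_zero.mpr hr0
  set c : ℝ := 1 + Real.exp (-l) with hc
  have hexp0 : 0 < Real.exp (-l) := Real.exp_pos _
  have hc1 : 1 < c := by rw [hc]; linarith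
  set M : ℝ := Real.exp (l / 50) with hM
  have hM1 : 1 ≤ M := Real.one_le_exp (by linarith only [hl1])
  set δ : ℝ := 1 / (432 * M ^ 5) with hδ
  have hδ0 : 0 < δ := by positivity
  have hδ1 : δ ≤ 1 := by
    rw [hδ, div_le_one (by positivity)]
    have : 1 ≤ M ^ 5 := one_le_pow₀ hM1
    linarith only [this]
  have hM5 : M ^ 5 = Real.exp (l / 10) := by
    rw [hM, ← Real.exp_nat_mul]; congr 1; push_cast; ring
  have hcδ : c ≤ 1 + δ := by
    have h1 : Real.exp (-l) ≤ δ := by
      rw [hδ, le_div_iff₀ (by positivity), hM5]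
      calc Real.exp (-l) * (432 * Real.exp (l / 10)) ≤
            Real.exp (-l) * (Real.exp (1 / 100 * l) * Real.exp (l / 10)) := by
            (clear * - hp432; gcongr)
        _ = Real.exp (-l + 1 / 100 * l + l / 10) := by
            rw [Real.exp_add, Real.exp_add, mul_assoc]
        _ ≤ 1 := Real.exp_le_one_iff.2 (by linarith only [hl1])
    rw [hc]; linarith only [h1]
  have hE : 1 ≤ Real.exp (D * l) := Real.one_le_exp (by positivity)
  have hder : ∀ σ y : ℝ, c ≤ σ → σ ≤ 2 → |y| ≤ Real.exp (D * l) →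
      (2 ≤ r ∨ Real.exp (-(l / 200)) ≤ |y|) →
      ‖Lj (fun n => χ n) 1 (σ + Complex.I * y)‖ ≤ M := by
    intro σ y hσ hσ2 hy hcy
    have hlb := log_bound' (B := B) (D := D) hl1 hr1 hrB (s := σ + Complex.I * y)
      (by simp; rw [abs_of_nonneg (by linarith)]; exact hσ2) (by simp; linarith)
    by_cases hr2 : 2 ≤ r
    · have hχ := ne_one_of_prim hr2 hprim
      refine (hC1 r hr0 χ hχ _ (by simp; linarith only [hexp0, hσ])).trans ?_
      calc C₁ * (1 + Real.log (r * (1 + ‖(σ + Complex.I * y : ℂ)‖))) ^ (1 + 1) ≤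
            C₁ * (A * l) ^ (1 + 1) := by
            apply mul_le_mul_of_nonneg_left _ (by linarith only [hC₁])
            exact pow_le_pow_left₀ (by linarith only [hlb, hlb.1]) hlb.2 _
        _ = C₁ * A ^ 2 * l ^ 2 := by ring
        _ ≤ Real.exp (1 / 600 * l) := hp1
        _ ≤ M := Real.exp_le_exp.mpr (by linarith only [hl1])
    · have hr1' : r = 1 := by omega
      subst hr1'
      have hχ1 : (fun n : ℕ => χ (n : ZMod 1)) = fun _ => (1 : ℂ) := by
        funext n
        rw [DirichletCharacter.level_one χ]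
        have : IsUnit ((n : ZMod 1)) := isUnit_of_subsingleton _
        exact MulChar.one_apply this
      have hyτ : Real.exp (-(l / 200)) ≤ |y| := hcy.resolve_left hr2
      rw [hχ1]
      refine (hC3 _ (by simp; linarith only [hexp0, hσ])).trans ?_
      have hn1 : |y| ≤ ‖(σ + Complex.I * y : ℂ) - 1‖ := by
        have := Complex.abs_im_le_norm ((σ + Complex.I * y : ℂ) - 1)
        simpa using this
      have hy0 : 0 < |y| := lt_of_lt_of_le (Real.exp_pos _) hyτ
      have h5 : 1 / ‖(σ + Complex.I * y : ℂ) - 1‖ ≤ Real.exp (l / 200) := by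
        calc 1 / ‖(σ + Complex.I * y : ℂ) - 1‖ ≤ 1 / Real.exp (-(l / 200)) := by
              apply one_div_le_one_div_of_le (Real.exp_pos _)
              exact hyτ.trans hn1
          _ = Real.exp (l / 200) := by rw [Real.exp_neg, one_div, inv_inv]
      have h6 : 1 ≤ Real.exp (l / 200) := Real.one_le_exp (by linarith only [hl1])
      have h7 := hlb.2
      rw [Nat.cast_one, one_mul] at h7
      have h8 := hlb.1
      rw [Nat.cast_one, one_mul] at h8
      have hprod : (1 + Real.log (1 + ‖(σ + Complex.I * y : ℂ)‖)) *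
          (1 + 1 / ‖(σ + Complex.I * y : ℂ) - 1‖) ≤ (A * l) * (2 * Real.exp (l / 200)) := by
        apply mul_le_mul h7 (by linarith only [h5, h6]) (by positivity) (by positivity)
      calc C₃ * ((1 + Real.log (1 + ‖(σ + Complex.I * y : ℂ)‖)) *
            (1 + 1 / ‖(σ + Complex.I * y : ℂ) - 1‖)) ^ (1 + 1) ≤
            C₃ * ((A * l) * (2 * Real.exp (l / 200))) ^ (1 + 1) := by
            apply mul_le_mul_of_nonneg_left _ (by linarith only [hC₃])
            apply pow_le_pow_left₀ _ hprod
            apply mul_nonneg (by linarith only [h8]) (by positivity)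
        _ = (4 * C₃ * A ^ 2 * l ^ 2) * (Real.exp (l / 200)) ^ 2 := by ring
        _ ≤ Real.exp (1 / 100 * l) * (Real.exp (l / 200)) ^ 2 := by
            gcongr
        _ = M := by
            rw [← Real.exp_nat_mul, ← Real.exp_add, hM]
            congr 1
            push_cast
            ring
  by_cases hcase : 2 ≤ r ∧ χ ^ 2 = 1 ∧ |t| < Real.exp (-(l / 200))
  · -- quadratic, near the real axis
    obtain ⟨hr2, hsq, htsmall⟩ := hcase
    have hχ := ne_one_of_prim hr2 hprim
    have hL := hreal r χ hr2 hrB hprim hsq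
    have hK : C₁ * A ^ 2 * l ^ 2 ≤ Real.exp (1 / 600 * l) := hp1
    have hmv := norm_LSeries_sub_le hr0 χ (s := (c : ℂ)) (s' := (c : ℂ) + Complex.I * t)
      (M := C₁ * A ^ 2 * l ^ 2) (by simpa using hc1) (by simpa using hc1) (by
        intro z hz
        rw [segment_eq_image_lineMap] at hz
        obtain ⟨u, hu, rfl⟩ := hz
        have e : (AffineMap.lineMap (c : ℂ) ((c : ℂ) + Complex.I * t)) u =
            (c : ℂ) + Complex.I * ((u * t : ℝ) : ℂ) := by
          simp only [AffineMap.lineMap_apply, vsub_eq_sub, vadd_eq_add, Complex.real_smul]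
          push_cast
          ring
        rw [e]
        have hut : |u * t| ≤ Real.exp (D * l) := by
          rw [abs_mul, abs_of_nonneg hu.1]
          calc u * |t| ≤ 1 * |t| := mul_le_mul_of_nonneg_right hu.2 (abs_nonneg t)
            _ ≤ _ := by linarith only [ht]
        have hlb := log_bound' (B := B) (D := D) hl1 hr1 hrB
          (s := (c : ℂ) + Complex.I * ((u * t : ℝ) : ℂ))
          (by
            rw [Complex.add_re, Complex.ofReal_re, Complex.mul_re, Complex.I_re, Complex.I_im,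
              Complex.ofReal_im]
            simp
            rw [abs_of_nonneg (by linarith only [hexp0])]; linarith only [hδ1, hcδ])
          (by
            rw [Complex.add_im, Complex.ofReal_im, Complex.mul_im, Complex.I_re, Complex.I_im,
              Complex.ofReal_re, Complex.ofReal_im, zero_mul, zero_add, zero_add, one_mul]
            linarith only [hE, hut])
        refine (hC1 r hr0 χ hχ _ (by
          rw [Complex.add_re, Complex.ofReal_re, Complex.mul_re, Complex.I_re, Complex.I_im,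
              Complex.ofReal_im]
          simp
          linarith only [hexp0])).trans ?_
        calc C₁ * (1 + Real.log (r * (1 + ‖(c : ℂ) + Complex.I * ((u * t : ℝ) : ℂ)‖))) ^ (1 + 1) ≤
              C₁ * (A * l) ^ (1 + 1) := by
              apply mul_le_mul_of_nonneg_left _ (by linarith only [hC₁])
              exact pow_le_pow_left₀ (by linarith only [hlb, hlb.1]) hlb.2 _
          _ = C₁ * A ^ 2 * l ^ 2 := by ring)
    have e1 : ‖(c : ℂ) + Complex.I * t - c‖ = |t| := by
      rw [add_sub_cancel_left, norm_mul, Complex.norm_I, one_mul, Complex.norm_real,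
        Real.norm_eq_abs]
    rw [e1] at hmv
    have h1 : C₁ * A ^ 2 * l ^ 2 * |t| ≤ Real.exp (-(l / 300)) := by
      calc C₁ * A ^ 2 * l ^ 2 * |t| ≤ Real.exp (1 / 600 * l) * Real.exp (-(l / 200)) := by
            gcongr
        _ = Real.exp (-(l / 300)) := by rw [← Real.exp_add]; congr 1; ring
    have h2 : ‖LSeries (fun n => χ n) (c : ℂ)‖ ≤ ‖LSeries (fun n => χ n) ((c : ℂ) + Complex.I * t)‖ +
        ‖LSeries (fun n => χ n) ((c : ℂ) + Complex.I * t) - LSeries (fun n => χ n) (c : ℂ)‖ := by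
      rw [norm_sub_rev]
      exact norm_le_insert' _ _
    have h4 : Real.exp (-(l / 10)) ≤ Real.exp (-(l / 300)) := Real.exp_le_exp.mpr (by linarith only [hl1])
    linarith only [hL, hmv, h1, h2, h4]
  · -- otherwise
    have hτ : χ ^ 2 = 1 → Real.exp (-(l / 200)) ≤ |t| := by
      intro hsq
      rcases hcond with h | h
      · by_contra hlt
        rw [not_le] at hlt
        exact hcase ⟨h, hsq, hlt⟩
      · exact h
    have h2 : ‖LSeries (fun n => (χ ^ 2 : DirichletCharacter ℂ r) n)
        (1 + δ + 2 * Complex.I * t)‖ ≤ M := by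
      have hs : (1 + δ + 2 * Complex.I * t : ℂ) = ((1 + δ : ℝ) : ℂ) + Complex.I * ((2 * t : ℝ) : ℂ) := by
        push_cast; ring
      have hre : (1 + δ + 2 * Complex.I * t : ℂ).re = 1 + δ := by rw [hs]; simp
      have him : (1 + δ + 2 * Complex.I * t : ℂ).im = 2 * t := by rw [hs]; simp
      have hlb := log_bound' (B := B) (D := D) hl1 hr1 hrB
        (s := (1 + δ + 2 * Complex.I * t : ℂ))
        (by rw [hre, abs_of_nonneg (by linarith only [hδ0])]; linarith)
        (by rw [him, abs_mul, abs_of_nonneg (by norm_num : (0 : ℝ) ≤ 2)]; linarith)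
      have hlogA : 1 + Real.log (r * (1 + ‖(1 + δ + 2 * Complex.I * t : ℂ)‖)) ≤ A * l := hlb.2
      by_cases hsq : χ ^ 2 = 1
      · have ht9 := hτ hsq
        rw [hsq]
        refine (hC2 r hr0 _ (by rw [hre]; linarith only [hδ0])).trans ?_
        have h5 : |2 * t| ≤ ‖(1 + δ + 2 * Complex.I * t : ℂ) - 1‖ := by
          have := Complex.abs_im_le_norm ((1 + δ + 2 * Complex.I * t : ℂ) - 1)
          rw [Complex.sub_im, him, Complex.one_im, sub_zero] at this
          exact this
        have ht0 : 0 < |t| := lt_of_lt_of_le (by positivity) ht9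
        have h6 : 2 / ‖(1 + δ + 2 * Complex.I * t : ℂ) - 1‖ ≤ Real.exp (l / 200) := by
          have h7 : (0 : ℝ) < |2 * t| := by rw [abs_mul]; positivity
          calc 2 / ‖(1 + δ + 2 * Complex.I * t : ℂ) - 1‖ ≤ 2 / |2 * t| := by (clear * - h7 h5; gcongr)
            _ = 1 / |t| := by
                rw [abs_mul, abs_of_nonneg (by norm_num : (0 : ℝ) ≤ 2)]
                field_simp
            _ ≤ 1 / Real.exp (-(l / 200)) := one_div_le_one_div_of_le (Real.exp_pos _) ht9
            _ = Real.exp (l / 200) := by rw [Real.exp_neg, one_div, inv_inv]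
        calc _ ≤ C₂ * (A * l) + Real.exp (l / 200) := by (clear * - hlogA hC₂ h6; gcongr)
          _ = (C₂ * A) * l + Real.exp (l / 200) := by ring
          _ ≤ Real.exp (1 / 100 * l) + Real.exp (1 / 100 * l) := by
              apply add_le_add hp2
              exact Real.exp_le_exp.mpr (by linarith only [hl1])
          _ = 2 * Real.exp (1 / 100 * l) := by ring
          _ ≤ Real.exp (1 / 100 * l) * Real.exp (1 / 100 * l) := by
              apply mul_le_mul_of_nonneg_right (by linarith only [hp432]) (Real.exp_pos _).le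
          _ = M := by rw [← Real.exp_add, hM]; congr 1; ring
      · have h5 := hC0 r hr0 (χ ^ 2) hsq (1 + δ + 2 * Complex.I * t) (by rw [hre]; linarith)
        rw [Lj_zero_eq, zero_add, pow_one] at h5
        refine h5.trans ?_
        calc C₀ * (1 + Real.log (r * (1 + ‖(1 + δ + 2 * Complex.I * t : ℂ)‖))) ≤ C₀ * (A * l) := by
              gcongr
          _ = (C₀ * A) * l := by ring
          _ ≤ Real.exp (1 / 50 * l) := hp0
          _ = M := by rw [hM]; congr 1; ring
    have h3 : ‖LSeries (fun n => (1 : DirichletCharacter ℂ r) n) (1 + δ)‖ ≤ 3 / δ := by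
      have hs : (1 + δ : ℂ) = ((1 + δ : ℝ) : ℂ) := by push_cast; ring
      have hre : (1 + δ : ℂ).re = 1 + δ := by rw [hs]; simp
      have him : (1 + δ : ℂ).im = 0 := by rw [hs]; simp
      have hlb := log_bound' (B := B) (D := D) hl1 hr1 hrB (s := (1 + δ : ℂ))
        (by rw [hre, abs_of_nonneg (by linarith only [hδ0])]; linarith only [hδ1])
        (by rw [him, abs_zero]; positivity)
      have hlogA : 1 + Real.log (r * (1 + ‖(1 + δ : ℂ)‖)) ≤ A * l := hlb.2
      refine (hC2 r hr0 _ (by rw [hre]; linarith only [hδ0])).trans ?_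
      have h5 : ‖(1 + δ : ℂ) - 1‖ = δ := by
        rw [add_sub_cancel_left, Complex.norm_real, Real.norm_of_nonneg hδ0.le]
      rw [h5]
      have h6 : C₂ * (1 + Real.log (r * (1 + ‖(1 + δ : ℂ)‖))) ≤ 1 / δ := by
        calc _ ≤ C₂ * (A * l) := by gcongr
          _ = (C₂ * A) * l := by ring
          _ ≤ Real.exp (1 / 100 * l) := hp2
          _ ≤ M := Real.exp_le_exp.mpr (by linarith only [hl1])
          _ ≤ 1 / δ := by
              rw [hδ, one_div_one_div]
              have : M ≤ M ^ 5 := le_self_pow₀ hM1 (by norm_num)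
              linarith only [hM1, this]
      have h7 : 3 / δ = 1 / δ + 2 / δ := by ring
      rw [h7]
      linarith only [h6]
    have hfin := lower341 hr0 χ (t := t) (c := c) hM1 hδ hc1 hcδ (by
      intro σ hσ hσ2
      exact hder σ t hσ (by linarith only [hδ1, hσ2]) ht hcond) h2 h3
    refine le_trans ?_ hfin
    have e : M ^ 4 = Real.exp (4 / 50 * l) := by
      rw [hM, ← Real.exp_nat_mul]; congr 1; push_cast; ring
    rw [e, Real.exp_neg, ← one_div]
    apply one_div_le_one_div_of_le (by positivity)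
    calc 432 * Real.exp (4 / 50 * l) ≤ Real.exp (1 / 100 * l) * Real.exp (4 / 50 * l) := by gcongr
      _ = Real.exp (9 / 100 * l) := by rw [← Real.exp_add]; congr 1; ring
      _ ≤ Real.exp (l / 10) := Real.exp_le_exp.mpr (by linarith only [hl1])

end Pool.Agent.BVall
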