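import Pool.Agent.Lib.MP_0da313_nt.BV.DefsL
import Pool.Agent.Lib.MP_0da313_nt.BV.NonvanAll
import Pool.Agent.Lib.MP_89da58_nt.Small

set_option autoImplicit false

/-!
Small conductors and the prime number theorem for the weight `OmL lam X`, all large `X`.
-/

namespace Pool.Agent.BVall

open MeasureTheory Finset Filter
open scoped FourierTransform
open Pool.Agent.MP89da58 (tri cX)
open Pool.Agent.MP89da58.S

lemma term_weightL (a : ℕ → ℂ) (k : ℕ) {lam L : ℝ} (hlam : 1 ≤ lam) (hL : 2 ≤ L) (n : ℕ)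
    (hn : n ≠ 0) :
    ((Real.log n : ℝ) : ℂ) * a n * (OmL lam (Real.exp L) n : ℂ) =
      ((((Real.exp L) ^ (1 + 1 / L) / L ^ k : ℝ)) : ℂ) *
        (LSeries.term (fun n => ((Real.log n : ℝ) : ℂ) ^ (k + 1) * a n)
          (((1 + 1 / L : ℝ)) : ℂ) n * gk (lam * L) k (lam * (Real.log n - L))) := by
  have hn1 : (1 : ℝ) ≤ n := by exact_mod_cast Nat.one_le_iff_ne_zero.2 hn
  have hn0 : (0 : ℝ) < n := by linarith
  have hL0 : 0 < L := by linarith
  have hlam0 : 0 < lam := by linarith
  have hlog : Real.log ((n : ℝ) / Real.exp L) = Real.log n - L := by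
    rw [Real.log_div hn0.ne' (Real.exp_pos L).ne', Real.log_exp]
  rw [LSeries.term_of_ne_zero hn]
  unfold OmL cX
  rw [hlog, Real.log_exp]
  rcases le_or_gt 1 |lam * (Real.log n - L)| with h | h
  · rw [gk_eq_zero (lam * L) k h, tri_of_abs_ge h]
    simp
  · have hLL : 2 ≤ lam * L := by nlinarith only [hlam, hL]
    have hb := base_pos hLL h.le
    have hgk : gk (lam * L) k (lam * (Real.log n - L)) =
        ((tri (lam * (Real.log n - L)) * ((Real.log n / L) ^ k)⁻¹ : ℝ) : ℂ) := by
      unfold gk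
      rw [max_eq_right hb]
      congr 4
      field_simp
      ring
    rw [hgk]
    have e1 : (n : ℂ) ^ (((1 + 1 / L : ℝ)) : ℂ) = (((n : ℝ) ^ (1 + 1 / L) : ℝ) : ℂ) := by
      rw [Complex.ofReal_cpow hn0.le]; simp
    rw [e1]
    have e2 : (Real.exp L / n) ^ (1 + 1 / L) = (Real.exp L) ^ (1 + 1 / L) / (n : ℝ) ^ (1 + 1 / L) :=
      Real.div_rpow (Real.exp_pos L).le hn0.le _
    rw [e2]
    have hnp : (0 : ℝ) < (n : ℝ) ^ (1 + 1 / L) := by positivity
    have hlogpos : 0 < Real.log n := by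
      have h1 := (abs_lt.1 h).1
      have h2 : -1 < Real.log n - L := by
        by_contra hc
        rw [not_lt] at hc
        have h12 := mul_le_mul_of_nonneg_left hc (by linarith : 0 ≤ lam)
        linarith
      linarith only [hL, h2]
    have e3 : Real.log n * ((Real.exp L) ^ (1 + 1 / L) / (n : ℝ) ^ (1 + 1 / L) *
        tri (lam * (Real.log n - L))) =
        (Real.exp L) ^ (1 + 1 / L) / L ^ k * ((Real.log n) ^ (k + 1) / (n : ℝ) ^ (1 + 1 / L) *
          (tri (lam * (Real.log n - L)) * ((Real.log n / L) ^ k)⁻¹)) := by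
      rw [div_pow, pow_succ]
      field_simp
    have e4 := congrArg (fun x : ℝ => (x : ℂ)) e3
    push_cast at e4 ⊢
    linear_combination (a n) * e4

/-- representation of `psiG` as an integral -/
theorem psiG_eq {a : ℕ → ℂ} (ha : ∀ n, ‖a n‖ ≤ 1) (k : ℕ) {lam L : ℝ} (hlam : 1 ≤ lam)
    (hL : 2 ≤ L) :
    psiG lam (Real.exp L) a = ((((Real.exp L) ^ (1 + 1 / L) / L ^ k : ℝ)) : ℂ) *
      ∫ w : ℝ, Complex.exp (((2 * Real.pi * (w * (-(lam * L))) : ℝ) : ℂ) * Complex.I) *
        𝓕 (gk (lam * L) k) w *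
        Lj a (k + 1) ((((1 + 1 / L : ℝ)) : ℂ) - ((2 * Real.pi * (lam * w) : ℝ) : ℂ) * Complex.I) := by
  have hL0 : 0 < L := by linarith
  have hlam0 : 0 < lam := by linarith
  have hLL : 2 ≤ lam * L := by nlinarith
  set c : ℂ := (((1 + 1 / L : ℝ)) : ℂ) with hc
  have hcre : 1 < c.re := by
    rw [hc, Complex.ofReal_re]
    have : 0 < 1 / L := by positivity
    linarith
  set f : ℕ → ℂ := fun n => ((Real.log n : ℝ) : ℂ) ^ (k + 1) * a n with hf
  set K : ℂ := ((((Real.exp L) ^ (1 + 1 / L) / L ^ k : ℝ)) : ℂ) with hK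
  have hsum : Summable (fun n => LSeries.term f c n) := summable_Lj ha (k + 1) hcre
  have h1 : psiG lam (Real.exp L) a = ∑ n ∈ Finset.Icc 1 ⌊3 * Real.exp L⌋₊,
      K * (LSeries.term f c n * gk (lam * L) k (lam * (Real.log n - L))) := by
    unfold psiG
    apply Finset.sum_congr rfl
    intro n hn
    exact term_weightL a k hlam hL n (by have := (Finset.mem_Icc.1 hn).1; omega)
  have h2 : psiG lam (Real.exp L) a =
      ∑' n, K * (LSeries.term f c n * gk (lam * L) k (lam * (Real.log n - L))) := by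
    rw [h1]
    symm
    apply tsum_eq_sum
    intro n hn
    rcases eq_or_ne n 0 with rfl | hn0
    · simp
    have hn3 : 3 * Real.exp L < n := by
      rw [Finset.mem_Icc, not_and_or] at hn
      rcases hn with hn | hn
      · omega
      · rw [not_le] at hn
        exact (Nat.floor_lt (by positivity)).1 hn
    have hgz : gk (lam * L) k (lam * (Real.log n - L)) = 0 := by
      apply gk_eq_zero
      have h3 : Real.log (3 * Real.exp L) ≤ Real.log n := Real.log_le_log (by positivity) hn3.le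
      rw [Real.log_mul (by norm_num) (Real.exp_pos L).ne', Real.log_exp] at h3
      have h4 : 1 ≤ Real.log 3 := by
        rw [Real.le_log_iff_exp_le (by norm_num)]
        have := Real.exp_one_lt_d9
        linarith
      have h5 : 1 ≤ Real.log n - L := by linarith
      rw [abs_of_nonneg (by positivity)]
      nlinarith only [hlam, h3, h4]
    rw [hgz]
    simp
  set F : ℕ → ℝ → ℂ := fun n w =>
    Complex.exp (((2 * Real.pi * (w * (-(lam * L))) : ℝ) : ℂ) * Complex.I) *
      𝓕 (gk (lam * L) k) w *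
      LSeries.term f (c - ((2 * Real.pi * (lam * w) : ℝ) : ℂ) * Complex.I) n with hF
  have hFeq : ∀ n w, F n w = LSeries.term f c n *
      (Complex.exp (((2 * Real.pi * (w * (lam * (Real.log n - L))) : ℝ) : ℂ) * Complex.I) *
        𝓕 (gk (lam * L) k) w) := by
    intro n w
    rw [hF]
    simp only
    rw [term_shift]
    have : Complex.exp (((2 * Real.pi * (w * (lam * (Real.log n - L))) : ℝ) : ℂ) * Complex.I) =
        Complex.exp (((2 * Real.pi * (w * (-(lam * L))) : ℝ) : ℂ) * Complex.I) *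
        Complex.exp (((2 * Real.pi * (lam * w) * Real.log n : ℝ) : ℂ) * Complex.I) := by
      rw [← Complex.exp_add]
      congr 1
      push_cast
      ring
    rw [this]
    ring
  have hFnorm : ∀ n w, ‖F n w‖ = ‖LSeries.term f c n‖ * ‖𝓕 (gk (lam * L) k) w‖ := by
    intro n w
    rw [hFeq, norm_mul, norm_mul, Complex.norm_exp_ofReal_mul_I, one_mul]
  have hFint : ∀ n, Integrable (F n) := by
    intro n
    apply Integrable.mono' ((integrable_fourier_gk k hLL).norm.const_mul ‖LSeries.term f c n‖)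
    · apply Continuous.aestronglyMeasurable
      have : F n = fun w => LSeries.term f c n *
        (Complex.exp (((2 * Real.pi * (w * (lam * (Real.log n - L))) : ℝ) : ℂ) * Complex.I) *
        𝓕 (gk (lam * L) k) w) := funext (hFeq n)
      rw [this]
      have hcf := continuous_fourier_gk (lam * L) k
      fun_prop
    · exact Eventually.of_forall (fun w => (hFnorm n w).le)
  have hFsum : Summable (fun n => ∫ w, ‖F n w‖) := by
    have : (fun n => ∫ w, ‖F n w‖) = fun n => ‖LSeries.term f c n‖ *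
        ∫ w, ‖𝓕 (gk (lam * L) k) w‖ := by
      funext n
      rw [← integral_const_mul]
      exact integral_congr_ae (Eventually.of_forall (fun w => hFnorm n w))
    rw [this]
    exact hsum.norm.mul_right _
  have hHS := hasSum_integral_of_summable_integral_norm hFint hFsum
  have hint : ∀ n, ∫ w, F n w = LSeries.term f c n *
      gk (lam * L) k (lam * (Real.log n - L)) := by
    intro n
    rw [gk_inversion k hLL (lam * (Real.log n - L)), ← integral_const_mul]
    exact integral_congr_ae (Eventually.of_forall (fun w => hFeq n w))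
  have htsum : ∀ w, ∑' n, F n w =
      Complex.exp (((2 * Real.pi * (w * (-(lam * L))) : ℝ) : ℂ) * Complex.I) *
        𝓕 (gk (lam * L) k) w *
        Lj a (k + 1) (c - ((2 * Real.pi * (lam * w) : ℝ) : ℂ) * Complex.I) := by
    intro w
    rw [hF]
    simp only
    rw [tsum_mul_left]
    rfl
  rw [h2, tsum_mul_left]
  congr 1
  have e1 : ∑' n, LSeries.term f c n * gk (lam * L) k (lam * (Real.log n - L)) =
      ∑' n, ∫ w, F n w := tsum_congr (fun n => (hint n).symm)
  rw [e1, hHS.tsum_eq]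
  exact integral_congr_ae (Eventually.of_forall (fun w => htsum w))

/-- the main estimate, `k = 2 A + 2`, `D = 2 (k + 2)` -/
theorem psiG_le (A : ℕ) {lam : ℝ} (hlam : 1 ≤ lam) : ∀ᶠ l : ℝ in atTop, ∀ a : ℕ → ℂ,
    (∀ n, ‖a n‖ ≤ 1) →
    (∀ t : ℝ, |t| ≤ Real.exp ((2 * (2 * A + 2 + 2) : ℕ) * l) →
      ‖Lj a (2 * A + 2 + 1) (((1 + Real.exp (-l) : ℝ) : ℂ) + Complex.I * t)‖ ≤
        2 * (Real.exp (l / 5)) ^ (2 * A + 2 + 1)) →
    ‖psiG lam (Real.exp (Real.exp l)) a‖ ≤ Real.exp (Real.exp l) / (Real.exp l) ^ A := by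
  set k : ℕ := 2 * A + 2 with hk
  set D : ℕ := 2 * (k + 2) with hD
  obtain ⟨C, hC1, hC⟩ := Lj_trivial (k + 1)
  set J : ℝ := ∫ w : ℝ, (1 + w ^ 2) ^ (-(3 / 4) : ℝ) with hJ
  have hJ0 : 0 ≤ J := integral_nonneg (fun w => by positivity)
  have hMB := MB_pos k
  have hlam0 : 0 < lam := by linarith
  filter_upwards [eventually_ge_atTop 1,
    ev_poly (Real.exp 1 * (2 * MB k) * (2 * Real.pi + 3 * (C * lam) * J)) 0
      (show (0 : ℝ) < 1 by norm_num)] with l hl1 hev
  intro a ha hbound
  set L : ℝ := Real.exp l with hL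
  have hL2 : 2 ≤ L := by
    have := Real.add_one_le_exp l
    rw [hL]; linarith
  have hL0 : 0 < L := by linarith
  have hLL : 2 ≤ lam * L := by nlinarith only [hlam, hL2]
  rw [psiG_eq ha k hlam hL2, norm_mul, Complex.norm_real, Real.norm_of_nonneg (by positivity)]
  have h1L : 1 / L = Real.exp (-l) := by rw [hL, Real.exp_neg, one_div]
  set M1 : ℝ := 2 * (Real.exp (l / 5)) ^ (k + 1) with hM1
  have hM10 : 0 ≤ M1 := by positivity
  have hpt : ∀ w : ℝ, ‖Complex.exp (((2 * Real.pi * (w * (-(lam * L))) : ℝ) : ℂ) * Complex.I) *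
      𝓕 (gk (lam * L) k) w *
      Lj a (k + 1) ((((1 + 1 / L : ℝ)) : ℂ) -
        ((2 * Real.pi * (lam * w) : ℝ) : ℂ) * Complex.I)‖ ≤
      2 * MB k * (M1 * (1 + w ^ 2)⁻¹ + 3 * (C * lam) * (1 + w ^ 2) ^ (-(3 / 4) : ℝ)) := by
    intro w
    rw [norm_mul, norm_mul, Complex.norm_exp_ofReal_mul_I, one_mul]
    have hw1 : (0 : ℝ) < 1 + w ^ 2 := by positivity
    have hFk : ‖Lj a (k + 1) ((((1 + 1 / L : ℝ)) : ℂ) -
        ((2 * Real.pi * (lam * w) : ℝ) : ℂ) * Complex.I)‖ ≤
        M1 + 3 * (C * lam) * (1 + w ^ 2) ^ (1 / 4 : ℝ) := by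
      rcases le_or_gt |2 * Real.pi * (lam * w)| (Real.exp (D * l)) with hw | hw
      · have h3 := hbound (-(2 * Real.pi * (lam * w))) (by rwa [abs_neg])
        have e : (((1 + 1 / L : ℝ)) : ℂ) - ((2 * Real.pi * (lam * w) : ℝ) : ℂ) * Complex.I =
            ((1 + Real.exp (-l) : ℝ) : ℂ) +
              Complex.I * ((-(2 * Real.pi * (lam * w)) : ℝ) : ℂ) := by
          rw [h1L]; push_cast; ring
        rw [e]
        refine h3.trans ?_
        have : 0 ≤ 3 * (C * lam) * (1 + w ^ 2) ^ (1 / 4 : ℝ) := by positivity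
        linarith only [this]
      · have hre : ((((1 + 1 / L : ℝ)) : ℂ) -
            ((2 * Real.pi * (lam * w) : ℝ) : ℂ) * Complex.I).re = 1 + 1 / L := by
          rw [Complex.sub_re, Complex.ofReal_re, Complex.re_ofReal_mul, Complex.I_re]
          ring
        have hiL : 0 < 1 / L := by positivity
        have hiL1 : 1 / L ≤ 1 := by
          rw [div_le_one hL0]; linarith
        have h3 := hC a ha
          ((((1 + 1 / L : ℝ)) : ℂ) - ((2 * Real.pi * (lam * w) : ℝ) : ℂ) * Complex.I)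
          (by rw [hre]; linarith) (by rw [hre]; linarith)
        rw [hre] at h3
        have e1 : C / (1 + 1 / L - 1) ^ (k + 1 + 1) = C * L ^ (k + 2) := by
          rw [add_sub_cancel_left, one_div, inv_pow, div_inv_eq_mul]
        rw [e1] at h3
        have h4 : L ^ (k + 2) ≤ 3 * lam * (1 + w ^ 2) ^ (1 / 4 : ℝ) := by
          have h5 : (L ^ (k + 2)) ^ 4 ≤ (3 * lam * (1 + w ^ 2) ^ (1 / 4 : ℝ)) ^ 4 := by
            have e2 : (3 * lam * (1 + w ^ 2) ^ (1 / 4 : ℝ)) ^ 4 = 81 * lam ^ 4 * (1 + w ^ 2) := by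
              rw [mul_pow, ← Real.rpow_natCast ((1 + w ^ 2) ^ (1 / 4 : ℝ)), ← Real.rpow_mul hw1.le]
              rw [show (1 / 4 : ℝ) * ((4 : ℕ) : ℝ) = 1 by norm_num, Real.rpow_one]
              ring
            have e3 : (L ^ (k + 2)) ^ 4 = (Real.exp (D * l)) ^ 2 := by
              rw [hL, ← Real.exp_nat_mul, ← Real.exp_nat_mul, ← Real.exp_nat_mul, hD]
              congr 1
              push_cast
              ring
            rw [e2, e3]
            have h6 : (Real.exp (D * l)) ^ 2 ≤ |2 * Real.pi * (lam * w)| ^ 2 := by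
              apply pow_le_pow_left₀ (Real.exp_pos _).le hw.le
            rw [sq_abs] at h6
            have h7 : Real.pi < 4 := Real.pi_lt_four
            have h8 : 0 < Real.pi := Real.pi_pos
            have hw2 : 0 ≤ w ^ 2 := sq_nonneg w
            have hl4 : lam ^ 2 ≤ lam ^ 4 := pow_le_pow_right₀ hlam (by norm_num)
            have h9 : (2 * Real.pi * (lam * w)) ^ 2 ≤ 64 * lam ^ 4 * w ^ 2 := by
              have : (2 * Real.pi) ^ 2 ≤ 64 :=
                (pow_le_pow_left₀ (by linarith only [h8] : 0 ≤ 2 * Real.pi)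
                  (by linarith only [h7] : 2 * Real.pi ≤ 8) 2).trans (by norm_num)
              calc (2 * Real.pi * (lam * w)) ^ 2 = (2 * Real.pi) ^ 2 * lam ^ 2 * w ^ 2 := by ring
                _ ≤ 64 * lam ^ 4 * w ^ 2 := by (clear * - this hl4 hlam; gcongr)
            have hl40 : 0 ≤ lam ^ 4 := by positivity
            linarith only [h6, h9, hl40, hw2, mul_nonneg hl40 hw2]
          exact le_of_pow_le_pow_left₀ (by norm_num) (by positivity) h5
        have hC0 : 0 ≤ C := by linarith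
        calc ‖Lj a (k + 1) ((((1 + 1 / L : ℝ)) : ℂ) -
              ((2 * Real.pi * (lam * w) : ℝ) : ℂ) * Complex.I)‖ ≤ C * L ^ (k + 2) := h3
          _ ≤ C * (3 * lam * (1 + w ^ 2) ^ (1 / 4 : ℝ)) := by gcongr
          _ = 3 * (C * lam) * (1 + w ^ 2) ^ (1 / 4 : ℝ) := by ring
          _ ≤ _ := by linarith only [hM10]
    calc ‖𝓕 (gk (lam * L) k) w‖ * ‖Lj a (k + 1) ((((1 + 1 / L : ℝ)) : ℂ) -
          ((2 * Real.pi * (lam * w) : ℝ) : ℂ) * Complex.I)‖ ≤
          (2 * MB k * (1 + w ^ 2)⁻¹) * (M1 + 3 * (C * lam) * (1 + w ^ 2) ^ (1 / 4 : ℝ)) :=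
          mul_le_mul (norm_fourier_gk_le k hLL w) hFk (norm_nonneg _) (by positivity)
      _ = _ := by
          have e4 : (1 + w ^ 2)⁻¹ * (1 + w ^ 2) ^ (1 / 4 : ℝ) = (1 + w ^ 2) ^ (-(3 / 4) : ℝ) := by
            rw [← Real.rpow_neg_one, ← Real.rpow_add hw1]
            norm_num
          rw [← e4]
          ring
  have hint : Integrable (fun w : ℝ => 2 * MB k * (M1 * (1 + w ^ 2)⁻¹ +
      3 * (C * lam) * (1 + w ^ 2) ^ (-(3 / 4) : ℝ))) :=
    ((integrable_inv_one_add_sq.const_mul _).add (integrable_J.const_mul _)).const_mul _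
  have hI := norm_integral_le_of_norm_le hint (Eventually.of_forall hpt)
  have hval : ∫ w : ℝ, 2 * MB k * (M1 * (1 + w ^ 2)⁻¹ +
      3 * (C * lam) * (1 + w ^ 2) ^ (-(3 / 4) : ℝ)) =
      2 * MB k * (M1 * Real.pi + 3 * (C * lam) * J) := by
    rw [integral_const_mul, integral_add (integrable_inv_one_add_sq.const_mul _)
      (integrable_J.const_mul _), integral_const_mul, integral_const_mul,
      integral_univ_inv_one_add_sq]
  rw [hval] at hI
  have hXc : (Real.exp L) ^ (1 + 1 / L) = Real.exp L * Real.exp 1 := by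
    rw [← Real.exp_mul, ← Real.exp_add]
    congr 1
    field_simp
  rw [hXc]
  have hLk : L ^ k = L ^ A * L ^ (A + 2) := by rw [hk, ← pow_add]; congr 1; ring
  have hfin : Real.exp 1 * (2 * MB k * (M1 * Real.pi + 3 * (C * lam) * J)) ≤ L ^ (A + 2) := by
    have hC0 : 0 ≤ C := by linarith only [hC1]
    set Y : ℝ := (Real.exp (l / 5)) ^ (k + 1) with hY
    have hY1 : 1 ≤ Y := one_le_pow₀ (Real.one_le_exp (by linarith only [hl1]))
    rw [pow_zero, mul_one, one_mul] at hev
    have h5 : M1 * Real.pi + 3 * (C * lam) * J ≤ (2 * Real.pi + 3 * (C * lam) * J) * Y := by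
      have h6 : 3 * (C * lam) * J ≤ 3 * (C * lam) * J * Y :=
        le_mul_of_one_le_right (by positivity) hY1
      calc M1 * Real.pi + 3 * (C * lam) * J ≤ 2 * Y * Real.pi + 3 * (C * lam) * J * Y := by
            rw [hM1]; linarith only [h6]
        _ = _ := by ring
    calc Real.exp 1 * (2 * MB k * (M1 * Real.pi + 3 * (C * lam) * J)) ≤
          Real.exp 1 * (2 * MB k * ((2 * Real.pi + 3 * (C * lam) * J) * Y)) := by gcongr
      _ = (Real.exp 1 * (2 * MB k) * (2 * Real.pi + 3 * (C * lam) * J)) * Y := by ring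
      _ ≤ L * Y := by
          apply mul_le_mul_of_nonneg_right _ (by positivity)
          rw [hL]; exact hev
      _ ≤ L ^ (A + 2) := by
          rw [hY, hL, ← Real.exp_nat_mul, ← Real.exp_nat_mul, ← Real.exp_add]
          apply Real.exp_le_exp.2
          rw [hk]
          push_cast
          have hA0 : (0 : ℝ) ≤ A := Nat.cast_nonneg A
          linarith only [hl1, hA0, mul_nonneg hA0 (show (0 : ℝ) ≤ l by linarith only [hl1])]
  have hLA : 0 < L ^ A := by positivity
  have hLA2 : 0 < L ^ (A + 2) := by positivity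
  calc Real.exp L * Real.exp 1 / L ^ k * ‖∫ w : ℝ, _‖ ≤
        Real.exp L * Real.exp 1 / L ^ k * (2 * MB k * (M1 * Real.pi + 3 * (C * lam) * J)) := by
        apply mul_le_mul_of_nonneg_left hI (by positivity)
    _ = Real.exp L / L ^ A * ((Real.exp 1 * (2 * MB k * (M1 * Real.pi + 3 * (C * lam) * J))) /
          L ^ (A + 2)) := by
        rw [hLk]
        field_simp
    _ ≤ Real.exp L / L ^ A * 1 := by
        apply mul_le_mul_of_nonneg_left _ (by positivity)
        rw [div_le_one hLA2]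
        exact hfin
    _ = _ := mul_one _

end Pool.Agent.BVall
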