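import Pool.Agent.Lib.MP_0da313_nt.BV.Pole
import Pool.Agent.Lib.MP_0da313_nt.BV.SmallAll
import Pool.Agent.Lib.MP_89da58_nt.Bv
import Pool.Agent.Lib.MP_89da58_nt.LargeSep

set_option autoImplicit false

/-!
Consequences for small conductors and the total mass.
-/

namespace Pool.Agent.BVall

open Finset Filter
open ArithmeticFunction (vonMangoldt)
open Pool.Agent.MP89da58 (tri cX cX_bounds tri_nonneg tri_le_one)
open Pool.Agent.MP89da58.S (Lj aL norm_aL_le aL_mul Fk)

theorem small_all (A B : ℕ) {lam : ℝ} (hlam : 1 ≤ lam) : ∀ᶠ X : ℝ in atTop, ∀ r : ℕ, 2 ≤ r →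
    (r : ℝ) ≤ (Real.log X) ^ B → ∀ χ : DirichletCharacter ℂ r, χ.IsPrimitive →
      ‖psiChiL lam X χ‖ ≤ X / (Real.log X) ^ A := by
  have h := (psiG_le A hlam).and (Fk_bound' B (2 * (2 * A + 2 + 2)) (2 * A + 2))
  have h2 := (Real.tendsto_log_atTop.comp Real.tendsto_log_atTop).eventually h
  filter_upwards [h2, eventually_gt_atTop (Real.exp 1)] with X hX hXe
  simp only [Function.comp_apply] at hX
  have hX0 : 0 < X := lt_trans (Real.exp_pos 1) hXe
  have hlX : 0 < Real.log X := Real.log_pos (by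
    have := Real.add_one_le_exp (1 : ℝ)
    linarith)
  have e1 : Real.exp (Real.exp (Real.log (Real.log X))) = X := by
    rw [Real.exp_log hlX, Real.exp_log hX0]
  have e2 : Real.exp (Real.log (Real.log X)) = Real.log X := Real.exp_log hlX
  intro r hr hrB χ hprim
  have h3 : psiChiL lam X χ = psiG lam X (aL χ) := by
    unfold psiChiL psiG
    apply Finset.sum_congr rfl
    intro n _
    have := aL_mul χ 0 n
    rw [zero_add, pow_one, pow_zero, one_mul] at this
    rw [this]
    ring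
  rw [h3]
  have h4 := hX.1 (aL χ) (norm_aL_le χ)
  rw [e1, e2] at h4
  apply h4
  intro t ht
  have h5 := hX.2 r χ (by omega) (by
    rw [Real.exp_nat_mul, e2]
    exact hrB) hprim t ht (Or.inl hr) (2 * A + 2) le_rfl
  unfold Fk at h5
  refine h5.trans ?_
  have : 0 ≤ (Real.exp (Real.log (Real.log X) / 5)) ^ (2 * A + 2 + 1) := by positivity
  linarith

lemma OmL_nonneg (lam : ℝ) {X : ℝ} (hX : 0 ≤ X) (n : ℕ) : 0 ≤ OmL lam X n :=
  mul_nonneg (Real.rpow_nonneg (div_nonneg hX (Nat.cast_nonneg n)) _) (tri_nonneg _)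

theorem psiXL_approx (A : ℕ) {lam : ℝ} (hlam : 1 ≤ lam) : ∀ᶠ X : ℝ in atTop,
    |psiXL lam X - ∑ n ∈ Icc 1 ⌊3 * X⌋₊, OmL lam X n| ≤ 3 * (X / (Real.log X) ^ A) := by
  have h := (psiG_le A hlam).and (aZ_bound (2 * (2 * A + 2 + 2)) (k := 2 * A + 2) (by omega))
  have h2 := (Real.tendsto_log_atTop.comp Real.tendsto_log_atTop).eventually h
  filter_upwards [h2, eventually_gt_atTop (Real.exp 1)] with X hX hXe
  simp only [Function.comp_apply] at hX
  have hX0 : 0 < X := lt_trans (Real.exp_pos 1) hXe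
  have hlX1 : 1 < Real.log X := (Real.lt_log_iff_exp_lt hX0).2 hXe
  have hlX : 0 < Real.log X := by linarith
  have e1 : Real.exp (Real.exp (Real.log (Real.log X))) = X := by
    rw [Real.exp_log hlX, Real.exp_log hX0]
  have e2 : Real.exp (Real.log (Real.log X)) = Real.log X := Real.exp_log hlX
  have h4 := hX.1 (fun n => aZ n / 3) (fun n => by
    rw [norm_div]
    have := norm_aZ_le n
    rw [div_le_one (by norm_num)]
    simpa using this)
  rw [e1, e2] at h4
  have h5 : psiG lam X (fun n => aZ n / 3) =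
      (((psiXL lam X - ∑ n ∈ Icc 1 ⌊3 * X⌋₊, OmL lam X n) / 3 : ℝ) : ℂ) := by
    unfold psiG psiXL
    rw [← Finset.sum_sub_distrib, Finset.sum_div]
    push_cast
    apply Finset.sum_congr rfl
    intro n hn
    have hn1 := (Finset.mem_Icc.1 hn).1
    rcases Nat.lt_or_ge 1 n with h | h
    · have hlog : ((Real.log n : ℝ) : ℂ) ≠ 0 := by
        exact_mod_cast (Real.log_pos (by exact_mod_cast h)).ne'
      have e3 : ((Real.log n : ℝ) : ℂ) * aZ n = (vonMangoldt n : ℂ) - 1 := by
        unfold aZ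
        rw [Complex.ofReal_div, Complex.ofReal_sub, Complex.ofReal_one]
        field_simp
      rw [Complex.natCast_log] at e3
      linear_combination (OmL lam X n : ℂ) / 3 * e3
    · have hn' : n = 1 := by omega
      subst hn'
      have hO : OmL lam X 1 = 0 := by
        unfold OmL
        have : Real.log (((1 : ℕ) : ℝ) / X) = - Real.log X := by
          rw [Nat.cast_one, one_div, Real.log_inv]
        rw [this, tri, max_eq_left, mul_zero]
        rw [mul_neg, abs_neg, abs_of_nonneg (by positivity)]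
        nlinarith
      rw [hO]
      simp
  have h6 := h4 (fun t ht => by
    have h7 := hX.2 t ht
    have e4 : ∀ s : ℂ, Lj (fun n => aZ n / 3) (2 * A + 2 + 1) s =
        (1 / 3 : ℂ) * Lj aZ (2 * A + 2 + 1) s := by
      intro s
      unfold Lj
      rw [← smul_eq_mul, ← LSeries_smul]
      congr 1
      funext n
      simp only [Pi.smul_apply, smul_eq_mul]
      ring
    rw [e4, norm_mul]
    have h8 : ‖(1 / 3 : ℂ)‖ ≤ 1 := by norm_num
    calc ‖(1 / 3 : ℂ)‖ * _ ≤ 1 * _ := mul_le_mul_of_nonneg_right h8 (norm_nonneg _)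
      _ ≤ _ := by rw [one_mul]; exact h7)
  rw [h5, Complex.norm_real, Real.norm_eq_abs, abs_div, abs_of_pos (show (0 : ℝ) < 3 by norm_num),
    div_le_iff₀ (by norm_num)] at h6
  linarith

theorem psiXL_lower {lam : ℝ} (hlam : 1 ≤ lam) : ∀ᶠ X : ℝ in atTop,
    X / (24 * lam) ≤ psiXL lam X := by
  have hlam0 : 0 < lam := by linarith
  have hl : ∀ᶠ X : ℝ in atTop, 72 * lam ≤ Real.log X :=
    Real.tendsto_log_atTop.eventually_ge_atTop _
  filter_upwards [psiXL_approx 1 hlam, hl, eventually_ge_atTop (24 * lam)] with X happ hlX hXl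
  have hX0 : 0 < X := by linarith
  have hlX0 : 0 < Real.log X := by nlinarith
  rw [pow_one] at happ
  have h1 : 3 * (X / Real.log X) ≤ X / (24 * lam) := by
    rw [mul_div_assoc', div_le_div_iff₀ hlX0 (by positivity)]
    nlinarith
  -- the block
  set y : ℝ := X * (1 - 1 / (4 * lam)) with hy
  have h4l : 1 / (4 * lam) ≤ 1 / 4 := by
    apply one_div_le_one_div_of_le (by norm_num)
    linarith
  have h4l0 : 0 < 1 / (4 * lam) := by positivity
  have hy0 : 0 < y := mul_pos hX0 (by linarith)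
  have hyX : y ≤ X := by
    rw [hy]
    nlinarith
  have hsub : Ioc ⌊y⌋₊ ⌊X⌋₊ ⊆ Icc 1 ⌊3 * X⌋₊ := by
    intro n hn
    obtain ⟨hn1, hn2⟩ := Finset.mem_Ioc.1 hn
    refine Finset.mem_Icc.2 ⟨by omega, hn2.trans (Nat.floor_le_floor ?_)⟩
    linarith
  have h2 : ∀ n ∈ Ioc ⌊y⌋₊ ⌊X⌋₊, (2 / 3 : ℝ) ≤ OmL lam X n := by
    intro n hn
    obtain ⟨hn1, hn2⟩ := Finset.mem_Ioc.1 hn
    have h3 : y < n := (Nat.floor_lt hy0.le).1 hn1
    have h4 : (n : ℝ) ≤ X := (Nat.le_floor_iff hX0.le).1 hn2
    have hn0 : (0 : ℝ) < n := lt_trans hy0 h3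
    have h5 : 1 ≤ X / n := by rw [le_div_iff₀ hn0]; linarith
    have h6 : Real.log (n / X) ≤ 0 := by
      apply Real.log_nonpos (by positivity)
      rw [div_le_one hX0]; exact h4
    have h7 : -(1 / (3 * lam)) ≤ Real.log (n / X) := by
      have h8 : Real.log (X / n) ≤ X / n - 1 := Real.log_le_sub_one_of_pos (by positivity)
      have h9 : Real.log (n / X) = - Real.log (X / n) := by
        rw [← Real.log_inv, inv_div]
      have h10 : X / n ≤ 1 / (1 - 1 / (4 * lam)) := by
        rw [div_le_div_iff₀ hn0 (by linarith)]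
        linarith
      have h11 : 1 / (1 - 1 / (4 * lam)) ≤ 1 + 1 / (3 * lam) := by
        have e : 1 / (3 * lam) = 4 / 3 * (1 / (4 * lam)) := by field_simp
        rw [e, div_le_iff₀ (by linarith)]
        have h12 := mul_nonneg h4l0.le (by linarith : 0 ≤ 1 / 4 - 1 / (4 * lam))
        clear * - h12
        linarith
      rw [h9]
      linarith
    have h8 : |lam * Real.log (n / X)| ≤ 1 / 3 := by
      rw [abs_of_nonpos (mul_nonpos_of_nonneg_of_nonpos hlam0.le h6)]
      have : lam * (1 / (3 * lam)) = 1 / 3 := by field_simp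
      have h12 := mul_le_mul_of_nonneg_left h7 hlam0.le
      clear * - h12 this
      linarith
    unfold OmL
    have h9 : (1 : ℝ) ≤ (X / n) ^ cX X := by
      apply Real.one_le_rpow h5
      unfold cX
      positivity
    have h10 : (2 / 3 : ℝ) ≤ tri (lam * Real.log (n / X)) := by
      unfold tri
      exact le_trans (by linarith) (le_max_right _ _)
    calc (2 / 3 : ℝ) = 1 * (2 / 3) := by ring
      _ ≤ _ := mul_le_mul h9 h10 (by norm_num) (by positivity)
  have h3 : X / (12 * lam) ≤ ∑ n ∈ Icc 1 ⌊3 * X⌋₊, OmL lam X n := by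
    calc X / (12 * lam) ≤ (⌊X⌋₊ - ⌊y⌋₊ : ℝ) * (2 / 3) := by
          have h4 : X - 1 < ⌊X⌋₊ := by
            have := Nat.lt_floor_add_one X
            linarith
          have h5 : (⌊y⌋₊ : ℝ) ≤ y := Nat.floor_le hy0.le
          have h6 : X - y = X / (4 * lam) := by rw [hy]; ring
          have h7 : 1 ≤ X / (8 * lam) := by
            rw [le_div_iff₀ (by positivity)]; linarith
          have h8 : X / (4 * lam) = X / (8 * lam) + X / (8 * lam) := by field_simp; ring
          have h9 : X / (12 * lam) = X / (8 * lam) * (2 / 3) := by field_simp; ring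
          rw [h9]
          apply mul_le_mul_of_nonneg_right _ (by norm_num)
          linarith
      _ = ∑ n ∈ Ioc ⌊y⌋₊ ⌊X⌋₊, (2 / 3 : ℝ) := by
          rw [Finset.sum_const, Nat.card_Ioc, nsmul_eq_mul, Nat.cast_sub (Nat.floor_le_floor hyX)]
      _ ≤ ∑ n ∈ Ioc ⌊y⌋₊ ⌊X⌋₊, OmL lam X n := Finset.sum_le_sum h2
      _ ≤ _ := Finset.sum_le_sum_of_subset_of_nonneg hsub fun n _ _ => OmL_nonneg lam hX0.le n
  have h4 := (abs_le.1 happ).1
  have h5 : X / (12 * lam) = X / (24 * lam) + X / (24 * lam) := by field_simp; ring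
  linarith

end Pool.Agent.BVall
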