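import Pool.Agent.Lib.MP_0da313_nt.BV.LargeL
import Pool.Agent.Lib.MP_0da313_nt.BV.SmallCor
import Pool.Agent.Lib.MP_89da58_nt.BvW

set_option autoImplicit false

/-!
Assembly of the Bombieri-Vinogradov type estimate, for the weight `OmL lam X` and all large `X`.
-/

namespace Pool.Agent.BVall

open ArithmeticFunction Finset
open Pool.Agent.MP89da58 (tri cX tri_nonneg tri_le_one cX_bounds pos_of_log DD sum_not_coprime_le'
  sum_inv_totient_le inv_totient_le eventually_small sum_omega_le card_modEq_le)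

variable {lam : ℝ}

theorem OmL_le (hlam : 1 ≤ lam) {X : ℝ} (hX0 : 0 ≤ X) (hX : 1 ≤ Real.log X) (n : ℕ) :
    OmL lam X n ≤ 8 := by
  have hXp := pos_of_log hX0 hX
  obtain ⟨hc1, hc2⟩ := cX_bounds hX
  unfold OmL
  rcases Nat.eq_zero_or_pos n with h0 | hn
  · subst h0
    simp only [Nat.cast_zero, div_zero]
    rw [Real.zero_rpow (by linarith)]
    norm_num
  · have hn' : (0 : ℝ) < n := Nat.cast_pos.2 hn
    have hq : 0 < X / n := div_pos hXp hn'
    by_cases ht : 1 ≤ |Real.log (n / X)|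
    · have : tri (lam * Real.log (n / X)) = 0 := by
        apply max_eq_left
        rw [abs_mul, abs_of_nonneg (by linarith)]
        nlinarith only [hlam, ht]
      rw [this, mul_zero]
      norm_num
    · push Not at ht
      have h1 : Real.log (X / n) < 1 := by
        have : Real.log (X / n) = - Real.log (n / X) := by
          rw [← Real.log_inv, inv_div]
        rw [this]
        have := neg_abs_le (Real.log ((n : ℝ) / X))
        linarith
      have h2 : (X / n) ^ cX X ≤ Real.exp 2 := by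
        rw [Real.rpow_def_of_pos hq]
        apply Real.exp_le_exp.2
        rcases le_or_gt (Real.log (X / n)) 0 with h | h
        · nlinarith only [hc2, h1, hc1]
        · nlinarith only [hc2, h1, hc1]
      have h3 : Real.exp 2 ≤ 8 := by
        have h4 := Real.exp_one_lt_d9
        have h5 : Real.exp 2 = Real.exp 1 * Real.exp 1 := by rw [← Real.exp_add]; norm_num
        rw [h5]
        have h6 := Real.exp_pos 1
        nlinarith only [h4, h6]
      calc (X / n) ^ cX X * tri (lam * Real.log (n / X)) ≤ (X / n) ^ cX X * 1 :=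
            mul_le_mul_of_nonneg_left (tri_le_one _) (Real.rpow_nonneg hq.le _)
        _ ≤ 8 := by rw [mul_one]; exact h2.trans h3

theorem psiChiL_sub_le (hlam : 1 ≤ lam) {X : ℝ} (hX0 : 1 ≤ X) (hX : 1 ≤ Real.log X) {q r : ℕ} (hq : q ≠ 0)
    (χ : DirichletCharacter ℂ q) (ψ : DirichletCharacter ℂ r)
    (h : ∀ n : ℕ, n.Coprime q → χ (n : ZMod q) = ψ (n : ZMod r)) :
    ‖psiChiL lam X χ - psiChiL lam X ψ‖ ≤ DD X q := by
  classical
  unfold psiChiL
  rw [← Finset.sum_sub_distrib]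
  have h1 : ∑ n ∈ Icc 1 ⌊3 * X⌋₊, ((vonMangoldt n : ℂ) * χ (n : ZMod q) * (OmL lam X n : ℂ) -
      (vonMangoldt n : ℂ) * ψ (n : ZMod r) * (OmL lam X n : ℂ)) =
      ∑ n ∈ (Icc 1 ⌊3 * X⌋₊).filter (fun n => ¬ n.Coprime q),
        ((vonMangoldt n : ℂ) * χ (n : ZMod q) * (OmL lam X n : ℂ) -
          (vonMangoldt n : ℂ) * ψ (n : ZMod r) * (OmL lam X n : ℂ)) := by
    symm
    refine Finset.sum_filter_of_ne ?_
    intro n _ hne hcop
    apply hne
    rw [h n hcop, sub_self]
  rw [h1]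
  refine (norm_sum_le _ _).trans ?_
  have h2 : ∀ n ∈ (Icc 1 ⌊3 * X⌋₊).filter (fun n => ¬ n.Coprime q),
      ‖(vonMangoldt n : ℂ) * χ (n : ZMod q) * (OmL lam X n : ℂ) -
        (vonMangoldt n : ℂ) * ψ (n : ZMod r) * (OmL lam X n : ℂ)‖ ≤ vonMangoldt n * 8 := by
    intro n hn
    have hnc := (Finset.mem_filter.1 hn).2
    have h3 : χ (n : ZMod q) = 0 := by
      apply MulChar.map_nonunit
      rw [ZMod.isUnit_iff_coprime]
      exact hnc
    rw [h3, mul_zero, zero_mul, zero_sub, norm_neg, norm_mul, norm_mul]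
    have h4 : ‖ψ (n : ZMod r)‖ ≤ 1 := DirichletCharacter.norm_le_one ψ _
    have h5 : ‖(vonMangoldt n : ℂ)‖ = vonMangoldt n := by
      rw [Complex.norm_real, Real.norm_of_nonneg vonMangoldt_nonneg]
    have h6 : ‖(OmL lam X n : ℂ)‖ ≤ 8 := by
      rw [Complex.norm_real, Real.norm_of_nonneg (OmL_nonneg lam (by linarith) n)]
      exact OmL_le hlam (by linarith) hX n
    rw [h5]
    have h7 : 0 ≤ vonMangoldt n := vonMangoldt_nonneg
    calc vonMangoldt n * ‖ψ (n : ZMod r)‖ * ‖(OmL lam X n : ℂ)‖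
        ≤ vonMangoldt n * 1 * 8 := by (clear * - h4 h6; gcongr)
      _ = vonMangoldt n * 8 := by ring
  refine (Finset.sum_le_sum h2).trans ?_
  rw [← Finset.sum_mul]
  unfold DD
  have := sum_not_coprime_le' hX0 q hq
  linarith

theorem psiChiL_one_one (lam X : ℝ) : psiChiL lam X (1 : DirichletCharacter ℂ 1) = (psiXL lam X : ℂ) := by
  unfold psiChiL psiXL
  push_cast
  refine Finset.sum_congr rfl fun n _ => ?_
  have : (1 : DirichletCharacter ℂ 1) (n : ZMod 1) = 1 := by
    rw [MulChar.one_apply]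
    exact isUnit_of_subsingleton _
  rw [this, mul_one]

/-- orthogonality -/
theorem totient_mul_psiAPL (lam X : ℝ) {q : ℕ} [NeZero q] (a : ℕ) (ha : a.Coprime q) :
    ((Nat.totient q : ℂ)) * (psiAPL lam X q a : ℂ) =
      ∑ χ : DirichletCharacter ℂ q, χ ((a : ZMod q)⁻¹) * psiChiL lam X χ := by
  classical
  have hu : IsUnit (a : ZMod q) := (ZMod.isUnit_iff_coprime a q).2 ha
  unfold psiChiL psiAPL
  simp only [Finset.mul_sum]
  rw [Finset.sum_comm]
  push_cast
  rw [Finset.sum_filter, Finset.mul_sum]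
  refine Finset.sum_congr rfl fun n _ => ?_
  have h1 := DirichletCharacter.sum_char_inv_mul_char_eq ℂ hu (n : ZMod q)
  have h2 : ∑ χ : DirichletCharacter ℂ q, χ ((a : ZMod q)⁻¹) *
      ((vonMangoldt n : ℂ) * χ (n : ZMod q) * (OmL lam X n : ℂ)) =
      (∑ χ : DirichletCharacter ℂ q, χ ((a : ZMod q)⁻¹) * χ (n : ZMod q)) *
        ((vonMangoldt n : ℂ) * (OmL lam X n : ℂ)) := by
    rw [Finset.sum_mul]
    refine Finset.sum_congr rfl fun χ _ => ?_
    ring
  rw [h2, h1]
  have h3 : ((a : ZMod q) = (n : ZMod q)) ↔ n ≡ a [MOD q] := by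
    rw [ZMod.natCast_eq_natCast_iff]
    exact ⟨fun h => h.symm, fun h => h.symm⟩
  by_cases h4 : n ≡ a [MOD q]
  · rw [if_pos h4, if_pos (h3.2 h4)]
  · rw [if_neg h4, if_neg (fun h => h4 (h3.1 h))]
    ring

theorem primSumL_nonneg (lam X : ℝ) (r : ℕ) : 0 ≤ primSumL lam X r := by
  unfold primSumL
  refine Finset.sum_nonneg fun χ _ => ?_
  exact Set.indicator_nonneg (fun _ _ => norm_nonneg _) _

/-- one modulus -/
theorem ap_leL (hlam : 1 ≤ lam) {X : ℝ} (hX0 : 1 ≤ X) (hX : 1 ≤ Real.log X) {q : ℕ} [NeZero q] (a : ℕ)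
    (ha : a.Coprime q) :
    |psiAPL lam X q a - psiXL lam X / (Nat.totient q : ℝ)| ≤ DD X q + (1 / (Nat.totient q : ℝ)) *
      ∑ χ ∈ (Finset.univ : Finset (DirichletCharacter ℂ q)).erase 1,
        ‖psiChiL lam X χ.primitiveCharacter‖ := by
  classical
  have hq : q ≠ 0 := NeZero.ne q
  have hφ : (0 : ℝ) < Nat.totient q := by
    exact_mod_cast Nat.totient_pos.2 (Nat.pos_of_ne_zero hq)
  have h1 := totient_mul_psiAPL lam X a ha
  have hcop : ∀ (χ : DirichletCharacter ℂ q) (n : ℕ), n.Coprime q →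
      χ (n : ZMod q) = χ.primitiveCharacter (n : ZMod χ.conductor) := by
    intro χ n hn
    have := χ.primitiveCharacter_apply_of_isCoprime (a := (n : ℤ)) (by
      rw [Nat.isCoprime_iff_coprime]; exact hn)
    push_cast at this
    exact this.symm
  have hD : 0 ≤ DD X q := by
    unfold DD
    have : 0 ≤ Real.log (3 * X) := Real.log_nonneg (by linarith)
    positivity
  -- the principal character
  have hone : ‖psiChiL lam X (1 : DirichletCharacter ℂ q) - (psiXL lam X : ℂ)‖ ≤ DD X q := by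
    rw [← psiChiL_one_one]
    refine psiChiL_sub_le hlam hX0 hX hq _ _ fun n hn => ?_
    rw [MulChar.one_apply ((ZMod.isUnit_iff_coprime n q).2 hn), MulChar.one_apply]
    exact isUnit_of_subsingleton _
  have hoth : ∀ χ ∈ (Finset.univ : Finset (DirichletCharacter ℂ q)).erase 1,
      ‖χ ((a : ZMod q)⁻¹) * psiChiL lam X χ‖ ≤ ‖psiChiL lam X χ.primitiveCharacter‖ + DD X q := by
    intro χ _
    have h2 := psiChiL_sub_le hlam hX0 hX hq χ χ.primitiveCharacter (hcop χ)
    have h3 : ‖psiChiL lam X χ‖ ≤ ‖psiChiL lam X χ.primitiveCharacter‖ + DD X q := by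
      have := norm_le_norm_add_norm_sub' (psiChiL lam X χ) (psiChiL lam X χ.primitiveCharacter)
      linarith
    rw [norm_mul]
    have h4 : ‖χ ((a : ZMod q)⁻¹)‖ ≤ 1 := DirichletCharacter.norm_le_one χ _
    calc ‖χ ((a : ZMod q)⁻¹)‖ * ‖psiChiL lam X χ‖ ≤ 1 * ‖psiChiL lam X χ‖ :=
          mul_le_mul_of_nonneg_right h4 (norm_nonneg _)
      _ ≤ _ := by rw [one_mul]; exact h3
  have hsplit : ∑ χ : DirichletCharacter ℂ q, χ ((a : ZMod q)⁻¹) * psiChiL lam X χ =
      psiChiL lam X (1 : DirichletCharacter ℂ q) +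
        ∑ χ ∈ (Finset.univ : Finset (DirichletCharacter ℂ q)).erase 1,
          χ ((a : ZMod q)⁻¹) * psiChiL lam X χ := by
    rw [← Finset.add_sum_erase _ _ (Finset.mem_univ (1 : DirichletCharacter ℂ q))]
    congr 1
    have : (1 : DirichletCharacter ℂ q) ((a : ZMod q)⁻¹) = 1 := by
      apply MulChar.one_apply
      have hu : IsUnit (a : ZMod q) := (ZMod.isUnit_iff_coprime a q).2 ha
      rw [← hu.unit_spec, ZMod.inv_coe_unit]
      exact Units.isUnit _
    rw [this, one_mul]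
  have hcard : (((Finset.univ : Finset (DirichletCharacter ℂ q)).erase 1).card : ℝ) + 1 =
      Nat.totient q := by
    have h5 := DirichletCharacter.card_eq_totient_of_hasEnoughRootsOfUnity ℂ q
    rw [Nat.card_eq_fintype_card] at h5
    have h6 := Finset.card_erase_add_one (Finset.mem_univ (1 : DirichletCharacter ℂ q))
    rw [Finset.card_univ] at h6
    rw [← h5]
    exact_mod_cast h6
  have hmain : (Nat.totient q : ℝ) * |psiAPL lam X q a - psiXL lam X / (Nat.totient q : ℝ)| ≤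
      (Nat.totient q : ℝ) * DD X q +
      ∑ χ ∈ (Finset.univ : Finset (DirichletCharacter ℂ q)).erase 1,
        ‖psiChiL lam X χ.primitiveCharacter‖ := by
    have h7 : (Nat.totient q : ℝ) * |psiAPL lam X q a - psiXL lam X / (Nat.totient q : ℝ)| =
        ‖(Nat.totient q : ℂ) * (psiAPL lam X q a : ℂ) - (psiXL lam X : ℂ)‖ := by
      rw [← abs_of_pos hφ, ← abs_mul, abs_of_pos hφ, mul_sub, mul_div_cancel₀ _ hφ.ne']
      rw [← Real.norm_eq_abs, ← Complex.norm_real]
      push_cast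
      rfl
    rw [h7, h1, hsplit]
    have h8 : psiChiL lam X (1 : DirichletCharacter ℂ q) +
        ∑ χ ∈ (Finset.univ : Finset (DirichletCharacter ℂ q)).erase 1,
          χ ((a : ZMod q)⁻¹) * psiChiL lam X χ - (psiXL lam X : ℂ) =
        (psiChiL lam X (1 : DirichletCharacter ℂ q) - (psiXL lam X : ℂ)) +
        ∑ χ ∈ (Finset.univ : Finset (DirichletCharacter ℂ q)).erase 1,
          χ ((a : ZMod q)⁻¹) * psiChiL lam X χ := by ring
    rw [h8]
    refine (norm_add_le _ _).trans ?_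
    refine (add_le_add hone ((norm_sum_le _ _).trans (Finset.sum_le_sum hoth))).trans ?_
    rw [Finset.sum_add_distrib, Finset.sum_const, nsmul_eq_mul, ← hcard]
    ring_nf
    rfl
  have h9 : |psiAPL lam X q a - psiXL lam X / (Nat.totient q : ℝ)| =
      (1 / (Nat.totient q : ℝ)) * ((Nat.totient q : ℝ) *
        |psiAPL lam X q a - psiXL lam X / (Nat.totient q : ℝ)|) := by
    field_simp
  rw [h9]
  calc _ ≤ (1 / (Nat.totient q : ℝ)) * ((Nat.totient q : ℝ) * DD X q +
      ∑ χ ∈ (Finset.univ : Finset (DirichletCharacter ℂ q)).erase 1,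
        ‖psiChiL lam X χ.primitiveCharacter‖) :=
        mul_le_mul_of_nonneg_left hmain (by positivity)
    _ = _ := by
        rw [mul_add, ← mul_assoc, one_div_mul_cancel hφ.ne', one_mul]

/-- grouping by conductors -/
theorem sum_primL_le (lam X : ℝ) (q : ℕ) [NeZero q] :
    ∑ χ ∈ (Finset.univ : Finset (DirichletCharacter ℂ q)).erase 1,
      ‖psiChiL lam X χ.primitiveCharacter‖ ≤ ∑ r ∈ q.divisors.erase 1, primSumL lam X r := by
  classical
  let G : ((r : ℕ) × DirichletCharacter ℂ r) → ℝ := fun x =>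
    Set.indicator {χ | χ.IsPrimitive} (fun χ => ‖psiChiL lam X χ‖) x.2
  let σ : DirichletCharacter ℂ q → ((r : ℕ) × DirichletCharacter ℂ r) := fun χ =>
    ⟨χ.conductor, χ.primitiveCharacter⟩
  have hG : ∀ χ, ‖psiChiL lam X χ.primitiveCharacter‖ = G (σ χ) := by
    intro χ
    simp only [G, σ]
    rw [Set.indicator_of_mem]
    exact χ.primitiveCharacter_isPrimitive
  have hG0 : ∀ x, 0 ≤ G x := fun x => Set.indicator_nonneg (fun _ _ => norm_nonneg _) _
  have hσ : Function.Injective σ := by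
    intro χ ψ h
    have key : ∀ (x : (r : ℕ) × DirichletCharacter ℂ r) (y : (r : ℕ) × DirichletCharacter ℂ r)
        (hx : x.1 ∣ q) (hy : y.1 ∣ q), x = y →
        DirichletCharacter.changeLevel hx x.2 = DirichletCharacter.changeLevel hy y.2 := by
      rintro x y hx hy rfl
      rfl
    have := key (σ χ) (σ ψ) χ.conductor_dvd_level ψ.conductor_dvd_level h
    rwa [DirichletCharacter.changeLevel_primitiveCharacter,
      DirichletCharacter.changeLevel_primitiveCharacter] at this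
  have h1 : ∑ r ∈ q.divisors.erase 1, primSumL lam X r =
      ∑ x ∈ (q.divisors.erase 1).sigma (fun r => (Finset.univ : Finset (DirichletCharacter ℂ r))),
        G x := by
    rw [Finset.sum_sigma]
    rfl
  rw [h1]
  have h2 : ∑ χ ∈ (Finset.univ : Finset (DirichletCharacter ℂ q)).erase 1,
      ‖psiChiL lam X χ.primitiveCharacter‖ =
      ∑ x ∈ ((Finset.univ : Finset (DirichletCharacter ℂ q)).erase 1).image σ, G x := by
    rw [Finset.sum_image (fun a _ b _ h => hσ h)]
    exact Finset.sum_congr rfl fun χ _ => hG χ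
  rw [h2]
  refine Finset.sum_le_sum_of_subset_of_nonneg ?_ (fun x _ _ => hG0 x)
  intro x hx
  obtain ⟨χ, hχ, rfl⟩ := Finset.mem_image.1 hx
  have hne : χ ≠ 1 := (Finset.mem_erase.1 hχ).1
  refine Finset.mem_sigma.2 ⟨Finset.mem_erase.2 ⟨?_, ?_⟩, Finset.mem_univ _⟩
  · intro h
    exact hne (DirichletCharacter.eq_one_iff_conductor_eq_one.2 h)
  · exact Nat.mem_divisors.2 ⟨χ.conductor_dvd_level, NeZero.ne q⟩

/-- the double sum -/
theorem sum_swapL_le (lam X : ℝ) (N : ℕ) :
    ∑ q ∈ Icc 1 N, (1 / (Nat.totient q : ℝ)) * ∑ r ∈ q.divisors.erase 1, primSumL lam X r ≤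
      (∑ r ∈ Icc 2 N, primSumL lam X r / (Nat.totient r : ℝ)) *
        ∑ m ∈ Icc 1 N, 1 / (Nat.totient m : ℝ) := by
  classical
  rw [Finset.sum_mul_sum]
  have h1 : ∑ q ∈ Icc 1 N, (1 / (Nat.totient q : ℝ)) * ∑ r ∈ q.divisors.erase 1, primSumL lam X r ≤
      ∑ x ∈ (Icc 1 N).sigma (fun q => q.divisors.erase 1),
        primSumL lam X x.2 / (Nat.totient x.2 : ℝ) * (1 / (Nat.totient (x.1 / x.2) : ℝ)) := by
    rw [Finset.sum_sigma]
    refine Finset.sum_le_sum fun q hq => ?_
    rw [Finset.mul_sum]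
    refine Finset.sum_le_sum fun r hr => ?_
    have hrq : r ∣ q := Nat.dvd_of_mem_divisors (Finset.mem_of_mem_erase hr)
    have hq1 := (Finset.mem_Icc.1 hq).1
    have hr0 : 0 < r := Nat.pos_of_dvd_of_pos hrq (by omega)
    have hm0 : 0 < q / r := Nat.div_pos (Nat.le_of_dvd (by omega) hrq) hr0
    have hφr : (0 : ℝ) < Nat.totient r := by exact_mod_cast Nat.totient_pos.2 hr0
    have hφm : (0 : ℝ) < Nat.totient (q / r) := by exact_mod_cast Nat.totient_pos.2 hm0
    have h2 : (Nat.totient r : ℝ) * Nat.totient (q / r) ≤ Nat.totient q := by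
      have := Nat.totient_super_multiplicative r (q / r)
      rw [Nat.mul_div_cancel' hrq] at this
      exact_mod_cast this
    have h3 : 1 / (Nat.totient q : ℝ) ≤ 1 / ((Nat.totient r : ℝ) * Nat.totient (q / r)) :=
      one_div_le_one_div_of_le (by positivity) h2
    calc 1 / (Nat.totient q : ℝ) * primSumL lam X r
        ≤ 1 / ((Nat.totient r : ℝ) * Nat.totient (q / r)) * primSumL lam X r :=
          mul_le_mul_of_nonneg_right h3 (primSumL_nonneg lam X r)
      _ = _ := by field_simp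
  refine h1.trans ?_
  rw [← Finset.sum_product']
  let τ : ((_ : ℕ) × ℕ) → ℕ × ℕ := fun x => (x.2, x.1 / x.2)
  have hinj : Set.InjOn τ ((Icc 1 N).sigma (fun q => q.divisors.erase 1) :
      Finset ((_ : ℕ) × ℕ)) := by
    rintro ⟨q, r⟩ hx ⟨q', r'⟩ hy hxy
    simp only [Finset.coe_sigma, Set.mem_sigma_iff, Finset.mem_coe] at hx hy
    simp only [τ, Prod.mk.injEq] at hxy
    obtain ⟨rfl, h2⟩ := hxy
    have h3 : r ∣ q := Nat.dvd_of_mem_divisors (Finset.mem_of_mem_erase hx.2)
    have h4 : r ∣ q' := Nat.dvd_of_mem_divisors (Finset.mem_of_mem_erase hy.2)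
    have : q = q' := by
      rw [← Nat.mul_div_cancel' h3, ← Nat.mul_div_cancel' h4, h2]
    rw [this]
  have h5 : ∑ x ∈ (Icc 1 N).sigma (fun q => q.divisors.erase 1),
        primSumL lam X x.2 / (Nat.totient x.2 : ℝ) * (1 / (Nat.totient (x.1 / x.2) : ℝ)) =
      ∑ y ∈ ((Icc 1 N).sigma (fun q => q.divisors.erase 1)).image τ,
        primSumL lam X y.1 / (Nat.totient y.1 : ℝ) * (1 / (Nat.totient y.2 : ℝ)) := by
    rw [Finset.sum_image hinj]
  rw [h5]
  refine Finset.sum_le_sum_of_subset_of_nonneg ?_ ?_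
  · intro y hy
    obtain ⟨⟨q, r⟩, hx, rfl⟩ := Finset.mem_image.1 hy
    simp only [Finset.mem_sigma, Finset.mem_Icc] at hx
    obtain ⟨⟨hq1, hqN⟩, hr⟩ := hx
    have hr1 : r ≠ 1 := (Finset.mem_erase.1 hr).1
    have hrq : r ∣ q := Nat.dvd_of_mem_divisors (Finset.mem_of_mem_erase hr)
    have hr0 : 0 < r := Nat.pos_of_dvd_of_pos hrq (by omega)
    have hrN : r ≤ q := Nat.le_of_dvd (by omega) hrq
    have hm0 : 0 < q / r := Nat.div_pos hrN hr0
    have hmN : q / r ≤ q := Nat.div_le_self q r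
    simp only [τ, Finset.mem_product, Finset.mem_Icc]
    omega
  · intro y _ _
    exact mul_nonneg (div_nonneg (primSumL_nonneg _ _ _) (Nat.cast_nonneg _)) (by positivity)

theorem primSumL_le {X M : ℝ} {r : ℕ} [NeZero r] (hM : 0 ≤ M)
    (h : ∀ χ : DirichletCharacter ℂ r, χ.IsPrimitive → ‖psiChiL lam X χ‖ ≤ M) :
    primSumL lam X r ≤ Nat.totient r * M := by
  classical
  unfold primSumL
  have h1 : ∀ χ ∈ (Finset.univ : Finset (DirichletCharacter ℂ r)),
      Set.indicator {χ : DirichletCharacter ℂ r | χ.IsPrimitive} (fun χ => ‖psiChiL lam X χ‖) χ ≤ M := by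
    intro χ _
    by_cases hχ : χ.IsPrimitive
    · rw [Set.indicator_of_mem (show χ ∈ {χ : DirichletCharacter ℂ r | χ.IsPrimitive} from hχ)]
      exact h χ hχ
    · rw [Set.indicator_of_notMem
        (show χ ∉ {χ : DirichletCharacter ℂ r | χ.IsPrimitive} from hχ)]
      exact hM
  refine (Finset.sum_le_sum h1).trans ?_
  rw [Finset.sum_const, nsmul_eq_mul, Finset.card_univ, ← Nat.card_eq_fintype_card,
    DirichletCharacter.card_eq_totient_of_hasEnoughRootsOfUnity]

/-- assembly of the Bombieri-Vinogradov estimate -/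
theorem bvL (hlam : 1 ≤ lam) (A : ℕ) : ∃ X0 : ℝ, ∀ X : ℝ, X0 ≤ X →
    ∀ a : ℕ → ℕ, (∀ q, (a q).Coprime q) →
    ∑ q ∈ Finset.Icc 1 ⌊X ^ (1 / 50 : ℝ)⌋₊, |psiAPL lam X q (a q) - psiXL lam X / (Nat.totient q : ℝ)|
      ≤ X / (Real.log X) ^ A := by
  classical
  obtain ⟨B, X1, hB⟩ := large_conductorsL hlam (A + 3)
  obtain ⟨X2, hX2⟩ := Filter.eventually_atTop.1 (eventually_small A)
  obtain ⟨X3, hX3'⟩ := Filter.eventually_atTop.1 (small_all (A + 3 + B) B hlam)
  refine ⟨max (max X3 X1) (max X2 (Real.exp 4)), fun X hXm => ?_⟩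
  have hXX3 : X3 ≤ X := le_trans (le_trans (le_max_left _ _) (le_max_left _ _)) hXm
  have hX3 := hX3' X hXX3
  have hXX1 : X1 ≤ X := le_trans (le_trans (le_max_right _ _) (le_max_left _ _)) hXm
  have hXX2 : X2 ≤ X := le_trans (le_trans (le_max_left _ _) (le_max_right _ _)) hXm
  have hXe : Real.exp 4 ≤ X := le_trans (le_trans (le_max_right _ _) (le_max_right _ _)) hXm
  have hXpos : 0 < X := lt_of_lt_of_le (Real.exp_pos 4) hXe
  have hlog4 : 4 ≤ Real.log X := by
    rw [Real.le_log_iff_exp_le hXpos]; exact hXe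
  have hX1 : 1 ≤ X := le_trans (Real.one_le_exp (by norm_num)) hXe
  set L := Real.log X with hLdef
  have hLpos : 0 < L := by linarith
  intro a ha
  set N := ⌊X ^ (1 / 50 : ℝ)⌋₊ with hN
  have hXp : 0 ≤ X ^ (1 / 50 : ℝ) := Real.rpow_nonneg hXpos.le _
  have hN1 : 1 ≤ N := Nat.le_floor (by
    push_cast
    exact Real.one_le_rpow hX1 (by norm_num))
  have hNle : (N : ℝ) ≤ X ^ (1 / 50 : ℝ) := Nat.floor_le hXp
  have hNpos : (0 : ℝ) < N := by exact_mod_cast hN1
  have hlogN : Real.log N ≤ 1 / 50 * L := by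
    have := Real.log_le_log hNpos hNle
    rwa [Real.log_rpow hXpos] at this
  have hlogN0 : 0 ≤ Real.log N := Real.log_nonneg (by exact_mod_cast hN1)
  -- one modulus
  have hstep : ∀ q ∈ Icc 1 N, |psiAPL lam X q (a q) - psiXL lam X / (Nat.totient q : ℝ)| ≤
      DD X q + (1 / (Nat.totient q : ℝ)) * ∑ r ∈ q.divisors.erase 1, primSumL lam X r := by
    intro q hq
    have hq1 := (Finset.mem_Icc.1 hq).1
    have : NeZero q := ⟨by omega⟩
    refine (ap_leL hlam hX1 (by linarith only [hlog4]) (a q) (ha q)).trans ?_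
    have := sum_primL_le lam X q
    have h2 : 0 ≤ 1 / (Nat.totient q : ℝ) := by positivity
    have := mul_le_mul_of_nonneg_left this h2
    linarith
  refine (Finset.sum_le_sum hstep).trans ?_
  rw [Finset.sum_add_distrib]
  -- the trivial terms
  have hDD : ∑ q ∈ Icc 1 N, DD X q ≤ 1 / 2 * (X / L ^ A) := by
    have hlog3 : 0 ≤ Real.log (3 * X) := Real.log_nonneg (by linarith only [hXpos, hX1])
    have h1 : ∀ q ∈ Icc 1 N, DD X q ≤ 8 * (X ^ (1 / 50 : ℝ) * Real.log (3 * X)) := by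
      intro q hq
      have hq2 := (Finset.mem_Icc.1 hq).2
      unfold DD
      have h2 : (q : ℝ) ≤ X ^ (1 / 50 : ℝ) := le_trans (by exact_mod_cast hq2) hNle
      (clear * - h2 hlog3; gcongr)
    refine (Finset.sum_le_sum h1).trans ?_
    rw [Finset.sum_const, Nat.card_Icc, Nat.add_sub_cancel, nsmul_eq_mul]
    have h3 : (N : ℝ) * (8 * (X ^ (1 / 50 : ℝ) * Real.log (3 * X))) ≤
        8 * (X ^ (1 / 25 : ℝ) * Real.log (3 * X)) := by
      have h4 : X ^ (1 / 25 : ℝ) = X ^ (1 / 50 : ℝ) * X ^ (1 / 50 : ℝ) := by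
        rw [← Real.rpow_add hXpos]; norm_num
      rw [h4]
      calc (N : ℝ) * (8 * (X ^ (1 / 50 : ℝ) * Real.log (3 * X)))
          ≤ X ^ (1 / 50 : ℝ) * (8 * (X ^ (1 / 50 : ℝ) * Real.log (3 * X))) := by (clear * - hNle hXpos hlog3; gcongr)
        _ = _ := by ring
    refine h3.trans ?_
    have h5 := hX2 X hXX2
    have h6 : 0 < L ^ A := pow_pos hLpos _
    rw [← hLdef] at h5
    have h7 : 8 * (X ^ (1 / 25 : ℝ) * Real.log (3 * X)) ≤ X / 2 / L ^ A := by
      rw [le_div_iff₀ h6]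
      linarith only [h5]
    calc _ ≤ X / 2 / L ^ A := h7
      _ = _ := by ring
  -- the small conductors
  have hsmall : ∑ r ∈ (Icc 2 N).filter (fun r : ℕ => ¬ L ^ B < (r : ℝ)),
      primSumL lam X r / (Nat.totient r : ℝ) ≤ X / L ^ (A + 3) := by
    have h1 : ∀ r ∈ (Icc 2 N).filter (fun r : ℕ => ¬ L ^ B < (r : ℝ)),
        primSumL lam X r / (Nat.totient r : ℝ) ≤ X / L ^ (A + 3 + B) := by
      intro r hr
      obtain ⟨hr1, hr2⟩ := Finset.mem_filter.1 hr
      have hr3 := (Finset.mem_Icc.1 hr1).1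
      have : NeZero r := ⟨by omega⟩
      have hφ : (0 : ℝ) < Nat.totient r := by exact_mod_cast Nat.totient_pos.2 (by omega)
      rw [div_le_iff₀ hφ, mul_comm]
      exact primSumL_le (by positivity) (hX3 r hr3 (not_lt.1 hr2))
    refine (Finset.sum_le_sum h1).trans ?_
    rw [Finset.sum_const, nsmul_eq_mul]
    have h2 : (((Icc 2 N).filter (fun r : ℕ => ¬ L ^ B < (r : ℝ))).card : ℝ) ≤ L ^ B := by
      have h3 : (Icc 2 N).filter (fun r : ℕ => ¬ L ^ B < (r : ℝ)) ⊆ Icc 1 ⌊L ^ B⌋₊ := by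
        intro r hr
        obtain ⟨hr1, hr2⟩ := Finset.mem_filter.1 hr
        have hr3 := (Finset.mem_Icc.1 hr1).1
        exact Finset.mem_Icc.2 ⟨by omega, Nat.le_floor (not_lt.1 hr2)⟩
      have h4 := Finset.card_le_card h3
      rw [Nat.card_Icc, Nat.add_sub_cancel] at h4
      exact le_trans (by exact_mod_cast h4) (Nat.floor_le (pow_nonneg hLpos.le _))
    calc _ ≤ L ^ B * (X / L ^ (A + 3 + B)) := by
          apply mul_le_mul_of_nonneg_right h2
          positivity
      _ = X / L ^ (A + 3) := by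
          rw [pow_add L (A + 3) B]
          have : L ^ B ≠ 0 := (pow_pos hLpos _).ne'
          field_simp
  have hlarge := hB X hXX1
  rw [← hLdef, ← hN] at hlarge
  have hS1 : ∑ r ∈ Icc 2 N, primSumL lam X r / (Nat.totient r : ℝ) ≤ 2 * (X / L ^ (A + 3)) := by
    rw [← Finset.sum_filter_add_sum_filter_not (Icc 2 N) (fun r : ℕ => L ^ B < (r : ℝ))]
    linarith only [hsmall, hlarge]
  have hS2 : ∑ m ∈ Icc 1 N, 1 / (Nat.totient m : ℝ) ≤ L * L := by
    refine (sum_inv_totient_le N hN1).trans ?_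
    have hlog2 : (0.69 : ℝ) < Real.log 2 := lt_trans (by norm_num) Real.log_two_gt_d9
    have h1 : Real.log N / Real.log 2 + 1 ≤ L := by
      have h2 : Real.log N / Real.log 2 ≤ 1 / 50 * L / 0.69 :=
        div_le_div₀ (by positivity) hlogN (by norm_num) hlog2.le
      have h3 : 1 / 50 * L / 0.69 ≤ 1 / 30 * L := by
        rw [div_le_iff₀ (by norm_num)]
        linarith only [hlog4]
      linarith only [hlog4, h2, h3]
    have h4 : 1 + Real.log N ≤ L := by linarith only [hlog4, hlogN]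
    exact mul_le_mul h1 h4 (by linarith only [hlogN0]) hLpos.le
  have hmain := sum_swapL_le lam X N
  have hS10 : 0 ≤ ∑ m ∈ Icc 1 N, 1 / (Nat.totient m : ℝ) :=
    Finset.sum_nonneg fun m _ => by positivity
  have h20 : 0 ≤ X / L ^ (A + 3) := by positivity
  have hprod : (∑ r ∈ Icc 2 N, primSumL lam X r / (Nat.totient r : ℝ)) *
      ∑ m ∈ Icc 1 N, 1 / (Nat.totient m : ℝ) ≤ 2 * (X / L ^ (A + 3)) * (L * L) :=
    mul_le_mul hS1 hS2 hS10 (by linarith only [h20])
  have hfin : 2 * (X / L ^ (A + 3)) * (L * L) ≤ 1 / 2 * (X / L ^ A) := by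
    have h21 : X / L ^ (A + 3) = X / L ^ A / (L * L) / L := by
      rw [pow_add]
      field_simp
    rw [h21]
    have h22 : 0 ≤ X / L ^ A := by positivity
    have h23 : 2 * (X / L ^ A / (L * L) / L) * (L * L) = 2 * (X / L ^ A) / L := by
      field_simp
    rw [h23, div_le_iff₀ hLpos]
    have h24 := mul_le_mul_of_nonneg_left (by linarith only [hlog4] : (4 : ℝ) ≤ L) h22
    clear * - h24
    linarith
  linarith only [hDD, hmain, hprod, hfin]

end Pool.Agent.BVall
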