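import Pool.Agent.Lib.MP_0da313_nt.BV.DefsL
import Pool.Agent.Lib.MP_89da58_nt.LargeSep

set_option autoImplicit false

/-!
Separation of the variables in the weight `OmL lam X (d * m)`, by writing the triangle function as a
convolution of two box functions.
-/

namespace Pool.Agent.BVall

open Finset MeasureTheory
open Pool.Agent.MP89da58 (tri cX)

/-- the indicator function of the interval `[x-1/lam, x]` -/
noncomputable def boxL (lam x s : ℝ) : ℝ := (Set.Icc (x - 1 / lam) x).indicator (fun _ => (1 : ℝ)) s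

variable {lam : ℝ}

lemma boxL_nonneg (x s : ℝ) : 0 ≤ boxL lam x s := by
  rw [boxL]
  exact Set.indicator_nonneg (fun _ _ => zero_le_one) _

lemma boxL_le_one (x s : ℝ) : boxL lam x s ≤ 1 := by
  rw [boxL]
  exact Set.indicator_le_self' (fun _ _ => zero_le_one) _

lemma boxL_of_mem {x s : ℝ} (h1 : x - 1 / lam ≤ s) (h2 : s ≤ x) : boxL lam x s = 1 := by
  rw [boxL, Set.indicator_of_mem (Set.mem_Icc.mpr ⟨h1, h2⟩)]

lemma boxL_of_not {x s : ℝ} (h : ¬ (x - 1 / lam ≤ s ∧ s ≤ x)) : boxL lam x s = 0 := by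
  rw [boxL, Set.indicator_of_notMem]
  rwa [Set.mem_Icc]

lemma boxL_mul_box (x y s : ℝ) : boxL lam x s * boxL lam y s =
    (Set.Icc (max (x - 1 / lam) (y - 1 / lam)) (min x y)).indicator (fun _ => (1 : ℝ)) s := by
  rw [← Set.Icc_inter_Icc, boxL, boxL, ← Set.inter_indicator_mul]
  simp

lemma integrable_boxL_mul (x y : ℝ) : Integrable (fun s => boxL lam x s * boxL lam y s) := by
  simp_rw [boxL_mul_box]
  rw [integrable_indicator_iff measurableSet_Icc]
  exact integrableOn_const (by simp) (by simp)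

lemma integral_boxL_mul (hlam : 1 ≤ lam) (x y : ℝ) :
    lam * ∫ s, boxL lam x s * boxL lam y s = tri (lam * (x - y)) := by
  have hlam0 : 0 < lam := by linarith
  simp_rw [boxL_mul_box]
  rw [integral_indicator measurableSet_Icc, setIntegral_const, smul_eq_mul, mul_one,
    Real.volume_real_Icc, tri, abs_mul, abs_of_pos hlam0]
  have e : lam * (1 / lam) = 1 := by field_simp
  rcases le_total x y with h | h
  · rw [max_eq_right (show x - 1 / lam ≤ y - 1 / lam by linarith), min_eq_left h,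
      abs_of_nonpos (by linarith), mul_max_of_nonneg _ _ hlam0.le, mul_zero, max_comm]
    congr 1
    linear_combination e
  · rw [max_eq_left (show y - 1 / lam ≤ x - 1 / lam by linarith), min_eq_right h,
      abs_of_nonneg (by linarith), mul_max_of_nonneg _ _ hlam0.le, mul_zero, max_comm]
    congr 1
    linear_combination e

/-- the first factor -/
noncomputable def twAL (lam X : ℝ) (N : ℕ) (α : ℕ → ℂ) (s : ℝ) : ℂ :=
  ∑ d ∈ Icc 1 N, α d * (((d : ℝ) ^ (-cX X) * boxL lam (Real.log (X / d)) s : ℝ) : ℂ)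

/-- the second factor -/
noncomputable def twBL (lam X : ℝ) (N : ℕ) (β : ℕ → ℂ) (s : ℝ) : ℂ :=
  ∑ m ∈ Icc 1 N, β m * (((m : ℝ) ^ (-cX X) * boxL lam (Real.log m) s : ℝ) : ℂ)

lemma OmL_mul (hlam : 1 ≤ lam) {X : ℝ} (hX : 0 < X) {d m : ℕ} (hd : 0 < d) (hm : 0 < m) :
    OmL lam X (d * m) = X ^ cX X * (((d : ℝ) ^ (-cX X)) * ((m : ℝ) ^ (-cX X)) *
      (lam * ∫ s, boxL lam (Real.log (X / d)) s * boxL lam (Real.log m) s)) := by
  have hd' : (0 : ℝ) < d := by exact_mod_cast hd
  have hm' : (0 : ℝ) < m := by exact_mod_cast hm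
  rw [integral_boxL_mul hlam, OmL]
  push_cast
  have h1 : tri (lam * Real.log (d * m / X)) = tri (lam * (Real.log (X / d) - Real.log m)) := by
    rw [tri, tri, ← abs_neg]
    congr 3
    rw [Real.log_div (by positivity) (by positivity), Real.log_mul (by positivity) (by positivity),
      Real.log_div (by positivity) (by positivity)]
    ring
  rw [h1, Real.div_rpow hX.le (by positivity), Real.mul_rpow hd'.le hm'.le, Real.rpow_neg hd'.le,
    Real.rpow_neg hm'.le]
  field_simp

lemma bilinearL_eq (hlam : 1 ≤ lam) {X : ℝ} (hX : 0 < X) (N : ℕ) (α β : ℕ → ℂ) :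
    ∑ d ∈ Icc 1 N, ∑ m ∈ Icc 1 N, α d * β m * (OmL lam X (d * m) : ℂ) =
      ((X ^ cX X * lam : ℝ) : ℂ) * ∫ s, twAL lam X N α s * twBL lam X N β s := by
  have h1 : ∀ s, twAL lam X N α s * twBL lam X N β s = ∑ d ∈ Icc 1 N, ∑ m ∈ Icc 1 N,
      (α d * β m * (((d : ℝ) ^ (-cX X) * (m : ℝ) ^ (-cX X) : ℝ) : ℂ)) *
        ((boxL lam (Real.log (X / d)) s * boxL lam (Real.log m) s : ℝ) : ℂ) := by
    intro s
    rw [twAL, twBL, sum_mul_sum]
    apply sum_congr rfl
    intro d _
    apply sum_congr rfl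
    intro m _
    push_cast
    ring
  simp_rw [h1]
  have hint : ∀ d m : ℕ, Integrable fun s =>
      (α d * β m * (((d : ℝ) ^ (-cX X) * (m : ℝ) ^ (-cX X) : ℝ) : ℂ)) *
        ((boxL lam (Real.log (X / d)) s * boxL lam (Real.log m) s : ℝ) : ℂ) := by
    intro d m
    exact ((integrable_boxL_mul _ _).ofReal).const_mul _
  rw [integral_finsetSum _ (fun d _ => integrable_finsetSum _ fun m _ => hint d m), mul_sum]
  apply sum_congr rfl
  intro d hd
  rw [integral_finsetSum _ (fun m _ => hint d m), mul_sum]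
  apply sum_congr rfl
  intro m hm
  rw [mem_Icc] at hd hm
  rw [integral_const_mul, integral_complex_ofReal, OmL_mul hlam hX (by omega) (by omega)]
  push_cast
  ring

lemma integrable_twL {X : ℝ} (N : ℕ) (α β : ℕ → ℂ) :
    Integrable fun s => twAL lam X N α s * twBL lam X N β s := by
  have h1 : ∀ s, twAL lam X N α s * twBL lam X N β s = ∑ d ∈ Icc 1 N, ∑ m ∈ Icc 1 N,
      (α d * β m * (((d : ℝ) ^ (-cX X) * (m : ℝ) ^ (-cX X) : ℝ) : ℂ)) *
        ((boxL lam (Real.log (X / d)) s * boxL lam (Real.log m) s : ℝ) : ℂ) := by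
    intro s
    rw [twAL, twBL, sum_mul_sum]
    apply sum_congr rfl
    intro d _
    apply sum_congr rfl
    intro m _
    push_cast
    ring
  simp_rw [h1]
  exact integrable_finsetSum _ fun d _ => integrable_finsetSum _ fun m _ =>
    ((integrable_boxL_mul _ _).ofReal).const_mul _

lemma twAL_eq_zero {X : ℝ} (hX : 0 < X) (N : ℕ) (α : ℕ → ℂ) {s : ℝ} (hs : Real.log X < s) :
    twAL lam X N α s = 0 := by
  rw [twAL]
  apply sum_eq_zero
  intro d hd
  rw [mem_Icc] at hd
  have hd' : (1 : ℝ) ≤ d := by exact_mod_cast hd.1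
  have h1 : Real.log (X / d) ≤ Real.log X := by
    rw [Real.log_div (by positivity) (by positivity)]
    have := Real.log_nonneg hd'
    linarith
  rw [boxL_of_not (by intro h; linarith [h.2])]
  simp

lemma inv_lam_le (hlam : 1 ≤ lam) : 0 < 1 / lam ∧ 1 / lam ≤ 1 := by
  have hlam0 : 0 < lam := by linarith
  refine ⟨by positivity, ?_⟩
  rw [div_le_one hlam0]
  exact hlam

lemma twBL_eq_zero (hlam : 1 ≤ lam) {X : ℝ} (N : ℕ) (β : ℕ → ℂ) {s : ℝ} (hs : s < -1) :
    twBL lam X N β s = 0 := by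
  rw [twBL]
  apply sum_eq_zero
  intro d hd
  rw [mem_Icc] at hd
  have hd' : (1 : ℝ) ≤ d := by exact_mod_cast hd.1
  have := Real.log_nonneg hd'
  have hl := inv_lam_le hlam
  rw [boxL_of_not (by intro h; linarith [h.1])]
  simp

/-- The main consequence of the separation of variables. -/
lemma sum_norm_bilinearL_le (hlam : 1 ≤ lam) {X : ℝ} (hX : 1 ≤ X) (N : ℕ) {ι : Type*}
    (I : Finset ι) (α β : ι → ℕ → ℂ) {K : ℝ}
    (hK : ∀ s ∈ Set.Icc (-1 : ℝ) (Real.log X),
      ∑ i ∈ I, ‖twAL lam X N (α i) s‖ * ‖twBL lam X N (β i) s‖ ≤ K) :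
    ∑ i ∈ I, ‖∑ d ∈ Icc 1 N, ∑ m ∈ Icc 1 N, α i d * β i m * (OmL lam X (d * m) : ℂ)‖ ≤
      X ^ cX X * lam * ((Real.log X + 1) * K) := by
  have hX0 : 0 < X := by linarith
  have hlam0 : 0 < lam := by linarith
  have hlog : 0 ≤ Real.log X := Real.log_nonneg hX
  have h1 : ∀ i ∈ I, ‖∑ d ∈ Icc 1 N, ∑ m ∈ Icc 1 N, α i d * β i m * (OmL lam X (d * m) : ℂ)‖ ≤
      X ^ cX X * lam * ∫ s, ‖twAL lam X N (α i) s‖ * ‖twBL lam X N (β i) s‖ := by
    intro i _
    rw [bilinearL_eq hlam hX0, norm_mul, Complex.norm_real, Real.norm_of_nonneg (by positivity)]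
    apply mul_le_mul_of_nonneg_left _ (by positivity)
    refine (norm_integral_le_integral_norm _).trans (le_of_eq ?_)
    simp_rw [norm_mul]
  refine (sum_le_sum h1).trans ?_
  rw [← mul_sum]
  apply mul_le_mul_of_nonneg_left _ (by positivity)
  have hint : ∀ i ∈ I, Integrable fun s => ‖twAL lam X N (α i) s‖ * ‖twBL lam X N (β i) s‖ := by
    intro i _
    have := (integrable_twL (lam := lam) (X := X) N (α i) (β i)).norm
    simp_rw [norm_mul] at this
    exact this
  rw [← integral_finsetSum _ hint]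
  have h2 : ∫ s, (Set.Icc (-1 : ℝ) (Real.log X)).indicator (fun _ => K) s =
      (Real.log X + 1) * K := by
    rw [integral_indicator measurableSet_Icc, setIntegral_const, smul_eq_mul,
      Real.volume_real_Icc_of_le (by linarith)]
    ring
  rw [← h2]
  apply integral_mono (integrable_finsetSum _ hint)
  · rw [integrable_indicator_iff measurableSet_Icc]
    exact integrableOn_const (by simp) (by simp)
  · intro s
    simp only
    by_cases hs : s ∈ Set.Icc (-1 : ℝ) (Real.log X)
    · rw [Set.indicator_of_mem hs]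
      exact hK s hs
    · rw [Set.indicator_of_notMem hs]
      apply le_of_eq
      apply sum_eq_zero
      intro i _
      rw [Set.mem_Icc, not_and_or, not_le, not_le] at hs
      rcases hs with hs | hs
      · rw [twBL_eq_zero hlam N _ hs]; simp
      · rw [twAL_eq_zero hX0 N _ hs]; simp

end Pool.Agent.BVall
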