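import Pool.Agent.Lib.MP_0da313_nt.BV.DefsL
import Pool.Agent.Lib.MP_0da313_nt.Count

set_option autoImplicit false

/-!
Primes `N = u x + v` with `x` in prescribed residue classes.
-/

open Finset

namespace Pool.Agent.BVall

open Pool.Agent.Lib.MP_0da313_nt

/-! ### the worst residue class -/

lemma psiAPL_congr {lam X : ℝ} {q a b : ℕ} (h : a ≡ b [MOD q]) :
    psiAPL lam X q a = psiAPL lam X q b := by
  unfold psiAPL
  congr 1
  apply Finset.filter_congr
  intro n _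
  exact ⟨fun h' => h'.trans h, fun h' => h'.trans h.symm⟩

/-- the largest error modulo `W q` over the coprime classes -/
lemma exists_worst (lam X : ℝ) (W : ℕ) (hW : 0 < W) : ∃ a : ℕ → ℕ,
    (∀ q, (a q).Coprime (W * q)) ∧ ∀ q b, 0 < q → b.Coprime (W * q) →
      |psiAPL lam X (W * q) b - psiXL lam X / (Nat.totient (W * q) : ℝ)| ≤
      |psiAPL lam X (W * q) (a q) - psiXL lam X / (Nat.totient (W * q) : ℝ)| := by
  classical
  have key : ∀ q, ∃ a : ℕ, a.Coprime (W * q) ∧ (0 < q → ∀ b : ℕ, b.Coprime (W * q) →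
      |psiAPL lam X (W * q) b - psiXL lam X / (Nat.totient (W * q) : ℝ)| ≤
      |psiAPL lam X (W * q) a - psiXL lam X / (Nat.totient (W * q) : ℝ)|) := by
    intro q
    rcases Nat.eq_zero_or_pos q with h0 | hq
    · exact ⟨1, Nat.coprime_one_left _, fun h => by omega⟩
    have hWq : 0 < W * q := Nat.mul_pos hW hq
    set Sf := (range (W * q)).filter (fun a => a.Coprime (W * q)) with hSf
    have hmem : ∀ b : ℕ, b.Coprime (W * q) → b % (W * q) ∈ Sf := by
      intro b hb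
      rw [hSf, Finset.mem_filter, Finset.mem_range]
      refine ⟨Nat.mod_lt _ hWq, ?_⟩
      rw [Nat.Coprime, ← Nat.gcd_rec, Nat.gcd_comm]
      exact hb
    have hne : Sf.Nonempty := ⟨1 % (W * q), hmem 1 (Nat.coprime_one_left _)⟩
    obtain ⟨a, ha, hmax⟩ := Finset.exists_max_image Sf
      (fun a => |psiAPL lam X (W * q) a - psiXL lam X / (Nat.totient (W * q) : ℝ)|) hne
    refine ⟨a, (Finset.mem_filter.1 ha).2, fun _ b hb => ?_⟩
    have := hmax _ (hmem b hb)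
    rwa [psiAPL_congr (Nat.mod_modEq b (W * q))] at this
  choose a ha using key
  exact ⟨a, fun q => (ha q).1, fun q b hq hb => (ha q).2 hq b hb⟩

/-! ### totients -/

lemma totient_mul_prod (W : ℕ) (T : Finset ℕ) (hT : ∀ p ∈ T, p.Prime) :
    Nat.totient (W * ∏ p ∈ T, p) = Nat.totient W * ∏ p ∈ T, (if p ∣ W then p else p - 1) := by
  induction T using Finset.induction_on with
  | empty => simp
  | insert p T hp ih =>
    have ih := ih (fun q hq => hT q (Finset.mem_insert_of_mem hq))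
    have hpp := hT p (Finset.mem_insert_self _ _)
    rw [Finset.prod_insert hp, Finset.prod_insert hp,
      show W * (p * ∏ q ∈ T, q) = p * (W * ∏ q ∈ T, q) by ring]
    have hnd : ¬ p ∣ ∏ q ∈ T, q := by
      rw [Prime.dvd_finsetProd_iff hpp.prime]
      rintro ⟨q, hq, hpq⟩
      rw [Nat.prime_dvd_prime_iff_eq hpp (hT q (Finset.mem_insert_of_mem hq))] at hpq
      subst hpq
      exact hp hq
    by_cases h : p ∣ W
    · rw [Nat.totient_mul_of_prime_of_dvd hpp (h.mul_right _), ih, if_pos h]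
      ring
    · rw [Nat.totient_mul_of_prime_of_not_dvd hpp (by
        rw [hpp.dvd_mul, not_or]
        exact ⟨h, hnd⟩), ih, if_neg h]
      ring

/-! ### residue classes -/

section classes

variable {u v : ℤ} (hu : u ≠ 0)

/-- the residue of `u ρ + v` modulo `|u| D` -/
def rr (u v : ℤ) (D ρ : ℕ) : ℕ := ((u * ρ + v) % ((u.natAbs * D : ℕ) : ℤ)).toNat

include hu

lemma rr_modEq {D : ℕ} (hD : 0 < D) (ρ N : ℕ) :
    N ≡ rr u v D ρ [MOD u.natAbs * D] ↔ ((u.natAbs * D : ℕ) : ℤ) ∣ (u * ρ + v) - N := by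
  have hW : 0 < u.natAbs := Int.natAbs_pos.2 hu
  have hM : (0 : ℤ) < ((u.natAbs * D : ℕ) : ℤ) := by exact_mod_cast Nat.mul_pos hW hD
  rw [← Int.natCast_modEq_iff]
  unfold rr
  rw [Int.toNat_of_nonneg (Int.emod_nonneg _ hM.ne'), Int.modEq_comm]
  constructor
  · intro h
    have h1 := (Int.mod_modEq (u * ρ + v) ((u.natAbs * D : ℕ) : ℤ)).symm.trans h
    exact (Int.modEq_iff_dvd.1 h1.symm)
  · intro h
    have h1 : (N : ℤ) ≡ u * ρ + v [ZMOD ((u.natAbs * D : ℕ) : ℤ)] := Int.modEq_iff_dvd.2 h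
    exact (Int.mod_modEq _ _).trans h1.symm

lemma dvd_iff_class {D : ℕ} (ρ N : ℕ) :
    ((u.natAbs * D : ℕ) : ℤ) ∣ (u * ρ + v) - N ↔
      u ∣ (N : ℤ) - v ∧ (D : ℤ) ∣ (ρ : ℤ) - ((N : ℤ) - v) / u := by
  have habs : ((u.natAbs * D : ℕ) : ℤ) = |u| * D := by push_cast; rfl
  have key : ((u.natAbs * D : ℕ) : ℤ) ∣ (u * ρ + v) - N ↔ u * D ∣ (u * ρ + v) - N := by
    rw [habs]
    rcases abs_choice u with h | h
    · rw [h]
    · rw [h, neg_mul, neg_dvd]
  rw [key]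
  constructor
  · rintro ⟨c, hc⟩
    have h1 : (N : ℤ) - v = u * (ρ - D * c) := by linear_combination -hc
    refine ⟨⟨_, h1⟩, ?_⟩
    rw [h1, Int.mul_ediv_cancel_left _ hu]
    exact ⟨c, by ring⟩
  · rintro ⟨⟨x, hx⟩, h2⟩
    rw [hx, Int.mul_ediv_cancel_left _ hu] at h2
    obtain ⟨c, hc⟩ := h2
    exact ⟨c, by linear_combination u * hc - hx⟩

/-- decomposition of a sum over `N = u x + v` into residue classes -/
lemma sum_classes (Q : ℕ → ℤ → Prop) [∀ p, DecidablePred (Q p)]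
    (hQ : ∀ (p : ℕ) (x y : ℤ), (p : ℤ) ∣ x - y → (Q p x ↔ Q p y)) (T : Finset ℕ)
    (hT : ∀ p ∈ T, p.Prime) (lam X : ℝ) :
    ∑ N ∈ (Icc 1 ⌊3 * X⌋₊).filter (fun N : ℕ => u ∣ (N : ℤ) - v),
      (ArithmeticFunction.vonMangoldt N * OmL lam X N) *
        ∏ p ∈ T, (if Q p (((N : ℤ) - v) / u) then (1 : ℝ) else 0) =
      ∑ ρ ∈ (range (∏ p ∈ T, p)).filter (fun ρ : ℕ => ∀ p ∈ T, Q p ρ),
        psiAPL lam X (u.natAbs * ∏ p ∈ T, p) (rr u v (∏ p ∈ T, p) ρ) := by
  classical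
  set D := ∏ p ∈ T, p with hD
  have hD0 : 0 < D := Finset.prod_pos fun p hp => (hT p hp).pos
  have hD0' : (0 : ℤ) < D := by exact_mod_cast hD0
  unfold psiAPL
  simp only [Finset.sum_filter]
  rw [show (∑ ρ ∈ range D, if (∀ p ∈ T, Q p (ρ : ℤ)) then
      ∑ N ∈ Icc 1 ⌊3 * X⌋₊, (if N ≡ rr u v D ρ [MOD u.natAbs * D] then
        ArithmeticFunction.vonMangoldt N * OmL lam X N else 0) else 0) =
      ∑ N ∈ Icc 1 ⌊3 * X⌋₊, ∑ ρ ∈ range D,
        (if (∀ p ∈ T, Q p (ρ : ℤ)) ∧ N ≡ rr u v D ρ [MOD u.natAbs * D] then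
        ArithmeticFunction.vonMangoldt N * OmL lam X N else 0) by
    rw [Finset.sum_comm]
    apply Finset.sum_congr rfl
    intro ρ _
    split_ifs with h
    · apply Finset.sum_congr rfl
      intro N _
      by_cases h2 : N ≡ rr u v D ρ [MOD u.natAbs * D]
      · rw [if_pos h2, if_pos ⟨h, h2⟩]
      · rw [if_neg h2, if_neg (fun h' => h2 h'.2)]
    · symm
      apply Finset.sum_eq_zero
      intro N _
      rw [if_neg (fun h' => h h'.1)]]
  apply Finset.sum_congr rfl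
  intro N _
  rw [Finset.prod_ite_zero, Finset.prod_const_one]
  by_cases hN : u ∣ (N : ℤ) - v
  · rw [if_pos hN]
    set x : ℤ := ((N : ℤ) - v) / u with hx
    set ρ0 : ℕ := (x % (D : ℤ)).toNat with hρ0
    have hρ0' : (ρ0 : ℤ) = x % (D : ℤ) := Int.toNat_of_nonneg (Int.emod_nonneg _ hD0'.ne')
    have hρ0lt : ρ0 ∈ range D := by
      rw [Finset.mem_range]
      have := Int.emod_lt_of_pos x hD0'
      omega
    have hdvd0 : (D : ℤ) ∣ (ρ0 : ℤ) - x := by
      rw [hρ0']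
      have := Int.dvd_self_sub_emod (x := x) (m := (D : ℤ))
      have h2 := dvd_neg.2 this
      rwa [neg_sub] at h2
    rw [Finset.sum_eq_single ρ0]
    · have e1 : N ≡ rr u v D ρ0 [MOD u.natAbs * D] := by
        rw [rr_modEq hu hD0, dvd_iff_class hu]
        exact ⟨hN, hdvd0⟩
      have e2 : (∀ p ∈ T, Q p x) ↔ (∀ p ∈ T, Q p (ρ0 : ℤ)) := by
        have : ∀ p ∈ T, (Q p x ↔ Q p (ρ0 : ℤ)) := by
          intro p hp
          symm
          apply hQ
          have h1 : (p : ℤ) ∣ (D : ℤ) := by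
            rw [hD]
            exact_mod_cast Finset.dvd_prod_of_mem (fun p => p) hp
          exact h1.trans hdvd0
        exact ⟨fun h p hp => (this p hp).1 (h p hp), fun h p hp => (this p hp).2 (h p hp)⟩
      by_cases h : ∀ p ∈ T, Q p x
      · rw [if_pos h, if_pos ⟨e2.1 h, e1⟩, mul_one]
      · rw [if_neg h, if_neg (fun h' => h (e2.2 h'.1)), mul_zero]
    · intro ρ hρ hne
      rw [if_neg]
      rintro ⟨_, h2⟩
      rw [rr_modEq hu hD0, dvd_iff_class hu] at h2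
      apply hne
      have h3 := dvd_sub h2.2 hdvd0
      have h4 : (ρ : ℤ) - x - ((ρ0 : ℤ) - x) = (ρ : ℤ) - ρ0 := by ring
      rw [h4] at h3
      have h5 : ρ0 ≡ ρ [MOD D] := by
        rw [← Int.natCast_modEq_iff]
        exact Int.modEq_iff_dvd.2 h3
      exact (Nat.ModEq.eq_of_lt_of_lt h5 (Finset.mem_range.1 hρ0lt) (Finset.mem_range.1 hρ)).symm
    · intro h
      exact absurd hρ0lt h
  · rw [if_neg hN]
    symm
    apply Finset.sum_eq_zero
    intro ρ _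
    rw [if_neg]
    rintro ⟨_, h2⟩
    rw [rr_modEq hu hD0, dvd_iff_class hu] at h2
    exact hN h2.1

/-- the classes are coprime to the modulus -/
lemma rr_coprime (huv : IsCoprime u v) (T : Finset ℕ) (hT : ∀ p ∈ T, p.Prime) (ρ : ℕ)
    (h : ∀ p ∈ T, ¬ (p : ℤ) ∣ u * ρ + v) :
    (rr u v (∏ p ∈ T, p) ρ).Coprime (u.natAbs * ∏ p ∈ T, p) := by
  set D := ∏ p ∈ T, p with hD
  have hD0 : 0 < D := Finset.prod_pos fun p hp => (hT p hp).pos
  have hmod := (rr_modEq (u := u) (v := v) hu hD0 ρ (rr u v D ρ)).1 (Nat.ModEq.refl _)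
  apply Nat.Coprime.symm
  apply Nat.coprime_of_dvd
  intro q hq h1 h2
  have h3 : (q : ℤ) ∣ u * ρ + v := by
    have h4 : (q : ℤ) ∣ (u * ρ + v) - rr u v D ρ :=
      (Int.natCast_dvd_natCast.2 h1).trans hmod
    have h5 : (q : ℤ) ∣ (rr u v D ρ : ℤ) := Int.natCast_dvd_natCast.2 h2
    have := dvd_add h4 h5
    simpa using this
  rcases (Nat.Prime.dvd_mul hq).1 h1 with h4 | h4
  · have h5 : (q : ℤ) ∣ u := Int.natCast_dvd.2 h4
    have h6 : (q : ℤ) ∣ v := by
      have := dvd_sub h3 (h5.mul_right (ρ : ℤ))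
      simpa using this
    have h7 := huv.isUnit_of_dvd' h5 h6
    rw [Int.isUnit_iff_natAbs_eq] at h7
    simp only [Int.natAbs_natCast] at h7
    exact hq.one_lt.ne' h7
  · rw [hD, Prime.dvd_finsetProd_iff hq.prime] at h4
    obtain ⟨p, hp, hqp⟩ := h4
    rw [Nat.prime_dvd_prime_iff_eq hq (hT p hp)] at hqp
    subst hqp
    exact h q hp h3

/-- number of admissible classes -/
def om (Q : ℕ → ℤ → Prop) [∀ p, DecidablePred (Q p)] (p : ℕ) : ℕ :=
  ((range p).filter (fun ρ : ℕ => Q p (ρ : ℤ))).card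

/-- the density of the classes among the primes `u x + v` -/
noncomputable def rhoW (W : ℕ) (Q : ℕ → ℤ → Prop) [∀ p, DecidablePred (Q p)] (p : ℕ) : ℝ :=
  (om Q p : ℝ) / ((if p ∣ W then p else p - 1 : ℕ) : ℝ)

/-- the estimate for one set of primes -/
lemma class_estimate (huv : IsCoprime u v) (Q : ℕ → ℤ → Prop) [∀ p, DecidablePred (Q p)]
    (hQ : ∀ (p : ℕ) (x y : ℤ), (p : ℤ) ∣ x - y → (Q p x ↔ Q p y))
    (hQu : ∀ (p : ℕ) (x : ℤ), Q p x → ¬ (p : ℤ) ∣ u * x + v) {K : ℕ}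
    (T : Finset ℕ) (hT : ∀ p ∈ T, p.Prime) (hK : ∀ p ∈ T, om Q p ≤ K) (lam X : ℝ) (a : ℕ → ℕ)
    (ha : ∀ q b, 0 < q → b.Coprime (u.natAbs * q) →
      |psiAPL lam X (u.natAbs * q) b - psiXL lam X / (Nat.totient (u.natAbs * q) : ℝ)| ≤
      |psiAPL lam X (u.natAbs * q) (a q) - psiXL lam X / (Nat.totient (u.natAbs * q) : ℝ)|) :
    |∑ N ∈ (Icc 1 ⌊3 * X⌋₊).filter (fun N : ℕ => u ∣ (N : ℤ) - v),
      (ArithmeticFunction.vonMangoldt N * OmL lam X N) *
        ∏ p ∈ T, (if Q p (((N : ℤ) - v) / u) then (1 : ℝ) else 0) -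
      psiXL lam X / (Nat.totient u.natAbs : ℝ) * ∏ p ∈ T, rhoW u.natAbs Q p| ≤
      (K : ℝ) ^ T.card * |psiAPL lam X (u.natAbs * ∏ p ∈ T, p) (a (∏ p ∈ T, p)) -
        psiXL lam X / (Nat.totient (u.natAbs * ∏ p ∈ T, p) : ℝ)| := by
  classical
  have hD0 : 0 < ∏ p ∈ T, p := Finset.prod_pos fun p hp => (hT p hp).pos
  rw [sum_classes hu Q hQ T hT]
  have hcount : ((range (∏ p ∈ T, p)).filter (fun ρ : ℕ => ∀ p ∈ T, Q p (ρ : ℤ))).card =
      ∏ p ∈ T, om Q p := by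
    apply count_primes (fun p x => Q p (x : ℤ)) _ T hT
    intro p x
    apply hQ
    have := Nat.div_add_mod x p
    refine ⟨-((x / p : ℕ) : ℤ), ?_⟩
    have h3 : (p : ℤ) * ((x / p : ℕ) : ℤ) + ((x % p : ℕ) : ℤ) = x := by exact_mod_cast this
    linear_combination h3
  have hW : 0 < u.natAbs := Int.natAbs_pos.2 hu
  have hφW : (0 : ℝ) < Nat.totient u.natAbs := by exact_mod_cast Nat.totient_pos.2 hW
  have hmain : psiXL lam X / (Nat.totient u.natAbs : ℝ) * ∏ p ∈ T, rhoW u.natAbs Q p =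
      ∑ ρ ∈ (range (∏ p ∈ T, p)).filter (fun ρ : ℕ => ∀ p ∈ T, Q p (ρ : ℤ)),
        psiXL lam X / (Nat.totient (u.natAbs * ∏ p ∈ T, p) : ℝ) := by
    rw [Finset.sum_const, hcount, nsmul_eq_mul, totient_mul_prod u.natAbs T hT]
    unfold rhoW
    rw [Finset.prod_div_distrib]
    push_cast
    have hne : (∏ p ∈ T, ((if p ∣ u.natAbs then p else p - 1 : ℕ) : ℝ)) ≠ 0 := by
      rw [Finset.prod_ne_zero_iff]
      intro p hp
      have hpp := hT p hp
      have := hpp.two_le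
      split_ifs
      · exact_mod_cast hpp.ne_zero
      · have : p - 1 ≠ 0 := by omega
        exact_mod_cast this
    field_simp
  rw [hmain, ← Finset.sum_sub_distrib]
  refine (Finset.abs_sum_le_sum_abs _ _).trans ?_
  have h1 : ∀ ρ ∈ (range (∏ p ∈ T, p)).filter (fun ρ : ℕ => ∀ p ∈ T, Q p (ρ : ℤ)),
      |psiAPL lam X (u.natAbs * ∏ p ∈ T, p) (rr u v (∏ p ∈ T, p) ρ) -
        psiXL lam X / (Nat.totient (u.natAbs * ∏ p ∈ T, p) : ℝ)| ≤
      |psiAPL lam X (u.natAbs * ∏ p ∈ T, p) (a (∏ p ∈ T, p)) -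
        psiXL lam X / (Nat.totient (u.natAbs * ∏ p ∈ T, p) : ℝ)| := by
    intro ρ hρ
    apply ha _ _ hD0
    apply rr_coprime hu huv T hT
    intro p hp
    exact hQu p ρ ((Finset.mem_filter.1 hρ).2 p hp)
  refine (Finset.sum_le_sum h1).trans ?_
  rw [Finset.sum_const, hcount, nsmul_eq_mul]
  apply mul_le_mul_of_nonneg_right _ (abs_nonneg _)
  push_cast
  rw [← Finset.prod_const]
  apply Finset.prod_le_prod
  · intro p _; positivity
  · intro p hp; exact_mod_cast hK p hp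

end classes

/-- the sum of the errors over sets of primes -/
lemma sum_err_le (P : Finset ℕ) (hP : ∀ p ∈ P, p.Prime) (L M K : ℕ) (hLM : L ≤ M) (E : ℕ → ℝ)
    (hE : ∀ q, 0 ≤ E q) :
    ∑ T ∈ P.powerset.filter (fun T => ∏ p ∈ T, p ≤ L), (K : ℝ) ^ T.card * E (∏ p ∈ T, p) ≤
      ∑ q ∈ (Icc 1 M).filter Squarefree, (K : ℝ) ^ q.primeFactors.card * E q := by
  classical
  have hpf : ∀ T ⊆ P, (∏ p ∈ T, p).primeFactors = T := fun T hT =>
    Nat.primeFactors_prod (fun p hp => hP p (hT hp))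
  have hinj : Set.InjOn (fun T : Finset ℕ => ∏ p ∈ T, p)
      (P.powerset.filter (fun T => ∏ p ∈ T, p ≤ L) : Finset (Finset ℕ)) := by
    intro T hT T' hT' h
    simp only [Finset.coe_filter, Finset.mem_powerset, Set.mem_ofPred_eq] at hT hT'
    rw [← hpf T hT.1, ← hpf T' hT'.1]
    simp only at h
    rw [h]
  have h1 : ∑ T ∈ P.powerset.filter (fun T => ∏ p ∈ T, p ≤ L), (K : ℝ) ^ T.card * E (∏ p ∈ T, p) =
      ∑ q ∈ (P.powerset.filter (fun T => ∏ p ∈ T, p ≤ L)).image (fun T => ∏ p ∈ T, p),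
        (K : ℝ) ^ q.primeFactors.card * E q := by
    rw [Finset.sum_image hinj]
    apply Finset.sum_congr rfl
    intro T hT
    rw [Finset.mem_filter, Finset.mem_powerset] at hT
    rw [hpf T hT.1]
  rw [h1]
  apply Finset.sum_le_sum_of_subset_of_nonneg
  · intro q hq
    obtain ⟨T, hT, rfl⟩ := Finset.mem_image.1 hq
    rw [Finset.mem_filter, Finset.mem_powerset] at hT
    rw [Finset.mem_filter, Finset.mem_Icc]
    refine ⟨⟨Finset.prod_pos fun p hp => (hP p (hT.1 hp)).pos, hT.2.trans hLM⟩, ?_⟩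
    apply Finset.squarefree_prod_of_pairwise_isCoprime
    · intro p hp q hq hpq
      rw [Function.onFun, ← Nat.coprime_iff_isRelPrime,
        Nat.coprime_primes (hP p (hT.1 hp)) (hP q (hT.1 hq))]
      exact hpq
    · intro p hp
      exact (hP p (hT.1 hp)).squarefree
  · intro q _ _
    exact mul_nonneg (by positivity) (hE q)

end Pool.Agent.BVall
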