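import Pool.Agent.Lib.MP_0da313_nt.Sieve

set_option autoImplicit false

/-!
The Brun-Hooley functions as combinations of products over sets of primes with bounded product,
with coefficients of absolute value at most one.
-/

open Finset

namespace Pool.Agent.BVall

open Pool.Agent.Lib.MP_0da313_nt

/-- `F` is a combination of the products `∏ p ∈ T, ρ p`, `T ⊆ P`, with coefficients of absolute
value at most one which vanish unless `Q T`. -/
def RepB (P : Finset ℕ) (Q : Finset ℕ → Prop) (F : (ℕ → ℝ) → ℝ) : Prop :=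
  ∃ c : Finset ℕ → ℝ, (∀ ρ, F ρ = ∑ T ∈ P.powerset, c T * ∏ p ∈ T, ρ p) ∧
    (∀ T, |c T| ≤ 1) ∧ ∀ T ∈ P.powerset, c T ≠ 0 → Q T

lemma repB_U (B : Finset ℕ) (b : ℕ) : RepB B (fun T => T.card ≤ b) (fun ρ => U ρ B b) := by
  refine ⟨fun T => if T.card < b + 1 then (-1) ^ T.card else 0, ?_, ?_, ?_⟩
  · intro ρ
    simp only [ite_mul, zero_mul]
    unfold U E
    have e1 : ∑ T ∈ B.powerset, (if T.card < b + 1 then (-1) ^ T.card * ∏ p ∈ T, ρ p else 0)
        = ∑ T ∈ B.powerset, ∑ i ∈ range (b + 1),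
          (if T.card = i then (-1) ^ i * ∏ p ∈ T, ρ p else 0) := by
      apply Finset.sum_congr rfl
      intro T _
      rw [Finset.sum_ite_eq]
      simp only [Finset.mem_range]
    rw [e1, Finset.sum_comm]
    apply Finset.sum_congr rfl
    intro i _
    rw [← Finset.sum_filter, Finset.powersetCard_eq_filter, Finset.mul_sum]
  · intro T
    simp only
    split_ifs <;> simp
  · intro T _ h
    simp only [ne_eq, ite_eq_right_iff, Classical.not_imp] at h
    omega

lemma repB_W (B : Finset ℕ) : RepB B (fun _ => True) (fun ρ => W ρ B) := by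
  refine ⟨fun T => (-1) ^ T.card, ?_, ?_, ?_⟩
  · intro ρ
    unfold W
    have : ∀ p ∈ B, (1 - ρ p) = 1 + (-ρ p) := fun p _ => by ring
    beta_reduce
    rw [Finset.prod_congr rfl this, Finset.prod_one_add]
    apply Finset.sum_congr rfl
    intro T _
    rw [Finset.prod_neg]
  · intro T
    simp
  · intro T _ _
    trivial

/-- product of representations over disjoint sets -/
lemma RepB.mul {P Q : Finset ℕ} (hd : Disjoint P Q) {R R' : Finset ℕ → Prop}
    {F F' : (ℕ → ℝ) → ℝ} (h : RepB P R F) (h' : RepB Q R' F') :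
    RepB (P ∪ Q) (fun T => R (T ∩ P) ∧ R' (T ∩ Q)) (fun ρ => F ρ * F' ρ) := by
  obtain ⟨c, h1, h2, h3⟩ := h
  obtain ⟨c', h1', h2', h3'⟩ := h'
  refine ⟨fun T => c (T ∩ P) * c' (T ∩ Q), ?_, ?_, ?_⟩
  · intro ρ
    have e1 : ∀ T ∈ (P ∪ Q).powerset, c (T ∩ P) * c' (T ∩ Q) * ∏ p ∈ T, ρ p
        = (c (T ∩ P) * ∏ p ∈ T ∩ P, ρ p) * (c' (T ∩ Q) * ∏ p ∈ T ∩ Q, ρ p) := by
      intro T hT
      rw [prod_union_inter hd (Finset.mem_powerset.mp hT)]
      ring
    beta_reduce
    rw [Finset.sum_congr rfl e1,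
      sum_powerset_union hd (fun A B => (c A * ∏ p ∈ A, ρ p) * (c' B * ∏ p ∈ B, ρ p)),
      h1, h1', Finset.sum_mul_sum]
  · intro T
    simp only
    rw [abs_mul]
    exact mul_le_one₀ (h2 _) (abs_nonneg _) (h2' _)
  · intro T _ h
    simp only [ne_eq, mul_eq_zero, not_or] at h
    exact ⟨h3 _ (Finset.mem_powerset.2 Finset.inter_subset_right) h.1,
      h3' _ (Finset.mem_powerset.2 Finset.inter_subset_right) h.2⟩

/-- the step for the lower bound function -/
lemma RepB.step {P Q : Finset ℕ} (hd : Disjoint P Q) {R : Finset ℕ → Prop} (b : ℕ)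
    {F F' : (ℕ → ℝ) → ℝ} (h : RepB P R F) (h' : RepB P R F') :
    RepB (P ∪ Q) (fun T => R (T ∩ P) ∧ (T ∩ Q).card ≤ b + 1)
      (fun ρ => F ρ * U ρ Q b - F' ρ * E ρ Q (b + 1)) := by
  obtain ⟨c, h1, h2, h3⟩ := h
  obtain ⟨c', h1', h2', h3'⟩ := h'
  refine ⟨fun T => if (T ∩ Q).card < b + 1 then c (T ∩ P) * (-1) ^ (T ∩ Q).card else
    (if (T ∩ Q).card = b + 1 then - c' (T ∩ P) else 0), ?_, ?_, ?_⟩
  · intro ρ
    have e0 : U ρ Q b = ∑ T ∈ Q.powerset, (if T.card < b + 1 then (-1) ^ T.card else 0) *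
        ∏ p ∈ T, ρ p := by
      simp only [ite_mul, zero_mul]
      unfold U E
      have e1 : ∑ T ∈ Q.powerset, (if T.card < b + 1 then (-1) ^ T.card * ∏ p ∈ T, ρ p else 0)
          = ∑ T ∈ Q.powerset, ∑ i ∈ range (b + 1),
            (if T.card = i then (-1) ^ i * ∏ p ∈ T, ρ p else 0) := by
        apply Finset.sum_congr rfl
        intro T _
        rw [Finset.sum_ite_eq]
        simp only [Finset.mem_range]
      rw [e1, Finset.sum_comm]
      apply Finset.sum_congr rfl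
      intro i _
      rw [← Finset.sum_filter, Finset.powersetCard_eq_filter, Finset.mul_sum]
    have e0' : E ρ Q (b + 1) = ∑ T ∈ Q.powerset, (if T.card = b + 1 then 1 else 0) *
        ∏ p ∈ T, ρ p := by
      simp only [ite_mul, one_mul, zero_mul]
      rw [← Finset.sum_filter]
      unfold E
      rw [Finset.powersetCard_eq_filter]
    have e1 : ∀ T ∈ (P ∪ Q).powerset,
        (if (T ∩ Q).card < b + 1 then c (T ∩ P) * (-1) ^ (T ∩ Q).card else
          (if (T ∩ Q).card = b + 1 then - c' (T ∩ P) else 0)) * ∏ p ∈ T, ρ p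
        = (c (T ∩ P) * ∏ p ∈ T ∩ P, ρ p) *
            ((if (T ∩ Q).card < b + 1 then (-1) ^ (T ∩ Q).card else 0) * ∏ p ∈ T ∩ Q, ρ p) -
          (c' (T ∩ P) * ∏ p ∈ T ∩ P, ρ p) *
            ((if (T ∩ Q).card = b + 1 then 1 else 0) * ∏ p ∈ T ∩ Q, ρ p) := by
      intro T hT
      rw [prod_union_inter hd (Finset.mem_powerset.mp hT)]
      split_ifs with g1 g2
      · omega
      · ring
      · ring
      · ring
    beta_reduce
    rw [Finset.sum_congr rfl e1, Finset.sum_sub_distrib,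
      sum_powerset_union hd (fun A B => (c A * ∏ p ∈ A, ρ p) *
        ((if B.card < b + 1 then (-1) ^ B.card else 0) * ∏ p ∈ B, ρ p)),
      sum_powerset_union hd (fun A B => (c' A * ∏ p ∈ A, ρ p) *
        ((if B.card = b + 1 then 1 else 0) * ∏ p ∈ B, ρ p)),
      h1, h1', e0, e0', Finset.sum_mul_sum, Finset.sum_mul_sum]
  · intro T
    simp only
    split_ifs
    · rw [abs_mul]
      simpa using h2 (T ∩ P)
    · rw [abs_neg]
      exact h2' _
    · simp
  · intro T _ h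
    simp only [ne_eq] at h
    have hP : T ∩ P ∈ P.powerset := Finset.mem_powerset.2 Finset.inter_subset_right
    split_ifs at h with g1 g2
    · simp only [mul_eq_zero, not_or] at h
      exact ⟨h3 _ hP h.1, by omega⟩
    · rw [neg_eq_zero] at h
      exact ⟨h3' _ hP h, by omega⟩
    · exact absurd rfl h

lemma RepB.mono {P : Finset ℕ} {Q Q' : Finset ℕ → Prop} {F : (ℕ → ℝ) → ℝ} (h : RepB P Q F)
    (hQ : ∀ T ⊆ P, Q T → Q' T) : RepB P Q' F := by
  obtain ⟨c, h1, h2, h3⟩ := h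
  exact ⟨c, h1, h2, fun T hT h => hQ T (Finset.mem_powerset.1 hT) (h3 T hT h)⟩

section
variable {B0 : Finset ℕ} {B : ℕ → Finset ℕ} {b : ℕ → ℕ}

lemma PP_mono {i n : ℕ} (h : i ≤ n) : PP B0 B i ⊆ PP B0 B n := by
  induction n, h using Nat.le_induction with
  | base => exact fun _ h => h
  | succ n _ ih => exact ih.trans (fun p hp => mem_PP_succ.2 (Or.inl hp))

lemma B_sub_PP {i n : ℕ} (h : i < n) : B i ⊆ PP B0 B n := fun _ hp =>
  PP_mono (show i + 1 ≤ n by omega) (mem_PP_succ.2 (Or.inr hp))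

/-- the support condition -/
def Supp (B : ℕ → Finset ℕ) (b : ℕ → ℕ) (n : ℕ) (T : Finset ℕ) : Prop :=
  ∀ i < n, (T ∩ B i).card ≤ b i + 1

lemma repB_YY (n : ℕ) (hd : ∀ i < n, Disjoint (PP B0 B i) (B i)) :
    RepB (PP B0 B n) (Supp B b n) (fun ρ => YY B0 B b ρ n) := by
  induction n with
  | zero => exact (repB_W B0).mono (fun T _ _ i hi => by omega)
  | succ n ih =>
    have ih := ih (fun i hi => hd i (by omega))
    refine (RepB.mul (hd n (by omega)) ih (repB_U (B n) (b n))).mono ?_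
    rintro T _ ⟨h1, h2⟩ i hi
    rcases Nat.lt_succ_iff_lt_or_eq.1 hi with h | h
    · have := h1 i h
      rwa [Finset.inter_assoc, Finset.inter_eq_right.2 (B_sub_PP h)] at this
    · subst h
      omega

lemma repB_FF (n : ℕ) (hd : ∀ i < n, Disjoint (PP B0 B i) (B i)) :
    RepB (PP B0 B n) (Supp B b n) (fun ρ => FF B0 B b ρ n) := by
  induction n with
  | zero => exact (repB_W B0).mono (fun T _ _ i hi => by omega)
  | succ n ih =>
    have ih := ih (fun i hi => hd i (by omega))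
    have hy := repB_YY (b := b) n (fun i hi => hd i (by omega))
    refine (RepB.step (hd n (by omega)) (b n) ih hy).mono ?_
    rintro T _ ⟨h1, h2⟩ i hi
    rcases Nat.lt_succ_iff_lt_or_eq.1 hi with h | h
    · have := h1 i h
      rwa [Finset.inter_assoc, Finset.inter_eq_right.2 (B_sub_PP h)] at this
    · subst h
      exact h2

end

/-- From a representation to an estimate of weighted sums. -/
lemma RepB.sum_estimate {P : Finset ℕ} {Q : Finset ℕ → Prop} [DecidablePred Q]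
    {F : (ℕ → ℝ) → ℝ} (h : RepB P Q F)
    {ι : Type*} (S : Finset ι) (g : ι → ℝ) (ind : ι → ℕ → ℝ) (X : ℝ) (ρ : ℕ → ℝ)
    (Err : Finset ℕ → ℝ)
    (hA : ∀ T ⊆ P, Q T → |∑ x ∈ S, g x * ∏ p ∈ T, ind x p - X * ∏ p ∈ T, ρ p| ≤ Err T) :
    |∑ x ∈ S, g x * F (ind x) - X * F ρ| ≤ ∑ T ∈ P.powerset.filter Q, Err T := by
  obtain ⟨c, h1, h2, h3⟩ := h
  have e1 : ∑ x ∈ S, g x * F (ind x) - X * F ρ
      = ∑ T ∈ P.powerset, c T * (∑ x ∈ S, g x * ∏ p ∈ T, ind x p - X * ∏ p ∈ T, ρ p) := by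
    simp only [h1, mul_sub, Finset.sum_sub_distrib, Finset.mul_sum]
    rw [Finset.sum_comm]
    congr 1
    · apply Finset.sum_congr rfl
      intro T _
      apply Finset.sum_congr rfl
      intro x _
      ring
    · apply Finset.sum_congr rfl
      intro T _
      ring
  have e2 : ∑ T ∈ P.powerset, c T * (∑ x ∈ S, g x * ∏ p ∈ T, ind x p - X * ∏ p ∈ T, ρ p) =
      ∑ T ∈ P.powerset.filter Q,
        c T * (∑ x ∈ S, g x * ∏ p ∈ T, ind x p - X * ∏ p ∈ T, ρ p) := by
    symm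
    apply Finset.sum_filter_of_ne
    intro T hT hne
    apply h3 T hT
    intro h0
    apply hne
    rw [h0, zero_mul]
  rw [e1, e2]
  refine (Finset.abs_sum_le_sum_abs _ _).trans ?_
  apply Finset.sum_le_sum
  intro T hT
  rw [Finset.mem_filter] at hT
  have h4 := hA T (Finset.mem_powerset.mp hT.1) hT.2
  rw [abs_mul]
  calc |c T| * _ ≤ 1 * _ := mul_le_mul_of_nonneg_right (h2 T) (abs_nonneg _)
    _ ≤ Err T := by rw [one_mul]; exact h4

/-! ### The parameters -/

/-- the truncation parameters -/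
def bb (K n : ℕ) (i : ℕ) : ℕ := 8 * K + 2 * (n - 1 - i)

lemma bb_even (K n i : ℕ) : Even (bb K n i) := ⟨4 * K + (n - 1 - i), by unfold bb; ring⟩

/-- a density function of dimension `K` -/
structure Dens (K : ℕ) (ρ : ℕ → ℝ) : Prop where
  nonneg : ∀ p, 0 ≤ ρ p
  lt : ∀ p, p.Prime → ρ p ≤ 1 - 1 / p
  le : ∀ p, p.Prime → ρ p ≤ K / p

variable {K : ℕ} {ρ : ℕ → ℝ}

lemma Dens.lt_one (h : Dens K ρ) {p : ℕ} (hp : p.Prime) : ρ p < 1 := by
  have h1 := h.lt p hp
  have h2 : (0 : ℝ) < 1 / p := by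
    have : (0 : ℝ) < p := by exact_mod_cast hp.pos
    positivity
  linarith

lemma Dens.sum_blk (h : Dens K ρ) (i : ℕ) : ∑ p ∈ blk i, ρ p ≤ 2 * K := by
  have h1 : ∑ p ∈ blk i, ρ p ≤ ∑ p ∈ blk i, (K : ℝ) * (1 / p) := by
    apply Finset.sum_le_sum
    intro p hp
    rw [mul_one_div]
    exact h.le p (mem_blk.mp hp).2
  refine h1.trans ?_
  rw [← Finset.mul_sum]
  have := sum_blk_le i
  have hK : (0 : ℝ) ≤ K := Nat.cast_nonneg K
  nlinarith

lemma Dens.half (h : Dens K ρ) (i : ℕ) : ∀ p ∈ blk (K + i), ρ p ≤ 1 / 2 := by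
  intro p hp
  have hp' := mem_blk.mp hp
  have h1 : 2 * K ≤ p := by
    have h2 : K < 2 ^ K := Nat.lt_two_pow_self
    have h3 : 2 ^ K ≤ 2 ^ (K + i) := Nat.pow_le_pow_right (by norm_num) (by omega)
    have h4 : ∀ k : ℕ, 1 ≤ k → 2 * k ≤ 2 ^ k := by
      intro k hk
      obtain ⟨j, rfl⟩ : ∃ j, k = j + 1 := ⟨k - 1, by omega⟩
      have : j < 2 ^ j := Nat.lt_two_pow_self
      rw [pow_succ]
      omega
    have h5 := h4 (2 ^ (K + i)) Nat.one_le_two_pow
    omega
  have h2 : (0 : ℝ) < p := by exact_mod_cast hp'.2.pos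
  refine (h.le p hp'.2).trans ?_
  rw [div_le_div_iff₀ h2 (by norm_num)]
  have h3 : (2 * K : ℝ) ≤ p := by exact_mod_cast h1
  linarith

lemma Dens.W_blk (h : Dens K ρ) (i : ℕ) : ((1 : ℝ) / 2) ^ (4 * K) ≤ W ρ (blk (K + i)) := by
  have := W_lower (B := blk (K + i)) (fun p _ => h.nonneg p) (h.half i) (h.sum_blk (K + i))
  rw [show (2 : ℝ) * (2 * K) = ((4 * K : ℕ) : ℝ) by push_cast; ring, Real.rpow_natCast] at this
  exact this

lemma Dens.ratio (h : Dens K ρ) (n i : ℕ) :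
    E ρ (blk (K + i)) (bb K n i + 1) / W ρ (blk (K + i)) ≤ (1 / 4) * (1 / 16) ^ (n - 1 - i) := by
  have hWpos : 0 < ((1 : ℝ) / 2) ^ (4 * K) := by positivity
  have hWpos' : 0 < W ρ (blk (K + i)) := lt_of_lt_of_le hWpos (h.W_blk i)
  have h1 := E_le ρ (blk (K + i)) (fun p _ => h.nonneg p) (bb K n i + 1)
  have h2 : (∑ p ∈ blk (K + i), ρ p) ^ (bb K n i + 1) ≤ (2 * K : ℝ) ^ (bb K n i + 1) :=
    pow_le_pow_left₀ (Finset.sum_nonneg fun p _ => h.nonneg p) (h.sum_blk _) _
  have h3 : (0 : ℝ) < ((bb K n i + 1).factorial : ℝ) := by exact_mod_cast Nat.factorial_pos _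
  have h4 : E ρ (blk (K + i)) (bb K n i + 1) ≤
      (2 * K : ℝ) ^ (bb K n i + 1) / (bb K n i + 1).factorial := by
    rw [le_div_iff₀ h3]
    linarith
  have h5 := h4.trans (pow_div_factorial_le K (bb K n i + 1))
  rw [div_le_iff₀ hWpos']
  refine h5.trans ?_
  have h6 : (2 : ℝ) ^ (12 * K) / 4 ^ (bb K n i + 1)
      = (1 / 4) * (1 / 16) ^ (n - 1 - i) * (1 / 2) ^ (4 * K) := by
    have h7 : (4 : ℝ) ^ (bb K n i + 1) = 4 * 16 ^ (n - 1 - i) * (2 ^ (4 * K) * 2 ^ (12 * K)) := by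
      simp only [bb]
      rw [← pow_add, show 8 * K + 2 * (n - 1 - i) + 1 = 1 + 2 * (n - 1 - i) + 8 * K by ring,
        pow_add, pow_add, pow_mul, show 4 * K + 12 * K = 2 * (8 * K) by ring, pow_mul 2 2]
      norm_num
    rw [h7, one_div_pow, one_div_pow]
    have : (2 : ℝ) ^ (12 * K) ≠ 0 := by positivity
    field_simp
  rw [h6]
  exact mul_le_mul_of_nonneg_left (h.W_blk i) (by positivity)

lemma geom_le (n : ℕ) : ∑ i ∈ range n, (1 / 4 : ℝ) * (1 / 16) ^ (n - 1 - i) ≤ 4 / 15 := by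
  rw [Finset.sum_range_reflect (fun j => (1 / 4 : ℝ) * (1 / 16) ^ j) n, ← Finset.mul_sum]
  have h1 : ∑ i ∈ range n, ((1 : ℝ) / 16) ^ i ≤ 16 / 15 := by
    have := geom_sum_eq (x := (1 : ℝ) / 16) (by norm_num) n
    rw [this, div_le_iff_of_neg (by norm_num)]
    have : (0 : ℝ) ≤ (1 / 16) ^ n := by positivity
    linarith
  linarith

/-- the set of all primes up to `2^(2^(K+n))`, as a union of blocks -/
def PK (K n : ℕ) : Finset ℕ := PP (small K) (fun i => blk (K + i)) n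

lemma mem_PK {K n p : ℕ} : p ∈ PK K n ↔ p.Prime ∧ p ≤ 2 ^ (2 ^ (K + n)) := mem_PP_iff K n p

/-- the lower bound function -/
noncomputable def FK (K n : ℕ) (ρ : ℕ → ℝ) : ℝ :=
  FF (small K) (fun i => blk (K + i)) (bb K n) ρ n

/-- the upper bound function -/
noncomputable def YK (K n : ℕ) (ρ : ℕ → ℝ) : ℝ :=
  YY (small K) (fun i => blk (K + i)) (bb K n) ρ n

lemma pointwise_K (K n : ℕ) {ρ : ℕ → ℝ} (h0 : ∀ p ∈ PK K n, 0 ≤ ρ p)
    (h1 : ∀ p ∈ PK K n, ρ p ≤ 1) :
    W ρ (PK K n) ≤ YK K n ρ ∧ FK K n ρ ≤ W ρ (PK K n) :=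
  pointwise (bb_even K n) n (fun i _ => disj K i) ρ h0 h1

lemma Dens.FK_lower (h : Dens K ρ) (n : ℕ) : 1 / 2 * W ρ (PK K n) ≤ FK K n ρ := by
  have h3 := FF_lower (bb_even K n) n (fun i _ => disj K i) ρ (fun p _ => h.nonneg p)
    (fun p hp => h.lt_one ((mem_PP_iff K n p).mp hp).1)
  have h4 := (pointwise_K K n (ρ := ρ) (fun p _ => h.nonneg p)
    (fun p hp => (h.lt_one ((mem_PP_iff K n p).mp hp).1).le)).1
  have h5 : ∑ i ∈ range n, E ρ (blk (K + i)) (bb K n i + 1) / W ρ (blk (K + i)) ≤ 4 / 15 :=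
    (Finset.sum_le_sum fun i _ => h.ratio n i).trans (geom_le n)
  have h6 : 0 ≤ W ρ (PK K n) :=
    W_nonneg fun p hp => (h.lt_one ((mem_PP_iff K n p).mp hp).1).le
  refine le_trans ?_ h3
  have h7 : 1 / 2 * W ρ (PK K n) ≤ W ρ (PK K n) *
      (1 - ∑ i ∈ range n, E ρ (blk (K + i)) (bb K n i + 1) / W ρ (blk (K + i))) := by
    nlinarith
  refine h7.trans ?_
  apply mul_le_mul_of_nonneg_right h4
  linarith

lemma Dens.YK_upper (h : Dens K ρ) (n : ℕ) : YK K n ρ ≤ 2 * W ρ (PK K n) := by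
  have key : ∀ m ≤ n, YY (small K) (fun i => blk (K + i)) (bb K n) ρ m ≤
      W ρ (PP (small K) (fun i => blk (K + i)) m) *
        ∏ i ∈ range m, (1 + (1 / 4) * (1 / 16) ^ (n - 1 - i)) := by
    intro m
    induction m with
    | zero =>
      intro _
      simp only [Finset.range_zero, Finset.prod_empty, mul_one]
      exact le_rfl
    | succ m ih =>
      intro hm
      have ih := ih (by omega)
      have hW : W ρ (PP (small K) (fun i => blk (K + i)) (m + 1)) =
          W ρ (PP (small K) (fun i => blk (K + i)) m) * W ρ (blk (K + m)) :=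
        W_union (disj K m)
      have hWpos' : 0 < W ρ (blk (K + m)) := lt_of_lt_of_le (by positivity) (h.W_blk m)
      have hb1 : ∀ p ∈ blk (K + m), ρ p ≤ 1 := fun p hp =>
        (h.lt_one (mem_blk.1 hp).2).le
      have u2 := U_le_W_add_E ρ (blk (K + m)) (fun p _ => h.nonneg p) hb1 (bb_even K n m)
      have u1 := W_le_U ρ (blk (K + m)) (fun p _ => h.nonneg p) hb1 (bb_even K n m)
      have hr := h.ratio n m
      rw [div_le_iff₀ hWpos'] at hr
      rw [Finset.prod_range_succ, hW]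
      have hU : U ρ (blk (K + m)) (bb K n m) ≤
          W ρ (blk (K + m)) * (1 + (1 / 4) * (1 / 16) ^ (n - 1 - m)) := by
        nlinarith
      have hW0 : 0 ≤ W ρ (PP (small K) (fun i => blk (K + i)) m) :=
        W_nonneg fun p hp => (h.lt_one ((mem_PP_iff K m p).mp hp).1).le
      have hP0 : 0 ≤ ∏ i ∈ range m, (1 + (1 / 4 : ℝ) * (1 / 16) ^ (n - 1 - i)) :=
        Finset.prod_nonneg fun i _ => by positivity
      show YY (small K) (fun i => blk (K + i)) (bb K n) ρ m * U ρ (blk (K + m)) (bb K n m) ≤ _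
      calc _ ≤ (W ρ (PP (small K) (fun i => blk (K + i)) m) *
            ∏ i ∈ range m, (1 + (1 / 4) * (1 / 16) ^ (n - 1 - i))) *
            (W ρ (blk (K + m)) * (1 + (1 / 4) * (1 / 16) ^ (n - 1 - m))) := by
            apply mul_le_mul ih hU (hWpos'.le.trans u1) (mul_nonneg hW0 hP0)
        _ = _ := by ring
  have h1 := key n le_rfl
  have h2 : ∏ i ∈ range n, (1 + (1 / 4 : ℝ) * (1 / 16) ^ (n - 1 - i)) ≤ 2 := by
    have h3 : ∏ i ∈ range n, (1 + (1 / 4 : ℝ) * (1 / 16) ^ (n - 1 - i)) ≤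
        ∏ i ∈ range n, Real.exp ((1 / 4 : ℝ) * (1 / 16) ^ (n - 1 - i)) := by
      apply Finset.prod_le_prod
      · intro i _; positivity
      · intro i _
        have := Real.add_one_le_exp ((1 / 4 : ℝ) * (1 / 16) ^ (n - 1 - i))
        linarith
    rw [← Real.exp_sum] at h3
    have h4 := geom_le n
    have h5 : Real.exp (∑ i ∈ range n, (1 / 4 : ℝ) * (1 / 16) ^ (n - 1 - i)) ≤
        Real.exp (1 / 2) := Real.exp_le_exp.2 (by linarith)
    have h6 : Real.exp (1 / 2) ≤ 2 := by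
      have h7 : Real.exp (1 / 2) * Real.exp (1 / 2) = Real.exp 1 := by
        rw [← Real.exp_add]; norm_num
      have h8 := Real.exp_one_lt_d9
      have h9 := Real.exp_pos (1 / 2)
      nlinarith
    linarith
  have hW0 : 0 ≤ W ρ (PP (small K) (fun i => blk (K + i)) n) :=
    W_nonneg fun p hp => (h.lt_one ((mem_PP_iff K n p).mp hp).1).le
  calc YK K n ρ ≤ _ := h1
    _ ≤ W ρ (PP (small K) (fun i => blk (K + i)) n) * 2 := mul_le_mul_of_nonneg_left h2 hW0
    _ = _ := by unfold PK; ring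

/-- lower bound for the density -/
lemma Dens.W_PK (h : Dens K ρ) (n : ℕ) :
    (∏ p ∈ small K, (1 / (p : ℝ))) * (1 / 2) ^ (4 * K * n) ≤ W ρ (PK K n) := by
  have hW0 : ∏ p ∈ small K, (1 / (p : ℝ)) ≤ W ρ (small K) := by
    apply Finset.prod_le_prod
    · intro p _; positivity
    · intro p hp
      have hpp : p.Prime := (Finset.mem_filter.mp hp).2
      linarith [h.lt p hpp]
  unfold PK
  induction n with
  | zero =>
    rw [mul_zero, pow_zero, mul_one]
    exact hW0
  | succ m ih =>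
    have h1 : W ρ (PP (small K) (fun i => blk (K + i)) (m + 1)) =
        W ρ (PP (small K) (fun i => blk (K + i)) m) * W ρ (blk (K + m)) :=
      W_union (disj K m)
    rw [h1, show 4 * K * (m + 1) = 4 * K * m + 4 * K by ring, pow_add, ← mul_assoc]
    apply mul_le_mul ih (h.W_blk m) (by positivity)
    refine le_trans ?_ ih
    exact mul_nonneg (Finset.prod_nonneg fun p _ => by positivity) (by positivity)

/-- the level -/
def lev (K n : ℕ) : ℕ := (∏ p ∈ small K, p) * 2 ^ (2 ^ (K + n) * (16 * K + 6))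

lemma sum_weights2 (K n : ℕ) :
    ∑ i ∈ range n, 2 ^ i * (2 * (bb K n i + 1)) ≤ 2 ^ n * (16 * K + 6) := by
  have h1 := sum_weights K n
  have h2 : ∑ i ∈ range n, 2 ^ i * (2 * (bb K n i + 1)) =
      2 * ∑ i ∈ range n, 2 ^ i * (8 * K + 2 * (n - 1 - i)) + 2 * ∑ i ∈ range n, 2 ^ i := by
    rw [Finset.mul_sum, Finset.mul_sum, ← Finset.sum_add_distrib]
    apply Finset.sum_congr rfl
    intro i _
    unfold bb
    ring
  have h3 : ∑ i ∈ range n, 2 ^ i < 2 ^ n := Nat.geomSum_lt (by norm_num) (by simp)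
  rw [h2]
  have h4 : 2 ^ n * (16 * K + 6) = 2 * (2 ^ n * (8 * K + 2)) + 2 * 2 ^ n := by ring
  rw [h4]
  omega

lemma prod_le_lev {n : ℕ} {T : Finset ℕ} (hT : T ⊆ PK K n)
    (hs : Supp (fun i => blk (K + i)) (bb K n) n T) : ∏ p ∈ T, p ≤ lev K n := by
  have key : ∀ m ≤ n, ∀ T ⊆ PP (small K) (fun i => blk (K + i)) m,
      (∀ i < m, (T ∩ blk (K + i)).card ≤ bb K n i + 1) →
      ∏ p ∈ T, p ≤ (∏ p ∈ small K, p) * 2 ^ (∑ i ∈ range m, 2 ^ (K + i) * (2 * (bb K n i + 1))) := by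
    intro m
    induction m with
    | zero =>
      intro _ T hT _
      simp only [Finset.range_zero, Finset.sum_empty, pow_zero, mul_one]
      apply Finset.prod_le_prod_of_subset_of_one_le' hT
      intro p hp _
      exact (Finset.mem_filter.1 hp).2.one_le
    | succ m ih =>
      intro hm T hT hs
      have e1 : T = (T ∩ PP (small K) (fun i => blk (K + i)) m) ∪ (T ∩ blk (K + m)) := by
        rw [← Finset.inter_union_distrib_left]
        exact (Finset.inter_eq_left.2 hT).symm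
      have hdj : Disjoint (T ∩ PP (small K) (fun i => blk (K + i)) m) (T ∩ blk (K + m)) :=
        (disj K m).mono Finset.inter_subset_right Finset.inter_subset_right
      have i1 := ih (by omega) (T ∩ PP (small K) (fun i => blk (K + i)) m)
        Finset.inter_subset_right (fun i hi => by
          have := hs i (by omega)
          rwa [Finset.inter_assoc, Finset.inter_eq_right.2 (B_sub_PP hi)])
      have i2 : ∏ p ∈ T ∩ blk (K + m), p ≤ 2 ^ (2 ^ (K + m) * (2 * (bb K n m + 1))) := by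
        calc ∏ p ∈ T ∩ blk (K + m), p ≤ ∏ p ∈ T ∩ blk (K + m), 2 ^ (2 ^ (K + m + 1)) := by
              apply Finset.prod_le_prod'
              intro p hp
              exact (mem_blk.1 (Finset.mem_inter.1 hp).2).1.2
          _ = (2 ^ (2 ^ (K + m + 1))) ^ (T ∩ blk (K + m)).card := by rw [Finset.prod_const]
          _ ≤ (2 ^ (2 ^ (K + m + 1))) ^ (bb K n m + 1) :=
              Nat.pow_le_pow_right (by positivity) (hs m (by omega))
          _ = _ := by
              rw [← pow_mul]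
              congr 1
              rw [pow_succ]
              ring
      rw [e1, Finset.prod_union hdj, Finset.sum_range_succ, pow_add, ← mul_assoc]
      exact Nat.mul_le_mul i1 i2
  refine (key n le_rfl T hT hs).trans ?_
  unfold lev
  apply Nat.mul_le_mul_left
  apply Nat.pow_le_pow_right (by norm_num)
  have h1 := sum_weights2 K n
  have h2 : ∑ i ∈ range n, 2 ^ (K + i) * (2 * (bb K n i + 1)) =
      2 ^ K * ∑ i ∈ range n, 2 ^ i * (2 * (bb K n i + 1)) := by
    rw [Finset.mul_sum]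
    apply Finset.sum_congr rfl
    intro i _
    rw [pow_add]
    ring
  rw [h2, pow_add]
  calc 2 ^ K * ∑ i ∈ range n, 2 ^ i * (2 * (bb K n i + 1)) ≤ 2 ^ K * (2 ^ n * (16 * K + 6)) :=
        Nat.mul_le_mul_left _ h1
    _ = _ := by ring

lemma repB_FK (K n : ℕ) : RepB (PK K n) (fun T => ∏ p ∈ T, p ≤ lev K n) (FK K n) :=
  (repB_FF n (fun i _ => disj K i)).mono (fun _ hT hs => prod_le_lev hT hs)

lemma repB_YK (K n : ℕ) : RepB (PK K n) (fun T => ∏ p ∈ T, p ≤ lev K n) (YK K n) :=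
  (repB_YY n (fun i _ => disj K i)).mono (fun _ hT hs => prod_le_lev hT hs)

/-- The weighted lower bound sieve. -/
theorem sieve_lower (h : Dens K ρ) (n : ℕ) {ι : Type*} (S : Finset ι) (g : ι → ℝ)
    (hg : ∀ x ∈ S, 0 ≤ g x) (Q : ℕ → ι → Prop) [∀ p, DecidablePred (Q p)] {X : ℝ} (hX : 0 ≤ X)
    (Err : Finset ℕ → ℝ)
    (hA : ∀ T ⊆ PK K n, ∏ p ∈ T, p ≤ lev K n →
      |∑ x ∈ S, g x * ∏ p ∈ T, (if Q p x then (1 : ℝ) else 0) - X * ∏ p ∈ T, ρ p| ≤ Err T)
    [DecidablePred fun x => ∀ p ∈ PK K n, ¬ Q p x] :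
    1 / 2 * X * W ρ (PK K n) - ∑ T ∈ (PK K n).powerset.filter (fun T => ∏ p ∈ T, p ≤ lev K n),
      Err T ≤ ∑ x ∈ S.filter (fun x => ∀ p ∈ PK K n, ¬ Q p x), g x := by
  have h1 := (repB_FK K n).sum_estimate S g (fun x p => if Q p x then (1 : ℝ) else 0) X ρ Err hA
  have h2 : ∑ x ∈ S, g x * FK K n (fun p => if Q p x then (1 : ℝ) else 0) ≤
      ∑ x ∈ S.filter (fun x => ∀ p ∈ PK K n, ¬ Q p x), g x := by
    rw [Finset.sum_filter]
    apply Finset.sum_le_sum
    intro x hx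
    have hp := (pointwise_K K n (ρ := fun p => if Q p x then (1 : ℝ) else 0)
      (fun p _ => by split_ifs <;> norm_num)
      (fun p _ => by split_ifs <;> norm_num)).2
    split_ifs with hq
    · have : W (fun p => if Q p x then (1 : ℝ) else 0) (PK K n) = 1 := by
        unfold W
        apply Finset.prod_eq_one
        intro p hp'
        simp [hq p hp']
      rw [this] at hp
      calc g x * _ ≤ g x * 1 := mul_le_mul_of_nonneg_left hp (hg x hx)
        _ = g x := mul_one _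
    · push Not at hq
      obtain ⟨p, hp1, hp2⟩ := hq
      have : W (fun p => if Q p x then (1 : ℝ) else 0) (PK K n) = 0 := by
        unfold W
        apply Finset.prod_eq_zero hp1
        simp [hp2]
      rw [this] at hp
      have := mul_le_mul_of_nonneg_left hp (hg x hx)
      linarith
  have h3 := h.FK_lower n
  have h4 := mul_le_mul_of_nonneg_left h3 hX
  have h5 := (abs_le.mp h1).1
  linarith

end Pool.Agent.BVall
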