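import Pool.Agent.Lib.MP_0da313_nt.BV.RecAll

set_option autoImplicit false

/-!
The series with coefficients `Λ(n) - 1` near the point `1`.
-/

namespace Pool.Agent.BVall

open Finset Filter Topology
open Pool.Agent.MP89da58.S
open DirichletCharacter

/-- the coefficients `(Λ(n) - 1) / log n` -/
noncomputable def aZ (n : ℕ) : ℂ := (((ArithmeticFunction.vonMangoldt n - 1) / Real.log n : ℝ) : ℂ)

lemma norm_aZ_le (n : ℕ) : ‖aZ n‖ ≤ 3 := by
  unfold aZ
  rw [Complex.norm_real]
  rcases Nat.lt_or_ge 1 n with h | h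
  · have h2 : (2 : ℝ) ≤ n := by exact_mod_cast h
    have hlog2 : (0.69 : ℝ) < Real.log 2 := lt_trans (by norm_num) Real.log_two_gt_d9
    have hlog : 0.69 < Real.log n := lt_of_lt_of_le hlog2 (Real.log_le_log (by norm_num) h2)
    have hlog0 : 0 < Real.log n := by linarith only [hlog]
    rw [norm_div, Real.norm_of_nonneg hlog0.le, div_le_iff₀ hlog0, Real.norm_eq_abs, abs_le]
    have h3 : (0 : ℝ) ≤ ArithmeticFunction.vonMangoldt n := ArithmeticFunction.vonMangoldt_nonneg
    have h4 : ArithmeticFunction.vonMangoldt n ≤ Real.log n := ArithmeticFunction.vonMangoldt_le_log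
    constructor <;> linarith
  · interval_cases n <;> simp

/-- the function `-g'/g - (g - g(1))/(s - 1)` with `g(s) = (s - 1) ζ(s)` -/
noncomputable def HH (s : ℂ) : ℂ :=
  -deriv (LFunctionTrivChar₁ 1) s / LFunctionTrivChar₁ 1 s - dslope (LFunctionTrivChar₁ 1) 1 s

lemma analyticAt_HH : AnalyticAt ℂ HH 1 := by
  have hd := differentiable_LFunctionTrivChar₁ 1
  have ha : AnalyticAt ℂ (LFunctionTrivChar₁ 1) 1 := hd.analyticAt 1
  unfold HH
  apply AnalyticAt.sub
  · apply AnalyticAt.div
    · exact ha.deriv.neg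
    · exact ha
    · exact LFunctionTrivChar₁_apply_one_ne_zero 1
  · have h1 : DifferentiableOn ℂ (dslope (LFunctionTrivChar₁ 1) 1) Set.univ :=
      (Complex.differentiableOn_dslope (Filter.univ_mem)).2 hd.differentiableOn
    exact (differentiableOn_univ.1 h1).analyticAt 1

lemma triv_one (s : ℂ) : LFunctionTrivChar 1 s = riemannZeta s := by
  unfold LFunctionTrivChar
  rw [LFunction_modOne_eq]

lemma HH_eq {s : ℂ} (hs : 1 < s.re) :
    HH s = -deriv riemannZeta s / riemannZeta s - riemannZeta s := by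
  have hs1 : s ≠ 1 := by
    rintro rfl
    simp at hs
  have hs1' : s - 1 ≠ 0 := sub_ne_zero.2 hs1
  have hz : riemannZeta s ≠ 0 := riemannZeta_ne_zero_of_one_le_re hs.le
  have h1 : LFunctionTrivChar 1 = riemannZeta := funext triv_one
  have e1 : LFunctionTrivChar₁ 1 s = (s - 1) * riemannZeta s := by
    rw [LFunctionTrivChar₁, Function.update_of_ne hs1, h1]
  have e2 : LFunctionTrivChar₁ 1 1 = 1 := by
    rw [LFunctionTrivChar₁, Function.update_self]
    simp
  have e3 : deriv (LFunctionTrivChar₁ 1) s = (s - 1) * deriv riemannZeta s + riemannZeta s := by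
    rw [deriv_LFunctionTrivChar₁_apply_of_ne_one 1 hs1, h1]
  unfold HH
  rw [dslope_of_ne _ hs1, slope_def_field, e1, e2, e3]
  field_simp
  ring

lemma LSeries_sub_eq {s : ℂ} (hs : 1 < s.re) :
    LSeries (fun n => (ArithmeticFunction.vonMangoldt n : ℂ) - 1) s = HH s := by
  have h1 := ArithmeticFunction.LSeriesSummable_vonMangoldt hs
  have h2 : LSeriesSummable 1 s := LSeriesSummable_one_iff.2 hs
  have h3 : LSeries ((fun n => (ArithmeticFunction.vonMangoldt n : ℂ)) - 1) s =
      LSeries (fun n => (ArithmeticFunction.vonMangoldt n : ℂ)) s - LSeries 1 s :=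
    LSeries_sub h1 h2
  rw [HH_eq hs, ← ArithmeticFunction.LSeries_vonMangoldt_eq_deriv_riemannZeta_div hs,
    ← LSeries_one_eq_riemannZeta hs, ← h3]
  rfl

lemma abscissa_le : LSeries.abscissaOfAbsConv
    (fun n => (ArithmeticFunction.vonMangoldt n : ℂ) - 1) ≤ 1 := by
  apply LSeries.abscissaOfAbsConv_le_of_forall_lt_LSeriesSummable
  intro y hy
  have hy' : 1 < (y : ℂ).re := by simpa using hy
  have h1 := ArithmeticFunction.LSeriesSummable_vonMangoldt hy'
  have h2 : LSeriesSummable 1 (y : ℂ) := LSeriesSummable_one_iff.2 hy'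
  exact h1.sub h2

lemma logMul_iter (f : ℕ → ℂ) (k n : ℕ) :
    (LSeries.logMul^[k] f) n = ((Real.log n : ℝ) : ℂ) ^ k * f n := by
  induction k with
  | zero => simp
  | succ k ih =>
    rw [Function.iterate_succ_apply', LSeries.logMul, ih, ← Complex.natCast_log, pow_succ]
    ring

lemma aZ_mul {k : ℕ} (hk : 1 ≤ k) (n : ℕ) :
    ((Real.log n : ℝ) : ℂ) ^ (k + 1) * aZ n =
      ((Real.log n : ℝ) : ℂ) ^ k * ((ArithmeticFunction.vonMangoldt n : ℂ) - 1) := by
  unfold aZ
  rcases Nat.lt_or_ge 1 n with h | h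
  · have hlog : ((Real.log n : ℝ) : ℂ) ≠ 0 := by
      exact_mod_cast (Real.log_pos (by exact_mod_cast h)).ne'
    rw [Complex.ofReal_div, Complex.ofReal_sub, Complex.ofReal_one]
    generalize ((Real.log n : ℝ) : ℂ) = y at hlog ⊢
    field_simp
    ring
  · have : Real.log n = 0 := by
      interval_cases n <;> simp
    rw [this]
    simp only [Complex.ofReal_zero]
    rw [zero_pow (by omega), zero_pow (by omega)]
    ring

lemma Lj_aZ_eq {k : ℕ} (hk : 1 ≤ k) {s : ℂ} (hs : 1 < s.re) :
    ‖Lj aZ (k + 1) s‖ = ‖iteratedDeriv k HH s‖ := by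
  have h1 : iteratedDeriv k (LSeries (fun n => (ArithmeticFunction.vonMangoldt n : ℂ) - 1)) s =
      iteratedDeriv k HH s := by
    apply Filter.EventuallyEq.iteratedDeriv_eq
    have : {z : ℂ | 1 < z.re} ∈ 𝓝 s :=
      (isOpen_lt continuous_const Complex.continuous_re).mem_nhds hs
    filter_upwards [this] with z hz
    exact LSeries_sub_eq hz
  rw [← h1, LSeries_iteratedDeriv k (lt_of_le_of_lt abscissa_le (by exact_mod_cast hs))]
  rw [norm_mul, norm_pow, norm_neg, norm_one, one_pow, one_mul]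
  congr 1
  unfold Lj
  congr 1
  funext n
  rw [logMul_iter, aZ_mul hk]

theorem pole_bound {k : ℕ} (hk : 1 ≤ k) : ∃ C δ : ℝ, 0 < δ ∧ ∀ s : ℂ, 1 < s.re → ‖s - 1‖ < δ →
    ‖Lj aZ (k + 1) s‖ ≤ C := by
  have h1 : AnalyticAt ℂ (iteratedDeriv k HH) 1 := by
    rw [iteratedDeriv_eq_iterate]
    exact analyticAt_HH.iterated_deriv k
  have h2 := h1.continuousAt.norm
  have h3 : ∀ᶠ s in 𝓝 (1 : ℂ), ‖iteratedDeriv k HH s‖ < ‖iteratedDeriv k HH 1‖ + 1 :=
    h2.eventually (gt_mem_nhds (by linarith))
  obtain ⟨δ, hδ, h4⟩ := Metric.eventually_nhds_iff.1 h3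
  refine ⟨‖iteratedDeriv k HH 1‖ + 1, δ, hδ, fun s hs hsδ => ?_⟩
  rw [Lj_aZ_eq hk hs]
  exact (h4 (by rw [dist_eq_norm]; exact hsδ)).le

/-- bound for the series with coefficients `Λ(n) - 1` at all heights -/
theorem aZ_bound (D : ℕ) {k : ℕ} (hk : 1 ≤ k) : ∀ᶠ l : ℝ in atTop, ∀ t : ℝ,
    |t| ≤ Real.exp (D * l) →
      ‖Lj aZ (k + 1) (((1 + Real.exp (-l) : ℝ) : ℂ) + Complex.I * t)‖ ≤
        2 * (Real.exp (l / 5)) ^ (k + 1) := by
  obtain ⟨C, δ, hδ, hC⟩ := pole_bound hk
  obtain ⟨C', hC'1, hC'⟩ := norm_Lj_one_le k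
  have hlim1 : ∀ᶠ l : ℝ in atTop, Real.exp (-(l / 200)) < δ / 2 := by
    have : Tendsto (fun l : ℝ => Real.exp (-(l / 200))) atTop (𝓝 0) := by
      apply Real.tendsto_exp_neg_atTop_nhds_zero.comp
      exact tendsto_id.atTop_div_const (by norm_num)
    exact this.eventually (gt_mem_nhds (by linarith))
  filter_upwards [Fk_bound' 1 D k, eventually_ge_atTop 1, hlim1,
    ev_poly C 0 (show (0 : ℝ) < 1 / 5 by norm_num),
    ev_poly (C' * (2 * (D + 4)) ^ (k + 1)) (k + 1) (show (0 : ℝ) < 1 / 10 by norm_num)]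
    with l hF hl1 hexp hc hc'
  intro t ht
  set s : ℂ := ((1 + Real.exp (-l) : ℝ) : ℂ) + Complex.I * t with hs
  have hsre : s.re = 1 + Real.exp (-l) := by rw [hs, Complex.add_re, Complex.ofReal_re]; simp
  have hsim : s.im = t := by rw [hs, Complex.add_im, Complex.ofReal_im]; simp
  have hexp0 : 0 < Real.exp (-l) := Real.exp_pos _
  have hexp1 : Real.exp (-l) ≤ 1 := Real.exp_le_one_iff.2 (by linarith)
  have hs1 : 1 < s.re := by rw [hsre]; linarith
  have hE5 : 1 ≤ Real.exp (l / 5) := Real.one_le_exp (by linarith)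
  have hED : 1 ≤ Real.exp (D * l) := Real.one_le_exp (by positivity)
  have hE5k : Real.exp (l / 5) ≤ (Real.exp (l / 5)) ^ (k + 1) := by
    calc Real.exp (l / 5) = (Real.exp (l / 5)) ^ 1 := (pow_one _).symm
      _ ≤ _ := pow_le_pow_right₀ hE5 (by omega)
  rcases lt_or_ge |t| (Real.exp (-(l / 200))) with hcase | hcase
  · have hsn : ‖s - 1‖ < δ := by
      have e : s - 1 = ((Real.exp (-l) : ℝ) : ℂ) + Complex.I * t := by
        rw [hs]; push_cast; ring
      rw [e]
      calc _ ≤ ‖((Real.exp (-l) : ℝ) : ℂ)‖ + ‖Complex.I * t‖ := norm_add_le _ _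
        _ = Real.exp (-l) + |t| := by
            rw [Complex.norm_real, norm_mul, Complex.norm_I, one_mul, Complex.norm_real,
              Real.norm_of_nonneg hexp0.le, Real.norm_eq_abs]
        _ < δ / 2 + δ / 2 := by
            apply add_lt_add _ (by linarith only [hexp, hcase])
            refine lt_of_le_of_lt ?_ hexp
            apply Real.exp_le_exp.2
            linarith
        _ = δ := by ring
    refine (hC s hs1 hsn).trans ?_
    rw [pow_zero, mul_one] at hc
    have h5 : Real.exp (1 / 5 * l) = Real.exp (l / 5) := by congr 1; ring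
    rw [h5] at hc
    linarith
  · have hF' := hF 1 1 one_ne_zero (by
        simpa using (show (0 : ℝ) ≤ l by linarith))
      (by rw [DirichletCharacter.isPrimitive_def, DirichletCharacter.conductor_one]) t ht
      (Or.inr hcase) k le_rfl
    rw [← hs] at hF'
    have hlb := log_bound' (B := 1) (D := D) hl1 (le_refl 1) (by
        simpa using (show (0 : ℝ) ≤ l by linarith)) (s := s)
      (by rw [hsre, abs_of_nonneg (by linarith)]; linarith)
      (by rw [hsim]; linarith)
    rw [Nat.cast_one, one_mul] at hlb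
    have hsn : Real.exp (-(l / 200)) ≤ ‖s - 1‖ := by
      refine hcase.trans ?_
      have := Complex.abs_im_le_norm (s - 1)
      rw [Complex.sub_im, hsim, Complex.one_im, sub_zero] at this
      exact this
    have hinv : 1 / ‖s - 1‖ ≤ Real.exp (l / 200) := by
      rw [div_le_iff₀ (lt_of_lt_of_le (Real.exp_pos _) hsn)]
      calc (1 : ℝ) = Real.exp (l / 200) * Real.exp (-(l / 200)) := by
            rw [← Real.exp_add]; simp
        _ ≤ _ := by gcongr
    have hE1 : 1 ≤ Real.exp (l / 200) := Real.one_le_exp (by linarith)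
    have hX : (1 + Real.log (1 + ‖s‖)) * (1 + 1 / ‖s - 1‖) ≤
        ((D + 4) * l) * (2 * Real.exp (l / 200)) := by
      have h7 : (1 : ℝ) + D + 3 = D + 4 := by ring
      have h8 := hlb.2
      rw [h7] at h8
      apply mul_le_mul h8 (by linarith) (by positivity) (by positivity)
    have hX0 : 0 ≤ (1 + Real.log (1 + ‖s‖)) * (1 + 1 / ‖s - 1‖) :=
      mul_nonneg (by linarith [hlb.1]) (by positivity)
    have hone : ‖Lj (fun _ => 1) k s‖ ≤ (Real.exp (l / 5)) ^ (k + 1) := by
      refine (hC' s hs1).trans ?_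
      calc C' * ((1 + Real.log (1 + ‖s‖)) * (1 + 1 / ‖s - 1‖)) ^ (k + 1) ≤
            C' * (((D + 4) * l) * (2 * Real.exp (l / 200))) ^ (k + 1) := by
            apply mul_le_mul_of_nonneg_left _ (by linarith)
            exact pow_le_pow_left₀ hX0 hX _
        _ = (C' * (2 * (D + 4)) ^ (k + 1) * l ^ (k + 1)) * (Real.exp (l / 200)) ^ (k + 1) := by
            rw [mul_pow, mul_pow, mul_pow, mul_pow]; ring
        _ ≤ Real.exp (1 / 10 * l) * (Real.exp (l / 200)) ^ (k + 1) := by gcongr
        _ ≤ (Real.exp (l / 10)) ^ (k + 1) * (Real.exp (l / 10)) ^ (k + 1) := by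
            have h9 : Real.exp (1 / 10 * l) = Real.exp (l / 10) := by congr 1; ring
            rw [h9]
            have h10 : 1 ≤ Real.exp (l / 10) := Real.one_le_exp (by linarith only [hl1])
            apply mul_le_mul
            · calc Real.exp (l / 10) = (Real.exp (l / 10)) ^ 1 := (pow_one _).symm
                _ ≤ _ := pow_le_pow_right₀ h10 (by omega)
            · apply pow_le_pow_left₀ (Real.exp_pos _).le
              apply Real.exp_le_exp.2
              linarith only [hl1]
            · positivity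
            · positivity
        _ = _ := by
            rw [← mul_pow, ← Real.exp_add]
            congr 2
            ring
    have hsplit : Lj aZ (k + 1) s = Fk (1 : DirichletCharacter ℂ 1) k s - Lj (fun _ => 1) k s := by
      unfold Fk Lj
      have s1 : LSeriesSummable (fun n => ((Real.log n : ℝ) : ℂ) ^ (k + 1) *
          aL (1 : DirichletCharacter ℂ 1) n) s := summable_Lj (norm_aL_le _) (k + 1) hs1
      have s2 : LSeriesSummable (fun n => ((Real.log n : ℝ) : ℂ) ^ k * (1 : ℂ)) s :=
        summable_Lj (a := fun _ => 1) (fun n => by simp) k hs1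
      rw [← LSeries_sub s1 s2]
      congr 1
      funext n
      rw [Pi.sub_apply, aZ_mul hk, aL_mul]
      have e2 : (1 : DirichletCharacter ℂ 1) (n : ZMod 1) = 1 :=
        MulChar.one_apply (isUnit_of_subsingleton _)
      rw [e2]
      ring
    rw [hsplit]
    refine (norm_sub_le _ _).trans ?_
    linarith only [hF', hone]

end Pool.Agent.BVall
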