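import Pool.Agent.Lib.MP_0da313_nt.BV.NonvanAll
import Pool.Agent.Lib.MP_89da58_nt.S.DerivRec

set_option autoImplicit false

/-!
Upper bounds for the derivatives of the logarithmic derivative of `L(s, χ)`, all primitive
characters, all large scales.
-/

namespace Pool.Agent.BVall

open Finset Filter
open Pool.Agent.MP89da58.S

/-- the recursion -/
lemma rec_bound {r : ℕ} (χ : DirichletCharacter ℂ r) {s : ℂ} (hs : 1 < s.re) (k : ℕ) {U V W : ℝ}
    (hU : 1 ≤ U) (hV : 0 < V) (hUW : U ≤ W) (hW : V * U ^ 2 * (1 + 2 ^ k) ≤ W)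
    (hL : ∀ i ≤ k + 1, ‖Lj (fun n => χ n) i s‖ ≤ U ^ (i + 1))
    (h0 : 1 / V ≤ ‖Lj (fun n => χ n) 0 s‖) :
    ∀ j ≤ k, ‖Fk χ j s‖ ≤ W ^ (j + 1) := by
  intro j
  induction j using Nat.strong_induction_on with
  | _ j ih =>
    intro hj
    have hW1 : 1 ≤ W := hU.trans hUW
    have hrec := leibniz χ j hs
    rw [Finset.sum_range_succ, Nat.choose_self, Nat.sub_self] at hrec
    have e1 : Fk χ j s * Lj (fun n => χ n) 0 s = Lj (fun n => χ n) (j + 1) s -
        ∑ i ∈ range j, (j.choose i : ℂ) * (Fk χ i s * Lj (fun n => χ n) (j - i) s) := by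
      rw [← hrec]; push_cast; ring
    have h1 : ‖Fk χ j s * Lj (fun n => χ n) 0 s‖ ≤ U ^ 2 * (1 + 2 ^ k) * W ^ j := by
      rw [e1]
      calc _ ≤ ‖Lj (fun n => χ n) (j + 1) s‖ +
            ‖∑ i ∈ range j, (j.choose i : ℂ) * (Fk χ i s * Lj (fun n => χ n) (j - i) s)‖ :=
            norm_sub_le _ _
        _ ≤ U ^ 2 * W ^ j + ∑ i ∈ range j, (j.choose i : ℝ) * (W ^ j * U ^ 2) := by
            apply add_le_add
            · refine (hL (j + 1) (by omega)).trans ?_
              have e2 : U ^ (j + 1 + 1) = U ^ 2 * U ^ j := by rw [← pow_add]; congr 1; ring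
              rw [e2]
              apply mul_le_mul_of_nonneg_left _ (by positivity)
              exact pow_le_pow_left₀ (by linarith) hUW j
            · refine (norm_sum_le _ _).trans (Finset.sum_le_sum ?_)
              intro i hi
              have hij := Finset.mem_range.1 hi
              rw [norm_mul, norm_mul, Complex.norm_natCast]
              apply mul_le_mul_of_nonneg_left _ (Nat.cast_nonneg _)
              calc ‖Fk χ i s‖ * ‖Lj (fun n => χ n) (j - i) s‖ ≤ W ^ (i + 1) * U ^ (j - i + 1) := by
                    apply mul_le_mul (ih i hij (by omega)) (hL (j - i) (by omega)) (norm_nonneg _)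
                      (by positivity)
                _ = W ^ (i + 1) * (U ^ (j - 1 - i) * U ^ 2) := by
                    rw [← pow_add]; congr 2; omega
                _ ≤ W ^ (i + 1) * (W ^ (j - 1 - i) * U ^ 2) := by
                    (clear * - hU hUW hW1; gcongr)
                _ = W ^ j * U ^ 2 := by
                    rw [← mul_assoc, ← pow_add]; congr 2; omega
        _ = U ^ 2 * W ^ j + (∑ i ∈ range j, (j.choose i : ℝ)) * (W ^ j * U ^ 2) := by
            rw [Finset.sum_mul]
        _ ≤ U ^ 2 * W ^ j + 2 ^ k * (W ^ j * U ^ 2) := by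
            have h2 : ∑ i ∈ range (j + 1), (j.choose i : ℝ) = 2 ^ j := by
              exact_mod_cast Nat.sum_range_choose j
            have h3 : ∑ i ∈ range j, (j.choose i : ℝ) ≤ 2 ^ k := by
              calc ∑ i ∈ range j, (j.choose i : ℝ) ≤ ∑ i ∈ range (j + 1), (j.choose i : ℝ) := by
                    apply Finset.sum_le_sum_of_subset_of_nonneg
                    · intro i hi
                      rw [Finset.mem_range] at hi ⊢
                      omega
                    · intro i _ _
                      positivity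
                _ = 2 ^ j := h2
                _ ≤ 2 ^ k := pow_le_pow_right₀ (by norm_num) hj
            gcongr
        _ = _ := by ring
    rw [norm_mul] at h1
    have hL0pos : 0 < ‖Lj (fun n => χ n) 0 s‖ := lt_of_lt_of_le (by positivity) h0
    calc ‖Fk χ j s‖ = ‖Fk χ j s‖ * ‖Lj (fun n => χ n) 0 s‖ / ‖Lj (fun n => χ n) 0 s‖ := by
          field_simp
      _ ≤ U ^ 2 * (1 + 2 ^ k) * W ^ j / (1 / V) := by gcongr
      _ = (V * U ^ 2 * (1 + 2 ^ k)) * W ^ j := by
          field_simp
      _ ≤ W * W ^ j := by gcongr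
      _ = W ^ (j + 1) := by ring

/-- Upper bound for all derivatives of `L'/L`. -/
theorem Fk_bound' (B D k : ℕ) : ∀ᶠ l : ℝ in atTop, ∀ (r : ℕ) (χ : DirichletCharacter ℂ r),
    r ≠ 0 → (r : ℝ) ≤ Real.exp (B * l) → χ.IsPrimitive → ∀ t : ℝ, |t| ≤ Real.exp (D * l) →
      (2 ≤ r ∨ Real.exp (-(l / 200)) ≤ |t|) → ∀ j ≤ k,
      ‖Fk χ j (((1 + Real.exp (-l) : ℝ) : ℂ) + Complex.I * t)‖ ≤ (Real.exp (l / 5)) ^ (j + 1) := by
  choose C hC1 hC using norm_LjChar_le
  choose C' hC'1 hC' using norm_Lj_one_le
  set A : ℝ := B + D + 3 with hA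
  have hA1 : 1 ≤ A := by
    have : (0 : ℝ) ≤ B := Nat.cast_nonneg B
    have : (0 : ℝ) ≤ D := Nat.cast_nonneg D
    rw [hA]; linarith
  set K : ℝ := ∑ i ∈ range (k + 2), (C i + C' i) with hK
  have hKi : ∀ i, i ≤ k + 1 → C i + C' i ≤ K := by
    intro i hi
    rw [hK]
    apply Finset.single_le_sum (f := fun i => C i + C' i) _ (Finset.mem_range.2 (by omega))
    intro i _
    have := hC1 i
    have := hC'1 i
    linarith
  have hK2 : 2 ≤ K := by
    have := hKi 0 (by omega)
    have := hC1 0
    have := hC'1 0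
    linarith
  filter_upwards [lower_all' B D, eventually_ge_atTop 1, ev_poly (K * (2 * A)) 1
    (show (0 : ℝ) < 1 / 60 by norm_num), ev_poly (1 + 2 ^ k) 0 (show (0 : ℝ) < 1 / 20 by norm_num)]
    with l hlow hl1 hp1 hp2
  intro r χ hr0 hrB hprim t ht hcase
  set s : ℂ := ((1 + Real.exp (-l) : ℝ) : ℂ) + Complex.I * t with hs
  have hsre : s.re = 1 + Real.exp (-l) := by rw [hs, Complex.add_re, Complex.ofReal_re]; simp
  have hsim : s.im = t := by rw [hs, Complex.add_im, Complex.ofReal_im]; simp
  have hexp0 : 0 < Real.exp (-l) := Real.exp_pos _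
  have hexp1 : Real.exp (-l) ≤ 1 := Real.exp_le_one_iff.2 (by linarith)
  have hs1 : 1 < s.re := by rw [hsre]; linarith
  have hr1 : 1 ≤ r := Nat.one_le_iff_ne_zero.2 hr0
  have hEE : 1 ≤ Real.exp (D * l) := Real.one_le_exp (by positivity)
  set U : ℝ := Real.exp (l / 40) with hU
  have hU1 : 1 ≤ U := Real.one_le_exp (by linarith)
  rw [pow_one] at hp1
  have hLow : 1 / Real.exp (l / 10) ≤ ‖Lj (fun n => χ n) 0 s‖ := by
    rw [Lj_zero_eq, one_div, ← Real.exp_neg]
    exact hlow r χ hr0 hrB hprim t ht hcase
  have hUp : ∀ i ≤ k + 1, ‖Lj (fun n => χ n) i s‖ ≤ U ^ (i + 1) := by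
    intro i hi
    have hKi' := hKi i hi
    have hCi := hC1 i
    have hCi' := hC'1 i
    have hK1 : K ≤ K ^ (i + 1) := by
      calc K = K ^ 1 := (pow_one K).symm
        _ ≤ K ^ (i + 1) := pow_le_pow_right₀ (by linarith) (by omega)
    rcases Nat.lt_or_ge 1 r with h2 | h2
    · have hχ := ne_one_of_prim h2 hprim
      have hlb := log_bound' (B := B) (D := D) hl1 hr1 hrB (s := s)
        (by rw [hsre, abs_of_nonneg (by linarith)]; linarith)
        (by rw [hsim]; linarith)
      refine (hC i r hr0 χ hχ s hs1).trans ?_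
      calc C i * (1 + Real.log (r * (1 + ‖s‖))) ^ (i + 1) ≤ K * (A * l) ^ (i + 1) := by
            apply mul_le_mul (by linarith) _ (pow_nonneg (by linarith [hlb.1]) _) (by linarith)
            exact pow_le_pow_left₀ (by linarith [hlb.1]) hlb.2 _
        _ ≤ K ^ (i + 1) * (A * l) ^ (i + 1) := by
            apply mul_le_mul_of_nonneg_right hK1 (by (clear * - hl1; positivity))
        _ = (K * (A * l)) ^ (i + 1) := (mul_pow _ _ _).symm
        _ ≤ U ^ (i + 1) := by
            apply pow_le_pow_left₀ (by (clear * - hK2 hl1; positivity))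
            calc K * (A * l) ≤ K * (2 * A) * l := by linarith only [hK2, hl1, mul_pos (mul_pos (show (0 : ℝ) < K by linarith) (show (0 : ℝ) < A by linarith)) (show (0 : ℝ) < l by linarith)]
              _ ≤ Real.exp (1 / 60 * l) := hp1
              _ ≤ U := by
                  rw [hU]
                  apply Real.exp_le_exp.2
                  linarith
    · have hr11 : r = 1 := by omega
      subst hr11
      have htl : Real.exp (-(l / 200)) ≤ |t| := by
        rcases hcase with h | h
        · omega
        · exact h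
      have hone : (fun n : ℕ => χ n) = fun _ => 1 := by
        funext n
        have e : χ = 1 := Subsingleton.elim _ _
        have e2 : (1 : DirichletCharacter ℂ 1) (n : ZMod 1) = 1 :=
          MulChar.one_apply (isUnit_of_subsingleton _)
        rw [e, e2]
      rw [hone]
      have hlb := log_bound' (B := B) (D := D) hl1 (le_refl 1) (by
          rw [Nat.cast_one]; exact Real.one_le_exp (by positivity)) (s := s)
        (by rw [hsre, abs_of_nonneg (by linarith)]; linarith)
        (by rw [hsim]; linarith)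
      rw [Nat.cast_one, one_mul] at hlb
      have hsn : Real.exp (-(l / 200)) ≤ ‖s - 1‖ := by
        refine htl.trans ?_
        have := Complex.abs_im_le_norm (s - 1)
        rw [Complex.sub_im, hsim, Complex.one_im, sub_zero] at this
        exact this
      have hinv : 1 / ‖s - 1‖ ≤ Real.exp (l / 200) := by
        rw [div_le_iff₀ (lt_of_lt_of_le (Real.exp_pos _) hsn)]
        calc (1 : ℝ) = Real.exp (l / 200) * Real.exp (-(l / 200)) := by
              rw [← Real.exp_add]; simp
          _ ≤ _ := by gcongr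
      have hE1 : 1 ≤ Real.exp (l / 200) := Real.one_le_exp (by linarith)
      refine (hC' i s hs1).trans ?_
      have hX : (1 + Real.log (1 + ‖s‖)) * (1 + 1 / ‖s - 1‖) ≤
          (A * l) * (2 * Real.exp (l / 200)) := by
        apply mul_le_mul hlb.2 (by linarith) (by positivity) (by (clear * - hl1; positivity))
      have hX0 : 0 ≤ (1 + Real.log (1 + ‖s‖)) * (1 + 1 / ‖s - 1‖) :=
        mul_nonneg (by linarith only [hlb, hlb.1]) (by positivity)
      calc C' i * ((1 + Real.log (1 + ‖s‖)) * (1 + 1 / ‖s - 1‖)) ^ (i + 1) ≤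
            K ^ (i + 1) * ((A * l) * (2 * Real.exp (l / 200))) ^ (i + 1) := by
            apply mul_le_mul (by linarith only [hKi', hCi, hK1]) _ (by (clear * - hX0; positivity)) (by positivity)
            exact pow_le_pow_left₀ hX0 hX _
        _ = (K * (2 * A) * l * Real.exp (l / 200)) ^ (i + 1) := by
            rw [← mul_pow]; congr 1; ring
        _ ≤ U ^ (i + 1) := by
            apply pow_le_pow_left₀ (by (clear * - hK2 hl1; positivity))
            calc K * (2 * A) * l * Real.exp (l / 200) ≤
                  Real.exp (1 / 60 * l) * Real.exp (l / 200) := by gcongr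
              _ = Real.exp (1 / 60 * l + l / 200) := by rw [Real.exp_add]
              _ ≤ U := by
                  rw [hU]
                  apply Real.exp_le_exp.2
                  linarith only [hl1]
  refine rec_bound χ hs1 k (U := U) (V := Real.exp (l / 10)) (W := Real.exp (l / 5)) hU1
    (Real.exp_pos _) ?_ ?_ hUp hLow
  · rw [hU]
    apply Real.exp_le_exp.2
    linarith
  · rw [pow_zero, mul_one] at hp2
    calc Real.exp (l / 10) * U ^ 2 * (1 + 2 ^ k) ≤
          Real.exp (l / 10) * U ^ 2 * Real.exp (1 / 20 * l) := by gcongr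
      _ = Real.exp (l / 5) := by
          rw [hU, ← Real.exp_nat_mul, ← Real.exp_add, ← Real.exp_add]
          congr 1
          push_cast
          ring

end Pool.Agent.BVall
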