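import Pool.Agent.Lib.MP_0da313_nt.BV.BvWL
import Pool.Agent.Lib.MP_0da313_nt.BV.Classes
import Pool.Agent.Lib.MP_0da313_nt.BV.Hooley
import Pool.Agent.Lib.MP_0da313_nt.Final

set_option autoImplicit false

/-!
Primes `N = u x + v` such that `x` avoids prescribed residue classes modulo all primes up to a
small power of the length.
-/

open Finset

namespace Pool.Agent.BVall

open Pool.Agent.Lib.MP_0da313_nt
open Filter

/-- choice of the sifting level, real version -/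
lemma choose_lev (K : ℕ) (hK : 1 ≤ K) : ∀ᶠ X : ℝ in atTop, ∃ n : ℕ,
    (lev K n : ℝ) ≤ X ^ (1 / 60 : ℝ) ∧ X ≤ ((2 : ℝ) ^ (2 ^ (K + n))) ^ (7680 * K) ∧
      (2 : ℝ) ^ (K + n) ≤ Real.log X ∧ ∏ p ∈ small K, p ≤ 2 ^ (2 ^ (K + n)) := by
  obtain ⟨X₀, hX₀⟩ := choose_level K hK
  set C0 : ℕ := ∏ p ∈ small K, p with hC0
  have h1 : ∀ᶠ X : ℝ in atTop, ((X₀ + 1 + C0 ^ (128 * K) : ℕ) : ℝ) ≤ X ^ (1 / 60 : ℝ) :=
    (tendsto_rpow_atTop (by norm_num)).eventually_ge_atTop _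
  filter_upwards [h1, eventually_ge_atTop 1] with X hX hX1
  have hX0 : 0 < X := by linarith
  set X' : ℕ := ⌊X ^ (1 / 60 : ℝ)⌋₊ with hX'
  have hle : X₀ + 1 + C0 ^ (128 * K) ≤ X' := Nat.le_floor hX
  obtain ⟨n, ha, hb, hc⟩ := hX₀ X' (by omega)
  have hX'1 : (X' : ℝ) ≤ X ^ (1 / 60 : ℝ) := Nat.floor_le (by positivity)
  have hX'2 : X ^ (1 / 60 : ℝ) ≤ X' + 1 := (Nat.lt_floor_add_one _).le
  have hC0z : C0 ≤ 2 ^ (2 ^ (K + n)) := by
    have h2 : C0 ^ (128 * K) ≤ (2 ^ (2 ^ (K + n))) ^ (128 * K) := by omega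
    exact (Nat.pow_le_pow_iff_left (by omega)).mp h2
  refine ⟨n, ?_, ?_, ?_, hC0z⟩
  · refine le_trans ?_ hX'1
    have h2 : lev K n ≤ X' := by
      refine le_trans ?_ hb
      unfold lev
      rw [← hC0]
      calc C0 * 2 ^ (2 ^ (K + n) * (16 * K + 6)) ≤
            2 ^ (2 ^ (K + n)) * 2 ^ (2 ^ (K + n) * (16 * K + 6)) := Nat.mul_le_mul_right _ hC0z
        _ = 2 ^ (2 ^ (K + n) * (16 * K + 7)) := by rw [← pow_add]; congr 1; ring
        _ ≤ 2 ^ (2 ^ (K + n) * (24 * K + 8) * 2) := by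
            apply Nat.pow_le_pow_right (by norm_num)
            rw [mul_assoc]
            apply Nat.mul_le_mul_left
            omega
        _ = _ := by rw [pow_mul 2 _ 2]
    exact_mod_cast h2
  · have h2 : X ^ (1 / 60 : ℝ) ≤ ((2 : ℝ) ^ (2 ^ (K + n))) ^ (128 * K) := by
      refine hX'2.trans ?_
      exact_mod_cast hc
    calc X = (X ^ (1 / 60 : ℝ)) ^ 60 := by
          rw [← Real.rpow_natCast, ← Real.rpow_mul hX0.le]; norm_num
      _ ≤ (((2 : ℝ) ^ (2 ^ (K + n))) ^ (128 * K)) ^ 60 :=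
          pow_le_pow_left₀ (by positivity) h2 60
      _ = _ := by rw [← pow_mul]; congr 1; ring
  · have hX'ne : X' ≠ 0 := by omega
    have h2 : 2 ^ (Nat.log 2 X') ≤ X' := Nat.pow_log_le_self 2 hX'ne
    have h3 : ((2 : ℝ) ^ (Nat.log 2 X')) ≤ X ^ (1 / 60 : ℝ) := by
      refine le_trans ?_ hX'1
      exact_mod_cast h2
    have h4 := Real.log_le_log (by positivity) h3
    rw [Real.log_pow, Real.log_rpow hX0] at h4
    have h5 : (2 : ℝ) ^ (K + n) ≤ (Nat.log 2 X' : ℕ) := by exact_mod_cast ha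
    have h6 := Real.log_two_gt_d9
    have h7 : 0 ≤ Real.log X := Real.log_nonneg hX1
    have h8 : (0 : ℝ) ≤ (Nat.log 2 X' : ℕ) := Nat.cast_nonneg _
    have h12 := mul_le_mul_of_nonneg_left h6.le h8
    clear * - h12 h4 h5 h7 h8
    linarith

/-- the hypotheses on the excluded classes -/
structure Cls (u v : ℤ) (K0 : ℕ) (Q : ℕ → ℤ → Prop) [∀ p, DecidablePred (Q p)] : Prop where
  per : ∀ (p : ℕ) (x y : ℤ), (p : ℤ) ∣ x - y → (Q p x ↔ Q p y)
  nd : ∀ (p : ℕ) (x : ℤ), Q p x → ¬ (p : ℤ) ∣ u * x + v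
  le : ∀ p : ℕ, p.Prime → om Q p ≤ K0
  lt1 : ∀ p : ℕ, p.Prime → p ∣ u.natAbs → om Q p + 1 ≤ p
  lt2 : ∀ p : ℕ, p.Prime → ¬ p ∣ u.natAbs → om Q p + 2 ≤ p

lemma Cls.dens {u v : ℤ} {K0 : ℕ} {Q : ℕ → ℤ → Prop} [∀ p, DecidablePred (Q p)]
    (h : Cls u v K0 Q) : Dens (2 * K0) (rhoW u.natAbs Q) := by
  have hden : ∀ p : ℕ, p.Prime → (0 : ℝ) < ((if p ∣ u.natAbs then p else p - 1 : ℕ) : ℝ) := by
    intro p hp
    have := hp.two_le
    have h1 : 0 < (if p ∣ u.natAbs then p else p - 1 : ℕ) := by split_ifs <;> omega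
    exact_mod_cast h1
  refine ⟨fun p => by unfold rhoW; positivity, fun p hp => ?_, fun p hp => ?_⟩
  · have hp2 : (2 : ℝ) ≤ p := by exact_mod_cast hp.two_le
    have hp1 : ((p - 1 : ℕ) : ℝ) = (p : ℝ) - 1 := by
      rw [Nat.cast_sub hp.one_le]; simp
    unfold rhoW
    by_cases hd : p ∣ u.natAbs
    · rw [if_pos hd]
      have h1 : ((om Q p : ℕ) : ℝ) + 1 ≤ p := by exact_mod_cast h.lt1 p hp hd
      rw [div_le_iff₀ (by linarith), sub_mul, div_mul_cancel₀ _ (by linarith)]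
      linarith
    · rw [if_neg hd]
      have h1 : ((om Q p : ℕ) : ℝ) + 2 ≤ p := by exact_mod_cast h.lt2 p hp hd
      rw [hp1, div_le_iff₀ (by linarith)]
      have h2 : (1 - 1 / (p : ℝ)) * ((p : ℝ) - 1) = p - 2 + 1 / p := by
        field_simp
        ring
      rw [h2]
      have : 0 < 1 / (p : ℝ) := by positivity
      linarith
  · have hp2 : (2 : ℝ) ≤ p := by exact_mod_cast hp.two_le
    have h1 : ((om Q p : ℕ) : ℝ) ≤ K0 := by exact_mod_cast h.le p hp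
    have hp1 : (p : ℝ) / 2 ≤ ((if p ∣ u.natAbs then p else p - 1 : ℕ) : ℝ) := by
      split_ifs
      · linarith
      · rw [Nat.cast_sub hp.one_le]
        push_cast
        linarith
    unfold rhoW
    rw [div_le_div_iff₀ (hden p hp) (by linarith)]
    have hK0 : (0 : ℝ) ≤ K0 := Nat.cast_nonneg _
    generalize ((if p ∣ u.natAbs then p else p - 1 : ℕ) : ℝ) = y at hp1 ⊢
    rw [Nat.cast_mul, Nat.cast_ofNat]
    nlinarith

/-- the main lower bound -/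
theorem rough_sum (u : ℤ) (hu : u ≠ 0) (K0 : ℕ) (hK0 : 1 ≤ K0) {lam : ℝ} (hlam : 1 ≤ lam) :
    ∃ c : ℝ, 0 < c ∧ ∀ᶠ X : ℝ in atTop, ∃ n : ℕ,
      X ≤ ((2 : ℝ) ^ (2 ^ (2 * K0 + n))) ^ (15360 * K0) ∧
      (2 : ℝ) ^ (2 * K0 + n) ≤ Real.log X ∧
      ∀ v : ℤ, IsCoprime u v → ∀ (Q : ℕ → ℤ → Prop) [∀ p, DecidablePred (Q p)],
        Cls u v K0 Q →
        c * X / (Real.log X) ^ (8 * K0) ≤
          ∑ N ∈ ((Icc 1 ⌊3 * X⌋₊).filter (fun N : ℕ => u ∣ (N : ℤ) - v)).filter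
            (fun N : ℕ => ∀ p ∈ PK (2 * K0) n, ¬ Q p (((N : ℤ) - v) / u)),
            ArithmeticFunction.vonMangoldt N * OmL lam X N := by
  classical
  set K : ℕ := 2 * K0 with hK
  have hK1 : 1 ≤ K := by omega
  have hW : 0 < u.natAbs := Int.natAbs_pos.2 hu
  have hφ : (0 : ℝ) < Nat.totient u.natAbs := by exact_mod_cast Nat.totient_pos.2 hW
  set c1 : ℝ := ∏ p ∈ small K, (1 / (p : ℝ)) with hc1
  have hc1pos : 0 < c1 := by
    apply Finset.prod_pos
    intro p hp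
    have hpp : p.Prime := (Finset.mem_filter.mp hp).2
    have : (0 : ℝ) < p := by exact_mod_cast hpp.pos
    positivity
  have hlam0 : 0 < lam := by linarith
  set c2 : ℝ := 1 / 2 * (1 / (24 * lam) / (Nat.totient u.natAbs : ℝ)) * c1 with hc2
  have hc2pos : 0 < c2 := by positivity
  obtain ⟨X1, hX1⟩ := bv_weightedL hlam K0 u.natAbs hW (4 * K + 1)
  refine ⟨c2 / 2, by positivity, ?_⟩
  filter_upwards [choose_lev K hK1, psiXL_lower hlam, eventually_ge_atTop X1,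
    eventually_ge_atTop 1, Real.tendsto_log_atTop.eventually_ge_atTop (2 / c2),
    Real.tendsto_log_atTop.eventually_ge_atTop 1] with X hlev hpsi hXX1 hX1' hlogc hlog1
  obtain ⟨n, hl1, hl2, hl3, _⟩ := hlev
  have hX0 : 0 < X := by linarith
  have hlog0 : 0 < Real.log X := by linarith
  refine ⟨n, ?_, hl3, ?_⟩
  · have e : 15360 * K0 = 7680 * K := by rw [hK]; ring
    rw [e]; exact hl2
  intro v huv Q _ hQ
  obtain ⟨a, ha1, ha2⟩ := exists_worst lam X u.natAbs hW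
  have hbv := hX1 X hXX1 a ha1
  have hdens : Dens K (rhoW u.natAbs Q) := hQ.dens
  have hpsi0 : 0 ≤ psiXL lam X := le_trans (by positivity) hpsi
  have hmain := sieve_lower hdens n
    ((Icc 1 ⌊3 * X⌋₊).filter (fun N : ℕ => u ∣ (N : ℤ) - v))
    (fun N => ArithmeticFunction.vonMangoldt N * OmL lam X N)
    (fun N _ => mul_nonneg ArithmeticFunction.vonMangoldt_nonneg (OmL_nonneg lam hX0.le N))
    (fun p N => Q p (((N : ℤ) - v) / u)) (X := psiXL lam X / (Nat.totient u.natAbs : ℝ))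
    (by positivity)
    (fun T => (K0 : ℝ) ^ T.card * |psiAPL lam X (u.natAbs * ∏ p ∈ T, p) (a (∏ p ∈ T, p)) -
        psiXL lam X / (Nat.totient (u.natAbs * ∏ p ∈ T, p) : ℝ)|)
    (fun T hT _ => class_estimate hu huv Q hQ.per hQ.nd T
      (fun p hp => (mem_PK.1 (hT hp)).1) (fun p hp => hQ.le p (mem_PK.1 (hT hp)).1) lam X a ha2)
  have hlevN : lev K n ≤ ⌊X ^ (1 / 60 : ℝ)⌋₊ := Nat.le_floor hl1
  have herr := sum_err_le (PK K n) (fun p hp => (mem_PK.1 hp).1) (lev K n) _ K0 hlevN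
    (fun q => |psiAPL lam X (u.natAbs * q) (a q) -
        psiXL lam X / (Nat.totient (u.natAbs * q) : ℝ)|) (fun q => abs_nonneg _)
  have herr2 := herr.trans hbv
  have hWP := hdens.W_PK n
  have hpow : (1 / (Real.log X) ^ (4 * K)) ≤ (1 / 2 : ℝ) ^ (4 * K * n) := by
    have h1 : (2 : ℝ) ^ n ≤ Real.log X := by
      refine le_trans ?_ hl3
      exact pow_le_pow_right₀ (by norm_num) (by omega)
    rw [one_div_pow, mul_comm (4 * K) n, pow_mul (2 : ℝ) n (4 * K)]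
    apply one_div_le_one_div_of_le (by positivity)
    exact pow_le_pow_left₀ (by positivity) h1 _
  have hmain1 : c2 * X * (1 / (Real.log X) ^ (4 * K)) ≤
      1 / 2 * (psiXL lam X / (Nat.totient u.natAbs : ℝ)) * W (rhoW u.natAbs Q) (PK K n) := by
    calc c2 * X * (1 / (Real.log X) ^ (4 * K)) ≤ c2 * X * (1 / 2 : ℝ) ^ (4 * K * n) := by gcongr
      _ = 1 / 2 * (X / (24 * lam) / (Nat.totient u.natAbs : ℝ)) *
            (c1 * (1 / 2 : ℝ) ^ (4 * K * n)) := by rw [hc2]; field_simp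
      _ ≤ 1 / 2 * (psiXL lam X / (Nat.totient u.natAbs : ℝ)) *
            (c1 * (1 / 2 : ℝ) ^ (4 * K * n)) := by gcongr
      _ ≤ _ := by
          apply mul_le_mul_of_nonneg_left hWP (by positivity)
  have herr3 : X / (Real.log X) ^ (4 * K + 1) ≤ c2 / 2 * X * (1 / (Real.log X) ^ (4 * K)) := by
    rw [pow_succ, mul_one_div, div_le_div_iff₀ (by positivity) (by positivity)]
    have h1 : 1 ≤ c2 / 2 * Real.log X := by
      rw [div_le_iff₀ hc2pos] at hlogc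
      linarith
    have h2 : 0 < X * (Real.log X) ^ (4 * K) := by positivity
    have h12 := mul_le_mul_of_nonneg_right h1 h2.le
    clear * - h12
    linarith
  have e8 : 8 * K0 = 4 * K := by rw [hK]; ring
  rw [e8]
  have hfin : c2 / 2 * X / (Real.log X) ^ (4 * K) =
      c2 * X * (1 / (Real.log X) ^ (4 * K)) - c2 / 2 * X * (1 / (Real.log X) ^ (4 * K)) := by
    ring
  rw [hfin]
  refine le_trans ?_ hmain
  linarith

end Pool.Agent.BVall
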