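import Mathlib
import Pool.Agent.Lib.MP_0016c7_nt.Arith

set_option autoImplicit false

/-!
Partial sums of the `L`-series of a real character at a real point `s > 0` (adapted from
`Pool/Agent/Lib/MP_0016c7_nt/RosSeries.lean`).
-/

open Real Set MeasureTheory Filter Topology

namespace Pool.Agent.BVall

open Pool.Agent.MP0016c7

/-- logarithm as a function of a natural number -/
noncomputable def lg (p : ℕ) : ℝ := Real.log p

/-- the weight `p^{-σ}` -/
noncomputable def xs (σ : ℝ) (p : ℕ) : ℝ := rexp (-(σ * lg p))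

lemma xs_pos (σ : ℝ) (p : ℕ) : 0 < xs σ p := exp_pos _

/-! ### Summation by parts -/

lemma abel_id (c w : ℕ → ℝ) {a b : ℕ} (hab : a ≤ b) :
    ∑ n ∈ Finset.Ico a b, c n * w n = (∑ n ∈ Finset.Ico a b, c n) * w b +
      ∑ n ∈ Finset.Ico a b, (∑ k ∈ Finset.Ico a (n + 1), c k) * (w n - w (n + 1)) := by
  induction b, hab using Nat.le_induction with
  | base => simp
  | succ b hab ih =>
    rw [Finset.sum_Ico_succ_top hab, ih, Finset.sum_Ico_succ_top hab,
      Finset.sum_Ico_succ_top hab (fun n => (∑ k ∈ Finset.Ico a (n + 1), c k) * (w n - w (n + 1))),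
      Finset.sum_Ico_succ_top hab]
    ring

lemma abel_le {c w : ℕ → ℝ} {a b : ℕ} {B : ℝ} (hB : ∀ n, |∑ k ∈ Finset.Ico a n, c k| ≤ B)
    (hw : ∀ n, a ≤ n → w (n + 1) ≤ w n) (hw0 : ∀ n, a ≤ n → 0 ≤ w n) :
    |∑ n ∈ Finset.Ico a b, c n * w n| ≤ B * w a := by
  have hB0 : 0 ≤ B := (abs_nonneg _).trans (hB 0)
  rcases le_total b a with hab | hab
  · rw [Finset.Ico_eq_empty_of_le hab, Finset.sum_empty, abs_zero]
    exact mul_nonneg hB0 (hw0 a le_rfl)
  · rw [abel_id c w hab]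
    have htel : ∑ n ∈ Finset.Ico a b, (w n - w (n + 1)) = w a - w b := by
      have h1 := Finset.sum_Ico_sub (fun n => -w n) hab
      simp only [neg_sub_neg] at h1
      exact h1
    calc _ ≤ |(∑ n ∈ Finset.Ico a b, c n) * w b| +
          |∑ n ∈ Finset.Ico a b, (∑ k ∈ Finset.Ico a (n + 1), c k) * (w n - w (n + 1))| :=
          abs_add_le _ _
      _ ≤ B * w b + ∑ n ∈ Finset.Ico a b, B * (w n - w (n + 1)) := by
          apply add_le_add
          · rw [abs_mul, abs_of_nonneg (hw0 b hab)]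
            exact mul_le_mul_of_nonneg_right (hB b) (hw0 b hab)
          · refine (Finset.abs_sum_le_sum_abs _ _).trans (Finset.sum_le_sum fun n hn => ?_)
            rw [Finset.mem_Ico] at hn
            have h2 : 0 ≤ w n - w (n + 1) := sub_nonneg.mpr (hw n hn.1)
            rw [abs_mul, abs_of_nonneg h2]
            exact mul_le_mul_of_nonneg_right (hB _) h2
      _ = B * w a := by rw [← Finset.mul_sum, htel]; ring

/-! ### Block sums of a nontrivial character -/

section block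

variable {N : ℕ} [NeZero N] {ψ : DirichletCharacter ℂ N}

lemma sum_period (hψ : ψ ≠ 1) (a : ℕ) :
    ∑ k ∈ Finset.range N, ψ ((a + k : ℕ) : ZMod N) = 0 := by
  have h1 : ∑ b : ZMod N, ψ ((a : ZMod N) + b) = 0 := by
    rw [← MulChar.sum_eq_zero_of_ne_one hψ]
    exact Equiv.sum_comp (Equiv.addLeft (a : ZMod N)) ψ
  rw [← h1]
  refine Finset.sum_nbij' (fun k : ℕ => (k : ZMod N)) (fun b : ZMod N => b.val) ?_ ?_ ?_ ?_ ?_
  · intro k _; exact Finset.mem_univ _
  · intro b _; exact Finset.mem_range.mpr (ZMod.val_lt b)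
  · intro k hk; exact ZMod.val_cast_of_lt (Finset.mem_range.mp hk)
  · intro b _; exact ZMod.natCast_zmod_val b
  · intro k _; push_cast; rfl

lemma norm_block (hψ : ψ ≠ 1) (L : ℕ) : ∀ a : ℕ,
    ‖∑ k ∈ Finset.range L, ψ ((a + k : ℕ) : ZMod N)‖ ≤ N := by
  induction L using Nat.strong_induction_on with
  | _ L ih =>
    intro a
    rcases lt_or_ge L N with h | h
    · calc _ ≤ ∑ k ∈ Finset.range L, ‖ψ ((a + k : ℕ) : ZMod N)‖ := norm_sum_le _ _
        _ ≤ ∑ _k ∈ Finset.range L, (1 : ℝ) := Finset.sum_le_sum fun k _ => ψ.norm_le_one _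
        _ = L := by simp
        _ ≤ N := by exact_mod_cast h.le
    · obtain ⟨L', rfl⟩ := Nat.exists_eq_add_of_le h
      rw [Finset.sum_range_add, sum_period hψ, zero_add]
      have hN : 0 < N := Nat.pos_of_ne_zero (NeZero.ne N)
      have h2 := ih L' (by omega) (a + N)
      refine le_trans (le_of_eq ?_) h2
      congr 1
      apply Finset.sum_congr rfl
      intro k _
      congr 2
      omega

lemma abs_block (hψ : ψ ≠ 1) {a : ℕ} (ha : 1 ≤ a) (b : ℕ) :
    |∑ n ∈ Finset.Ico a b, rchar ψ n| ≤ N := by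
  have h1 : ∑ n ∈ Finset.Ico a b, rchar ψ n =
      (∑ k ∈ Finset.range (b - a), ψ ((a + k : ℕ) : ZMod N)).re := by
    rw [Finset.sum_Ico_eq_sum_range, Complex.re_sum]
    apply Finset.sum_congr rfl
    intro k _
    rw [rchar_apply ψ (by omega)]
  rw [h1]
  exact (Complex.abs_re_le_norm _).trans (norm_block hψ _ a)

/-! ### The analytic continuation as an integral -/

/-- summatory function -/
noncomputable def SS (ψ : DirichletCharacter ℂ N) (t : ℝ) : ℂ :=
  ∑ k ∈ Finset.Icc 1 ⌊t⌋₊, ψ (k : ZMod N)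

lemma norm_sum_Icc (hψ : ψ ≠ 1) (n : ℕ) : ‖∑ k ∈ Finset.Icc 1 n, ψ (k : ZMod N)‖ ≤ N := by
  have h1 : ∑ k ∈ Finset.Icc 1 n, ψ (k : ZMod N) =
      ∑ k ∈ Finset.range n, ψ ((1 + k : ℕ) : ZMod N) := by
    rw [← Finset.Ico_add_one_right_eq_Icc, Finset.sum_Ico_eq_sum_range]
    simp
  rw [h1]
  exact norm_block hψ n 1

lemma norm_SS (hψ : ψ ≠ 1) (t : ℝ) : ‖SS ψ t‖ ≤ N := norm_sum_Icc hψ _

lemma SS_zero {t : ℝ} (ht : t < 1) : SS ψ t = 0 := by
  unfold SS
  rw [(Nat.floor_eq_zero).mpr ht]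
  simp

lemma locallyIntegrableOn_SS : LocallyIntegrableOn (SS ψ) (Ioi 0) := by
  have h := locallyIntegrableOn_mul_sum_Icc (𝕜 := ℂ) (fun k => ψ (k : ZMod N)) (m := 1)
    (a := 0) le_rfl (g := fun _ => (1 : ℂ)) (continuous_const.locallyIntegrable.locallyIntegrableOn _)
  have h2 : LocallyIntegrableOn (SS ψ) (Ici 0) := by
    refine h.congr ?_
    filter_upwards with t
    unfold SS
    simp
  exact h2.mono_set Ioi_subset_Ici_self

lemma mellin_SS (s : ℂ) :
    mellin (SS ψ) (-s) = ∫ t in Ioi (1 : ℝ), SS ψ t * (t : ℂ) ^ (-(s + 1)) := by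
  unfold mellin
  rw [← integral_Ici_eq_integral_Ioi (x := (1 : ℝ)), ← integral_indicator measurableSet_Ioi,
    ← integral_indicator measurableSet_Ici]
  congr 1
  ext t
  by_cases ht : t ∈ Ici (1 : ℝ)
  · have ht1 : (1 : ℝ) ≤ t := ht
    have ht0 : t ∈ Ioi (0 : ℝ) := mem_Ioi.mpr (by linarith)
    rw [indicator_of_mem ht, indicator_of_mem ht0, smul_eq_mul, mul_comm]
    congr 2
    ring
  · rw [indicator_of_notMem ht]
    by_cases h0 : t ∈ Ioi (0 : ℝ)
    · rw [indicator_of_mem h0, SS_zero (not_le.mp ht), smul_zero]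
    · rw [indicator_of_notMem h0]

lemma differentiableAt_D (hψ : ψ ≠ 1) {s : ℂ} (hs : 0 < s.re) :
    DifferentiableAt ℂ (fun s : ℂ => s * ∫ t in Ioi (1 : ℝ), SS ψ t * (t : ℂ) ^ (-(s + 1))) s := by
  have h1 : (fun s : ℂ => s * ∫ t in Ioi (1 : ℝ), SS ψ t * (t : ℂ) ^ (-(s + 1))) =
      fun s => s * mellin (SS ψ) (-s) := by
    ext s
    rw [mellin_SS]
  rw [h1]
  apply DifferentiableAt.mul differentiableAt_id
  have h2 : DifferentiableAt ℂ (mellin (SS ψ)) (-s) := by
    refine mellin_differentiableAt_of_isBigO_rpow (a := 0) (b := -s.re - 1)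
      locallyIntegrableOn_SS ?_ ?_ ?_ ?_
    · simp only [neg_zero, rpow_zero]
      refine Asymptotics.IsBigO.of_bound N ?_
      filter_upwards with t
      simpa using norm_SS hψ t
    · simpa using hs
    · refine Asymptotics.IsBigO.of_bound 1 ?_
      have : Ioo (0 : ℝ) 1 ∈ 𝓝[>] (0 : ℝ) := Ioo_mem_nhdsGT one_pos
      filter_upwards [this] with t ht
      rw [SS_zero ht.2, norm_zero]
      positivity
    · simp
  exact h2.comp s (differentiable_id.neg s)

theorem LFunction_eq_integral (hψ : ψ ≠ 1) {s : ℂ} (hs : 0 < s.re) :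
    DirichletCharacter.LFunction ψ s =
      s * ∫ t in Ioi (1 : ℝ), SS ψ t * (t : ℂ) ^ (-(s + 1)) := by
  set U : Set ℂ := {z | 0 < z.re} with hU
  have hUo : IsOpen U := isOpen_lt continuous_const Complex.continuous_re
  have hUp : IsPreconnected U := (convex_halfSpace_re_gt 0).isPreconnected
  have hf : AnalyticOnNhd ℂ (DirichletCharacter.LFunction ψ) U :=
    (DirichletCharacter.differentiable_LFunction hψ).differentiableOn.analyticOnNhd hUo
  have hd : DifferentiableOn ℂ (fun s : ℂ => s * ∫ t in Ioi (1 : ℝ),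
      SS ψ t * (t : ℂ) ^ (-(s + 1))) U :=
    fun z hz => (differentiableAt_D hψ hz).differentiableWithinAt
  have hg : AnalyticOnNhd ℂ (fun s : ℂ => s * ∫ t in Ioi (1 : ℝ),
      SS ψ t * (t : ℂ) ^ (-(s + 1))) U := hd.analyticOnNhd hUo
  have h2 : (2 : ℂ) ∈ U := by simp [hU]
  have heq : DirichletCharacter.LFunction ψ =ᶠ[𝓝 2] (fun s : ℂ => s * ∫ t in Ioi (1 : ℝ),
      SS ψ t * (t : ℂ) ^ (-(s + 1))) := by
    have h3 : {z : ℂ | 1 < z.re} ∈ 𝓝 (2 : ℂ) :=
      (isOpen_lt continuous_const Complex.continuous_re).mem_nhds (by simp)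
    filter_upwards [h3] with z hz
    have hz' : 1 < z.re := hz
    rw [DirichletCharacter.LFunction_eq_LSeries ψ hz']
    apply LSeries_eq_mul_integral (r := 0) _ le_rfl (by linarith)
    · exact DirichletCharacter.LSeriesSummable_of_one_lt_re ψ hz'
    · simp only [rpow_zero]
      refine Asymptotics.IsBigO.of_bound N ?_
      filter_upwards with n
      simpa using norm_sum_Icc hψ n
  exact hf.eqOn_of_preconnected_of_eventuallyEq hg hUp h2 heq hs

lemma xs_cpow {n : ℕ} (hn : 1 ≤ n) (s : ℝ) : ((xs s n : ℝ) : ℂ) = (n : ℂ) ^ (-(s : ℂ)) := by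
  have h0 : (0 : ℝ) < n := by exact_mod_cast hn
  have h1 : xs s n = (n : ℝ) ^ (-s) := by
    unfold xs lg
    rw [Real.rpow_def_of_pos h0]
    congr 1
    ring
  rw [h1, Complex.ofReal_cpow h0.le]
  push_cast
  rfl

/-- Convergence of the series. -/
theorem tendsto_partial_C (hψ : ψ ≠ 1) (h2 : ψ ^ 2 = 1) {s : ℝ} (hs : 0 < s) :
    Tendsto (fun K : ℕ => ((∑ n ∈ Finset.Icc 1 K, rchar ψ n * xs s n : ℝ) : ℂ)) atTop
      (𝓝 (DirichletCharacter.LFunction ψ s)) := by
  set c : ℕ → ℂ := fun n => if n = 0 then 0 else ψ (n : ZMod N) with hc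
  have hcs : ∀ n : ℕ, ∑ k ∈ Finset.Icc 0 n, c k = ∑ k ∈ Finset.Icc 1 n, ψ (k : ZMod N) := by
    intro n
    rw [← Finset.insert_Icc_add_one_left_eq_Icc n.zero_le, Finset.sum_insert (by simp)]
    simp only [hc, if_true, zero_add]
    apply Finset.sum_congr rfl
    intro k hk
    rw [if_neg (by have := (Finset.mem_Icc.mp hk).1; omega)]
  have hs' : (0 : ℝ) < ((s : ℂ)).re := by simpa using hs
  have hsne : (s : ℂ) ≠ 0 := by exact_mod_cast hs.ne'
  have h₃ (t : ℝ) (ht : t ∈ Set.Ici 1) :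
      DifferentiableAt ℝ (fun x : ℝ ↦ (x : ℂ) ^ (-(s : ℂ))) t :=
    differentiableAt_id.ofReal_cpow_const (zero_lt_one.trans_le ht).ne' (neg_ne_zero.mpr hsne)
  have hO : (fun n : ℕ => ∑ k ∈ Finset.Icc 0 n, c k) =O[atTop] fun n : ℕ => (n : ℝ) ^ (0 : ℝ) := by
    simp only [rpow_zero]
    refine Asymptotics.IsBigO.of_bound N ?_
    filter_upwards with n
    rw [hcs]
    simpa using norm_sum_Icc hψ n
  have hre : (-(s : ℂ) - 1).re = -s - 1 := by simp
  have h1 : (-(s : ℂ) - 1).re + 0 < -1 := by rw [hre]; linarith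
  have hone : (fun t : ℝ => ((⌊t⌋₊ : ℕ) : ℝ) ^ (0 : ℝ)) =O[atTop] fun t : ℝ => t ^ (0 : ℝ) := by
    simp only [rpow_zero]
    exact Asymptotics.isBigO_refl _ _
  have key := tendsto_sum_mul_atTop_nhds_one_sub_integral₀ (f := fun x : ℝ ↦ (x : ℂ) ^ (-(s : ℂ)))
    (c := c) (l := 0) (by simp [hc]) h₃
    ((Iff.mpr integrableOn_Ici_iff_integrableOn_Ioi <|
      integrableOn_Ioi_deriv_ofReal_cpow zero_lt_one (by simpa using hs)).locallyIntegrableOn)
    (by
      have hlim : Tendsto (fun n : ℕ ↦ (n : ℝ) ^ (-(s - 0))) atTop (𝓝 0) :=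
        (tendsto_rpow_neg_atTop (by simpa using hs)).comp tendsto_natCast_atTop_atTop
      refine (Asymptotics.IsBigO.mul_atTop_rpow_natCast_of_isBigO_rpow (-s) _ _ ?_ hO ?_).trans_tendsto hlim
      · have := (Complex.norm_ofReal_cpow_eventually_eq_atTop (-(s : ℂ))).isBigO.natCast_atTop
        simpa using Asymptotics.isBigO_norm_left.mp this
      · simp)
    (g := fun t => t ^ ((-(s : ℂ) - 1).re + 0))
    (by
      refine Asymptotics.IsBigO.mul_atTop_rpow_of_isBigO_rpow (-((s : ℂ) + 1).re) 0 _ ?_ ?_ ?_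
      · simpa [-neg_add_rev, neg_add'] using isBigO_deriv_ofReal_cpow_const_atTop (-(s : ℂ))
      · exact (hO.comp_tendsto tendsto_nat_floor_atTop).trans hone
      · rw [hre]; simp; linarith)
    (integrableAtFilter_rpow_atTop_iff.mpr h1)
  have hlim : (0 : ℂ) - ∫ t in Ioi (1 : ℝ), deriv (fun x : ℝ ↦ (x : ℂ) ^ (-(s : ℂ))) t *
      ∑ k ∈ Finset.Icc 0 ⌊t⌋₊, c k = DirichletCharacter.LFunction ψ s := by
    rw [LFunction_eq_integral hψ hs', zero_sub, ← integral_neg, ← integral_const_mul]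
    refine setIntegral_congr_fun measurableSet_Ioi fun t ht ↦ ?_
    rw [Complex.deriv_ofReal_cpow_const (zero_lt_one.trans ht).ne' (neg_ne_zero.mpr hsne), hcs]
    unfold SS
    ring_nf
  rw [hlim] at key
  refine key.congr fun K => ?_
  rw [← Finset.insert_Icc_add_one_left_eq_Icc K.zero_le, Finset.sum_insert (by simp)]
  simp only [hc, if_true, mul_zero, zero_add]
  push_cast
  apply Finset.sum_congr rfl
  intro k hk
  have hk1 := (Finset.mem_Icc.mp hk).1
  rw [if_neg (by omega), ofReal_rchar h2 (by omega), xs_cpow hk1, mul_comm]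

theorem tendsto_partial (hψ : ψ ≠ 1) (h2 : ψ ^ 2 = 1) {s : ℝ} (hs : 0 < s) :
    Tendsto (fun K : ℕ => ∑ n ∈ Finset.Icc 1 K, rchar ψ n * xs s n) atTop
      (𝓝 (DirichletCharacter.LFunction ψ s).re) := by
  have key2 := (Complex.continuous_re.tendsto _).comp (tendsto_partial_C hψ h2 hs)
  refine key2.congr fun K => ?_
  simp only [Function.comp_apply]
  exact Complex.ofReal_re _

theorem LFunction_im (hψ : ψ ≠ 1) (h2 : ψ ^ 2 = 1) {s : ℝ} (hs : 0 < s) :
    (DirichletCharacter.LFunction ψ s).im = 0 := by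
  have key2 := (Complex.continuous_im.tendsto _).comp (tendsto_partial_C hψ h2 hs)
  refine tendsto_nhds_unique key2 ?_
  refine (tendsto_const_nhds (x := (0 : ℝ))).congr fun K => ?_
  simp only [Function.comp_apply]
  exact (Complex.ofReal_im _).symm

lemma xs_anti {s : ℝ} (hs : 0 ≤ s) {m n : ℕ} (hm : 1 ≤ m) (h : m ≤ n) : xs s n ≤ xs s m := by
  unfold xs lg
  rw [exp_le_exp, neg_le_neg_iff]
  apply mul_le_mul_of_nonneg_left _ hs
  exact Real.log_le_log (by exact_mod_cast hm) (by exact_mod_cast h)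

/-- Rate of convergence. -/
theorem abs_partial_sub (hψ : ψ ≠ 1) (h2 : ψ ^ 2 = 1) {s : ℝ} (hs : 0 < s) (K : ℕ) :
    |∑ n ∈ Finset.Icc 1 K, rchar ψ n * xs s n - (DirichletCharacter.LFunction ψ s).re| ≤
      N * xs s (K + 1) := by
  have h1 := tendsto_partial hψ h2 hs
  have h3 : Tendsto (fun K' : ℕ => |∑ n ∈ Finset.Icc 1 K, rchar ψ n * xs s n -
      ∑ n ∈ Finset.Icc 1 K', rchar ψ n * xs s n|) atTop
      (𝓝 |∑ n ∈ Finset.Icc 1 K, rchar ψ n * xs s n - (DirichletCharacter.LFunction ψ s).re|) :=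
    (h1.const_sub _).abs
  refine le_of_tendsto h3 ?_
  filter_upwards [eventually_ge_atTop K] with K' hK'
  have h4 : ∑ n ∈ Finset.Icc 1 K', rchar ψ n * xs s n =
      ∑ n ∈ Finset.Icc 1 K, rchar ψ n * xs s n +
      ∑ n ∈ Finset.Ico (K + 1) (K' + 1), rchar ψ n * xs s n := by
    rw [← Finset.Ico_add_one_right_eq_Icc, ← Finset.Ico_add_one_right_eq_Icc,
      Finset.sum_Ico_consecutive _ (by omega) (by omega)]
  rw [h4, sub_add_cancel_left, abs_neg]
  exact abel_le (fun n => abs_block hψ (by omega) n)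
    (fun n hn => xs_anti hs.le (by omega) (by omega)) (fun n _ => (xs_pos s n).le)

end block

end Pool.Agent.BVall
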