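import Mathlib
import Pool.Agent.Lib.MP_0da313_nt.BV.Series
import Pool.Agent.Lib.MP_89da58_nt.LargeArith

set_option autoImplicit false

/-!
Elementary lower bound for `L(1, χ)` in terms of a real point `β < 1` with `L(β, χ) ≥ 0`.
-/

open Finset

namespace Pool.Agent.BVall

open Pool.Agent.MP0016c7

lemma xs_eq (s : ℝ) {n : ℕ} (hn : 1 ≤ n) : xs s n = (n : ℝ) ^ (-s) := by
  have h0 : (0 : ℝ) < n := by exact_mod_cast hn
  unfold xs lg
  rw [Real.rpow_def_of_pos h0]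
  congr 1
  ring

lemma xs_mul (s : ℝ) {m n : ℕ} (hm : 1 ≤ m) (hn : 1 ≤ n) : xs s (m * n) = xs s m * xs s n := by
  rw [xs_eq s hm, xs_eq s hn, xs_eq s (Nat.mul_pos hm hn)]
  push_cast
  exact Real.mul_rpow (Nat.cast_nonneg _) (Nat.cast_nonneg _)

lemma xs_one (s : ℝ) : xs s 1 = 1 := by
  rw [xs_eq s le_rfl]; simp

/-- `u^(1-β)/(1-β)` -/
noncomputable def fI (β u : ℝ) : ℝ := u ^ (1 - β) / (1 - β)

lemma fI_upper {β a b : ℝ} (h0 : 0 < β) (h1 : β < 1) (ha : 0 < a) (hb : 0 < b) :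
    fI β b - fI β a ≤ (b - a) * a ^ (-β) := by
  unfold fI
  have hη : 0 < 1 - β := by linarith
  rw [← sub_div, div_le_iff₀ hη]
  have h2 := rpow_one_add_le_one_add_mul_self (s := b / a - 1) (by
    have : 0 < b / a := by positivity
    linarith) (p := 1 - β) hη.le (by linarith)
  rw [add_sub_cancel, Real.div_rpow hb.le ha.le] at h2
  have h3 : 0 < a ^ (1 - β) := by positivity
  rw [div_le_iff₀ h3] at h2
  have h4 : a ^ (1 - β) = a * a ^ (-β) := by
    rw [sub_eq_add_neg, Real.rpow_add ha, Real.rpow_one]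
  have h5 : (1 + (1 - β) * (b / a - 1)) * a ^ (1 - β) =
      a ^ (1 - β) + (b - a) * a ^ (-β) * (1 - β) := by
    rw [h4]
    field_simp
  linarith

lemma fI_lower {β a b : ℝ} (h0 : 0 < β) (h1 : β < 1) (ha : 0 < a) (hb : 0 < b) :
    (b - a) * b ^ (-β) ≤ fI β b - fI β a := by
  have := fI_upper h0 h1 hb ha
  linarith

/-- `∑_{m ≤ N} m^(-β)` -/
noncomputable def ZZs (β : ℝ) (N : ℕ) : ℝ := ∑ m ∈ Icc 1 N, xs β m

/-- the remainder -/
noncomputable def Er (β : ℝ) (N : ℕ) : ℝ := ZZs β N - fI β N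

lemma ZZs_succ (β : ℝ) (N : ℕ) : ZZs β (N + 1) = ZZs β N + xs β (N + 1) := by
  unfold ZZs
  rw [sum_Icc_succ_top (by omega)]

lemma Er_step {β : ℝ} (h0 : 0 < β) (h1 : β < 1) {N : ℕ} (hN : 1 ≤ N) :
    Er β (N + 1) ≤ Er β N ∧ Er β N - xs β N ≤ Er β (N + 1) - xs β (N + 1) := by
  have hN' : (0 : ℝ) < N := by exact_mod_cast hN
  have h2 := fI_upper (β := β) (a := N) (b := ((N + 1 : ℕ) : ℝ)) h0 h1 hN' (by positivity)
  have h3 := fI_lower (β := β) (a := N) (b := ((N + 1 : ℕ) : ℝ)) h0 h1 hN' (by positivity)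
  unfold Er
  rw [ZZs_succ, xs_eq β hN, xs_eq β (show 1 ≤ N + 1 by omega)]
  have h4 : (((N + 1 : ℕ) : ℝ) - N) = 1 := by push_cast; ring
  rw [h4, one_mul] at h2 h3
  constructor
  · linarith
  · linarith

lemma Er_anti {β : ℝ} (h0 : 0 < β) (h1 : β < 1) {N M : ℕ} (hN : 1 ≤ N) (hNM : N ≤ M) :
    Er β M ≤ Er β N ∧ Er β N - xs β N ≤ Er β M - xs β M := by
  induction M, hNM using Nat.le_induction with
  | base => exact ⟨le_rfl, le_rfl⟩
  | succ M hM ih =>
    obtain ⟨h2, h3⟩ := Er_step h0 h1 (show 1 ≤ M by omega)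
    exact ⟨h2.trans ih.1, ih.2.trans h3⟩

lemma Er_one (β : ℝ) (h1 : β < 1) : Er β 1 = 1 - 1 / (1 - β) := by
  unfold Er ZZs fI
  simp [xs_one]

lemma ZZs_le {β : ℝ} (h0 : 0 < β) (h1 : β < 1) {N : ℕ} (hN : 1 ≤ N) : ZZs β N ≤ fI β N := by
  have h2 := (Er_anti h0 h1 le_rfl hN).1
  rw [Er_one β h1] at h2
  have h3 : 1 ≤ 1 / (1 - β) := by
    rw [le_div_iff₀ (by linarith)]; linarith
  unfold Er at h2
  linarith

/-- approximation of the sums at real points -/
lemma ZZs_approx {β : ℝ} (h0 : 0 < β) (h1 : β < 1) {u : ℝ} (hu : 1 ≤ u) {M : ℕ}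
    (hM : ⌊u⌋₊ ≤ M) :
    |ZZs β ⌊u⌋₊ - fI β u - Er β M| ≤ 2 * u ^ (-β) := by
  have hN : 1 ≤ ⌊u⌋₊ := (Nat.one_le_floor_iff u).mpr hu
  set N := ⌊u⌋₊ with hNd
  have hN' : (0 : ℝ) < N := by exact_mod_cast hN
  have hNu : (N : ℝ) ≤ u := Nat.floor_le (by linarith)
  have hNu' : u < N + 1 := Nat.lt_floor_add_one u
  obtain ⟨h2, h3⟩ := Er_anti h0 h1 hN hM
  have h4 := fI_upper (β := β) (a := N) (b := u) h0 h1 hN' (by linarith)
  have h5 := fI_lower (β := β) (a := N) (b := u) h0 h1 hN' (by linarith)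
  have h6 : (0 : ℝ) < (N : ℝ) ^ (-β) := by positivity
  have h7 : (N : ℝ) ^ (-β) ≤ 2 * u ^ (-β) := by
    have h8 : u / 2 ≤ N := by
      have : (1 : ℝ) ≤ N := by exact_mod_cast hN
      linarith
    have h9 : (N : ℝ) ^ (-β) ≤ (u / 2) ^ (-β) :=
      Real.rpow_le_rpow_of_nonpos (by linarith) h8 (by linarith)
    refine h9.trans ?_
    rw [Real.div_rpow (by linarith) (by norm_num), Real.rpow_neg (by norm_num : (0 : ℝ) ≤ 2),
      div_inv_eq_mul, mul_comm]
    apply mul_le_mul_of_nonneg_right _ (by positivity)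
    calc (2 : ℝ) ^ β ≤ 2 ^ (1 : ℝ) := Real.rpow_le_rpow_of_exponent_le (by norm_num) h1.le
      _ = 2 := by norm_num
  have h8 : 0 ≤ u ^ (-β) := by positivity
  have h9 : 0 ≤ (u - N) * u ^ (-β) := mul_nonneg (by linarith) h8
  have h10 : (u - N) * (N : ℝ) ^ (-β) ≤ 1 * (N : ℝ) ^ (-β) :=
    mul_le_mul_of_nonneg_right (by linarith) h6.le
  have hx := xs_eq β hN
  have hxM := (xs_pos β M).le
  unfold Er at h2 h3 ⊢
  rw [hx] at h3
  rw [abs_le]
  constructor
  · linarith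
  · linarith

section
variable {r : ℕ} [NeZero r] {χ : DirichletCharacter ℂ r}

/-- the hyperbola method for `1 * χ` -/
lemma hyperbola (h2 : χ ^ 2 = 1) (β : ℝ) {y : ℕ} (hy : 1 ≤ y) :
    1 ≤ ∑ d ∈ Icc 1 y, rchar χ d * xs β d * ZZs β (y * y / d) +
      ∑ m ∈ Icc 1 y, xs β m * ∑ d ∈ Ico (y + 1) (y * y / m + 1), rchar χ d * xs β d := by
  set N := y * y with hN
  have hN1 : 1 ≤ N := Nat.mul_pos hy hy
  have hyN : y ≤ N := Nat.le_mul_of_pos_left y hy
  have h1 : 1 ≤ ∑ n ∈ Icc 1 N, coeff1 χ n * xs β n := by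
    have h3 : coeff1 χ 1 * xs β 1 ≤ ∑ n ∈ Icc 1 N, coeff1 χ n * xs β n :=
      single_le_sum (f := fun n => coeff1 χ n * xs β n)
        (fun n _ => mul_nonneg (coeff1_nonneg h2 n) (xs_pos β n).le)
        (mem_Icc.mpr ⟨le_rfl, hN1⟩)
    rwa [coeff1_one, xs_one, one_mul] at h3
  refine h1.trans (le_of_eq ?_)
  have h3 : ∀ n ∈ Icc 1 N, coeff1 χ n * xs β n =
      ∑ x ∈ n.divisorsAntidiagonal, rchar χ x.1 * xs β x.1 * xs β x.2 := by
    intro n hn
    rw [mem_Icc] at hn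
    rw [coeff1, mul_comm rzeta, ArithmeticFunction.mul_apply, sum_mul]
    apply sum_congr rfl
    intro x hx
    rw [Nat.mem_divisorsAntidiagonal] at hx
    have hx1 : x.1 ≠ 0 := by
      rintro h; rw [h, zero_mul] at hx; omega
    have hx2 : x.2 ≠ 0 := by
      rintro h; rw [h, mul_zero] at hx; omega
    rw [rzeta_apply hx2, ← hx.1, xs_mul β (by omega) (by omega)]
    ring
  rw [sum_congr rfl h3, Pool.Agent.MP89da58.sum_dA
    (fun a b : ℕ => rchar χ a * xs β a * xs β b)]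
  have hsplit : Icc 1 N = Icc 1 y ∪ Icc (y + 1) N := by
    ext d; simp only [mem_union, mem_Icc]; omega
  have hdisj : Disjoint (Icc 1 y) (Icc (y + 1) N) := by
    rw [disjoint_left]; intro d hd hd'; rw [mem_Icc] at hd hd'; omega
  conv_lhs => rw [hsplit]
  rw [sum_union hdisj]
  congr 1
  · apply sum_congr rfl
    intro d hd
    rw [mem_Icc] at hd
    rw [ZZs, mul_sum, ← sum_filter, ← hsplit]
    apply sum_congr
    · ext m
      simp only [mem_filter, mem_Icc]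
      rw [Nat.le_div_iff_mul_le (by omega), mul_comm m d]
      constructor
      · rintro ⟨⟨h4, _⟩, h5⟩; exact ⟨h4, h5⟩
      · rintro ⟨h4, h5⟩
        refine ⟨⟨h4, ?_⟩, h5⟩
        exact le_trans (Nat.le_mul_of_pos_left m (by omega)) h5
    · intro m _; rfl
  · rw [← hsplit, sum_comm]
    have hz : ∀ m ∈ Icc 1 N, (∑ d ∈ Icc (y + 1) N, if d * m ≤ N then
        rchar χ d * xs β d * xs β m else 0) =
        xs β m * ∑ d ∈ Ico (y + 1) (N / m + 1), rchar χ d * xs β d := by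
      intro m hm
      rw [mem_Icc] at hm
      rw [mul_sum, ← sum_filter]
      apply sum_congr
      · ext d
        simp only [mem_filter, mem_Icc, mem_Ico, Nat.lt_succ_iff]
        rw [Nat.le_div_iff_mul_le (by omega)]
        constructor
        · rintro ⟨⟨h4, _⟩, h5⟩; exact ⟨h4, h5⟩
        · rintro ⟨h4, h5⟩
          refine ⟨⟨h4, ?_⟩, h5⟩
          exact le_trans (Nat.le_mul_of_pos_right d (by omega)) h5
      · intro d _; ring
    rw [sum_congr rfl hz]
    conv_lhs => rw [hsplit]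
    rw [sum_union hdisj]
    have h0 : ∑ m ∈ Icc (y + 1) N, xs β m * ∑ d ∈ Ico (y + 1) (N / m + 1), rchar χ d * xs β d
        = 0 := by
      apply sum_eq_zero
      intro m hm
      rw [mem_Icc] at hm
      have h5 : N / m < y + 1 := by
        rw [Nat.div_lt_iff_lt_mul (by omega)]
        calc N = y * y := hN
          _ < (y + 1) * m := by nlinarith
      rw [Ico_eq_empty_of_le (by omega), sum_empty, mul_zero]
    rw [h0, add_zero]

/-- the fundamental inequality -/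
theorem main_ineq (hne : χ ≠ 1) (h2 : χ ^ 2 = 1) {β : ℝ} (h0 : 0 < β) (h1 : β < 1)
    (hL : 0 ≤ (χ.LFunction (β : ℂ)).re) {y : ℕ} (hy : 1 ≤ y) :
    1 ≤ (fI β ((y * y : ℕ) : ℝ)) * ((χ.LFunction 1).re + r * (y : ℝ)⁻¹) +
      1 / (1 - β) * (r * (y : ℝ) ^ (-β)) + 2 * (y : ℝ) ^ (1 - 2 * β) +
      fI β y * (r * (y : ℝ) ^ (-β)) := by
  have hη : 0 < 1 - β := by linarith
  have hy0 : (0 : ℝ) < y := by exact_mod_cast hy
  have hy1 : (1 : ℝ) ≤ y := by exact_mod_cast hy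
  have hr0 : (0 : ℝ) ≤ r := Nat.cast_nonneg _
  set N := y * y with hN
  have hN1 : 1 ≤ N := Nat.mul_pos hy hy
  have hN0 : (0 : ℝ) < N := by exact_mod_cast hN1
  have hmain := hyperbola h2 β hy (χ := χ)
  rw [← hN] at hmain
  -- the weight at `y + 1`
  have hxy : xs β (y + 1) ≤ (y : ℝ) ^ (-β) := by
    rw [xs_eq β (by omega)]
    exact Real.rpow_le_rpow_of_nonpos hy0 (by push_cast; linarith) (by linarith)
  have hxy0 : 0 < xs β (y + 1) := xs_pos _ _
  -- second part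
  have hB : ∑ m ∈ Icc 1 y, xs β m * ∑ d ∈ Ico (y + 1) (N / m + 1), rchar χ d * xs β d ≤
      fI β y * (r * (y : ℝ) ^ (-β)) := by
    have h3 : ∀ m ∈ Icc 1 y, xs β m * ∑ d ∈ Ico (y + 1) (N / m + 1), rchar χ d * xs β d ≤
        xs β m * (r * (y : ℝ) ^ (-β)) := by
      intro m _
      apply mul_le_mul_of_nonneg_left _ (xs_pos β m).le
      have h4 := abel_le (c := fun n => rchar χ n) (w := xs β) (a := y + 1) (b := N / m + 1)
        (B := r) (fun n => abs_block hne (by omega) n)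
        (fun n hn => xs_anti h0.le (by omega) (by omega)) (fun n _ => (xs_pos β n).le)
      exact (le_abs_self _).trans (h4.trans (mul_le_mul_of_nonneg_left hxy hr0))
    refine (sum_le_sum h3).trans ?_
    rw [← sum_mul]
    exact mul_le_mul_of_nonneg_right (ZZs_le h0 h1 hy) (by positivity)
  -- first part
  have hA : ∑ d ∈ Icc 1 y, rchar χ d * xs β d * ZZs β (N / d) ≤
      fI β N * (∑ d ∈ Icc 1 y, rchar χ d * xs 1 d) + Er β N * (∑ d ∈ Icc 1 y, rchar χ d * xs β d) +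
      2 * (y : ℝ) ^ (1 - 2 * β) := by
    have h3 : ∀ d ∈ Icc 1 y, rchar χ d * xs β d * ZZs β (N / d) ≤
        fI β N * (rchar χ d * xs 1 d) + Er β N * (rchar χ d * xs β d) + 2 * (N : ℝ) ^ (-β) := by
      intro d hd
      rw [mem_Icc] at hd
      have hd0 : (0 : ℝ) < d := by exact_mod_cast hd.1
      have hdN : d ≤ N := hd.2.trans (Nat.le_mul_of_pos_left y hy)
      have hu : 1 ≤ (N : ℝ) / d := by
        rw [le_div_iff₀ hd0, one_mul]
        exact_mod_cast hdN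
      have h4 := ZZs_approx h0 h1 hu (M := N) (by
        rw [Nat.floor_div_natCast, Nat.floor_natCast]
        exact Nat.div_le_self _ _)
      rw [Nat.floor_div_natCast, Nat.floor_natCast] at h4
      have h5 : fI β ((N : ℝ) / d) * xs β d = fI β N * xs 1 d := by
        unfold fI
        rw [xs_eq β hd.1, xs_eq 1 hd.1, Real.div_rpow hN0.le hd0.le]
        have h6 : (d : ℝ) ^ (1 - β) ≠ 0 := by positivity
        have h7 : (d : ℝ) ^ (-β) = (d : ℝ) ^ (1 - β) * (d : ℝ) ^ (-1 : ℝ) := by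
          rw [← Real.rpow_add hd0]; congr 1; ring
        rw [h7]
        field_simp
      have h6 : ((N : ℝ) / d) ^ (-β) * xs β d = (N : ℝ) ^ (-β) := by
        rw [xs_eq β hd.1, Real.div_rpow hN0.le hd0.le]
        have h6 : (d : ℝ) ^ (-β) ≠ 0 := by positivity
        field_simp
      have h7 : |rchar χ d * xs β d * (ZZs β (N / d) - fI β ((N : ℝ) / d) - Er β N)| ≤
          2 * (N : ℝ) ^ (-β) := by
        rw [abs_mul, abs_mul, abs_of_pos (xs_pos β d), ← h6]
        calc |rchar χ d| * xs β d * |ZZs β (N / d) - fI β ((N : ℝ) / d) - Er β N|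
            ≤ 1 * xs β d * (2 * ((N : ℝ) / d) ^ (-β)) := by
              apply mul_le_mul _ h4 (abs_nonneg _) (by have := (xs_pos β d).le; positivity)
              exact mul_le_mul_of_nonneg_right (abs_rchar_le h2 d) (xs_pos β d).le
          _ = 2 * (((N : ℝ) / d) ^ (-β) * xs β d) := by ring
      have h8 := (le_abs_self _).trans h7
      have h9 : rchar χ d * xs β d * (ZZs β (N / d) - fI β ((N : ℝ) / d) - Er β N) =
          rchar χ d * xs β d * ZZs β (N / d) - rchar χ d * (fI β ((N : ℝ) / d) * xs β d) -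
          Er β N * (rchar χ d * xs β d) := by ring
      rw [h9, h5] at h8
      linarith
    refine (sum_le_sum h3).trans (le_of_eq ?_)
    rw [sum_add_distrib, sum_add_distrib, ← mul_sum, ← mul_sum, sum_const, Nat.card_Icc,
      Nat.add_sub_cancel, nsmul_eq_mul]
    congr 1
    have h10 : (N : ℝ) ^ (-β) = (y : ℝ) ^ (-2 * β) := by
      rw [hN]; push_cast
      rw [← pow_two, ← Real.rpow_natCast, ← Real.rpow_mul hy0.le]
      congr 1; push_cast; ring
    rw [h10]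
    have h11 : (y : ℝ) ^ (1 - 2 * β) = y * (y : ℝ) ^ (-2 * β) := by
      rw [show 1 - 2 * β = 1 + (-2 * β) by ring, Real.rpow_add hy0, Real.rpow_one]
    rw [h11]; ring
  -- sums of the character
  have hS1 : ∑ d ∈ Icc 1 y, rchar χ d * xs 1 d ≤ (χ.LFunction 1).re + r * (y : ℝ)⁻¹ := by
    have h3 := (le_abs_self _).trans (abs_partial_sub hne h2 (s := 1) one_pos y)
    have h4 : xs 1 (y + 1) ≤ (y : ℝ)⁻¹ := by
      rw [xs_eq 1 (by omega), Real.rpow_neg_one]
      exact inv_anti₀ hy0 (by push_cast; linarith)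
    have h5 := mul_le_mul_of_nonneg_left h4 hr0
    rw [Complex.ofReal_one] at h3
    linarith
  have hSb : - (r * (y : ℝ) ^ (-β)) ≤ ∑ d ∈ Icc 1 y, rchar χ d * xs β d := by
    have h3 := (abs_le.mp (abs_partial_sub hne h2 (s := β) h0 y)).1
    have h5 := mul_le_mul_of_nonneg_left hxy hr0
    linarith
  have hE1 : Er β N ≤ 0 := by
    have h3 := (Er_anti h0 h1 le_rfl hN1).1
    rw [Er_one β h1] at h3
    have h4 : 1 ≤ 1 / (1 - β) := by
      rw [le_div_iff₀ hη]; linarith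
    linarith
  have hE2 : -(1 / (1 - β)) ≤ Er β N := by
    have h3 := (Er_anti h0 h1 le_rfl hN1).2
    rw [Er_one β h1, xs_one] at h3
    have := (xs_pos β N).le
    linarith
  have hT : Er β N * (∑ d ∈ Icc 1 y, rchar χ d * xs β d) ≤
      1 / (1 - β) * (r * (y : ℝ) ^ (-β)) := by
    have hQ : 0 ≤ r * (y : ℝ) ^ (-β) := by positivity
    calc Er β N * (∑ d ∈ Icc 1 y, rchar χ d * xs β d) ≤ Er β N * (-(r * (y : ℝ) ^ (-β))) :=
          mul_le_mul_of_nonpos_left hSb hE1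
      _ = (- Er β N) * (r * (y : ℝ) ^ (-β)) := by ring
      _ ≤ 1 / (1 - β) * (r * (y : ℝ) ^ (-β)) := mul_le_mul_of_nonneg_right (by linarith) hQ
  have hfI : 0 ≤ fI β N := by unfold fI; positivity
  have hA' := mul_le_mul_of_nonneg_left hS1 hfI
  linarith

end

end Pool.Agent.BVall
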