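import Mathlib
import Pool.Agent.Lib.MP_0da313_nt.BV.Siegel1
import Pool.Agent.Lib.MP_0016c7_nt.Tatu3

set_option autoImplicit false

/-!
Siegel's theorem: `L(1, χ) ≥ c(ε) r^(-ε)` for primitive quadratic characters modulo `r`.
-/

open Finset

namespace Pool.Agent.BVall

open Pool.Agent.MP0016c7

section
variable {r : ℕ} [NeZero r] {χ : DirichletCharacter ℂ r}

lemma r_ne_one (hne : χ ≠ 1) : r ≠ 1 := by
  rintro rfl
  exact hne (DirichletCharacter.level_one χ)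

lemma L1_pos (hp : χ.IsPrimitive) (hne : χ ≠ 1) (h2 : χ ^ 2 = 1) : 0 < (χ.LFunction 1).re := by
  obtain ⟨W, h⟩ := exists_ldata_single χ hp hne (r_ne_one hne) h2
  have := h.pos_one
  unfold Lr at this
  rwa [Complex.ofReal_one] at this

lemma rpow_small {R ε0 : ℝ} (hR : 1 ≤ R) (h0 : 0 < ε0) :
    R ^ (4 * (ε0 * R ^ (-ε0))) ≤ 5 := by
  have hR0 : 0 < R := by linarith
  have h1 : R ^ (-ε0) = Real.exp (-(ε0 * Real.log R)) := by
    rw [Real.rpow_def_of_pos hR0]; congr 1; ring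
  have h2 := mul_exp_neg_le (ε0 * Real.log R)
  rw [← h1] at h2
  rw [Real.rpow_def_of_pos hR0]
  have h3 : Real.log R * (4 * (ε0 * R ^ (-ε0))) = 4 * (ε0 * Real.log R * R ^ (-ε0)) := by ring
  rw [h3]
  have h4 := exp_neg_one_lt
  have h5 : Real.exp (4 * (ε0 * Real.log R * R ^ (-ε0))) ≤ Real.exp (1 + 12 / 25) :=
    Real.exp_le_exp.mpr (by linarith only [h2, h4])
  refine h5.trans ?_
  have h6 : Real.exp (1 + 12 / 25) = Real.exp 1 * Real.exp (12 / 25) := Real.exp_add _ _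
  have h7 : Real.exp (12 / 25) ≤ 1.65 := by
    have h8 : Real.exp (12 / 25) ≤ Real.exp (1 / 2) := Real.exp_le_exp.mpr (by norm_num)
    have h9 : Real.exp (1 / 2) ^ 2 = Real.exp 1 := by
      rw [← Real.exp_nat_mul]; norm_num
    have h10 := Real.exp_one_lt_d9
    have h11 := Real.exp_pos (1 / 2)
    nlinarith only [h8, h9, h10, h11]
  rw [h6]
  have h8 := Real.exp_one_lt_d9
  have h9 := Real.exp_pos 1
  have h10 := Real.exp_pos (12 / 25)
  nlinarith only [h8, h7, h9]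

lemma lower_of_nonneg {ε0 : ℝ} (h0 : 0 < ε0) (h01 : ε0 ≤ 1 / 16) (hne : χ ≠ 1) (h2 : χ ^ 2 = 1)
    (hr : (50 / ε0) ^ 2 ≤ r)
    (hL : 0 ≤ (χ.LFunction ((1 - ε0 * (r : ℝ) ^ (-ε0) : ℝ) : ℂ)).re) :
    ε0 * (r : ℝ) ^ (-ε0) / 10 ≤ (χ.LFunction 1).re := by
  set R : ℝ := (r : ℝ) with hRd
  have hr1 : 1 ≤ r := NeZero.one_le
  have hR1 : 1 ≤ R := by rw [hRd]; exact_mod_cast hr1
  have hR0 : 0 < R := by linarith
  set η : ℝ := ε0 * R ^ (-ε0) with hη
  have hη0 : 0 < η := by positivity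
  have hRε : R ^ (-ε0) ≤ 1 := Real.rpow_le_one_of_one_le_of_nonpos hR1 (by linarith only [h0])
  have hη1 : η ≤ 1 / 16 := by
    calc η ≤ ε0 * 1 := mul_le_mul_of_nonneg_left hRε h0.le
      _ ≤ 1 / 16 := by linarith
  set β : ℝ := 1 - η with hβ
  have hβη : 1 - β = η := by rw [hβ]; ring
  have hm := main_ineq hne h2 (β := β) (by linarith only [h0, h01, hη1]) (by linarith) hL (y := r ^ 2)
    (Nat.one_le_pow _ _ hr1)
  rw [hβη] at hm
  set L1 : ℝ := (χ.LFunction 1).re with hL1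
  have e1 : fI β ((r ^ 2 * r ^ 2 : ℕ) : ℝ) = R ^ (4 * η) / η := by
    unfold fI
    rw [hβη]
    congr 1
    push_cast
    rw [← pow_add, ← Real.rpow_natCast, ← Real.rpow_mul (by positivity)]
    norm_num
    rfl
  have e2 : fI β ((r ^ 2 : ℕ) : ℝ) = R ^ (2 * η) / η := by
    unfold fI
    rw [hβη]
    congr 1
    push_cast
    rw [← Real.rpow_natCast, ← Real.rpow_mul (by positivity)]
    norm_num
    rfl
  have e3 : (((r ^ 2 : ℕ) : ℝ)) ^ (-β) = R ^ (-2 + 2 * η) := by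
    push_cast
    rw [← Real.rpow_natCast, ← Real.rpow_mul (by positivity)]
    congr 1
    rw [hβ]; push_cast; ring
  have e4 : (((r ^ 2 : ℕ) : ℝ)) ^ (1 - 2 * β) = R ^ (-2 + 4 * η) := by
    push_cast
    rw [← Real.rpow_natCast, ← Real.rpow_mul (by positivity)]
    congr 1
    rw [hβ]; push_cast; ring
  have e5 : R * (((r ^ 2 : ℕ) : ℝ))⁻¹ = R⁻¹ := by
    push_cast
    rw [← hRd]
    field_simp
  rw [e1, e2, e3, e4, e5] at hm
  have e6 : R * R ^ (-2 + 2 * η) = R ^ (2 * η) * R⁻¹ := by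
    rw [show -2 + 2 * η = 2 * η + (-2) by ring, Real.rpow_add hR0,
      show (-2 : ℝ) = -1 + -1 by norm_num, Real.rpow_add hR0, Real.rpow_neg_one]
    field_simp
  rw [e6] at hm
  have e7 : R ^ (-2 + 4 * η) = R ^ (4 * η) * (R⁻¹ * R⁻¹) := by
    rw [show -2 + 4 * η = 4 * η + (-1 + -1) by ring, Real.rpow_add hR0, Real.rpow_add hR0,
      Real.rpow_neg_one]
  rw [e7] at hm
  set P : ℝ := R ^ (4 * η) with hP
  have hP1 : 1 ≤ P := Real.one_le_rpow hR1 (by positivity)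
  have hP5 : P ≤ 5 := rpow_small hR1 h0
  have hQ : R ^ (2 * η) ≤ P := Real.rpow_le_rpow_of_exponent_le hR1 (by linarith only [hη0])
  have hQ0 : 0 ≤ R ^ (2 * η) := by positivity
  have hQQ : R ^ (2 * η) * R ^ (2 * η) = P := by
    rw [← Real.rpow_add hR0]; congr 1; ring
  have hinv : R⁻¹ ≤ 1 := inv_le_one_of_one_le₀ hR1
  have hinv0 : 0 < R⁻¹ := by positivity
  have hη' : 1 ≤ 1 / η := by rw [le_div_iff₀ hη0]; linarith only [h0, h01, hη1]
  -- bound all error terms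
  have t2 : 1 / η * (R ^ (2 * η) * R⁻¹) ≤ P / η * R⁻¹ := by
    rw [div_mul_eq_mul_div, one_mul, div_mul_eq_mul_div]
    exact div_le_div_of_nonneg_right (mul_le_mul_of_nonneg_right hQ hinv0.le) hη0.le
  have t3 : 2 * (P * (R⁻¹ * R⁻¹)) ≤ 2 * (P / η * R⁻¹) := by
    apply mul_le_mul_of_nonneg_left _ (by norm_num)
    have : P * (R⁻¹ * R⁻¹) ≤ P * (1 * R⁻¹) := by
      apply mul_le_mul_of_nonneg_left _ (by linarith only [h0, h01, hP1])
      exact mul_le_mul_of_nonneg_right hinv hinv0.le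
    have h3 : P * (1 * R⁻¹) ≤ P / η * R⁻¹ := by
      rw [one_mul]
      apply mul_le_mul_of_nonneg_right _ hinv0.le
      rw [le_div_iff₀ hη0]
      exact mul_le_of_le_one_right (by linarith only [h0, h01, hP1]) (by linarith only [h0, h01, hη1])
    linarith only [this, h3]
  have t4 : R ^ (2 * η) / η * (R ^ (2 * η) * R⁻¹) = P / η * R⁻¹ := by
    rw [← hQQ]; ring
  rw [t4] at hm
  have hm2 : 1 ≤ P / η * (L1 + 5 * R⁻¹) := by
    have : P / η * (L1 + 5 * R⁻¹) = P / η * (L1 + R⁻¹) + P / η * R⁻¹ + 2 * (P / η * R⁻¹) +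
        P / η * R⁻¹ := by ring
    rw [this]
    linarith only [hm, t2, t3]
  have hm3 : η ≤ P * (L1 + 5 * R⁻¹) := by
    rw [div_mul_eq_mul_div, le_div_iff₀ hη0, one_mul] at hm2
    exact hm2
  have hpos : 0 < L1 + 5 * R⁻¹ := by
    by_contra hcon
    push Not at hcon
    have := mul_nonpos_of_nonneg_of_nonpos (show 0 ≤ P by linarith only [h0, h01, hP1]) hcon
    linarith only [hη0, hm3, this]
  have hm4 : η ≤ 5 * (L1 + 5 * R⁻¹) := hm3.trans (mul_le_mul_of_nonneg_right hP5 hpos.le)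
  -- `5 / R ≤ η / 10`
  have hfin : 5 * R⁻¹ ≤ η / 10 := by
    have h5 : 50 / ε0 ≤ R ^ (1 - ε0) := by
      have h6 : (50 / ε0) ≤ R ^ (1 / 2 : ℝ) := by
        rw [← Real.sqrt_eq_rpow]
        apply Real.le_sqrt_of_sq_le
        exact hr
      exact h6.trans (Real.rpow_le_rpow_of_exponent_le hR1 (by linarith only [h0, h01]))
    rw [div_le_iff₀ h0] at h5
    have h7 : R ^ (1 - ε0) = R * R ^ (-ε0) := by
      rw [sub_eq_add_neg, Real.rpow_add hR0, Real.rpow_one]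
    rw [h7] at h5
    have h8 : 50 ≤ R * η := by rw [hη]; linarith only [h5]
    rw [← div_eq_mul_inv, div_le_div_iff₀ hR0 (by norm_num)]
    linarith only [h5]
  linarith only [hm4, hfin]

end

/-- For all large moduli there is no exceptional zero near `1`. -/
lemma no_exception {ε0 : ℝ} (h0 : 0 < ε0) :
    ∃ N0 : ℕ, ∀ (r : ℕ) [NeZero r] (χ : DirichletCharacter ℂ r), N0 < r → χ.IsPrimitive →
      χ ≠ 1 → χ ^ 2 = 1 → ∀ β : ℝ, 1 - ε0 * (r : ℝ) ^ (-ε0) ≤ β → β < 1 →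
      χ.LFunction (β : ℂ) ≠ 0 := by
  by_cases hex : ∃ (r : ℕ) (_ : NeZero r) (χ : DirichletCharacter ℂ r), χ.IsPrimitive ∧
      χ ≠ 1 ∧ χ ^ 2 = 1 ∧ ∃ β : ℝ, 1 - ε0 * (r : ℝ) ^ (-ε0) ≤ β ∧ β < 1 ∧
      χ.LFunction (β : ℂ) = 0
  · obtain ⟨r1, i1, χ1, hp1, hne1, hs1, β1, hb1, hl1, hz1⟩ := hex
    refine ⟨r1, fun r i χ hr hp hne hs β hb hl hz => ?_⟩
    have hc1 : χ1.conductor = r1 := hp1
    have hc : χ.conductor = r := hp
    have h := tatuzawa h0 χ1 χ hne1 hne hs1 hs (β₁ := β1) (β₂ := β) (by rw [hc1]; exact hb1) hl1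
      hz1 (by rw [hc]; exact hb) hl hz
    have := h.1.1
    rw [hc1, hc] at this
    omega
  · refine ⟨0, fun r i χ _ hp hne hs β hb hl hz => hex ⟨r, i, χ, hp, hne, hs, β, hb, hl, hz⟩⟩

lemma finite_level (r : ℕ) [NeZero r] : ∃ c : ℝ, 0 < c ∧ ∀ χ : DirichletCharacter ℂ r,
    χ.IsPrimitive → χ ≠ 1 → χ ^ 2 = 1 → c ≤ (χ.LFunction 1).re := by
  classical
  have hfin : Finite (DirichletCharacter ℂ r) := inferInstance
  have : Fintype (DirichletCharacter ℂ r) := Fintype.ofFinite _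
  let f : DirichletCharacter ℂ r → ℝ := fun χ =>
    if χ.IsPrimitive ∧ χ ≠ 1 ∧ χ ^ 2 = 1 then (χ.LFunction 1).re else 1
  obtain ⟨χ0, _, hχ0⟩ := exists_min_image (univ : Finset (DirichletCharacter ℂ r)) f
    ⟨1, mem_univ _⟩
  refine ⟨f χ0, ?_, fun χ hp hne hs => ?_⟩
  · simp only [f]
    split_ifs with h
    · exact L1_pos h.1 h.2.1 h.2.2
    · exact one_pos
  · have := hχ0 χ (mem_univ _)
    have h1 : f χ = (χ.LFunction 1).re := by
      simp only [f]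
      rw [if_pos ⟨hp, hne, hs⟩]
    linarith

lemma finite_levels (N : ℕ) : ∃ c : ℝ, 0 < c ∧ ∀ (r : ℕ) [NeZero r] (χ : DirichletCharacter ℂ r),
    r ≤ N → χ.IsPrimitive → χ ≠ 1 → χ ^ 2 = 1 → c ≤ (χ.LFunction 1).re := by
  induction N with
  | zero =>
    refine ⟨1, one_pos, fun r i χ hr => ?_⟩
    exact absurd (Nat.le_zero.mp hr) (NeZero.ne r)
  | succ N ih =>
    obtain ⟨c, hc, h⟩ := ih
    have : NeZero (N + 1) := ⟨by omega⟩
    obtain ⟨c', hc', h'⟩ := finite_level (N + 1)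
    refine ⟨min c c', lt_min hc hc', fun r i χ hr hp hne hs => ?_⟩
    rcases Nat.lt_or_ge N r with h1 | h1
    · have : r = N + 1 := by omega
      subst this
      exact (min_le_right _ _).trans (h' χ hp hne hs)
    · exact (min_le_left _ _).trans (h r χ h1 hp hne hs)

/-- Siegel's theorem. -/
theorem siegel (ε : ℝ) (hε : 0 < ε) : ∃ c : ℝ, 0 < c ∧
    ∀ (r : ℕ) [NeZero r] (χ : DirichletCharacter ℂ r), χ.IsPrimitive → χ ≠ 1 → χ ^ 2 = 1 →
      c * (r : ℝ) ^ (-ε) ≤ (χ.LFunction 1).re := by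
  set ε0 : ℝ := min ε (1 / 16) with hε0
  have h0 : 0 < ε0 := lt_min hε (by norm_num)
  have h01 : ε0 ≤ 1 / 16 := min_le_right _ _
  have h0ε : ε0 ≤ ε := min_le_left _ _
  obtain ⟨N0, hN0⟩ := no_exception h0
  set N1 : ℕ := max N0 ⌈(50 / ε0) ^ 2⌉₊ with hN1
  obtain ⟨c, hc, hfin⟩ := finite_levels N1
  refine ⟨min c (ε0 / 10), lt_min hc (by positivity), fun r i χ hp hne hs => ?_⟩
  have hr1 : 1 ≤ r := NeZero.one_le
  have hR1 : (1 : ℝ) ≤ r := by exact_mod_cast hr1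
  have hpw : (r : ℝ) ^ (-ε) ≤ 1 := Real.rpow_le_one_of_one_le_of_nonpos hR1 (by linarith only [hε])
  have hpw0 : 0 < (r : ℝ) ^ (-ε) := by positivity
  rcases Nat.lt_or_ge N1 r with h1 | h1
  · -- no exceptional zero
    have hbig : (50 / ε0) ^ 2 ≤ r := by
      have h2 : ⌈(50 / ε0) ^ 2⌉₊ ≤ r := le_trans (le_max_right _ _) h1.le
      exact (Nat.le_ceil _).trans (by exact_mod_cast h2)
    have hN : N0 < r := lt_of_le_of_lt (le_max_left _ _) h1
    have hRpow : (r : ℝ) ^ (-ε0) ≤ 1 := Real.rpow_le_one_of_one_le_of_nonpos hR1 (by linarith only [h0])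
    have hRpow0 : 0 < (r : ℝ) ^ (-ε0) := by positivity
    have hβ2 : ε0 * (r : ℝ) ^ (-ε0) ≤ 1 / 16 * 1 :=
      mul_le_mul h01 hRpow hRpow0.le (by norm_num)
    have hβ3 : 0 < ε0 * (r : ℝ) ^ (-ε0) := mul_pos h0 hRpow0
    have hβ0 : 0 < 1 - ε0 * (r : ℝ) ^ (-ε0) := by linarith only [h0, h01, hβ2]
    have hβ1 : 1 - ε0 * (r : ℝ) ^ (-ε0) < 1 := by linarith only [hβ3]
    have hL : 0 ≤ (χ.LFunction ((1 - ε0 * (r : ℝ) ^ (-ε0) : ℝ) : ℂ)).re := by
      by_contra hcon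
      push Not at hcon
      have hcont : ContinuousOn (Lr χ) (Set.Icc (1 - ε0 * (r : ℝ) ^ (-ε0)) 1) :=
        (Lr_continuous χ hne).continuousOn
      have hiv := intermediate_value_Icc hβ1.le hcont
      have hmem : (0 : ℝ) ∈ Set.Icc (Lr χ (1 - ε0 * (r : ℝ) ^ (-ε0))) (Lr χ 1) := by
        constructor
        · exact hcon.le
        · have := L1_pos hp hne hs
          unfold Lr
          rw [Complex.ofReal_one]
          exact this.le
      obtain ⟨s, ⟨hs1, hs2⟩, hs3⟩ := hiv hmem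
      have hs4 : s < 1 := by
        rcases lt_or_eq_of_le hs2 with h | h
        · exact h
        · exfalso
          have := L1_pos hp hne hs
          rw [h] at hs3
          unfold Lr at hs3
          rw [Complex.ofReal_one] at hs3
          linarith only [i, hs3, this]
      apply hN0 r χ hN hp hne hs s hs1 hs4
      apply Complex.ext
      · exact hs3
      · exact LFunction_im hne hs (by linarith only [h0, h01, hβ2, hs1])
    have h3 := lower_of_nonneg h0 h01 hne hs hbig hL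
    refine le_trans ?_ h3
    calc min c (ε0 / 10) * (r : ℝ) ^ (-ε) ≤ ε0 / 10 * (r : ℝ) ^ (-ε0) := by
          apply mul_le_mul (min_le_right _ _) _ hpw0.le (by positivity)
          exact Real.rpow_le_rpow_of_exponent_le hR1 (by linarith)
      _ = ε0 * (r : ℝ) ^ (-ε0) / 10 := by ring
  · have h2 := hfin r χ h1 hp hne hs
    calc min c (ε0 / 10) * (r : ℝ) ^ (-ε) ≤ c * 1 :=
          mul_le_mul (min_le_left _ _) hpw hpw0.le hc.le
      _ ≤ _ := by linarith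

end Pool.Agent.BVall
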