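import Pool.Agent.Lib.MP_0da313_nt.BV.SepL
import Pool.Agent.Lib.MP_0da313_nt.Poly

set_option autoImplicit false

/-!
Linear members of an admissible family.
-/

open Finset Polynomial

namespace Pool.Agent.BVall

open Pool.Agent.Lib.MP_0da313_nt

/-- a polynomial of degree at most one -/
lemma val_linear (f : MvPolynomial (Fin 2) ℤ) (hf : f.totalDegree ≤ 1) :
    ∃ a b c : ℤ, ∀ x y : ℤ, val f x y = a * x + b * y + c := by
  refine ⟨f.coeff (Finsupp.single 0 1), f.coeff (Finsupp.single 1 1), f.coeff 0, fun x y => ?_⟩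
  have key : f = MvPolynomial.C (f.coeff 0) +
      MvPolynomial.C (f.coeff (Finsupp.single 0 1)) * MvPolynomial.X 0 +
      MvPolynomial.C (f.coeff (Finsupp.single 1 1)) * MvPolynomial.X 1 := by
    ext s
    rw [MvPolynomial.coeff_add, MvPolynomial.coeff_add, MvPolynomial.coeff_C,
      MvPolynomial.coeff_C_mul, MvPolynomial.coeff_C_mul, MvPolynomial.coeff_X,
      MvPolynomial.coeff_X]
    have h01 : (Finsupp.single (0 : Fin 2) 1 : Fin 2 →₀ ℕ) ≠ 0 := by simp
    have h11 : (Finsupp.single (1 : Fin 2) 1 : Fin 2 →₀ ℕ) ≠ 0 := by simp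
    have hne : (Finsupp.single (0 : Fin 2) 1 : Fin 2 →₀ ℕ) ≠ Finsupp.single 1 1 := by
      intro h
      have := DFunLike.congr_fun h 0
      simp at this
    by_cases h0 : 0 = s
    · subst h0
      simp [h01, h11]
    by_cases h1 : Finsupp.single 0 1 = s
    · subst h1
      simp [h0, hne.symm]
    by_cases h2 : Finsupp.single 1 1 = s
    · subst h2
      simp [h0, hne]
    rw [if_neg h0, if_neg h1, if_neg h2, mul_zero, mul_zero, add_zero, add_zero]
    by_contra hs
    have hs' : s ∈ f.support := MvPolynomial.mem_support_iff.2 hs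
    have h3 := (MvPolynomial.le_totalDegree hs').trans hf
    rw [Finsupp.sum_fintype _ _ (fun _ => rfl), Fin.sum_univ_two] at h3
    have h4 : (s 0 = 0 ∧ s 1 = 0) ∨ (s 0 = 1 ∧ s 1 = 0) ∨ (s 0 = 0 ∧ s 1 = 1) := by omega
    rcases h4 with ⟨g0, g1⟩ | ⟨g0, g1⟩ | ⟨g0, g1⟩
    · apply h0
      ext i
      fin_cases i
      · simp [g0]
      · simp [g1]
    · apply h1
      ext i
      fin_cases i
      · simp [g0]
      · simp [g1]
    · apply h2
      ext i
      fin_cases i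
      · simp [g0]
      · simp [g1]
  unfold Lib.MP_0da313_nt.val
  conv_lhs => rw [key]
  simp
  ring

lemma line_eq {f : MvPolynomial (Fin 2) ℤ} {a b c : ℤ}
    (h : ∀ x y : ℤ, val f x y = a * x + b * y + c) (n : ℕ) :
    lineRestrict f n = C (a - b) * X + C (b * n + c) := by
  apply Polynomial.funext
  intro r
  rw [eval_lineRestrict, h]
  simp
  ring

/-- a linear member has a nonconstant restriction with coprime coefficients -/
lemma linear_member {m : ℕ} {f : Fin m → MvPolynomial (Fin 2) ℤ} (hf : Admissible f) (k₀ : Fin m)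
    {a b c : ℤ} (h : ∀ x y : ℤ, val (f k₀) x y = a * x + b * y + c) :
    a ≠ b ∧ ∃ N₀ : ℕ, ∀ n : ℕ, N₀ ≤ n → IsCoprime (a - b) (b * n + c) := by
  obtain ⟨N₀, hN₀⟩ := hf
  have hcop : ∀ n : ℕ, N₀ ≤ n → IsCoprime (a - b) (b * n + c) := by
    intro n hn
    obtain ⟨_, hloc⟩ := hN₀ n hn
    by_contra hc
    rw [Int.isCoprime_iff_gcd_eq_one] at hc
    obtain ⟨p, hp, hpd⟩ := Nat.exists_prime_and_dvd hc
    have h1 : (p : ℤ) ∣ a - b := (Int.natCast_dvd_natCast.2 hpd).trans (Int.gcd_dvd_left _ _)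
    have h2 : (p : ℤ) ∣ b * n + c := (Int.natCast_dvd_natCast.2 hpd).trans (Int.gcd_dvd_right _ _)
    apply hloc p hp
    intro x
    have h3 : (p : ℤ) ∣ (lineRestrict (f k₀) n).eval x := by
      rw [line_eq h]
      simp only [eval_add, eval_mul, eval_C, eval_X]
      exact dvd_add (h1.mul_right x) h2
    exact h3.trans (Finset.dvd_prod_of_mem (fun k => (lineRestrict (f k) n).eval x)
      (Finset.mem_univ k₀))
  refine ⟨?_, N₀, hcop⟩
  rintro rfl
  have h1 := hcop N₀ le_rfl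
  rw [sub_self, isCoprime_zero_left] at h1
  obtain ⟨hirr, _⟩ := hN₀ N₀ le_rfl
  apply (hirr k₀).not_isUnit
  rw [line_eq h, sub_self, C_0, zero_mul, zero_add]
  exact h1.map C

/-- choice of the direction -/
lemma orient {a b : ℤ} (hab : a ≠ b) : ∃ (σ : ℤ) (t θ : ℝ), (σ = 1 ∨ σ = -1) ∧
    (t = 1 / 4 ∨ t = 3 / 4) ∧ 1 / 4 ≤ θ ∧ θ ≤ |(a : ℝ)| + |(b : ℝ)| ∧
      θ = σ * (((a : ℝ) - b) * t + b) := by
  have key : ∀ w : ℤ, w ≠ 0 → ∃ σ : ℤ, (σ = 1 ∨ σ = -1) ∧ (1 / 4 : ℝ) ≤ σ * ((w : ℝ) / 4) ∧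
      (σ : ℝ) * ((w : ℝ) / 4) = |(w : ℝ)| / 4 := by
    intro w hw
    rcases lt_or_gt_of_ne hw with h | h
    · refine ⟨-1, Or.inr rfl, ?_, ?_⟩
      · have : (w : ℝ) ≤ -1 := by exact_mod_cast (show w ≤ -1 by omega)
        push_cast
        linarith
      · have : (w : ℝ) < 0 := by exact_mod_cast h
        rw [abs_of_neg this]
        push_cast
        ring
    · refine ⟨1, Or.inl rfl, ?_, ?_⟩
      · have : (1 : ℝ) ≤ w := by exact_mod_cast (show 1 ≤ w by omega)
        push_cast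
        linarith
      · have : (0 : ℝ) < w := by exact_mod_cast h
        rw [abs_of_pos this]
        push_cast
        ring
  by_cases hw : a + 3 * b = 0
  · have hw' : 3 * a + b ≠ 0 := by omega
    obtain ⟨σ, hσ, h1, h2⟩ := key _ hw'
    refine ⟨σ, 3 / 4, σ * (((3 * a + b : ℤ) : ℝ) / 4), hσ, Or.inr rfl, h1, ?_, ?_⟩
    · rw [h2]
      push_cast
      have h3 : |3 * (a : ℝ) + b| ≤ |3 * (a : ℝ)| + |(b : ℝ)| := abs_add_le _ _
      rw [abs_mul, abs_of_pos (show (0 : ℝ) < 3 by norm_num)] at h3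
      have h4 := abs_nonneg (a : ℝ)
      have h5 := abs_nonneg (b : ℝ)
      linarith
    · push_cast
      ring
  · obtain ⟨σ, hσ, h1, h2⟩ := key _ hw
    refine ⟨σ, 1 / 4, σ * (((a + 3 * b : ℤ) : ℝ) / 4), hσ, Or.inl rfl, h1, ?_, ?_⟩
    · rw [h2]
      push_cast
      have h3 : |(a : ℝ) + 3 * b| ≤ |(a : ℝ)| + |3 * (b : ℝ)| := abs_add_le _ _
      rw [abs_mul, abs_of_pos (show (0 : ℝ) < 3 by norm_num)] at h3
      have h4 := abs_nonneg (a : ℝ)
      have h5 := abs_nonneg (b : ℝ)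
      linarith
    · push_cast
      ring

lemma exp_le_lin {w : ℝ} (h0 : 0 ≤ w) (h1 : w ≤ 1) : Real.exp w ≤ 1 + 2 * w := by
  have h5 := Real.exp_bound' h0 h1 (n := 2) (by norm_num)
  rw [Finset.sum_range_succ, Finset.sum_range_one] at h5
  norm_num [Nat.factorial] at h5
  nlinarith

/-- the support of the weight -/
lemma OmL_support {lam X : ℝ} (hlam : 1 ≤ lam) (hX : 0 < X) {N : ℕ} (hN : 0 < N)
    (h : OmL lam X N ≠ 0) : |(N : ℝ) - X| ≤ X * (2 / lam) ∧ X ≤ 3 * N := by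
  have hlam0 : 0 < lam := by linarith
  have hN0 : (0 : ℝ) < N := by exact_mod_cast hN
  have h1 : |lam * Real.log (N / X)| < 1 := by
    by_contra hc
    rw [not_lt] at hc
    apply h
    unfold OmL Pool.Agent.MP89da58.tri
    rw [max_eq_left (by linarith), mul_zero]
  have h2 : |Real.log (N / X)| < 1 / lam := by
    rw [abs_mul, abs_of_pos hlam0] at h1
    rw [lt_div_iff₀ hlam0]
    linarith
  have hy := inv_lam_le hlam
  set y : ℝ := Real.log (N / X) with hydef
  have hNX : (N : ℝ) = X * Real.exp y := by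
    rw [hydef, Real.exp_log (by positivity)]
    field_simp
  have hy1 := (abs_lt.1 h2).1
  have hy2 := (abs_lt.1 h2).2
  have he1 : Real.exp y ≤ 1 + 2 / lam := by
    have h3 : Real.exp y ≤ Real.exp (1 / lam) := Real.exp_le_exp.2 hy2.le
    have h4 : Real.exp (1 / lam) ≤ 1 + 2 * (1 / lam) := exp_le_lin hy.1.le hy.2
    calc Real.exp y ≤ 1 + 2 * (1 / lam) := h3.trans h4
      _ = 1 + 2 / lam := by ring
  have he2 : 1 - 2 / lam ≤ Real.exp y := by
    have h3 := Real.add_one_le_exp y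
    have h4 : 2 / lam = 2 * (1 / lam) := by ring
    rw [h4]
    linarith
  constructor
  · rw [hNX, abs_le]
    constructor <;> nlinarith
  · rw [hNX]
    have h3 : Real.exp (-1) ≤ Real.exp y := Real.exp_le_exp.2 (by linarith)
    have h4 : (1 : ℝ) / 3 ≤ Real.exp (-1) := by
      rw [Real.exp_neg, one_div]
      apply inv_anti₀ (Real.exp_pos 1)
      linarith [Real.exp_one_lt_d9]
    nlinarith

end Pool.Agent.BVall
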