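import Mathlib
import Pool.Agent.Lib.MP_0da313_nt.Defs

set_option autoImplicit false

/-!
One linear member prime, all the others almost prime.
-/

open Finset Polynomial Filter

namespace Pool.Agent.BVall

open Pool.Agent.Lib.MP_0da313_nt

lemma ev_log_pow (C : ℝ) (hC : 0 < C) (k : ℕ) {s : ℝ} (hs : 0 < s) :
    ∀ᶠ n : ℝ in atTop, C * (Real.log n) ^ k ≤ n ^ s := by
  have h := isLittleO_log_rpow_rpow_atTop (s := s) (k : ℝ) hs
  have h2 := h.bound (show (0 : ℝ) < 1 / C by positivity)
  filter_upwards [h2, eventually_ge_atTop 1] with n h4 hn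
  have hl : 0 ≤ Real.log n := Real.log_nonneg hn
  rw [Real.rpow_natCast, Real.norm_of_nonneg (by positivity),
    Real.norm_of_nonneg (by positivity)] at h4
  rw [div_mul_eq_mul_div, one_mul, le_div_iff₀ hC] at h4
  linarith

lemma asymp2 (D : ℕ) (hD : 1 ≤ D) (cc θ : ℝ) (hcc : 0 < cc) (hθ : 0 < θ) :
    ∀ᶠ n : ℝ in atTop, n / (Real.log n) ^ (10 * D) ≤
      (cc * (θ * n) / (Real.log (θ * n)) ^ (8 * D) -
        8 * (2 * Real.sqrt (3 * (θ * n)) * Real.log (3 * (θ * n)))) /
        (8 * Real.log (3 * (θ * n))) - 2 * D := by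
  set c3 : ℝ := cc * θ / (32 * 2 ^ (8 * D)) with hc3
  have hc3pos : 0 < c3 := by positivity
  filter_upwards [eventually_ge_atTop 3, eventually_ge_atTop (3 * θ), eventually_ge_atTop θ,
    eventually_ge_atTop (3 / θ),
    Real.tendsto_log_atTop.eventually_ge_atTop (2 / c3),
    ev_log_pow (2 * 32 * (1 + 3 * θ) * 2 ^ (8 * D) / (cc * θ)) (by positivity) (8 * D + 1)
      (show (0 : ℝ) < 1 / 2 by norm_num),
    ev_log_pow (2 * D) (by positivity) (8 * D + 2) (show (0 : ℝ) < 1 by norm_num)]
    with n hn3 hn1 hn2 hn5 hlc hsq hlin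
  have hn0 : 0 < n := by linarith
  set l := Real.log n with hl
  have hl1 : 1 ≤ l := by
    rw [hl, Real.le_log_iff_exp_le hn0]
    linarith [Real.exp_one_lt_d9]
  have hl0 : 0 < l := by linarith
  have hθn : 3 ≤ θ * n := by
    rw [div_le_iff₀ hθ] at hn5
    linarith
  have hθn0 : 0 < θ * n := by linarith
  have hlog1 : Real.log (θ * n) ≤ 2 * l := by
    rw [Real.log_mul hθ.ne' hn0.ne']
    have := Real.log_le_log hθ hn2
    linarith
  have hlog2 : Real.log (3 * (θ * n)) ≤ 2 * l := by
    rw [← mul_assoc, Real.log_mul (by positivity) hn0.ne']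
    have := Real.log_le_log (by positivity) hn1
    linarith
  have hlog1' : 0 < Real.log (θ * n) := Real.log_pos (by linarith)
  have hlog2' : 0 < Real.log (3 * (θ * n)) := Real.log_pos (by linarith)
  set s := Real.sqrt n with hs
  have hs0 : 0 < s := Real.sqrt_pos.2 hn0
  have hss : s * s = n := Real.mul_self_sqrt hn0.le
  have hsq3 : Real.sqrt (3 * (θ * n)) ≤ (1 + 3 * θ) * s := by
    rw [← mul_assoc, Real.sqrt_mul (by positivity)]
    apply mul_le_mul_of_nonneg_right _ hs0.le
    apply Real.sqrt_le_iff.2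
    constructor
    · positivity
    · linarith [sq_nonneg θ]
  rw [← Real.sqrt_eq_rpow, ← hs, div_mul_eq_mul_div, div_le_iff₀ (by positivity)] at hsq
  rw [Real.rpow_one] at hlin
  set A : ℝ := cc * θ * n / (2 * l) ^ (8 * D) with hA
  have hA0 : 0 < A := by positivity
  have hA1 : A ≤ cc * (θ * n) / (Real.log (θ * n)) ^ (8 * D) := by
    rw [hA, mul_assoc]
    apply div_le_div_of_nonneg_left (by positivity) (by positivity)
    exact pow_le_pow_left₀ hlog1'.le hlog1 _
  have hB : 8 * (2 * Real.sqrt (3 * (θ * n)) * Real.log (3 * (θ * n))) ≤ A / 2 := by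
    calc 8 * (2 * Real.sqrt (3 * (θ * n)) * Real.log (3 * (θ * n))) ≤
          8 * (2 * ((1 + 3 * θ) * s) * (2 * l)) := by gcongr
      _ = 32 * (1 + 3 * θ) * l * s := by ring
      _ ≤ A / 2 := by
          rw [hA, div_div, le_div_iff₀ (by positivity), mul_pow]
          calc 32 * (1 + 3 * θ) * l * s * (2 ^ (8 * D) * l ^ (8 * D) * 2) =
                (2 * 32 * (1 + 3 * θ) * 2 ^ (8 * D) * l ^ (8 * D + 1)) * s := by
                rw [pow_succ]; ring
            _ ≤ (s * (cc * θ)) * s := by gcongr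
            _ = cc * θ * n := by rw [← hss]; ring
  have hmain : A / (32 * l) ≤
      (cc * (θ * n) / (Real.log (θ * n)) ^ (8 * D) -
        8 * (2 * Real.sqrt (3 * (θ * n)) * Real.log (3 * (θ * n)))) /
        (8 * Real.log (3 * (θ * n))) := by
    calc A / (32 * l) = (A / 2) / (16 * l) := by field_simp; ring
      _ ≤ (A / 2) / (8 * Real.log (3 * (θ * n))) := by
          apply div_le_div_of_nonneg_left (by positivity) (by positivity)
          linarith
      _ ≤ _ := by
          apply div_le_div_of_nonneg_right _ (by positivity)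
          linarith
  have hAc : A / (32 * l) = c3 * n / l ^ (8 * D + 1) := by
    rw [hA, hc3, mul_pow, pow_succ]
    field_simp
  have hfin : n / l ^ (10 * D) + 2 * D ≤ c3 * n / l ^ (8 * D + 1) := by
    have h1 : n / l ^ (10 * D) ≤ n / l ^ (8 * D + 2) := by
      apply div_le_div_of_nonneg_left hn0.le (by positivity)
      exact pow_le_pow_right₀ hl1 (by omega)
    have h2 : (2 * D : ℝ) ≤ n / l ^ (8 * D + 2) := by
      rw [le_div_iff₀ (by positivity)]
      exact hlin
    have h3 : c3 * n / l ^ (8 * D + 1) = c3 * l * (n / l ^ (8 * D + 2)) := by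
      rw [pow_succ l (8 * D + 1)]
      field_simp
    have h4 : 2 ≤ c3 * l := by
      rw [div_le_iff₀ hc3pos] at hlc
      linarith
    rw [h3]
    have h5 : 0 ≤ n / l ^ (8 * D + 2) := by positivity
    have h6 := mul_le_mul_of_nonneg_right h4 h5
    clear * - h6 h1 h2
    linarith
  rw [hAc] at hmain
  linarith

end Pool.Agent.BVall
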