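import Pool.Agent.Lib.MP_0da313_nt.BV.Rough
import Pool.Agent.Lib.MP_0da313_nt.BV.T1a
import Pool.Agent.Lib.MP_0da313_nt.BV.T1b

set_option autoImplicit false

/-!
One linear member prime, all the others almost prime.
-/

open Finset Polynomial Filter

namespace Pool.Agent.BVall

open Pool.Agent.Lib.MP_0da313_nt

lemma dvd_eval_congr (P : ℤ[X]) {p : ℕ} {x y : ℤ} (h : (p : ℤ) ∣ x - y) :
    (p : ℤ) ∣ P.eval x ↔ (p : ℤ) ∣ P.eval y := by
  have h1 : (p : ℤ) ∣ P.eval x - P.eval y := h.trans (Polynomial.sub_dvd_eval_sub x y P)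
  constructor
  · intro h2
    have := dvd_sub h2 h1
    simpa using this
  · intro h2
    have := dvd_add h1 h2
    simpa using this

lemma cls_family {m : ℕ} (f : Fin m → MvPolynomial (Fin 2) ℤ) (n : ℕ) (k₀ : Fin m) (D : ℕ)
    (hGdeg : (∏ k, lineRestrict (f k) n).natDegree ≤ D)
    (hloc : ∀ p : ℕ, p.Prime → ¬ ∀ x : ℤ, (p : ℤ) ∣ ∏ k, (lineRestrict (f k) n).eval x)
    {u v σ : ℤ} (hσ : σ = 1 ∨ σ = -1)
    (hg : ∀ y : ℤ, u * y + v = σ * (lineRestrict (f k₀) n).eval y) :
    Cls u v D (fun p y => (p : ℤ) ∣ (∏ k ∈ univ.erase k₀, lineRestrict (f k) n).eval y ∧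
      ¬ (p : ℤ) ∣ u * y + v) := by
  set G' : ℤ[X] := ∏ k ∈ univ.erase k₀, lineRestrict (f k) n with hG'
  set G : ℤ[X] := ∏ k, lineRestrict (f k) n with hG
  have hGG : G = lineRestrict (f k₀) n * G' := by
    exact (Finset.mul_prod_erase univ (fun k => lineRestrict (f k) n) (Finset.mem_univ k₀)).symm
  have hGeval : ∀ x : ℤ, G.eval x = ∏ k, (lineRestrict (f k) n).eval x := fun x => by
    rw [hG, eval_prod]
  have hloc' : ∀ p : ℕ, p.Prime → ¬ ∀ x : ℤ, (p : ℤ) ∣ G.eval x := fun p hp h =>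
    hloc p hp (fun x => by rw [← hGeval]; exact h x)
  have hsub : ∀ p : ℕ, (range p).filter (fun ρ : ℕ => (p : ℤ) ∣ G'.eval (ρ : ℤ) ∧
      ¬ (p : ℤ) ∣ u * (ρ : ℤ) + v) ⊆ (range p).filter (fun x : ℕ => (p : ℤ) ∣ G.eval (x : ℤ)) := by
    intro p x hx
    rw [Finset.mem_filter] at hx ⊢
    refine ⟨hx.1, ?_⟩
    rw [hGG, eval_mul]
    exact hx.2.1.mul_left _
  refine ⟨?_, fun p x h => h.2, ?_, ?_, ?_⟩
  · intro p x y h
    have h1 := dvd_eval_congr G' h
    have h2 : (p : ℤ) ∣ u * x + v ↔ (p : ℤ) ∣ u * y + v := by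
      have e : u * x + v - (u * y + v) = u * (x - y) := by ring
      have h3 : (p : ℤ) ∣ u * x + v - (u * y + v) := by rw [e]; exact h.mul_left u
      constructor
      · intro h4
        have h5 := dvd_sub h4 h3
        rwa [sub_sub_cancel] at h5
      · intro h4
        have h5 := dvd_add h3 h4
        rwa [sub_add_cancel] at h5
    rw [h1, h2]
  · intro p hp
    unfold om
    refine le_trans ?_ (card_roots_mod_le G p D hp hGdeg (hloc' p hp))
    convert Finset.card_le_card (hsub p)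
  · intro p hp _
    unfold om
    have h1 := card_roots_mod_lt G p hp (hloc' p hp)
    have h2 : ((range p).filter (fun ρ : ℕ => (p : ℤ) ∣ G'.eval (ρ : ℤ) ∧
      ¬ (p : ℤ) ∣ u * (ρ : ℤ) + v)).card ≤ _ := Finset.card_le_card (hsub p)
    have h3 : ((range p).filter (fun ρ : ℕ => (p : ℤ) ∣ G'.eval (ρ : ℤ) ∧
      ¬ (p : ℤ) ∣ u * (ρ : ℤ) + v)).card + 1 ≤ p := lt_of_le_of_lt h2 h1
    convert h3
  · intro p hp hpu
    have h1 := card_roots_mod_lt G p hp (hloc' p hp)
    -- a root of the linear member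
    have hp0 : (0 : ℤ) < p := by exact_mod_cast hp.pos
    have hcop : IsCoprime u (p : ℤ) := by
      rw [Int.isCoprime_iff_gcd_eq_one, Int.gcd_comm]
      rw [Int.gcd_eq_natAbs, Int.natAbs_natCast]
      exact (Nat.Prime.coprime_iff_not_dvd hp).2 hpu
    obtain ⟨s, t, hst⟩ := hcop
    set ρ1 : ℕ := ((-(s * v)) % (p : ℤ)).toNat with hρ1
    have hρ1' : (ρ1 : ℤ) = (-(s * v)) % (p : ℤ) := Int.toNat_of_nonneg (Int.emod_nonneg _ hp0.ne')
    have hρlt : ρ1 ∈ range p := by
      rw [Finset.mem_range]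
      have := Int.emod_lt_of_pos (-(s * v)) hp0
      omega
    have hroot : (p : ℤ) ∣ u * (ρ1 : ℤ) + v := by
      have h2 : (p : ℤ) ∣ (-(s * v)) - ρ1 := by
        rw [hρ1']
        exact Int.dvd_self_sub_emod
      have h3 : u * (ρ1 : ℤ) + v = p * (t * v) - u * ((-(s * v)) - ρ1) := by
        linear_combination -v * hst
      rw [h3]
      exact dvd_sub (dvd_mul_right _ _) (h2.mul_left u)
    have hrootG : (p : ℤ) ∣ G.eval (ρ1 : ℤ) := by
      rw [hGG, eval_mul]
      apply Dvd.dvd.mul_right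
      rw [hg] at hroot
      rcases hσ with h | h
      · rwa [h, one_mul] at hroot
      · rwa [h, neg_one_mul, dvd_neg] at hroot
    have h4 : (range p).filter (fun ρ : ℕ => (p : ℤ) ∣ G'.eval (ρ : ℤ) ∧
        ¬ (p : ℤ) ∣ u * (ρ : ℤ) + v) ⊆
        ((range p).filter (fun x : ℕ => (p : ℤ) ∣ G.eval (x : ℤ))).erase ρ1 := by
      intro x hx
      rw [Finset.mem_erase]
      refine ⟨?_, hsub p hx⟩
      rintro rfl
      exact (Finset.mem_filter.1 hx).2.2 hroot
    have h5 := Finset.card_le_card h4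
    rw [Finset.card_erase_of_mem (Finset.mem_filter.2 ⟨hρlt, hrootG⟩)] at h5
    have h6 : 0 < ((range p).filter (fun x : ℕ => (p : ℤ) ∣ G.eval (x : ℤ))).card :=
      Finset.card_pos.2 ⟨ρ1, Finset.mem_filter.2 ⟨hρlt, hrootG⟩⟩
    unfold om
    have h7 : ((range p).filter (fun ρ : ℕ => (p : ℤ) ∣ G'.eval (ρ : ℤ) ∧
        ¬ (p : ℤ) ∣ u * (ρ : ℤ) + v)).card + 2 ≤ p := by omega
    convert h7

/-- the location of the window -/
lemma window {a b c σ : ℤ} {t θ lam : ℝ} (hσ : σ = 1 ∨ σ = -1) (ht : t = 1 / 4 ∨ t = 3 / 4)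
    (hθ0 : 0 < θ) (hab : a ≠ b) (hlam : 1 ≤ lam) (hθl : 16 * θ ≤ lam)
    (hθ : θ = σ * (((a : ℝ) - b) * t + b)) {n : ℕ} (hn : 8 * |(c : ℝ)| < n) {N : ℕ} (hN : 0 < N)
    (hO : OmL lam (θ * n) N ≠ 0) {x : ℤ} (hx : (N : ℤ) = σ * (a - b) * x + σ * (b * n + c)) :
    0 < x ∧ x < n := by
  have hn0 : (0 : ℝ) < n := lt_of_le_of_lt (by positivity) hn
  have hX : 0 < θ * n := by positivity
  have hsup := (OmL_support hlam hX hN hO).1
  have hlam0 : 0 < lam := by linarith
  have h1 : θ * n * (2 / lam) ≤ n / 8 := by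
    rw [mul_div_assoc', div_le_div_iff₀ hlam0 (by norm_num)]
    nlinarith only [hθl]
  have h2 : (σ : ℝ) * ((a : ℝ) - b) * ((x : ℝ) - t * n) = (N : ℝ) - θ * n - σ * c := by
    have h3 : (N : ℝ) = σ * (a - b) * x + σ * (b * n + c) := by exact_mod_cast hx
    rw [h3, hθ]
    ring
  have hσabs : |(σ : ℝ)| = 1 := by
    rcases hσ with h | h <;> rw [h] <;> simp
  have hab1 : (1 : ℝ) ≤ |(a : ℝ) - b| := by
    have : (1 : ℤ) ≤ |a - b| := Int.one_le_abs (sub_ne_zero.2 hab)
    exact_mod_cast this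
  have h4 : |(x : ℝ) - t * n| < n / 4 := by
    have h5 : |(σ : ℝ) * ((a : ℝ) - b) * ((x : ℝ) - t * n)| = |(a : ℝ) - b| * |(x : ℝ) - t * n| := by
      rw [abs_mul, abs_mul, hσabs, one_mul]
    have h6 : |(N : ℝ) - θ * n - σ * c| ≤ |(N : ℝ) - θ * n| + |(c : ℝ)| := by
      refine (abs_sub _ _).trans ?_
      rw [abs_mul, hσabs, one_mul]
    rw [h2] at h5
    have h7 : |(x : ℝ) - t * n| ≤ |(a : ℝ) - b| * |(x : ℝ) - t * n| :=
      le_mul_of_one_le_left (abs_nonneg _) hab1
    linarith only [hn, hsup, h1, h5, h6, h7]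
  rw [abs_lt] at h4
  have h5 : (0 : ℝ) < x ∧ (x : ℝ) < n := by
    rcases ht with h | h
    · rw [h] at h4
      constructor <;> linarith only [h4, hn0, h4.1, h4.2]
    · rw [h] at h4
      constructor <;> linarith only [hn0, h4, h4.1, h4.2]
  constructor
  · exact_mod_cast h5.1
  · exact_mod_cast h5.2

theorem prime_value (m d : ℕ) (hm : 1 ≤ m) (hd : 1 ≤ d) (f : Fin m → MvPolynomial (Fin 2) ℤ)
    (hdeg : ∀ k, (f k).totalDegree ≤ d) (hf : Admissible f) (k₀ : Fin m)
    (hlin : (f k₀).totalDegree ≤ 1) :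
    ∃ N : ℕ, ∀ n : ℕ, N ≤ n →
      (n : ℝ) / (Real.log n) ^ (10 * (m * d)) ≤
        (Set.ncard {x : ℕ | 0 < x ∧ x < n ∧ (val (f k₀) x ((n : ℤ) - x)).natAbs.Prime ∧
          ∀ k, 1 < |val (f k) x ((n : ℤ) - x)| ∧
          (∀ p : ℕ, p.Prime → (p : ℤ) ∣ val (f k) x ((n : ℤ) - x) → n < p ^ (16000 * (m * d))) ∧
          ArithmeticFunction.cardFactors (val (f k) x ((n : ℤ) - x)).natAbs
            ≤ 16000 * (m * d) * d} : ℝ) := by
  classical
  obtain ⟨a, b, c, habc⟩ := val_linear (f k₀) hlin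
  obtain ⟨hab, N₁, hN₁⟩ := linear_member hf k₀ habc
  obtain ⟨N₀, hN₀⟩ := hf
  obtain ⟨σ, t, θ, hσ, ht, hθ4, hθM, hθ⟩ := orient hab
  set D := m * d with hDdef
  have hD : 1 ≤ D := Nat.one_le_iff_ne_zero.mpr (by positivity)
  have hθ0 : 0 < θ := by linarith
  set lam : ℝ := 16 * (|(a : ℝ)| + |(b : ℝ)|) with hlamdef
  have hlam : 1 ≤ lam := by linarith
  have hθlam : 16 * θ ≤ lam := by linarith
  set u : ℤ := σ * (a - b) with hudef
  have hu : u ≠ 0 := by
    rw [hudef]
    apply mul_ne_zero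
    · rcases hσ with h | h <;> rw [h] <;> norm_num
    · exact sub_ne_zero.2 hab
  obtain ⟨cc, hcc, hrough⟩ := rough_sum u hu D hD hlam
  have hCf : ∀ k, ∃ C : ℕ, ∀ n : ℕ, 1 ≤ n → ∀ x y : ℤ, |x| ≤ n → |y| ≤ n →
      |val (f k) x y| ≤ C * (n : ℤ) ^ d := fun k => abs_val_le (f k) d (hdeg k)
  choose Cf hCf using hCf
  set Cmax := ∑ k, Cf k with hCmax
  have hcast : Tendsto (fun n : ℕ => (n : ℝ)) atTop atTop := tendsto_natCast_atTop_atTop
  have hcastθ : Tendsto (fun n : ℕ => θ * (n : ℝ)) atTop atTop := hcast.const_mul_atTop hθ0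
  have ev1 := hcastθ.eventually hrough
  have ev2 := hcast.eventually (asymp2 D hD cc θ hcc hθ0)
  have ev3 := hcast.eventually (eventually_gt_atTop (8 * |(c : ℝ)|))
  have ev4 := hcastθ.eventually (eventually_ge_atTop ((((Cmax + 5 : ℕ) : ℝ)) ^ (15360 * D)))
  have ev5 := hcastθ.eventually (ev_log_pow 3 (by norm_num) 0 (show (0 : ℝ) < 1 / 4 by norm_num))
  obtain ⟨N₂, hN₂⟩ := eventually_atTop.1 (ev1.and (ev2.and (ev3.and (ev4.and ev5))))
  refine ⟨N₀ + N₁ + N₂ + 2, fun n hn => ?_⟩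
  obtain ⟨hr, has, hn8, hXz, hX4⟩ := hN₂ n (by omega)
  obtain ⟨hirr, hloc⟩ := hN₀ n (by omega)
  have hn2 : 2 ≤ n := by omega
  have hnr : (0 : ℝ) < n := by exact_mod_cast (show 0 < n by omega)
  set X : ℝ := θ * n with hXdef
  have hX0 : 0 < X := by positivity
  obtain ⟨n', hz1, hz2, hsum⟩ := hr
  set K : ℕ := 2 * D with hK
  set z : ℕ := 2 ^ (2 ^ (K + n')) with hz
  set v : ℤ := σ * (b * n + c) with hvdef
  have huv : IsCoprime u v := by
    have h1 := hN₁ n (by omega)
    rcases hσ with h | h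
    · rw [hudef, hvdef, h, one_mul, one_mul]; exact h1
    · rw [hudef, hvdef, h, neg_one_mul, neg_one_mul]; exact h1.neg_neg
  have hg : ∀ y : ℤ, u * y + v = σ * (lineRestrict (f k₀) n).eval y := by
    intro y
    rw [line_eq habc]
    simp only [eval_add, eval_mul, eval_C, eval_X]
    rw [hudef, hvdef]
    ring
  set G' : ℤ[X] := ∏ k ∈ univ.erase k₀, lineRestrict (f k) n with hG'
  have hGdeg : (∏ k, lineRestrict (f k) n).natDegree ≤ D := by
    refine (natDegree_prod_le _ _).trans ?_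
    calc ∑ k : Fin m, (lineRestrict (f k) n).natDegree ≤ ∑ _k : Fin m, d :=
          Finset.sum_le_sum fun k _ => natDegree_lineRestrict_le (f k) n d (hdeg k)
      _ = D := by simp [hDdef]
  have hcls := cls_family f n k₀ D hGdeg hloc hσ hg
  have hsum' := hsum v huv _ hcls
  -- size of z
  have hzr : (2 : ℝ) ^ (2 ^ (K + n')) = (z : ℝ) := by rw [hz]; push_cast; rfl
  rw [hzr] at hz1
  have hzC : Cmax + 5 ≤ z := by
    have h1 : (((Cmax + 5 : ℕ) : ℝ)) ^ (15360 * D) ≤ (z : ℝ) ^ (15360 * D) := hXz.trans hz1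
    have h2 : (Cmax + 5) ^ (15360 * D) ≤ z ^ (15360 * D) := by exact_mod_cast h1
    exact (Nat.pow_le_pow_iff_left (by omega)).mp h2
  have hzX : 3 * (z : ℝ) < X := by
    -- z ≤ 2^(log X) ≤ X^(3/4)
    have h1 : (z : ℝ) ≤ X ^ (3 / 4 : ℝ) := by
      rw [← hzr, ← Real.rpow_natCast 2 (2 ^ (K + n'))]
      push_cast
      have h2 : (2 : ℝ) ^ ((2 : ℝ) ^ (K + n')) ≤ (2 : ℝ) ^ (Real.log X) :=
        Real.rpow_le_rpow_of_exponent_le (by norm_num) hz2
      refine h2.trans ?_
      rw [Real.rpow_def_of_pos (by norm_num), Real.rpow_def_of_pos hX0]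
      apply Real.exp_le_exp.2
      have h3 := Real.log_two_lt_d9
      have h4 : 0 ≤ Real.log X := le_trans (by positivity) hz2
      have h12 := mul_le_mul_of_nonneg_right h3.le h4
      clear * - h12 h4
      linarith
    have h2 : (3 : ℝ) ≤ X ^ (1 / 4 : ℝ) := by simpa using hX4
    have h3 : X ^ (3 / 4 : ℝ) * X ^ (1 / 4 : ℝ) = X := by
      rw [← Real.rpow_add hX0]; norm_num
    have h4 : 0 < X ^ (3 / 4 : ℝ) := by positivity
    have h5 : (5 : ℝ) ≤ z := by
      have : 5 ≤ z := by omega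
      exact_mod_cast this
    by_contra hcon
    rw [not_lt] at hcon
    have h6 : X ^ (1 / 4 : ℝ) = 3 := by
      apply le_antisymm _ h2
      by_contra h7
      rw [not_le] at h7
      have h12 := mul_lt_mul_of_pos_left h7 h4
      clear * - h12 hcon h1 h3
      linarith
    have h7 : X = 81 := by
      have : X = (X ^ (1 / 4 : ℝ)) ^ 4 := by
        rw [← Real.rpow_natCast, ← Real.rpow_mul hX0.le]; norm_num
      rw [this, h6]; norm_num
    have h8 : (5 : ℝ) ^ (15360 * D) ≤ X := by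
      refine le_trans ?_ hXz
      apply pow_le_pow_left₀ (by norm_num)
      push_cast
      have : (0 : ℝ) ≤ Cmax := Nat.cast_nonneg _
      linarith
    have h9 : (5 : ℝ) ^ 3 ≤ (5 : ℝ) ^ (15360 * D) := pow_le_pow_right₀ (by norm_num) (by omega)
    rw [h7] at h8
    norm_num at h9
    linarith only [h8, h9]
  have hzn : (n : ℝ) < ((z + 1 : ℕ) : ℝ) ^ (16000 * D) ∧ n ≤ z ^ (16000 * D) := by
    have h1 : (n : ℝ) ≤ 4 * X := by
      have h12 := mul_le_mul_of_nonneg_right hθ4 (Nat.cast_nonneg n : (0 : ℝ) ≤ n)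
      rw [hXdef]
      clear * - h12
      linarith
    have h2 : (4 : ℝ) * X ≤ (z : ℝ) ^ (16000 * D) := by
      have hz4 : (4 : ℝ) ≤ z := by
        have : 4 ≤ z := by omega
        exact_mod_cast this
      calc (4 : ℝ) * X ≤ z * (z : ℝ) ^ (15360 * D) := by (clear * - hz4 hz1 hθ4 hn2; gcongr)
        _ = (z : ℝ) ^ (15360 * D + 1) := by rw [pow_succ]; ring
        _ ≤ (z : ℝ) ^ (16000 * D) := pow_le_pow_right₀ (by linarith only [hz4]) (by omega)
    have h3 : (n : ℝ) ≤ (z : ℝ) ^ (16000 * D) := h1.trans h2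
    refine ⟨lt_of_le_of_lt h3 ?_, by exact_mod_cast h3⟩
    apply pow_lt_pow_left₀ _ (Nat.cast_nonneg _) (by omega)
    push_cast
    linarith
  -- the exceptional polynomial
  set H : ℤ[X] := ∏ k, ((lineRestrict (f k) n) ^ 2 - 1) with hH
  have hHne : H ≠ 0 := by
    rw [hH, Finset.prod_ne_zero_iff]
    intro k _ h0
    apply (hirr k).not_isUnit
    exact IsUnit.of_mul_eq_one (lineRestrict (f k) n) (by linear_combination h0)
  have hHdeg : H.natDegree ≤ 2 * D := by
    refine (natDegree_prod_le _ _).trans ?_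
    calc ∑ k : Fin m, ((lineRestrict (f k) n) ^ 2 - 1).natDegree ≤ ∑ _k : Fin m, 2 * d := by
          apply Finset.sum_le_sum
          intro k _
          refine (natDegree_sub_le _ _).trans ?_
          rw [natDegree_one]
          refine max_le ?_ (by omega)
          refine natDegree_pow_le.trans ?_
          exact Nat.mul_le_mul_left 2 (natDegree_lineRestrict_le (f k) n d (hdeg k))
      _ = 2 * D := by simp [hDdef]; ring
  have hHeval : ∀ x : ℤ, H.eval x = ∏ k, ((lineRestrict (f k) n).eval x ^ 2 - 1) := fun x => by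
    rw [hH, eval_prod]
    simp
  have hexc := card_int_roots_le H hHne (Ioo 0 n)
  set good := ((Ioo 0 n).filter (fun x : ℕ => (val (f k₀) x ((n : ℤ) - x)).natAbs.Prime ∧
          ∀ k, 1 < |val (f k) x ((n : ℤ) - x)| ∧
          (∀ p : ℕ, p.Prime → (p : ℤ) ∣ val (f k) x ((n : ℤ) - x) → n < p ^ (16000 * D)) ∧
          ArithmeticFunction.cardFactors (val (f k) x ((n : ℤ) - x)).natAbs
            ≤ 16000 * D * d)) with hgood
  set R := (Ioo 0 n).filter (fun x : ℕ => H.eval (x : ℤ) = 0) with hR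
  set S' := ((Icc 1 ⌊3 * X⌋₊).filter (fun N : ℕ => u ∣ (N : ℤ) - v)).filter
            (fun N : ℕ => ∀ p ∈ PK K n', ¬ ((p : ℤ) ∣ G'.eval (((N : ℤ) - v) / u) ∧
              ¬ (p : ℤ) ∣ u * (((N : ℤ) - v) / u) + v)) with hS'
  set S1 := S'.filter (fun N : ℕ => N.Prime ∧ OmL lam X N ≠ 0) with hS1
  -- the map
  have hξ : ∀ N ∈ S1, ∃ x : ℕ, (x : ℤ) = ((N : ℤ) - v) / u ∧ (N : ℤ) = u * x + v ∧
      x ∈ good ∪ R := by
    intro N hN
    rw [hS1, Finset.mem_filter, hS', Finset.mem_filter, Finset.mem_filter, Finset.mem_Icc] at hN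
    obtain ⟨⟨⟨⟨hNl, hNu⟩, hdvd⟩, hQ⟩, hNp, hNO⟩ := hN
    set y : ℤ := ((N : ℤ) - v) / u with hy
    have hNy : (N : ℤ) = u * y + v := by
      have := Int.mul_ediv_cancel' hdvd
      rw [← hy] at this
      linarith only [this]
    have hwin := window (c := c) hσ ht hθ0 hab hlam hθlam hθ hn8 hNp.pos hNO (x := y)
      (by rw [hNy, hudef, hvdef])
    set x : ℕ := y.toNat with hxdef
    have hxy : (x : ℤ) = y := Int.toNat_of_nonneg hwin.1.le
    refine ⟨x, hxy, by rw [hxy]; exact hNy, ?_⟩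
    have hxI : x ∈ Ioo 0 n := by
      rw [Finset.mem_Ioo]
      omega
    by_cases hHx : H.eval (x : ℤ) = 0
    · exact Finset.mem_union_right _ (Finset.mem_filter.2 ⟨hxI, hHx⟩)
    apply Finset.mem_union_left
    rw [hgood, Finset.mem_filter]
    -- the linear member
    have hval₀ : (val (f k₀) x ((n : ℤ) - x)).natAbs = N := by
      have h1 : val (f k₀) x ((n : ℤ) - x) = (lineRestrict (f k₀) n).eval (x : ℤ) :=
        (eval_lineRestrict (f k₀) n x).symm
      have h2 := hg x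
      rw [← h1] at h2
      have h3 : (N : ℤ) = σ * val (f k₀) x ((n : ℤ) - x) := by rw [← h2, hxy]; exact hNy
      rcases hσ with h | h
      · rw [h, one_mul] at h3
        rw [← h3]; simp
      · rw [h, neg_one_mul] at h3
        rw [← Int.natAbs_neg, ← h3]; simp
    have hzN : z < N := by
      have h1 := (OmL_support hlam hX0 hNp.pos hNO).2
      have h2 : (z : ℝ) < N := by linarith only [hzX, h1]
      exact_mod_cast h2
    refine ⟨hxI, by rw [hval₀]; exact hNp, fun k => ?_⟩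
    have hval : val (f k) x ((n : ℤ) - x) = (lineRestrict (f k) n).eval (x : ℤ) :=
      (eval_lineRestrict (f k) n x).symm
    set A := val (f k) x ((n : ℤ) - x) with hA
    have hprime : ∀ p : ℕ, p.Prime → (p : ℤ) ∣ A → z < p := by
      intro p hp hpa
      by_contra hle
      push Not at hle
      by_cases hk : k = k₀
      · subst hk
        have h1 : p ∣ A.natAbs := Int.natCast_dvd.1 hpa
        rw [hA, hval₀, Nat.prime_dvd_prime_iff_eq hp hNp] at h1
        omega
      · have h1 := hQ p (mem_PK.2 ⟨hp, hle⟩)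
        rw [not_and_not_right] at h1
        have h2 : (p : ℤ) ∣ G'.eval y := by
          rw [← hxy, hG', eval_prod]
          refine hpa.trans ?_
          rw [hval]
          exact Finset.dvd_prod_of_mem (fun k => (lineRestrict (f k) n).eval (x : ℤ))
            (Finset.mem_erase.2 ⟨hk, Finset.mem_univ k⟩)
        have h3 := h1 h2
        rw [← hNy] at h3
        have h4 : p ∣ N := Int.natCast_dvd_natCast.1 h3
        rw [Nat.prime_dvd_prime_iff_eq hp hNp] at h4
        omega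
    have ha0 : A ≠ 0 := by
      intro h0
      have := hprime 2 Nat.prime_two (by rw [h0]; exact dvd_zero _)
      omega
    have ha1 : A ^ 2 - 1 ≠ 0 := by
      intro h0
      apply hHx
      rw [hHeval]
      rw [hval] at h0
      exact Finset.prod_eq_zero (Finset.mem_univ k) h0
    have habs : 1 < |A| := by
      have h1 : 0 < |A| := abs_pos.mpr ha0
      have h2 : |A| ≠ 1 := by
        intro h
        apply ha1
        rw [← sq_abs, h]
        norm_num
      omega
    refine ⟨habs, ?_, ?_⟩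
    · intro p hp hpa
      have := hprime p hp hpa
      calc n ≤ z ^ (16000 * D) := hzn.2
        _ < p ^ (16000 * D) := Nat.pow_lt_pow_left this (by omega)
    · have hna : A.natAbs ≠ 0 := Int.natAbs_ne_zero.mpr ha0
      have h1 := pow_cardFactors_le (N := A.natAbs) (z := z) hna (fun p hp hpa =>
        (hprime p hp (Int.natCast_dvd.mpr hpa)).le)
      have h2 : (A.natAbs : ℤ) ≤ Cf k * (n : ℤ) ^ d := by
        rw [Int.natCast_natAbs, hA]
        rw [Finset.mem_Ioo] at hxI
        apply hCf k n (by omega)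
        · rw [abs_le]; constructor <;> omega
        · rw [abs_le]; constructor <;> omega
      have h3 : A.natAbs ≤ Cf k * n ^ d := by exact_mod_cast h2
      have h4 : Cf k ≤ Cmax := Finset.single_le_sum (fun i _ => Nat.zero_le _) (Finset.mem_univ k)
      have h5 : A.natAbs < z ^ (16000 * D * d + 1) := by
        calc A.natAbs ≤ Cf k * n ^ d := h3
          _ ≤ Cmax * n ^ d := Nat.mul_le_mul_right _ h4
          _ < z * n ^ d := by
              apply Nat.mul_lt_mul_of_pos_right (by omega)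
              positivity
          _ ≤ z * (z ^ (16000 * D)) ^ d := Nat.mul_le_mul_left _ (Nat.pow_le_pow_left hzn.2 d)
          _ = z ^ (16000 * D * d + 1) := by rw [← pow_mul, pow_succ]; ring
      have h6 := lt_of_le_of_lt h1 h5
      have h7 := (Nat.pow_lt_pow_iff_right (by omega : 1 < z)).mp h6
      omega
  have hcard : S1.card ≤ good.card + 2 * D := by
    choose! ξ hξ1 hξ2 hξ3 using hξ
    have h1 : S1.card ≤ (good ∪ R).card := by
      apply Finset.card_le_card_of_injOn ξ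
      · intro N hN
        exact hξ3 N hN
      · intro N hN N' hN' h
        have h2 := hξ2 N hN
        have h3 := hξ2 N' hN'
        rw [h, ← h3] at h2
        exact_mod_cast h2
    have h2 := Finset.card_union_le good R
    omega
  -- the upper bound for the sum
  have hX3 : 1 ≤ Real.log X := by
    have h1 : (1 : ℝ) ≤ 2 ^ (K + n') := one_le_pow₀ (by norm_num)
    linarith only [hz2, h1]
  have hlog3 : 0 < Real.log (3 * X) := by
    rw [Real.log_mul (by norm_num) hX0.ne']
    have := Real.log_pos (show (1 : ℝ) < 3 by norm_num)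
    linarith only [hX3, this]
  have hX1 : 1 ≤ X := by
    have h1 := (Real.le_log_iff_exp_le hX0).1 hX3
    have h2 := Real.one_le_exp (show (0 : ℝ) ≤ 1 by norm_num)
    linarith only [h1, h2]
  have hub : ∑ N ∈ S', ArithmeticFunction.vonMangoldt N * OmL lam X N ≤
      S1.card * (8 * Real.log (3 * X)) +
        8 * (2 * Real.sqrt (3 * X) * Real.log (3 * X)) := by
    have hnn : ∀ N, 0 ≤ ArithmeticFunction.vonMangoldt N * OmL lam X N := fun N =>
      mul_nonneg ArithmeticFunction.vonMangoldt_nonneg (OmL_nonneg lam hX0.le N)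
    have h1 : ∑ N ∈ S', ArithmeticFunction.vonMangoldt N * OmL lam X N ≤
        ∑ N ∈ S1, ArithmeticFunction.vonMangoldt N * OmL lam X N +
        ∑ N ∈ (Ioc 0 ⌊3 * X⌋₊).filter (fun N => ¬ N.Prime),
          ArithmeticFunction.vonMangoldt N * OmL lam X N := by
      rw [← Finset.sum_filter_add_sum_filter_not S' (fun N : ℕ => N.Prime ∧ OmL lam X N ≠ 0)]
      apply add_le_add le_rfl
      rw [← Finset.sum_filter_add_sum_filter_not
        (S'.filter (fun N : ℕ => ¬ (N.Prime ∧ OmL lam X N ≠ 0))) (fun N : ℕ => N.Prime)]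
      have h2 : ∑ N ∈ (S'.filter (fun N : ℕ => ¬ (N.Prime ∧ OmL lam X N ≠ 0))).filter
          (fun N : ℕ => N.Prime), ArithmeticFunction.vonMangoldt N * OmL lam X N = 0 := by
        apply Finset.sum_eq_zero
        intro N hN
        rw [Finset.mem_filter, Finset.mem_filter] at hN
        have h3 : OmL lam X N = 0 := by
          by_contra h4
          exact hN.1.2 ⟨hN.2, h4⟩
        rw [h3, mul_zero]
      rw [h2, zero_add]
      apply Finset.sum_le_sum_of_subset_of_nonneg
      · intro N hN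
        rw [Finset.mem_filter, Finset.mem_filter] at hN
        have h3 := Finset.mem_filter.1 (Finset.mem_filter.1 hN.1.1).1
        rw [Finset.mem_Icc] at h3
        rw [Finset.mem_filter, Finset.mem_Ioc]
        exact ⟨⟨by omega, h3.1.2⟩, hN.2⟩
      · intro N _ _
        exact hnn N
    have h2 : ∑ N ∈ S1, ArithmeticFunction.vonMangoldt N * OmL lam X N ≤
        S1.card * (8 * Real.log (3 * X)) := by
      rw [← nsmul_eq_mul, ← Finset.sum_const]
      apply Finset.sum_le_sum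
      intro N hN
      rw [hS1, Finset.mem_filter, hS', Finset.mem_filter, Finset.mem_filter, Finset.mem_Icc] at hN
      obtain ⟨⟨⟨⟨hNl, hNu⟩, _⟩, _⟩, _, _⟩ := hN
      have h3 : (N : ℝ) ≤ 3 * X := (Nat.le_floor_iff (by positivity)).1 hNu
      have hN0 : (0 : ℝ) < N := by exact_mod_cast (show 0 < N by omega)
      have h4 : ArithmeticFunction.vonMangoldt N ≤ Real.log (3 * X) :=
        ArithmeticFunction.vonMangoldt_le_log.trans (Real.log_le_log hN0 h3)
      calc ArithmeticFunction.vonMangoldt N * OmL lam X N ≤ Real.log (3 * X) * 8 :=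
            mul_le_mul h4 (OmL_le hlam hX0.le hX3 N) (OmL_nonneg lam hX0.le N) hlog3.le
        _ = _ := by ring
    have h3 : ∑ N ∈ (Ioc 0 ⌊3 * X⌋₊).filter (fun N => ¬ N.Prime),
          ArithmeticFunction.vonMangoldt N * OmL lam X N ≤
          8 * (2 * Real.sqrt (3 * X) * Real.log (3 * X)) := by
      have h4 := Chebyshev.psi_sub_theta_le (x := 3 * X) (by linarith only [hX0, hX1])
      rw [Chebyshev.psi_sub_theta_eq_sum_not_prime] at h4
      refine le_trans ?_ (mul_le_mul_of_nonneg_left h4 (by norm_num))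
      rw [Finset.mul_sum]
      apply Finset.sum_le_sum
      intro N _
      rw [mul_comm]
      exact mul_le_mul_of_nonneg_right (OmL_le hlam hX0.le hX3 N)
        ArithmeticFunction.vonMangoldt_nonneg
    linarith only [h1, h2, h3]
  have hcardr : (S1.card : ℝ) ≤ good.card + 2 * D := by exact_mod_cast hcard
  have hS1low : (cc * X / (Real.log X) ^ (8 * D) -
        8 * (2 * Real.sqrt (3 * X) * Real.log (3 * X))) / (8 * Real.log (3 * X)) ≤ S1.card := by
    rw [div_le_iff₀ (by positivity)]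
    have h1 : cc * X / (Real.log X) ^ (8 * D) ≤
        ∑ N ∈ S', ArithmeticFunction.vonMangoldt N * OmL lam X N := hsum'
    linarith only [hsum', hub]
  have hset : {x : ℕ | 0 < x ∧ x < n ∧ (val (f k₀) x ((n : ℤ) - x)).natAbs.Prime ∧
          ∀ k, 1 < |val (f k) x ((n : ℤ) - x)| ∧
          (∀ p : ℕ, p.Prime → (p : ℤ) ∣ val (f k) x ((n : ℤ) - x) → n < p ^ (16000 * D)) ∧
          ArithmeticFunction.cardFactors (val (f k) x ((n : ℤ) - x)).natAbs
            ≤ 16000 * D * d} = (good : Set ℕ) := by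
    ext x
    rw [hgood]
    simp only [Set.mem_ofPred_eq, Finset.coe_filter, Finset.mem_Ioo, and_assoc]
  rw [hset, Set.ncard_coe_finset]
  linarith only [has, hcardr, hS1low]

end Pool.Agent.BVall
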