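import Pool.Agent.Lib.MP_0da313_nt.BV.SepL
import Pool.Agent.Lib.MP_89da58_nt.LargeTypes

set_option autoImplicit false

/-!
Type I and type II sums, for the weight `OmL lam X`.
-/

namespace Pool.Agent.BVall

open Finset MeasureTheory
open Pool.Agent.MP89da58 (tri cX cX_ge_one X_rpow_cX rpow_neg_cX_le norm_shift_sum_le
  norm_sum_mul_antitone_le primChars large_sieve sum_tau_sq)

variable {lam : ℝ}

/-- the smooth factor in a type I sum -/
lemma norm_twBL_char_le {X : ℝ} (N : ℕ) {r : ℕ} [NeZero r]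
    (χ : DirichletCharacter ℂ r) (hχ : χ ≠ 1) (g : ℝ → ℝ) (s : ℝ)
    (hg : AntitoneOn (fun x : ℝ => x ^ (-cX X) * g x) (Set.Ici (Real.exp s)))
    (hgn : ∀ x, Real.exp s ≤ x → 0 ≤ g x) :
    ‖twBL lam X N (fun m => χ (m : ZMod r) * (g m : ℂ)) s‖ ≤
      2 * r * (Real.exp s ^ (-cX X) * g (Real.exp s)) := by
  set a : ℕ := ⌈Real.exp s⌉₊ with ha
  set b : ℕ := min N ⌊Real.exp (s + 1 / lam)⌋₊ with hb
  have ha1 : 1 ≤ a := Nat.one_le_ceil_iff.mpr (Real.exp_pos s)
  have hae : Real.exp s ≤ a := Nat.le_ceil _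
  set f : ℝ → ℝ := fun x : ℝ => x ^ (-cX X) * g x with hf
  have hfn : ∀ x, Real.exp s ≤ x → 0 ≤ f x := by
    intro x hx
    have : 0 < x := lt_of_lt_of_le (Real.exp_pos s) hx
    exact mul_nonneg (by positivity) (hgn x hx)
  have h1 : twBL lam X N (fun m => χ (m : ZMod r) * (g m : ℂ)) s =
      ∑ m ∈ Ico a (b + 1), χ (m : ZMod r) * (f m : ℂ) := by
    rw [twBL]
    have hsub : Ico a (b + 1) ⊆ Icc 1 N := by
      intro m hm
      rw [mem_Ico] at hm
      rw [mem_Icc]
      have : b ≤ N := min_le_left _ _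
      omega
    rw [← sum_subset hsub]
    · apply sum_congr rfl
      intro m hm
      rw [mem_Ico, Nat.lt_succ_iff] at hm
      have hm0 : (0 : ℝ) < m := by
        have : 1 ≤ m := by omega
        exact_mod_cast this
      have hm1 : Real.exp s ≤ m := hae.trans (by exact_mod_cast hm.1)
      have hm2 : (m : ℝ) ≤ Real.exp (s + 1 / lam) := by
        have h5 : m ≤ ⌊Real.exp (s + 1 / lam)⌋₊ := hm.2.trans (min_le_right _ _)
        exact (Nat.le_floor_iff (Real.exp_pos _).le).mp h5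
      have hl1 : s ≤ Real.log m := (Real.le_log_iff_exp_le hm0).mpr hm1
      have hl2 : Real.log m ≤ s + 1 / lam := (Real.log_le_iff_le_exp hm0).mpr hm2
      rw [boxL_of_mem (by linarith) hl1, hf]
      push_cast
      ring
    · intro m hm hm'
      rw [mem_Icc] at hm
      rw [mem_Ico, not_and_or, not_le, not_lt] at hm'
      have hm0 : (0 : ℝ) < m := by exact_mod_cast hm.1
      rw [boxL_of_not]
      · simp
      · rintro ⟨hc1, hc2⟩
        rcases hm' with hm' | hm'
        · have h5 : (m : ℝ) < Real.exp s := by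
            by_contra hcon
            rw [not_lt] at hcon
            have := Nat.ceil_le.mpr hcon
            omega
          have := (Real.log_lt_iff_lt_exp hm0).mpr h5
          linarith
        · have h6 : ⌊Real.exp (s + 1 / lam)⌋₊ < m := by
            rcases min_lt_iff.mp (lt_of_lt_of_le (Nat.lt_succ_self b) hm') with h | h
            · omega
            · exact h
          have h7 : Real.exp (s + 1 / lam) < m := (Nat.floor_lt (Real.exp_pos _).le).mp h6
          have := (Real.lt_log_iff_exp_lt hm0).mpr h7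
          linarith
  rw [h1, sum_Ico_eq_sum_range]
  have h2 : ∀ i : ℕ, Real.exp s ≤ ((a + i : ℕ) : ℝ) := by
    intro i
    push_cast
    have : (0 : ℝ) ≤ i := Nat.cast_nonneg i
    linarith
  have h3 := norm_sum_mul_antitone_le (fun i => χ ((a + i : ℕ) : ZMod r))
    (fun i => f ((a + i : ℕ) : ℝ)) (2 * r) (b + 1 - a)
    (fun k _ => norm_shift_sum_le χ hχ a k)
    (fun i _ => hg (Set.mem_Ici.mpr (h2 i)) (Set.mem_Ici.mpr (h2 (i + 1)))
      (by push_cast; linarith))
    (hfn _ (h2 _))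
  refine h3.trans ?_
  apply mul_le_mul_of_nonneg_left _ (by positivity)
  exact hg (Set.mem_Ici.mpr le_rfl) (Set.mem_Ici.mpr (h2 0)) (h2 0)

/-- the rough factor in a type I sum -/
lemma norm_twAL_le {X : ℝ} (hX : 1 ≤ X) (N V : ℕ) (α : ℕ → ℂ) {L : ℝ} (hL : 0 ≤ L)
    (hα : ∀ d, 1 ≤ d → ‖α d‖ ≤ L) (hα0 : ∀ d, V < d → α d = 0) (s : ℝ) :
    ‖twAL lam X N α s‖ ≤ V * L := by
  rw [twAL]
  calc _ ≤ ∑ d ∈ Icc 1 N, ‖α d * (((d : ℝ) ^ (-cX X) * boxL lam (Real.log (X / d)) s : ℝ) : ℂ)‖ :=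
        norm_sum_le _ _
    _ ≤ ∑ d ∈ Icc 1 N, (if d ∈ Icc 1 V then L else 0) := by
        apply sum_le_sum
        intro d hd
        rw [mem_Icc] at hd
        split_ifs with h
        · rw [norm_mul, Complex.norm_real]
          have h1 : (1 : ℝ) ≤ d := by exact_mod_cast hd.1
          have h2 : ‖(d : ℝ) ^ (-cX X) * boxL lam (Real.log (X / d)) s‖ ≤ 1 := by
            rw [Real.norm_of_nonneg (mul_nonneg (by positivity) (boxL_nonneg _ _))]
            apply mul_le_one₀ _ (boxL_nonneg _ _) (boxL_le_one _ _)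
            exact (rpow_neg_cX_le hX h1).trans (inv_le_one_of_one_le₀ h1)
          calc _ ≤ L * 1 := mul_le_mul (hα d hd.1) h2 (norm_nonneg _) hL
            _ = L := mul_one L
        · rw [hα0 d (by rw [mem_Icc] at h; omega)]
          simp
    _ ≤ V * L := by
        rw [← sum_filter, sum_const, nsmul_eq_mul]
        apply mul_le_mul_of_nonneg_right _ hL
        have h1 : ((Icc 1 N).filter fun d => d ∈ Icc 1 V) ⊆ Icc 1 V := by
          intro d hd
          exact (mem_filter.mp hd).2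
        have := card_le_card h1
        rw [Nat.card_Icc, Nat.add_sub_cancel] at this
        exact_mod_cast this

lemma twAL_eq_zero_of_small (hlam : 1 ≤ lam) {X : ℝ} (hX : 1 ≤ X) (N V : ℕ) (hV : 1 ≤ V) (α : ℕ → ℂ)
    (hα0 : ∀ d, V < d → α d = 0) {s : ℝ} (hs : s < Real.log (X / V) - 1) :
    twAL lam X N α s = 0 := by
  have hl := inv_lam_le hlam
  rw [twAL]
  apply sum_eq_zero
  intro d hd
  rw [mem_Icc] at hd
  by_cases hdV : d ≤ V
  · have hd' : (0 : ℝ) < d := by exact_mod_cast hd.1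
    have h1 : Real.log (X / V) ≤ Real.log (X / d) := by
      apply Real.log_le_log
      · have : (0 : ℝ) < V := by exact_mod_cast hV
        positivity
      · apply div_le_div_of_nonneg_left (by linarith) hd'
        exact_mod_cast hdV
    rw [boxL_of_not (by intro h; linarith [h.1])]
    simp
  · rw [hα0 d (by omega)]
    simp

/-- bound for a type I sum -/
lemma typeI_boundL (hlam : 1 ≤ lam) {X : ℝ} (hX : 1 < X) (N : ℕ) {r : ℕ} [NeZero r]
    (χ : DirichletCharacter ℂ r) (hχ : χ ≠ 1) (V : ℕ) (hV : 1 ≤ V)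
    (hVX : Real.exp 2 * V ≤ X) (α : ℕ → ℂ) {L : ℝ} (hL : 0 ≤ L)
    (hα : ∀ d, 1 ≤ d → ‖α d‖ ≤ L) (hα0 : ∀ d, V < d → α d = 0) (g : ℝ → ℝ)
    (hg : AntitoneOn (fun x : ℝ => x ^ (-cX X) * g x) (Set.Ici (Real.exp 1)))
    (hgn : ∀ x, Real.exp 1 ≤ x → 0 ≤ g x) (hgs : ∀ s, 1 ≤ s → g (Real.exp s) ≤ s) :
    ‖∑ d ∈ Icc 1 N, ∑ m ∈ Icc 1 N, α d * (χ (m : ZMod r) * (g m : ℂ)) * (OmL lam X (d * m) : ℂ)‖ ≤
      lam * (2 * Real.exp 2 * r * V ^ 2 * L * (Real.log X * (Real.log X + 1))) := by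
  have hV0 : (0 : ℝ) < V := by exact_mod_cast hV
  have hX0 : 0 < X := by linarith
  have hlog : 0 < Real.log X := Real.log_pos hX
  have hlV : 2 ≤ Real.log (X / V) := by
    rw [Real.le_log_iff_exp_le (by positivity), le_div_iff₀ hV0]
    exact hVX
  have key := sum_norm_bilinearL_le hlam hX.le N (I := (Finset.univ : Finset Unit)) (fun _ => α)
    (fun _ m => χ (m : ZMod r) * (g m : ℂ)) (K := V * L * (2 * r * (Real.log X *
      (Real.exp 1 * V / X)))) (by
    intro s hs
    rw [Set.mem_Icc] at hs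
    simp only [univ_unique, sum_singleton]
    by_cases hs1 : s < Real.log (X / V) - 1
    · rw [twAL_eq_zero_of_small hlam hX.le N V hV α hα0 hs1]
      simp only [norm_zero, zero_mul]
      positivity
    · rw [not_lt] at hs1
      have hs2 : 1 ≤ s := by linarith
      have h1 := norm_twAL_le (lam := lam) hX.le N V α hL hα hα0 s
      have hexp : Real.exp 1 ≤ Real.exp s := Real.exp_le_exp.mpr hs2
      have h2 := norm_twBL_char_le (lam := lam) (X := X) N χ hχ g s
        (hg.mono (Set.Ici_subset_Ici.mpr hexp)) (fun x hx => hgn x (hexp.trans hx))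
      apply mul_le_mul h1 _ (norm_nonneg _) (by positivity)
      refine h2.trans ?_
      apply mul_le_mul_of_nonneg_left _ (by positivity)
      rw [mul_comm]
      have h3 : Real.exp s ^ (-cX X) ≤ (Real.exp s)⁻¹ :=
        rpow_neg_cX_le hX.le (Real.one_le_exp (by linarith))
      have h4 : (Real.exp s)⁻¹ ≤ Real.exp 1 * V / X := by
        rw [inv_le_comm₀ (Real.exp_pos s) (by positivity), inv_div]
        calc X / (Real.exp 1 * V) = Real.exp (Real.log (X / V) - 1) := by
              rw [Real.exp_sub, Real.exp_log (by positivity)]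
              field_simp
          _ ≤ Real.exp s := Real.exp_le_exp.mpr hs1
      exact mul_le_mul ((hgs s hs2).trans hs.2) (h3.trans h4) (by positivity) hlog.le)
  simp only [univ_unique, sum_singleton] at key
  refine key.trans (le_of_eq ?_)
  rw [X_rpow_cX hX]
  have : Real.exp 2 = Real.exp 1 * Real.exp 1 := by rw [← Real.exp_add]; norm_num
  rw [this]
  field_simp

/-- the `L²` bound for the first factor of a type II sum -/
lemma typeII_AL (hlam : 1 ≤ lam) {X : ℝ} (hX : 1 ≤ X) (N R U : ℕ) (hN : N = ⌊3 * X⌋₊) (hU : 1 ≤ U)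
    (hRU : R ^ 4 ≤ U) (a : ℕ → ℂ) (ha : ∀ d, 1 ≤ d → ‖a d‖ ≤ Real.log d)
    (ha0 : ∀ d, d ≤ U → a d = 0) {s : ℝ} (hs : s ∈ Set.Icc (-1 : ℝ) (Real.log X)) :
    ∑ p ∈ primChars R, ‖twAL lam X N (fun d => a d * p.2 (d : ZMod p.1)) s‖ ^ 2 ≤
      2 * Real.exp 1 ^ 2 * (Real.log X + 1) ^ 2 := by
  rw [Set.mem_Icc] at hs
  have hl := inv_lam_le hlam
  have hX0 : 0 < X := by linarith
  have hlog : 0 ≤ Real.log X := Real.log_nonneg hX
  set y : ℝ := X * Real.exp (-s) with hy
  have hy0 : 0 < y := by positivity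
  set x : ℕ → ℂ := fun d => a d * (((d : ℝ) ^ (-cX X) * boxL lam (Real.log (X / d)) s : ℝ) : ℂ) with hx
  have hyN : ⌊y⌋₊ ≤ N := by
    rw [hN]
    apply Nat.floor_le_floor
    have h1 : Real.exp (-s) ≤ 3 := by
      calc Real.exp (-s) ≤ Real.exp 1 := Real.exp_le_exp.mpr (by linarith)
        _ ≤ 3 := by linarith [Real.exp_one_lt_d9]
    rw [hy, mul_comm]
    exact mul_le_mul_of_nonneg_right h1 hX0.le
  have hlogXd : ∀ d : ℕ, 1 ≤ d → Real.log (X / d) = Real.log X - Real.log d := by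
    intro d hd
    have : (0 : ℝ) < d := by exact_mod_cast hd
    rw [Real.log_div (by positivity) (by positivity)]
  have hlogy : Real.log y = Real.log X - s := by
    rw [hy, Real.log_mul (by positivity) (by positivity), Real.log_exp]
    ring
  have hxzero : ∀ d : ℕ, 1 ≤ d → ¬ ((d : ℝ) ≤ y ∧ y ≤ Real.exp 1 * d) → x d = 0 := by
    intro d hd hcon
    have hd0 : (0 : ℝ) < d := by exact_mod_cast hd
    rw [hx]
    simp only
    rw [boxL_of_not]
    · simp
    · rintro ⟨h1, h2⟩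
      apply hcon
      rw [hlogXd d hd] at h1 h2
      constructor
      · rw [← Real.log_le_log_iff hd0 hy0, hlogy]
        linarith
      · rw [← Real.log_le_log_iff hy0 (by positivity), hlogy,
          Real.log_mul (Real.exp_pos 1).ne' hd0.ne', Real.log_exp]
        linarith
  have h1 : ∀ p ∈ primChars R, twAL lam X N (fun d => a d * p.2 (d : ZMod p.1)) s =
      ∑ d ∈ Icc 1 ⌊y⌋₊, x d * p.2 (d : ZMod p.1) := by
    intro p _
    rw [twAL]
    have hsub : Icc 1 ⌊y⌋₊ ⊆ Icc 1 N := Icc_subset_Icc le_rfl hyN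
    rw [sum_subset hsub]
    · apply sum_congr rfl
      intro d _
      rw [hx]
      ring
    · intro d hd hd'
      rw [mem_Icc] at hd
      rw [mem_Icc, not_and, not_le] at hd'
      have h2 := hd' hd.1
      rw [Nat.floor_lt hy0.le] at h2
      rw [hxzero d hd.1 (by intro h; linarith [h.1])]
      simp
  rw [sum_congr rfl fun p hp => by rw [h1 p hp]]
  refine (large_sieve R ⌊y⌋₊ x).trans ?_
  by_cases hyU : y < U + 1
  · have : ∑ n ∈ Icc 1 ⌊y⌋₊, ‖x n‖ ^ 2 = 0 := by
      apply sum_eq_zero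
      intro d hd
      rw [mem_Icc] at hd
      have h2 : ⌊y⌋₊ < U + 1 := (Nat.floor_lt hy0.le).mpr (by exact_mod_cast hyU)
      rw [hx]
      simp only
      rw [ha0 d (by omega)]
      simp
    rw [this, mul_zero]
    positivity
  · rw [not_lt] at hyU
    have hU1 : (1 : ℝ) ≤ U := by exact_mod_cast hU
    have hy1 : 1 ≤ y := by linarith
    have hly : 0 ≤ Real.log y := Real.log_nonneg hy1
    have h2 : ∀ d ∈ Icc 1 ⌊y⌋₊, ‖x d‖ ^ 2 ≤ (Real.log y * (Real.exp 1 / y)) ^ 2 := by
      intro d hd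
      rw [mem_Icc] at hd
      have hd0 : (0 : ℝ) < d := by exact_mod_cast hd.1
      have hd1 : (1 : ℝ) ≤ d := by exact_mod_cast hd.1
      apply pow_le_pow_left₀ (norm_nonneg _)
      by_cases hc : (d : ℝ) ≤ y ∧ y ≤ Real.exp 1 * d
      · rw [hx]
        simp only
        rw [norm_mul, Complex.norm_real,
          Real.norm_of_nonneg (mul_nonneg (by positivity) (boxL_nonneg _ _))]
        apply mul_le_mul
        · exact (ha d hd.1).trans (Real.log_le_log hd0 hc.1)
        · calc (d : ℝ) ^ (-cX X) * boxL lam (Real.log (X / d)) s ≤ (d : ℝ)⁻¹ * 1 :=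
                mul_le_mul (rpow_neg_cX_le hX hd1) (boxL_le_one _ _) (boxL_nonneg _ _)
                  (by positivity)
            _ ≤ Real.exp 1 / y := by
                rw [mul_one, inv_eq_one_div, div_le_div_iff₀ hd0 hy0]
                linarith [hc.2]
        · exact mul_nonneg (by positivity) (boxL_nonneg _ _)
        · exact hly
      · rw [hxzero d hd.1 hc, norm_zero]
        positivity
    have h3 : ∑ n ∈ Icc 1 ⌊y⌋₊, ‖x n‖ ^ 2 ≤ y * (Real.log y * (Real.exp 1 / y)) ^ 2 := by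
      refine (sum_le_sum h2).trans ?_
      rw [sum_const, nsmul_eq_mul, Nat.card_Icc, Nat.add_sub_cancel]
      exact mul_le_mul_of_nonneg_right (Nat.floor_le hy0.le) (by positivity)
    have h4 : ((⌊y⌋₊ : ℝ) + (R : ℝ) ^ 4) ≤ 2 * y := by
      have h5 : ((R : ℝ)) ^ 4 ≤ U := by exact_mod_cast hRU
      have := Nat.floor_le hy0.le
      linarith
    calc _ ≤ 2 * y * (y * (Real.log y * (Real.exp 1 / y)) ^ 2) :=
          mul_le_mul h4 h3 (sum_nonneg fun _ _ => by positivity) (by positivity)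
      _ = 2 * Real.exp 1 ^ 2 * (Real.log y) ^ 2 := by
          field_simp
      _ ≤ 2 * Real.exp 1 ^ 2 * (Real.log X + 1) ^ 2 := by
          apply mul_le_mul_of_nonneg_left _ (by positivity)
          apply pow_le_pow_left₀ hly
          rw [hlogy]
          linarith

/-- the `L²` bound for the second factor of a type II sum -/
lemma typeII_BL (hlam : 1 ≤ lam) {X : ℝ} (hX : 1 ≤ X) (N R U : ℕ) (hN : N = ⌊3 * X⌋₊) (hU : 1 ≤ U)
    (hRU : R ^ 4 ≤ U) (b : ℕ → ℂ) (hb : ∀ d, 1 ≤ d → ‖b d‖ ≤ d.divisors.card)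
    (hb0 : ∀ d, 1 ≤ d → d ≤ U → b d = 0) {s : ℝ} (hs : s ∈ Set.Icc (-1 : ℝ) (Real.log X)) :
    ∑ p ∈ primChars R, ‖twBL lam X N (fun m => b m * p.2 (m : ZMod p.1)) s‖ ^ 2 ≤
      2 * Real.exp 1 ^ 2 * (Real.log X + 2) ^ 3 := by
  rw [Set.mem_Icc] at hs
  have hl := inv_lam_le hlam
  have hX0 : 0 < X := by linarith
  have hlog : 0 ≤ Real.log X := Real.log_nonneg hX
  set y : ℝ := Real.exp (s + 1) with hy
  have hy0 : 0 < y := by positivity
  set x : ℕ → ℂ := fun m => b m * (((m : ℝ) ^ (-cX X) * boxL lam (Real.log m) s : ℝ) : ℂ) with hx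
  have hlogy : Real.log y = s + 1 := by rw [hy, Real.log_exp]
  have hyN : ⌊y⌋₊ ≤ N := by
    rw [hN]
    apply Nat.floor_le_floor
    calc y = Real.exp 1 * Real.exp s := by rw [hy, Real.exp_add, mul_comm]
      _ ≤ 3 * X := by
          apply mul_le_mul (by linarith [Real.exp_one_lt_d9]) _ (Real.exp_pos s).le (by norm_num)
          calc Real.exp s ≤ Real.exp (Real.log X) := Real.exp_le_exp.mpr hs.2
            _ = X := Real.exp_log hX0
  have hxzero : ∀ d : ℕ, 1 ≤ d → ¬ ((d : ℝ) ≤ y ∧ y ≤ Real.exp 1 * d) → x d = 0 := by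
    intro d hd hcon
    have hd0 : (0 : ℝ) < d := by exact_mod_cast hd
    rw [hx]
    simp only
    rw [boxL_of_not]
    · simp
    · rintro ⟨h1, h2⟩
      apply hcon
      constructor
      · rw [← Real.log_le_log_iff hd0 hy0, hlogy]
        linarith
      · rw [← Real.log_le_log_iff hy0 (by positivity), hlogy,
          Real.log_mul (Real.exp_pos 1).ne' hd0.ne', Real.log_exp]
        linarith
  have h1 : ∀ p ∈ primChars R, twBL lam X N (fun m => b m * p.2 (m : ZMod p.1)) s =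
      ∑ d ∈ Icc 1 ⌊y⌋₊, x d * p.2 (d : ZMod p.1) := by
    intro p _
    rw [twBL]
    have hsub : Icc 1 ⌊y⌋₊ ⊆ Icc 1 N := Icc_subset_Icc le_rfl hyN
    rw [sum_subset hsub]
    · apply sum_congr rfl
      intro d _
      rw [hx]
      ring
    · intro d hd hd'
      rw [mem_Icc] at hd
      rw [mem_Icc, not_and, not_le] at hd'
      have h2 := hd' hd.1
      rw [Nat.floor_lt hy0.le] at h2
      rw [hxzero d hd.1 (by intro h; linarith [h.1])]
      simp
  rw [sum_congr rfl fun p hp => by rw [h1 p hp]]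
  refine (large_sieve R ⌊y⌋₊ x).trans ?_
  by_cases hyU : y < U + 1
  · have : ∑ n ∈ Icc 1 ⌊y⌋₊, ‖x n‖ ^ 2 = 0 := by
      apply sum_eq_zero
      intro d hd
      rw [mem_Icc] at hd
      have h2 : ⌊y⌋₊ < U + 1 := (Nat.floor_lt hy0.le).mpr (by exact_mod_cast hyU)
      rw [hx]
      simp only
      rw [hb0 d hd.1 (by omega)]
      simp
    rw [this, mul_zero]
    positivity
  · rw [not_lt] at hyU
    have hU1 : (1 : ℝ) ≤ U := by exact_mod_cast hU
    have hy1 : 1 ≤ y := by linarith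
    have hly : 0 ≤ Real.log y := Real.log_nonneg hy1
    have h2 : ∀ d ∈ Icc 1 ⌊y⌋₊, ‖x d‖ ^ 2 ≤ (d.divisors.card : ℝ) ^ 2 * (Real.exp 1 / y) ^ 2 := by
      intro d hd
      rw [mem_Icc] at hd
      have hd0 : (0 : ℝ) < d := by exact_mod_cast hd.1
      have hd1 : (1 : ℝ) ≤ d := by exact_mod_cast hd.1
      rw [← mul_pow]
      apply pow_le_pow_left₀ (norm_nonneg _)
      by_cases hc : (d : ℝ) ≤ y ∧ y ≤ Real.exp 1 * d
      · rw [hx]
        simp only
        rw [norm_mul, Complex.norm_real,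
          Real.norm_of_nonneg (mul_nonneg (by positivity) (boxL_nonneg _ _))]
        apply mul_le_mul
        · exact hb d hd.1
        · calc (d : ℝ) ^ (-cX X) * boxL lam (Real.log d) s ≤ (d : ℝ)⁻¹ * 1 :=
                mul_le_mul (rpow_neg_cX_le hX hd1) (boxL_le_one _ _) (boxL_nonneg _ _)
                  (by positivity)
            _ ≤ Real.exp 1 / y := by
                rw [mul_one, inv_eq_one_div, div_le_div_iff₀ hd0 hy0]
                linarith [hc.2]
        · exact mul_nonneg (by positivity) (boxL_nonneg _ _)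
        · positivity
      · rw [hxzero d hd.1 hc, norm_zero]
        positivity
    have hfl : (1 : ℝ) ≤ ⌊y⌋₊ := by
      exact_mod_cast (Nat.one_le_floor_iff y).mpr hy1
    have h3 : ∑ n ∈ Icc 1 ⌊y⌋₊, ‖x n‖ ^ 2 ≤ y * (1 + Real.log y) ^ 3 * (Real.exp 1 / y) ^ 2 := by
      refine (sum_le_sum h2).trans ?_
      rw [← sum_mul]
      apply mul_le_mul_of_nonneg_right _ (by positivity)
      refine (sum_tau_sq _).trans ?_
      apply mul_le_mul (Nat.floor_le hy0.le) _ _ hy0.le
      · apply pow_le_pow_left₀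
        · have := Real.log_nonneg hfl
          linarith
        · have := Real.log_le_log (by linarith) (Nat.floor_le hy0.le)
          linarith
      · have := Real.log_nonneg hfl
        positivity
    have h4 : ((⌊y⌋₊ : ℝ) + (R : ℝ) ^ 4) ≤ 2 * y := by
      have h5 : ((R : ℝ)) ^ 4 ≤ U := by exact_mod_cast hRU
      have := Nat.floor_le hy0.le
      linarith
    calc _ ≤ 2 * y * (y * (1 + Real.log y) ^ 3 * (Real.exp 1 / y) ^ 2) :=
          mul_le_mul h4 h3 (sum_nonneg fun _ _ => by positivity) (by positivity)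
      _ = 2 * Real.exp 1 ^ 2 * (1 + Real.log y) ^ 3 := by
          field_simp
      _ ≤ 2 * Real.exp 1 ^ 2 * (Real.log X + 2) ^ 3 := by
          apply mul_le_mul_of_nonneg_left _ (by positivity)
          apply pow_le_pow_left₀ (by positivity)
          rw [hlogy]
          linarith

/-- bound for the type II sums -/
lemma typeII_boundL (hlam : 1 ≤ lam) {X : ℝ} (hX : 1 < X) (N R U : ℕ) (hN : N = ⌊3 * X⌋₊) (hU : 1 ≤ U)
    (hRU : R ^ 4 ≤ U) (a b : ℕ → ℂ) (ha : ∀ d, 1 ≤ d → ‖a d‖ ≤ Real.log d)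
    (ha0 : ∀ d, d ≤ U → a d = 0) (hb : ∀ d, 1 ≤ d → ‖b d‖ ≤ d.divisors.card)
    (hb0 : ∀ d, 1 ≤ d → d ≤ U → b d = 0) :
    ∑ p ∈ primChars R, ‖∑ d ∈ Icc 1 N, ∑ m ∈ Icc 1 N,
      (a d * p.2 (d : ZMod p.1)) * (b m * p.2 (m : ZMod p.1)) * (OmL lam X (d * m) : ℂ)‖ ≤
      lam * (2 * Real.exp 1 ^ 3 * X * (Real.log X + 2) ^ 4) := by
  have hlog : 0 < Real.log X := Real.log_pos hX
  have hX0 : 0 < X := by linarith
  have key := sum_norm_bilinearL_le hlam hX.le N (I := primChars R)
    (fun p d => a d * p.2 (d : ZMod p.1)) (fun p m => b m * p.2 (m : ZMod p.1))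
    (K := 2 * Real.exp 1 ^ 2 * (Real.log X + 2) ^ 3) (by
    intro s hs
    have h1 := typeII_AL hlam hX.le N R U hN hU hRU a ha ha0 hs
    have h2 := typeII_BL hlam hX.le N R U hN hU hRU b hb hb0 hs
    have h3 := sum_mul_sq_le_sq_mul_sq (primChars R)
      (fun p => ‖twAL lam X N (fun d => a d * p.2 (d : ZMod p.1)) s‖)
      (fun p => ‖twBL lam X N (fun m => b m * p.2 (m : ZMod p.1)) s‖)
    have h4 : (Real.log X + 1) ^ 2 ≤ (Real.log X + 2) ^ 3 := by
      nlinarith [sq_nonneg (Real.log X), mul_pos hlog hlog, mul_pos (mul_pos hlog hlog) hlog]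
    have h5 : (∑ p ∈ primChars R, ‖twAL lam X N (fun d => a d * p.2 (d : ZMod p.1)) s‖ *
        ‖twBL lam X N (fun m => b m * p.2 (m : ZMod p.1)) s‖) ^ 2 ≤
        (2 * Real.exp 1 ^ 2 * (Real.log X + 2) ^ 3) ^ 2 := by
      refine h3.trans ?_
      rw [pow_two (2 * Real.exp 1 ^ 2 * (Real.log X + 2) ^ 3)]
      apply mul_le_mul _ h2 (sum_nonneg fun _ _ => by positivity) (by positivity)
      exact h1.trans (mul_le_mul_of_nonneg_left h4 (by positivity))
    exact (pow_le_pow_iff_left₀ (sum_nonneg fun _ _ => by positivity) (by positivity)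
      (by norm_num)).mp h5)
  refine key.trans ?_
  rw [X_rpow_cX hX]
  have h6 : Real.log X + 1 ≤ Real.log X + 2 := by linarith
  have hlam0 : 0 < lam := by linarith
  calc Real.exp 1 * X * lam * ((Real.log X + 1) * (2 * Real.exp 1 ^ 2 * (Real.log X + 2) ^ 3))
      ≤ Real.exp 1 * X * lam * ((Real.log X + 2) * (2 * Real.exp 1 ^ 2 * (Real.log X + 2) ^ 3)) := by
        gcongr
    _ = lam * (2 * Real.exp 1 ^ 3 * X * (Real.log X + 2) ^ 4) := by ring

end Pool.Agent.BVall
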